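import Pool.Graph.R_pool_sql_team_seeded_3dad9d7b.NH57.BL.Gal
import Pool.Graph.R_seed8.R426.QD.Tr

/-!
# Project Q7: quadratic reciprocity in `ℤ[ω]`

`Pool/Graph/R_seed8/R426/QD/{Pn,Rec,Tr}.lean` and `Pool/Graph/R_seed8/R426/QC/{Rec,Rec2,Pd}.lean` have the
quadratic reciprocity law and the supplementary laws of `ℚ(√-7)` for the ring of integers as a subring `RR`
of the complex numbers; they are transported to `OO = ℤ[ω]` by the ring isomorphism `ω ↦ (1 + √-7) / 2`.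
-/

set_option autoImplicit false

open scoped Classical

namespace Pool.Agent.H519.Q7.Rec0

open Pool.Agent.R384
open Pool.Agent.NH57.BK (Pp tO h2)
open Pool.Agent.NH57.BG (e6 e3)
open Pool.Agent.Y698 (RR aR aR_sq cX cY cXY_of co RR_ext aR_coe nR fR isUnit_iff)
open Pool.Agent.Y698.SG (sy lg lg_one lg_neg_one)
open Pool.Agent.R426.QD (Pn P3 tp et recG)

/-- the homomorphism `ω ↦ (1 + √-7) / 2` -/
noncomputable def Pf : OO →+* RR := em aR_sq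

lemma cXY_Pf (z : OO) : cX (Pf z) = z.re ∧ cY (Pf z) = z.im := by
  apply cXY_of
  show (((z.re : RR) + (z.im : RR) * aR : RR) : ℂ) = _
  push_cast
  rw [aR_coe]

lemma Pf_bij : Function.Bijective Pf := by
  constructor
  · intro z t h
    ext
    · rw [← (cXY_Pf z).1, h, (cXY_Pf t).1]
    · rw [← (cXY_Pf z).2, h, (cXY_Pf t).2]
  · intro r
    refine ⟨⟨cX r, cY r⟩, RR_ext ?_ ?_⟩
    · rw [(cXY_Pf _).1]
    · rw [(cXY_Pf _).2]

/-- the isomorphism `ω ↦ (1 + √-7) / 2` -/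
noncomputable def Ph : OO ≃+* RR := RingEquiv.ofBijective Pf Pf_bij

lemma cXY_Ph (z : OO) : cX (Ph z) = z.re ∧ cY (Ph z) = z.im := cXY_Pf z

lemma Ph_om : Ph om = aR := by
  apply RR_ext
  · rw [(cXY_Ph _).1, Pool.Agent.Y698.cXY_aR.1]; rfl
  · rw [(cXY_Ph _).2, Pool.Agent.Y698.cXY_aR.2]; rfl

lemma Ph_s7 : Ph s7 = fR := by
  apply RR_ext
  · rw [(cXY_Ph _).1, Pool.Agent.Y698.cXY_fR.1]; rfl
  · rw [(cXY_Ph _).2, Pool.Agent.Y698.cXY_fR.2]; rfl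

lemma nR_Ph (z : OO) : nR (Ph z) = nn z := by
  unfold nR nn
  rw [(cXY_Ph z).1, (cXY_Ph z).2]

lemma dvd_iff (x y : OO) : Ph x ∣ Ph y ↔ x ∣ y := map_dvd_iff Ph

lemma mem_iff (q x : OO) : Ph x ∈ Pool.Agent.W192.HK.sp (Ph q) ↔ q ∣ x := by
  rw [Ideal.mem_span_singleton, dvd_iff]

lemma prime_iff (q : OO) : Prime (Ph q) ↔ Prime q := MulEquiv.prime_iff Ph

lemma sq_iff (q x : OO) : IsSquare (Ideal.Quotient.mk (Pool.Agent.W192.HK.sp (Ph q)) (Ph x)) ↔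
    Sqm q x := by
  constructor
  · rintro ⟨y, hy⟩
    obtain ⟨z, rfl⟩ := Ideal.Quotient.mk_surjective y
    obtain ⟨w, rfl⟩ := Ph.surjective z
    refine ⟨w, ?_⟩
    rw [← mem_iff, map_sub, map_pow, ← Ideal.Quotient.eq_zero_iff_mem, map_sub, hy, map_pow,
      pow_two, sub_self]
  · rintro ⟨w, hw⟩
    refine ⟨Ideal.Quotient.mk _ (Ph w), ?_⟩
    rw [← mem_iff, map_sub, map_pow, ← Ideal.Quotient.eq_zero_iff_mem, map_sub, map_pow,
      sub_eq_zero] at hw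
    rw [hw, pow_two]

lemma qs_lg {q x : OO} (h : ¬ q ∣ x) : qs q x = lg (sy (Ph q) (Ph x)) := by
  unfold qs sy
  rw [if_neg (mt (mem_iff q x).1 h)]
  by_cases h1 : Sqm q x
  · rw [if_pos h1, if_pos ((sq_iff q x).2 h1), lg_one]
  · rw [if_neg h1, if_neg (mt (sq_iff q x).1 h1), lg_neg_one]

/-! ### the coordinates of the primary primes -/

lemma Pp_im {q : OO} (h : Pp q) : q.im % 2 = 0 := by
  by_contra hc
  have h1 : q.im % 2 = 1 := by omega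
  have h4 : ((q.re + 2 * q.im - 1 : ℤ) : ZMod 4) = 0 := by
    have h5 : ((q.re : ZMod 4) + (q.im : ZMod 4) * 2) = 1 := h.one
    push_cast
    linear_combination h5
  rw [ZMod.intCast_zmod_eq_zero_iff_dvd] at h4
  have h6 : (q.re + q.im) % 2 = 0 := by omega
  obtain ⟨c, hc⟩ : ∃ c, q.re + q.im = 2 * c := ⟨(q.re + q.im) / 2, by omega⟩
  apply h.odd
  have e2 : ((c : ℤ) : OO) * 2 = ((q.re + q.im : ℤ) : OO) := by
    rw [hc]
    push_cast
    ring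
  have h7 : q = ((c : ℤ) : OO) * (om * (1 - om)) - ((q.im : ℤ) : OO) * (1 - om) := by
    rw [om_mul, e2]
    ext
    · simp [om, QuadraticAlgebra.re_one]
    · simp [om, QuadraticAlgebra.im_one]
  rw [h7, ← mul_assoc, ← sub_mul]
  exact Dvd.intro_left _ rfl

lemma Pp_re {q : OO} (h : Pp q) : q.re % 4 = 1 := by
  have h1 := Pp_im h
  have h4 : ((q.re + 2 * q.im - 1 : ℤ) : ZMod 4) = 0 := by
    have h5 : ((q.re : ZMod 4) + (q.im : ZMod 4) * 2) = 1 := h.one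
    push_cast
    linear_combination h5
  rw [ZMod.intCast_zmod_eq_zero_iff_dvd] at h4
  omega

lemma Pp_nn {q : OO} (h : Pp q) : nn q % 4 = if q.im % 4 = 0 then 1 else 3 := by
  have h1 := Pp_im h
  have h2 := Pp_re h
  obtain ⟨b, hb⟩ : ∃ b, q.im = 2 * b := ⟨q.im / 2, by omega⟩
  obtain ⟨a, ha⟩ : ∃ a, q.re = 4 * a + 1 := ⟨q.re / 4, by omega⟩
  have e : nn q = 4 * (4 * a ^ 2 + 2 * a + 2 * a * b + 2 * b ^ 2) + 1 + 2 * b := by
    unfold nn
    rw [ha, hb]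
    ring
  rw [e]
  split_ifs <;> omega

lemma Pp_ndvd2 {q : OO} (h : Pp q) : ¬ q ∣ 2 := by
  rintro ⟨t, ht⟩
  have h1 : nn q * nn t = 4 := by
    rw [← nn_mul, ← ht]
    have := nn_int 2
    push_cast at this
    rw [this]
  have h2 := Pp_nn h
  have h3 := nn_nonneg q
  have h4 := nn_nonneg t
  have h5 : nn q % 2 = 1 := by
    split_ifs at h2 <;> omega
  have h6 : nn q ≤ 4 := by
    have : 0 < nn t := by
      rcases h4.lt_or_eq with h | h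
      · exact h
      · rw [← h, mul_zero] at h1
        norm_num at h1
    nlinarith
  have h7 : nn q ≠ 1 := fun h7 => h.prime.not_isUnit (unit_iff.2 h7)
  have h8 : nn q = 3 := by omega
  rw [h8] at h1
  omega

lemma Pp_Pn {q : OO} (h : Pp q) : Pn (Ph q) := by
  refine ⟨(prime_iff q).2 h.prime, ?_, ?_⟩
  · intro h1
    apply Pp_ndvd2 h
    rw [← dvd_iff, map_ofNat]
    exact h1
  · have h5 : ((q.re : ZMod 4) + (q.im : ZMod 4) * 2) = 1 := h.one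
    rw [Pool.Agent.R426.QD.r4_eq, (cXY_Ph q).1, (cXY_Ph q).2]
    push_cast
    linear_combination h5

lemma tp_eq {q : OO} (h : Pp q) : tp (Ph q) = tO q := by
  unfold tO
  rcases (Pp_Pn h).cases with h1 | ⟨p, A, B, h1, -⟩
  · rw [Pool.Agent.R426.QD.tp_pm h1, if_neg]
    obtain ⟨x, y, hx, hy⟩ := Pool.Agent.R426.QC.coord4 h1.m4
    rw [(cXY_Ph q).2] at hy
    rw [Pp_nn h, if_pos (by omega)]
    norm_num
  · rw [h1.tp, if_pos]
    rw [← nR_Ph, h1.nR]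
    have := h1.m4
    omega

lemma et_eq {q : OO} (h : Pp q) : et (Ph q) = tO q := by
  rw [← tp_eq h]
  rcases (Pp_Pn h).cases with h1 | ⟨p, A, B, h1, h2⟩
  · rw [Pool.Agent.R426.QD.tp_pm h1, Pool.Agent.R426.QD.et_m4 h1.m4]
  · rw [h1.tp, Pool.Agent.R426.QD.et_p3 h1, if_pos h2]

lemma Pp_ndvd {π ρ : OO} (h : Pp π) (h' : Pp ρ) (hne : π ≠ ρ) : ¬ π ∣ ρ := by
  intro hd
  obtain ⟨u, hu⟩ := (h.prime.dvd_prime_iff_associated h'.prime).1 hd
  rcases unit_cases u.isUnit with h3 | h3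
  · rw [h3, mul_one] at hu
    exact hne hu
  · rw [h3] at hu
    have h4 := congrArg (em h2) hu
    rw [map_mul, map_neg, map_one, h.one, h'.one] at h4
    revert h4
    decide

lemma prime_s7 : Prime s7 := by
  rw [← prime_iff, Ph_s7]
  exact Pool.Agent.R426.QC.prime_fR

lemma Pp_ndvd7 {q : OO} (h : Pp q) : ¬ q ∣ s7 := by
  intro hd
  exact h.sev ((h.prime.dvd_prime_iff_associated prime_s7).1 hd).symm.dvd

lemma Pp_ndvd1 {q : OO} (h : Pp q) : ¬ q ∣ -1 := by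
  intro hd
  exact h.prime.not_isUnit (isUnit_of_dvd_unit hd isUnit_one.neg)

lemma z2 : ∀ x : ZMod 2, x + x = 0 := by decide

theorem rec1 (π ρ : OO) (h : Pp π) (h' : Pp ρ) (hne : π ≠ ρ) :
    qs π ρ + qs ρ π = tO π * tO ρ := by
  have a1 := Pp_ndvd h h' hne
  have a2 := Pp_ndvd h' h hne.symm
  rw [qs_lg a1, qs_lg a2]
  have h1 := recG (Pp_Pn h) ((prime_iff ρ).2 h'.prime) (Pp_Pn h').od (mt (mem_iff ρ π).1 a2)
    (mt (mem_iff π ρ).1 a1)
  rw [h1, tp_eq h, et_eq h']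
  linear_combination z2 (lg (sy (Ph ρ) (Ph π)))

theorem rec2 (π : OO) (h : Pp π) : qs π s7 = qs s7 π ∧ qs π (-1) = tO π := by
  constructor
  · rw [qs_lg (Pp_ndvd7 h), qs_lg h.sev, Ph_s7, Pool.Agent.R426.QD.sy_fR]
    apply (Pp_Pn h).seven
    · rw [← Ph_s7]
      exact mt (mem_iff _ _).1 h.sev
    · rw [← Ph_s7]
      exact mt (mem_iff _ _).1 (Pp_ndvd7 h)
  · rw [qs_lg (Pp_ndvd1 h), map_neg, map_one, ← tp_eq h]
    rfl

/-- the sign of the supplementary laws -/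
lemma lg_chi {q : OO} (z : ZMod 8) (x : OO) (h : Pp q) (hx : ¬ q ∣ x)
    (he : sy (Ph q) (Ph x) = ((ZMod.χ₈ z : ℤ) : ℂ)) :
    qs q (-x) = tO q + lg ((ZMod.χ₈ z : ℤ) : ℂ) := by
  have hx' : ¬ q ∣ -x := fun h1 => hx ((dvd_neg).1 h1)
  rw [qs_lg hx', map_neg, Pool.Agent.R426.QD.lg_neg' (Pp_Pn h).pr (Pp_Pn h).od
    (mt (mem_iff q x).1 hx), tp_eq h, he]

lemma tO_eq {q : OO} (h : Pp q) : tO q = if q.im % 4 = 0 then 0 else 1 := by
  unfold tO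
  rw [Pp_nn h]
  split_ifs with h1 h2 <;> first | rfl | (exfalso; omega)

lemma ndvd_om {q : OO} (h : Pp q) : ¬ q ∣ om := fun h1 => Pp_ndvd2 h (by
  rw [← om_mul]
  exact h1.mul_right _)

lemma ndvd_om' {q : OO} (h : Pp q) : ¬ q ∣ 1 - om := fun h1 => Pp_ndvd2 h (by
  rw [← om_mul]
  exact h1.mul_left _)

lemma cj_aR : Pool.Agent.Y698.cj aR = 1 - aR := Pool.Agent.Y698.ev_aR _ _

theorem sup (q : OO) (h : Pp q) :
    ((em e6 q = 1 ∧ qs q (-om) = 0) ∨ (em e6 q = 5 ∧ qs q (-om) = 1)) ∧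
    (((em e3 q = 1 ∨ em e3 q = 7) ∧ qs q (-(1 - om)) = 0) ∨
      ((em e3 q = 3 ∨ em e3 q = 5) ∧ qs q (-(1 - om)) = 1)) := by
  have s1 := lg_chi ((q.re : ℤ) : ZMod 8) om h (ndvd_om h) (by
    rw [Ph_om, Pool.Agent.R426.QD.sy_aO (Pp_Pn h).pr (Pp_Pn h).od, (cXY_Ph q).1])
  have s2 := lg_chi ((q.re + q.im : ℤ) : ZMod 8) (1 - om) h (ndvd_om' h) (by
    rw [map_sub, map_one, Ph_om, ← cj_aR, Pool.Agent.R426.QD.sy_bO (Pp_Pn h).pr (Pp_Pn h).od,
      (Pool.Agent.Y279.SG.cXY_cj _).1, (cXY_Ph q).1, (cXY_Ph q).2])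
  rw [s1, s2, tO_eq h]
  have t6 : em e6 q = ((q.re : ℤ) : ZMod 8) + ((q.im : ℤ) : ZMod 8) * 6 := rfl
  have t3 : em e3 q = ((q.re : ℤ) : ZMod 8) + ((q.im : ℤ) : ZMod 8) * 3 := rfl
  rw [t6, t3, Int.cast_add]
  have hre := Pp_re h
  have him := Pp_im h
  have key : ∀ (n r : ℤ), n % 8 = r → ((n : ℤ) : ZMod 8) = ((r : ℤ) : ZMod 8) := by
    intro n r hr
    rw [← sub_eq_zero, ← Int.cast_sub, ZMod.intCast_zmod_eq_zero_iff_dvd]
    omega
  have c1 : ZMod.χ₈ 1 = 1 := by decide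
  have c3 : ZMod.χ₈ 3 = -1 := by decide
  have c5 : ZMod.χ₈ 5 = -1 := by decide
  have c7 : ZMod.χ₈ 7 = 1 := by decide
  have l1 : lg (((1 : ℤ) : ℤ) : ℂ) = 0 := by rw [Int.cast_one, lg_one]
  have l2 : lg (((-1 : ℤ) : ℤ) : ℂ) = 1 := by rw [Int.cast_neg, Int.cast_one, lg_neg_one]
  have hre8 : q.re % 8 = 1 ∨ q.re % 8 = 5 := by omega
  have him8 : q.im % 8 = 0 ∨ q.im % 8 = 2 ∨ q.im % 8 = 4 ∨ q.im % 8 = 6 := by omega
  rcases hre8 with h1 | h1 <;> rcases him8 with h2 | h2 | h2 | h2 <;>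
    rw [key _ _ h1, key _ _ h2]
  · rw [if_pos (by omega)]
    have e : (((1 : ℤ) : ZMod 8) + ((0 : ℤ) : ZMod 8)) = 1 := by decide
    have e' : ((1 : ℤ) : ZMod 8) = 1 := by decide
    rw [e, e', c1, l1]
    exact ⟨Or.inl ⟨by decide, by decide⟩, Or.inl ⟨by decide, by decide⟩⟩
  · rw [if_neg (by omega)]
    have e : (((1 : ℤ) : ZMod 8) + ((2 : ℤ) : ZMod 8)) = 3 := by decide
    have e' : ((1 : ℤ) : ZMod 8) = 1 := by decide
    rw [e, e', c1, c3, l1, l2]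
    exact ⟨Or.inr ⟨by decide, by decide⟩, Or.inl ⟨by decide, by decide⟩⟩
  · rw [if_pos (by omega)]
    have e : (((1 : ℤ) : ZMod 8) + ((4 : ℤ) : ZMod 8)) = 5 := by decide
    have e' : ((1 : ℤ) : ZMod 8) = 1 := by decide
    rw [e, e', c1, c5, l1, l2]
    exact ⟨Or.inl ⟨by decide, by decide⟩, Or.inr ⟨by decide, by decide⟩⟩
  · rw [if_neg (by omega)]
    have e : (((1 : ℤ) : ZMod 8) + ((6 : ℤ) : ZMod 8)) = 7 := by decide
    have e' : ((1 : ℤ) : ZMod 8) = 1 := by decide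
    rw [e, e', c1, c7, l1]
    exact ⟨Or.inr ⟨by decide, by decide⟩, Or.inr ⟨by decide, by decide⟩⟩
  · rw [if_pos (by omega)]
    have e : (((5 : ℤ) : ZMod 8) + ((0 : ℤ) : ZMod 8)) = 5 := by decide
    have e' : ((5 : ℤ) : ZMod 8) = 5 := by decide
    rw [e, e', c5, l2]
    exact ⟨Or.inr ⟨by decide, by decide⟩, Or.inr ⟨by decide, by decide⟩⟩
  · rw [if_neg (by omega)]
    have e : (((5 : ℤ) : ZMod 8) + ((2 : ℤ) : ZMod 8)) = 7 := by decide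
    have e' : ((5 : ℤ) : ZMod 8) = 5 := by decide
    rw [e, e', c5, c7, l1, l2]
    exact ⟨Or.inl ⟨by decide, by decide⟩, Or.inr ⟨by decide, by decide⟩⟩
  · rw [if_pos (by omega)]
    have e : (((5 : ℤ) : ZMod 8) + ((4 : ℤ) : ZMod 8)) = 1 := by decide
    have e' : ((5 : ℤ) : ZMod 8) = 5 := by decide
    rw [e, e', c5, c1, l1, l2]
    exact ⟨Or.inr ⟨by decide, by decide⟩, Or.inl ⟨by decide, by decide⟩⟩
  · rw [if_neg (by omega)]
    have e : (((5 : ℤ) : ZMod 8) + ((6 : ℤ) : ZMod 8)) = 3 := by decide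
    have e' : ((5 : ℤ) : ZMod 8) = 5 := by decide
    rw [e, e', c5, c3, l2]
    exact ⟨Or.inl ⟨by decide, by decide⟩, Or.inl ⟨by decide, by decide⟩⟩

end Pool.Agent.H519.Q7.Rec0

namespace Pool.Agent.H519.Q7

/-- the reciprocity law and `(-1 / π)`, `(√-7 / π)` in the form of project BK -/
theorem rec_BK : Pool.Agent.NH57.BK.S_REC := ⟨Rec0.rec1, Rec0.rec2⟩

/-- the supplementary laws `(-ω / π)`, `(-(1 - ω) / π)` in the form of project BL -/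
theorem sup_BG : Pool.Agent.NH57.BG.S_SUPO := Rec0.sup

end Pool.Agent.H519.Q7
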