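import Pool.Agent.H519.Q7.Alg1

/-!
# Project Q7: squarefree elements, Jacobi symbols (task Q7-ALG2, by helper215)

After `Pool/Graph/R_seed8/Y699/{Pd,Jsum}.lean` and `Pool/Graph/R_seed8/Y699/E/{Pd,Sym,Jsum}.lean`. The lemmas of
`Alg1.lean` are used.
-/

set_option autoImplicit false

open scoped Classical

namespace Pool.Agent.H519.Q7

open Finset

/-! ### Squarefree elements -/

lemma PS.ne {n : ZI} (h : PS n) : n ≠ 0 := prim_ne_zero h.prm

lemma PS_one : PS (1 : ZI) := ⟨prim_one, squarefree_one⟩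

lemma PS.prod {n : ZI} (h : PS n) : ∏ π ∈ PD n, π = n := by
  have hn := h.ne
  have h1 : (∏ π ∈ PD n, π) ∣ n := by
    refine Finset.prod_dvd_of_coprime ?_ ?_
    · intro π hπ ρ hρ hne
      exact ((mem_PD hn).1 hπ).1.cop ((mem_PD hn).1 hρ).1 hne
    · intro π hπ
      exact ((mem_PD hn).1 hπ).2
  obtain ⟨u, hu⟩ := h1
  have hP : Q7.prim (∏ π ∈ PD n, π) := prim_prod fun π hπ => ((mem_PD hn).1 hπ).1.prm
  have hup : Q7.prim u := prim_cancel hP (by rw [← hu]; exact h.prm)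
  have huu : IsUnit u := by
    by_contra hnu
    obtain ⟨ρ, hρ, hρu⟩ := WfDvdMonoid.exists_irreducible_factor hnu (prim_ne_zero hup)
    have hρ' : Prime ρ := irreducible_iff_prime.1 hρ
    have h2 : ρ ∣ n := by rw [hu]; exact hρu.mul_left _
    obtain ⟨π, hπ, hass⟩ := exists_PP hρ' (not_dvd_mo hρ' h2 h.prm)
    have h3 : π ∈ PD n := (mem_PD hn).2 ⟨hπ, hass.dvd.trans h2⟩
    have h4 : π * π ∣ n := by
      rw [hu]
      exact mul_dvd_mul (Finset.dvd_prod_of_mem _ h3) (hass.dvd.trans hρu)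
    exact hπ.pr.not_isUnit (h.sqf _ h4)
  rw [eq_one_of_prim hup huu, mul_one] at hu
  exact hu.symm

lemma PS.of_dvd {d D : ZI} (h : PS D) (hd : prim d) (hdD : d ∣ D) : PS d :=
  ⟨hd, h.sqf.squarefree_of_dvd hdD⟩

lemma PS_prod {S : Finset ZI} (hS : ∀ π ∈ S, PP π) : PS (∏ π ∈ S, π) ∧ PD (∏ π ∈ S, π) = S := by
  set n := ∏ π ∈ S, π with hn
  have hP : prim n := prim_prod fun π hπ => (hS π hπ).prm
  have hn0 : n ≠ 0 := prim_ne_zero hP
  have hmem : ∀ ρ : ZI, Prime ρ → ρ ∣ n → ∃ π ∈ S, Associated ρ π := by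
    intro ρ hρ h
    rw [hn] at h
    obtain ⟨π, hπ, h2⟩ := (hρ.dvd_finsetProd_iff _).1 h
    exact ⟨π, hπ, (hρ.irreducible).associated_of_dvd (hS π hπ).pr.irreducible h2⟩
  have hPD : PD n = S := by
    ext π
    rw [mem_PD hn0]
    constructor
    · rintro ⟨h1, h2⟩
      obtain ⟨ρ, hρ, hass⟩ := hmem π h1.pr h2
      rw [h1.eq_of_dvd (hS ρ hρ) hass.dvd]
      exact hρ
    · intro h
      exact ⟨hS π h, Finset.dvd_prod_of_mem _ h⟩
  refine ⟨⟨hP, ?_⟩, hPD⟩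
  intro x hx
  by_contra hnu
  have hx0 : x ≠ 0 := by
    rintro rfl
    rw [zero_mul, zero_dvd_iff] at hx
    exact hn0 hx
  obtain ⟨ρ, hρ, hρx⟩ := WfDvdMonoid.exists_irreducible_factor hnu hx0
  have hρ' : Prime ρ := irreducible_iff_prime.1 hρ
  have h1 : ρ * ρ ∣ n := (mul_dvd_mul hρx hρx).trans hx
  obtain ⟨π, hπ, hass⟩ := hmem ρ hρ' ((dvd_mul_right _ _).trans h1)
  have h2 : π * π ∣ π * ∏ σ ∈ S.erase π, σ := by
    rw [Finset.mul_prod_erase S (fun σ => σ) hπ]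
    exact (mul_dvd_mul hass.symm.dvd hass.symm.dvd).trans h1
  have h3 := (mul_dvd_mul_iff_left (hS π hπ).pr.ne_zero).1 h2
  obtain ⟨σ, hσ, h4⟩ := ((hS π hπ).pr.dvd_finsetProd_iff _).1 h3
  have h5 := (hS π hπ).eq_of_dvd (hS σ (Finset.mem_of_mem_erase hσ)) h4
  exact (Finset.mem_erase.1 hσ).1 h5.symm

lemma PD_subset {d D : ZI} (hD : D ≠ 0) (h : d ∣ D) : PD d ⊆ PD D := by
  intro π hπ
  have hd : d ≠ 0 := by
    rintro rfl
    exact hD (zero_dvd_iff.1 h)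
  rw [mem_PD hd] at hπ
  exact (mem_PD hD).2 ⟨hπ.1, hπ.2.trans h⟩

lemma PD_one : PD (1 : ZI) = ∅ := by
  rw [Finset.eq_empty_iff_forall_notMem]
  intro π hπ
  rw [mem_PD one_ne_zero] at hπ
  exact hπ.1.pr.not_isUnit (isUnit_of_dvd_one hπ.2)

lemma PD_mul {a b : ZI} (ha : a ≠ 0) (hb : b ≠ 0) : PD (a * b) = PD a ∪ PD b := by
  ext π
  rw [Finset.mem_union, mem_PD (mul_ne_zero ha hb), mem_PD ha, mem_PD hb]
  constructor
  · rintro ⟨h1, h2⟩
    rcases h1.pr.dvd_or_dvd h2 with h | h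
    · exact Or.inl ⟨h1, h⟩
    · exact Or.inr ⟨h1, h⟩
  · rintro (⟨h1, h2⟩ | ⟨h1, h2⟩)
    · exact ⟨h1, h2.mul_right _⟩
    · exact ⟨h1, h2.mul_left _⟩

lemma PD_disj {a b : ZI} (ha : a ≠ 0) (hb : b ≠ 0) (h : IsCoprime a b) : Disjoint (PD a) (PD b) := by
  rw [Finset.disjoint_left]
  intro π h1 h2
  rw [mem_PD ha] at h1
  rw [mem_PD hb] at h2
  exact h1.1.pr.not_isUnit (h.isUnit_of_dvd' h1.2 h2.2)

lemma PD_prime {π : ZI} (h : PP π) : PD π = {π} := by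
  ext ρ
  rw [mem_PD h.ne, Finset.mem_singleton]
  constructor
  · rintro ⟨h1, h2⟩
    exact h1.eq_of_dvd h h2
  · rintro rfl
    exact ⟨h, dvd_rfl⟩

lemma PS.mul_iff {a b : ZI} (ha : prim a) (hb : prim b) : PS (a * b) ↔ PS a ∧ PS b ∧ IsCoprime a b := by
  constructor
  · intro h
    refine ⟨h.of_dvd ha (dvd_mul_right _ _), h.of_dvd hb (dvd_mul_left _ _), ?_⟩
    exact (isRelPrime_iff_isCoprime.1 (squarefree_mul_iff.1 h.sqf).1)
  · rintro ⟨h1, h2, h3⟩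
    exact ⟨prim_mul ha hb, squarefree_mul_iff.2 ⟨isRelPrime_iff_isCoprime.2 h3, h1.sqf, h2.sqf⟩⟩

/-- a product of primary primes dividing `n` divides `n` -/
theorem dvd_of_PD {n : ZI} {S : Finset ZI} (h : ∀ π ∈ S, PP π ∧ π ∣ n) : (∏ π ∈ S, π) ∣ n :=
  Finset.prod_dvd_of_coprime (fun π hπ ρ hρ hne => (h π hπ).1.cop (h ρ hρ).1 hne)
    (fun π hπ => (h π hπ).2)

/-! ### The Jacobi symbol -/

lemma jac_one_left (a : ZI) : jac 1 a = 1 := by unfold jac; rw [PD_one]; simp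

lemma jac_prime {π : ZI} (h : PP π) (a : ZI) : jac π a = qr π a := by
  unfold jac; rw [PD_prime h]; simp

lemma jac_mul_right {n : ZI} (hn : n ≠ 0) (a b : ZI) : jac n (a * b) = jac n a * jac n b := by
  unfold jac
  rw [← Finset.prod_mul_distrib]
  exact Finset.prod_congr rfl fun π hπ => qr_mul ((mem_PD hn).1 hπ).1 _ _

lemma jac_one_right {n : ZI} (hn : n ≠ 0) : jac n 1 = 1 := by
  unfold jac
  exact Finset.prod_eq_one fun π hπ => qr_one ((mem_PD hn).1 hπ).1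

lemma jac_mul_left {m n : ZI} (hm : m ≠ 0) (hn : n ≠ 0) (h : IsCoprime m n) (a : ZI) :
    jac (m * n) a = jac m a * jac n a := by
  unfold jac
  rw [PD_mul hm hn, Finset.prod_union (PD_disj hm hn h)]

lemma jac_prod {n : ZI} (hn : n ≠ 0) {κ : Type*} (s : Finset κ) (f : κ → ZI) :
    jac n (∏ i ∈ s, f i) = ∏ i ∈ s, jac n (f i) := by
  classical
  induction s using Finset.induction_on with
  | empty => rw [Finset.prod_empty, Finset.prod_empty, jac_one_right hn]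
  | insert a s ha ih => rw [Finset.prod_insert ha, Finset.prod_insert ha, jac_mul_right hn, ih]

lemma jac_per {n a b : ZI} (hn : n ≠ 0) (h : n ∣ a - b) : jac n a = jac n b :=
  Finset.prod_congr rfl fun _ hπ => qr_per (((mem_PD hn).1 hπ).2.trans h)

lemma jac_cases (n a : ZI) : jac n a = 0 ∨ jac n a = 1 ∨ jac n a = -1 := by
  unfold jac
  refine Finset.prod_induction _ (fun x => x = 0 ∨ x = 1 ∨ x = -1) ?_ (by norm_num) ?_
  · rintro a b (h | h | h) (h' | h' | h') <;> rw [h, h'] <;> norm_num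
  · intro π _
    by_cases h : π ∣ a
    · exact Or.inl (qr_zero_iff.2 h)
    · exact Or.inr (qr_cases h)

lemma jac_abs (n a : ZI) : |(jac n a : ℝ)| ≤ 1 := by
  rcases jac_cases n a with h | h | h <;> rw [h] <;> norm_num

lemma jac_ne_zero {n a : ZI} (hn : PS n) (h : IsCoprime n a) : jac n a ≠ 0 := by
  unfold jac
  rw [Finset.prod_ne_zero_iff]
  intro π hπ h0
  have h1 := (mem_PD hn.ne).1 hπ
  exact h1.1.pr.not_isUnit (h.isUnit_of_dvd' h1.2 (qr_zero_iff.1 h0))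

lemma jac_eq_zero {n a : ZI} (hn : n ≠ 0) {π : ZI} (hπ : PP π) (h1 : π ∣ n) (h2 : π ∣ a) :
    jac n a = 0 := Finset.prod_eq_zero ((mem_PD hn).2 ⟨hπ, h1⟩) (qr_zero_iff.2 h2)

/-- an element for every label -/
lemma exists_lab (x : Lb) : ∃ c : ZI, prim c ∧ fc c = x := by
  have key : ∀ x : Lb, ∃ p ∈ ([(-3, -4), (5, -2), (5, 0), (-3, -6), (-3, 4), (-3, -2), (-3, 0),
      (-3, 2), (1, 2), (1, -4), (-7, -2), (-7, 4), (1, 0), (1, -6), (1, 6), (1, 8)] : List (ℤ × ℤ)),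
      (c6 ⟨p.1, p.2⟩ % 4 = 1 ∧ c3 ⟨p.1, p.2⟩ % 2 = 1 ∧ c7 ⟨p.1, p.2⟩ % 7 ≠ 0) ∧
        fc ⟨p.1, p.2⟩ = x := by
    unfold fc tO dO gO eO c6 c3 c7
    decide
  obtain ⟨p, -, ⟨h1, h2, h3⟩, h4⟩ := key x
  exact ⟨⟨p.1, p.2⟩, ⟨h1, h2, h3⟩, h4⟩

/-- Chinese remainder theorem -/
lemma crt2 {u v : ZI} (h : IsCoprime u v) (α β : ZI) : ∃ a : ZI, u ∣ a - α ∧ v ∣ a - β := by
  obtain ⟨x, y, hxy⟩ := h
  exact ⟨α * (y * v) + β * (x * u), ⟨(β - α) * x, by linear_combination α * hxy⟩,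
    ⟨(α - β) * y, by linear_combination β * hxy⟩⟩

lemma mo_dvd : mo ∣ 8 * s7 := ⟨2, by unfold mo; ring⟩

lemma PP.cop8 {π : ZI} (h : PP π) : IsCoprime (8 * s7) π := (prim_cop8 h.prm).symm

lemma cop8_prod {S : Finset ZI} (hS : ∀ ρ ∈ S, PP ρ) : IsCoprime (8 * s7) (∏ ρ ∈ S, ρ) :=
  IsCoprime.prod_right fun ρ hρ => (hS ρ hρ).cop8

/-- a primary element with given label, a square modulo all primes of `S` -/
lemma exists_twist0 {S : Finset ZI} (hS : ∀ ρ ∈ S, PP ρ) (x : Lb) :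
    ∃ c : ZI, prim c ∧ fc c = x ∧ (∀ ρ ∈ S, qr ρ c = 1) := by
  obtain ⟨e, he1, he2⟩ := exists_lab x
  obtain ⟨a, h1, h2⟩ := crt2 (cop8_prod hS) e 1
  refine ⟨a, prim_per ?_ he1, by rw [fc_per h1, he2], fun ρ hρ => ?_⟩
  · rw [← neg_sub, dvd_neg]
    exact mo_dvd.trans h1
  · rw [qr_per ((Finset.dvd_prod_of_mem _ hρ).trans h2), qr_one (hS ρ hρ)]

/-- a primary element with given label, not a square modulo `π`, and a square modulo all primes of `S` -/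
lemma exists_twist {S : Finset ZI} (hS : ∀ ρ ∈ S, PP ρ) {π : ZI} (hπ : PP π) (hπS : π ∉ S) (x : Lb) :
    ∃ c : ZI, prim c ∧ fc c = x ∧ qr π c = -1 ∧ (∀ ρ ∈ S, qr ρ c = 1) := by
  obtain ⟨e, he1, he2⟩ := exists_lab x
  obtain ⟨b, hb⟩ := exists_nonres hπ
  have hc : IsCoprime π (∏ ρ ∈ S, ρ) := IsCoprime.prod_right fun ρ hρ =>
    hπ.cop (hS ρ hρ) fun h => hπS (by rw [h]; exact hρ)
  obtain ⟨a₀, h3, h4⟩ := crt2 hc b 1
  obtain ⟨a, h1, h2⟩ := crt2 (IsCoprime.mul_right hπ.cop8 (cop8_prod hS)) e a₀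
  refine ⟨a, prim_per ?_ he1, by rw [fc_per h1, he2], ?_, fun ρ hρ => ?_⟩
  · rw [← neg_sub, dvd_neg]
    exact mo_dvd.trans h1
  · rw [qr_per ((dvd_mul_right _ _).trans h2), qr_per h3, hb]
  · rw [qr_per (((Finset.dvd_prod_of_mem _ hρ).trans (dvd_mul_left _ _)).trans h2),
      qr_per ((Finset.dvd_prod_of_mem _ hρ).trans h4), qr_one (hS ρ hρ)]

/-! ### The additive symbol -/

lemma s_self (π : ZI) : s π π = 0 := by
  unfold s
  rw [qr_zero_iff.2 dvd_rfl, if_neg (by norm_num)]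

lemma s_one_iff (π ρ : ZI) : s π ρ = 1 ↔ qr π ρ = -1 := by
  unfold s
  split_ifs with h
  · exact ⟨fun _ => h, fun _ => rfl⟩
  · exact ⟨fun h' => absurd h' (by decide), fun h' => absurd h' h⟩

lemma s_zero_iff {π ρ : ZI} (h : ¬ π ∣ ρ) : s π ρ = 0 ↔ qr π ρ = 1 := by
  unfold s
  rcases qr_cases h with h1 | h1
  · rw [h1, if_neg (by norm_num)]
    exact ⟨fun _ => rfl, fun _ => rfl⟩
  · rw [h1, if_pos rfl]
    exact ⟨fun h' => absurd h' (by decide), fun h' => absurd h' (by norm_num)⟩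

lemma sg_s {π ρ : ZI} (h : ¬ π ∣ ρ) : sg (s π ρ) = qr π ρ := by
  unfold s
  rcases qr_cases h with h1 | h1
  · rw [h1, if_neg (by norm_num), sg_zero]
    norm_num
  · rw [h1, if_pos rfl, sg_one]
    norm_num

lemma s_mul {π : ZI} (hπ : PP π) {a b : ZI} (ha : ¬ π ∣ a) (hb : ¬ π ∣ b) :
    s π (a * b) = s π a + s π b := by
  unfold s
  rw [qr_mul hπ]
  rcases qr_cases ha with h1 | h1 <;> rcases qr_cases hb with h2 | h2 <;> rw [h1, h2]
  · rw [if_neg (by norm_num), if_neg (by norm_num), add_zero]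
  · rw [if_pos (by norm_num), if_neg (by norm_num), if_pos rfl, zero_add]
  · rw [if_pos (by norm_num), if_pos rfl, if_neg (by norm_num), add_zero]
  · rw [if_neg (by norm_num), if_pos rfl]
    decide

lemma s_prod {π : ZI} (hπ : PP π) {U : Finset ZI} (hU : ∀ u ∈ U, PP u) (h : π ∉ U) :
    ∑ u ∈ U, s π u = s π (∏ u ∈ U, u) := by
  classical
  have key : ∀ V : Finset ZI, V ⊆ U → ∑ u ∈ V, s π u = s π (∏ u ∈ V, u) ∧ ¬ π ∣ ∏ u ∈ V, u := by
    intro V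
    induction V using Finset.induction_on with
    | empty =>
      intro _
      rw [Finset.sum_empty, Finset.prod_empty]
      refine ⟨?_, fun h' => hπ.pr.not_isUnit (isUnit_of_dvd_one h')⟩
      unfold s
      rw [qr_one hπ, if_neg (by norm_num)]
    | insert a V ha ih =>
      intro hV
      obtain ⟨h1, h2⟩ := ih ((Finset.subset_insert a V).trans hV)
      have haU := hV (Finset.mem_insert_self a V)
      have h3 : ¬ π ∣ a := fun h' => h (by rw [hπ.eq_of_dvd (hU a haU) h']; exact haU)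
      rw [Finset.sum_insert ha, Finset.prod_insert ha, h1, s_mul hπ h3 h2]
      refine ⟨rfl, fun h' => ?_⟩
      rcases hπ.pr.dvd_or_dvd h' with h4 | h4
      · exact h3 h4
      · exact h2 h4
  exact (key U (Finset.Subset.refl U)).1

end Pool.Agent.H519.Q7
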