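import Pool.Agent.H519.Q7.Def

/-!
# Project Q7: algebra of `ℤ[ω]` (task Q7-ALG1)

After `Pool/Graph/R_seed8/Y699/{Sym,Pd,Jsum,Csum}.lean` and `Pool/Graph/R_seed8/Y699/E/{Pd,Sym}.lean` (Eisenstein
integers, also a `QuadraticAlgebra`). `Pool/Graph/R_seed8/R384/*` has that `ℤ[ω]` is euclidean (`OO`), its units,
its residue fields, and `Pool/Graph/R_seed8/R384/Ring.lean` the norm `nn`.
-/

set_option autoImplicit false

open scoped Classical

namespace Pool.Agent.H519.Q7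

open Finset

namespace A1

/-! ### Residues -/

lemma one_re' : (1 : ZI).re = 1 := rfl
lemma one_im' : (1 : ZI).im = 0 := rfl
lemma mul_re' (a b : ZI) : (a * b).re = a.re * b.re - 2 * (a.im * b.im) := by
  rw [QuadraticAlgebra.re_mul]; ring
lemma mul_im' (a b : ZI) : (a * b).im = a.re * b.im + a.im * b.re + a.im * b.im := by
  rw [QuadraticAlgebra.im_mul]; ring
lemma sub_re' (a b : ZI) : (a - b).re = a.re - b.re := rfl
lemma sub_im' (a b : ZI) : (a - b).im = a.im - b.im := rfl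

lemma c6_mul (a b : ZI) : c6 (a * b) = c6 a * c6 b - 8 * (4 * (a.im * b.im)) := by
  unfold c6; rw [mul_re', mul_im']; ring

lemma c3_mul (a b : ZI) : c3 (a * b) = c3 a * c3 b - 8 * (a.im * b.im) := by
  unfold c3; rw [mul_re', mul_im']; ring

lemma c7_mul (a b : ZI) : c7 (a * b) = c7 a * c7 b - 7 * (2 * (a.im * b.im)) := by
  unfold c7; rw [mul_re', mul_im']; ring

lemma c6_mul8 (a b : ZI) : ((c6 (a * b) : ℤ) : ZMod 8) = (c6 a : ZMod 8) * (c6 b : ZMod 8) := by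
  rw [← Int.cast_mul, ZMod.intCast_eq_intCast_iff, Int.modEq_iff_dvd, c6_mul]
  exact ⟨4 * (a.im * b.im), by ring⟩

lemma c3_mul8 (a b : ZI) : ((c3 (a * b) : ℤ) : ZMod 8) = (c3 a : ZMod 8) * (c3 b : ZMod 8) := by
  rw [← Int.cast_mul, ZMod.intCast_eq_intCast_iff, Int.modEq_iff_dvd, c3_mul]
  exact ⟨a.im * b.im, by ring⟩

lemma c7_mul7 (a b : ZI) : ((c7 (a * b) : ℤ) : ZMod 7) = (c7 a : ZMod 7) * (c7 b : ZMod 7) := by
  rw [← Int.cast_mul, ZMod.intCast_eq_intCast_iff, Int.modEq_iff_dvd, c7_mul]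
  exact ⟨2 * (a.im * b.im), by ring⟩

lemma c6_sub (a b : ZI) : c6 (a - b) = c6 a - c6 b := by
  unfold c6; rw [sub_re', sub_im']; ring

lemma c3_sub (a b : ZI) : c3 (a - b) = c3 a - c3 b := by
  unfold c3; rw [sub_re', sub_im']; ring

lemma c7_sub (a b : ZI) : c7 (a - b) = c7 a - c7 b := by
  unfold c7; rw [sub_re', sub_im']; ring

lemma four_re : (4 : ZI).re = 4 := rfl
lemma four_im : (4 : ZI).im = 0 := rfl
lemma eight_re : (8 : ZI).re = 8 := rfl
lemma eight_im : (8 : ZI).im = 0 := rfl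

lemma mo_eq : mo = ⟨-4, 8⟩ := by
  unfold mo s7
  ext
  · rw [mul_re', four_re, four_im]; norm_num
  · rw [mul_im', four_re, four_im]; norm_num

lemma m8_eq : (8 : ZI) * s7 = ⟨-8, 16⟩ := by
  unfold s7
  ext
  · rw [mul_re', eight_re, eight_im]; norm_num
  · rw [mul_im', eight_re, eight_im]; norm_num

lemma c6_one : c6 1 = 1 := rfl
lemma c3_one : c3 1 = 1 := rfl
lemma c7_one : c7 1 = 1 := rfl

/-- the conditions of `prim` in the residue rings -/
lemma z8_of (x : ℤ) (k : ℤ) (h : x % 8 = k % 8) : (x : ZMod 8) = (k : ZMod 8) :=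
  (ZMod.intCast_eq_intCast_iff x k 8).2 h

lemma z7_of (x : ℤ) (k : ℤ) (h : x % 7 = k % 7) : (x : ZMod 7) = (k : ZMod 7) :=
  (ZMod.intCast_eq_intCast_iff x k 7).2 h

lemma z8_iff (x : ℤ) (k : ℤ) : (x : ZMod 8) = (k : ZMod 8) ↔ x % 8 = k % 8 :=
  ZMod.intCast_eq_intCast_iff x k 8

lemma z7_iff (x : ℤ) (k : ℤ) : (x : ZMod 7) = (k : ZMod 7) ↔ x % 7 = k % 7 :=
  ZMod.intCast_eq_intCast_iff x k 7

end A1

open A1

/-! ### Norms and primary elements -/

lemma nrm_one_iff {a : ZI} : nrm a = 1 ↔ IsUnit a := by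
  rw [Pool.Agent.R384.unit_iff, ← nrm_cast]
  exact ⟨fun h => by rw [h]; rfl, fun h => by exact_mod_cast h⟩

lemma nrm_natCast (p : ℕ) : nrm (p : ZI) = p ^ 2 := by
  have h : Pool.Agent.R384.nn (((p : ℕ) : ZI)) = (p : ℤ) ^ 2 := by
    have := Pool.Agent.R384.nn_int (p : ℤ)
    rw [← this]
    congr 1
  unfold nrm
  rw [h, Int.natAbs_pow, Int.natAbs_natCast]

lemma dvd_nrm (q : ZI) : q ∣ ((nrm q : ℕ) : ZI) := by
  have h : (((nrm q : ℕ) : ℤ) : ZI) = q * Pool.Agent.R384.cj q := by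
    rw [nrm_cast, Pool.Agent.R384.mul_cj]
  rw [← Int.cast_natCast, h]
  exact dvd_mul_right _ _

lemma nrm_pos' {x : ZI} (h : x ≠ 0) : 0 < nrm x := nrm_pos h

lemma mo_ne : mo ≠ 0 := by
  rw [mo_eq]
  intro h
  have h1 := congrArg QuadraticAlgebra.re h
  have h2 : (0 : ZI).re = 0 := rfl
  rw [h2] at h1
  norm_num at h1

lemma nrm_mo : nrm mo = 112 := by
  rw [mo_eq]
  rfl

lemma prim_one : prim 1 := ⟨by rw [c6_one]; rfl, by rw [c3_one]; rfl, by rw [c7_one]; decide⟩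

lemma prim_mul {a b : ZI} (ha : prim a) (hb : prim b) : prim (a * b) := by
  obtain ⟨h1, h2, h3⟩ := ha
  obtain ⟨h4, h5, h6⟩ := hb
  refine ⟨?_, ?_, ?_⟩
  · have e : c6 (a * b) ≡ 1 [ZMOD 4] := by
      rw [c6_mul]
      have e1 : c6 a ≡ 1 [ZMOD 4] := h1
      have e2 : c6 b ≡ 1 [ZMOD 4] := h4
      have e3 : 8 * (4 * (a.im * b.im)) ≡ 0 [ZMOD 4] :=
        (Int.modEq_zero_iff_dvd).2 ⟨8 * (a.im * b.im), by ring⟩
      simpa using (e1.mul e2).sub e3
    exact e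
  · have e : c3 (a * b) ≡ 1 [ZMOD 2] := by
      rw [c3_mul]
      have e1 : c3 a ≡ 1 [ZMOD 2] := h2
      have e2 : c3 b ≡ 1 [ZMOD 2] := h5
      have e3 : 8 * (a.im * b.im) ≡ 0 [ZMOD 2] :=
        (Int.modEq_zero_iff_dvd).2 ⟨4 * (a.im * b.im), by ring⟩
      simpa using (e1.mul e2).sub e3
    exact e
  · intro h
    have e : (7 : ℤ) ∣ c7 (a * b) := Int.dvd_of_emod_eq_zero h
    have e2 : (7 : ℤ) ∣ c7 a * c7 b := by
      have : c7 a * c7 b = c7 (a * b) + 7 * (2 * (a.im * b.im)) := by rw [c7_mul]; ring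
      rw [this]
      exact dvd_add e (dvd_mul_right _ _)
    rcases (Int.Prime.dvd_mul' (by norm_num) e2) with h7 | h7
    · exact h3 (Int.emod_eq_zero_of_dvd (by exact_mod_cast h7))
    · exact h6 (Int.emod_eq_zero_of_dvd (by exact_mod_cast h7))

lemma prim_cancel {a b : ZI} (ha : prim a) (h : prim (a * b)) : prim b := by
  obtain ⟨h1, h2, h3⟩ := ha
  obtain ⟨h4, h5, h6⟩ := h
  refine ⟨?_, ?_, ?_⟩
  · have e1 : c6 a ≡ 1 [ZMOD 4] := h1
    have e3 : 8 * (4 * (a.im * b.im)) ≡ 0 [ZMOD 4] :=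
      (Int.modEq_zero_iff_dvd).2 ⟨8 * (a.im * b.im), by ring⟩
    have e4 : c6 a * c6 b ≡ 1 * c6 b [ZMOD 4] := e1.mul_right _
    have e5 : c6 a * c6 b - 8 * (4 * (a.im * b.im)) ≡ 1 * c6 b - 0 [ZMOD 4] := e4.sub e3
    rw [← c6_mul, one_mul, sub_zero] at e5
    have e6 : c6 (a * b) ≡ 1 [ZMOD 4] := h4
    exact e5.symm.trans e6
  · have e1 : c3 a ≡ 1 [ZMOD 2] := h2
    have e3 : 8 * (a.im * b.im) ≡ 0 [ZMOD 2] :=
      (Int.modEq_zero_iff_dvd).2 ⟨4 * (a.im * b.im), by ring⟩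
    have e4 : c3 a * c3 b ≡ 1 * c3 b [ZMOD 2] := e1.mul_right _
    have e5 : c3 a * c3 b - 8 * (a.im * b.im) ≡ 1 * c3 b - 0 [ZMOD 2] := e4.sub e3
    rw [← c3_mul, one_mul, sub_zero] at e5
    have e6 : c3 (a * b) ≡ 1 [ZMOD 2] := h5
    exact e5.symm.trans e6
  · intro h7
    apply h6
    apply Int.emod_eq_zero_of_dvd
    rw [c7_mul]
    exact dvd_sub ((Int.dvd_of_emod_eq_zero h7).mul_left _) (dvd_mul_right _ _)

lemma prim_ne_zero {a : ZI} (h : prim a) : a ≠ 0 := by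
  rintro rfl
  have h1 := h.six
  have h2 : c6 0 = 0 := rfl
  rw [h2] at h1
  norm_num at h1

lemma prim_pow {π : ZI} (h : prim π) (j : ℕ) : prim (π ^ j) := by
  induction j with
  | zero => rw [pow_zero]; exact prim_one
  | succ j ih => rw [pow_succ]; exact prim_mul ih h

lemma prim_prod {S : Finset ZI} (hS : ∀ π ∈ S, prim π) : prim (∏ π ∈ S, π) := by
  induction S using Finset.induction_on with
  | empty => rw [prod_empty]; exact prim_one
  | insert a s ha ih =>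
    rw [prod_insert ha]
    exact prim_mul (hS a (mem_insert_self _ _)) (ih fun π hπ => hS π (mem_insert_of_mem hπ))

lemma eq_one_of_prim {u : ZI} (h : prim u) (hu : IsUnit u) : u = 1 := by
  rcases Pool.Agent.R384.unit_cases hu with h1 | h1
  · exact h1
  · rw [h1] at h
    have h2 := h.six
    have h3 : c6 (-1) = -1 := rfl
    rw [h3] at h2
    norm_num at h2

lemma prim_per {a b : ZI} (h : mo ∣ a - b) (ha : prim a) : prim b := by
  obtain ⟨k, hk⟩ := h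
  obtain ⟨h1, h2, h3⟩ := ha
  have e6 := c6_sub a b
  have e3 := c3_sub a b
  have e7 := c7_sub a b
  rw [hk, c6_mul] at e6
  rw [hk, c3_mul] at e3
  rw [hk, c7_mul] at e7
  have m6 : c6 mo = 44 := by rw [mo_eq]; rfl
  have m3 : c3 mo = 20 := by rw [mo_eq]; rfl
  have m7 : c7 mo = 28 := by rw [mo_eq]; rfl
  rw [m6] at e6
  rw [m3] at e3
  rw [m7] at e7
  exact ⟨by omega, by omega, by omega⟩

lemma prim_cop8 {a : ZI} (h : prim a) : IsCoprime a (8 * s7) := by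
  have h2 : IsCoprime (Pool.Agent.R384.nn a) (448 : ℤ) := by
    have hx := h.six
    have hy := h.three
    have hz := h.seven
    unfold c6 at hx
    unfold c3 at hy
    unfold c7 at hz
    have o2 : Pool.Agent.R384.nn a % 2 = 1 := by
      unfold Pool.Agent.R384.nn
      have e1 : a.re % 2 = 1 := by omega
      have e2 : (a.re + a.im) % 2 = 1 := by omega
      have e3 : a.re ^ 2 + a.re * a.im + 2 * a.im ^ 2 = a.re * (a.re + a.im) + 2 * a.im ^ 2 := by ring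
      rw [e3]
      have e4 : a.re ≡ 1 [ZMOD 2] := e1
      have e5 : a.re + a.im ≡ 1 [ZMOD 2] := e2
      have e6 : 2 * a.im ^ 2 ≡ 0 [ZMOD 2] := (Int.modEq_zero_iff_dvd).2 (dvd_mul_right _ _)
      have e7 := (e4.mul e5).add e6
      exact e7
    have o7 : ¬ (7 : ℤ) ∣ Pool.Agent.R384.nn a := by
      intro h7
      have e1 := Pool.Agent.R384.nn_four a
      have e2 : (7 : ℤ) ∣ (2 * a.re + a.im) ^ 2 := by
        have e3 : (2 * a.re + a.im) ^ 2 = 4 * Pool.Agent.R384.nn a - 7 * a.im ^ 2 := by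
          rw [e1]; ring
        rw [e3]
        exact dvd_sub (h7.mul_left _) (dvd_mul_right _ _)
      have e3 : (7 : ℤ) ∣ 2 * a.re + a.im :=
        Prime.dvd_of_dvd_pow (Int.prime_iff_natAbs_prime.2 (by norm_num)) e2
      obtain ⟨k, hk⟩ := e3
      omega
    have e : (448 : ℤ) = 2 ^ 6 * 7 := by norm_num
    rw [e]
    refine IsCoprime.mul_right (IsCoprime.pow_right ?_) ?_
    · rw [Int.isCoprime_iff_gcd_eq_one]
      have h4 : ¬ (2 : ℤ) ∣ Pool.Agent.R384.nn a := by omega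
      have h5 := (Int.isCoprime_iff_gcd_eq_one.1
        ((Prime.coprime_iff_not_dvd (Int.prime_iff_natAbs_prime.2 (by norm_num))).2 h4).symm)
      exact h5
    · exact ((Prime.coprime_iff_not_dvd (Int.prime_iff_natAbs_prime.2 (by norm_num))).2 o7).symm
  have h3 : IsCoprime (((Pool.Agent.R384.nn a : ℤ)) : ZI) (((448 : ℤ)) : ZI) := by
    have := h2.map (Int.castRingHom ZI)
    simpa using this
  rw [← Pool.Agent.R384.mul_cj] at h3
  have h4 := h3.of_mul_left_left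
  have e8 : (((448 : ℤ)) : ZI) = (8 * s7) * (-(8 * s7)) := by
    rw [m8_eq]
    ext
    · rw [mul_re', QuadraticAlgebra.re_intCast]
      have e1 : (-(⟨-8, 16⟩ : ZI)).re = 8 := rfl
      have e2 : (-(⟨-8, 16⟩ : ZI)).im = -16 := rfl
      rw [e1, e2]
      norm_num
    · rw [mul_im', QuadraticAlgebra.im_intCast]
      have e1 : (-(⟨-8, 16⟩ : ZI)).re = 8 := rfl
      have e2 : (-(⟨-8, 16⟩ : ZI)).im = -16 := rfl
      rw [e1, e2]
      norm_num
  rw [e8] at h4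
  exact h4.of_mul_right_left

lemma prim_cop {a : ZI} (h : prim a) : IsCoprime a mo := by
  have h1 := prim_cop8 h
  have e : (8 : ZI) * s7 = mo * 2 := by
    unfold mo
    have : (8 : ZI) = 4 * 2 := by norm_num
    rw [this]
    ring
  rw [e] at h1
  exact h1.of_mul_right_left

/-! ### The labels -/

lemma fc_one : fc 1 = 0 := by
  have h1 : tO 1 = 0 := by unfold tO; rw [c3_one]; rfl
  have h2 : dO 1 = 0 := by unfold dO; rw [c6_one]; rfl
  have h3 : gO 1 = 0 := by unfold gO; rw [c3_one]; rw [if_neg (by norm_num)]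
  have h4 : eO 1 = 0 := by unfold eO; rw [c7_one]; rw [if_neg (by norm_num)]
  unfold fc
  rw [h1, h2, h3, h4]
  rfl

lemma fc_mul {a b : ZI} (ha : prim a) (hb : prim b) : fc (a * b) = fc a + fc b := by
  obtain ⟨h1, h2, h3⟩ := ha
  obtain ⟨h4, h5, h6⟩ := hb
  have k3 : c3 (a * b) % 8 = (c3 a % 8) * (c3 b % 8) % 8 := by
    rw [← Int.mul_emod, c3_mul, Int.sub_mul_emod_self_left]
  have k6 : c6 (a * b) % 8 = (c6 a % 8) * (c6 b % 8) % 8 := by
    rw [← Int.mul_emod, c6_mul, Int.sub_mul_emod_self_left]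
  have k7 : c7 (a * b) % 7 = (c7 a % 7) * (c7 b % 7) % 7 := by
    rw [← Int.mul_emod, c7_mul, Int.sub_mul_emod_self_left]
  have t1 : tO (a * b) = tO a + tO b := by
    unfold tO
    have a1 : c3 a % 8 = 1 ∨ c3 a % 8 = 3 ∨ c3 a % 8 = 5 ∨ c3 a % 8 = 7 := by omega
    have b1 : c3 b % 8 = 1 ∨ c3 b % 8 = 3 ∨ c3 b % 8 = 5 ∨ c3 b % 8 = 7 := by omega
    have w : ∀ x : ℤ, x % 4 = x % 8 % 4 := fun x => by omega
    rw [w (c3 (a * b)), w (c3 a), w (c3 b), k3]
    rcases a1 with a1 | a1 | a1 | a1 <;> rcases b1 with b1 | b1 | b1 | b1 <;> rw [a1, b1] <;> decide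
  have t2 : dO (a * b) = dO a + dO b := by
    unfold dO
    have a1 : c6 a % 8 = 1 ∨ c6 a % 8 = 5 := by omega
    have b1 : c6 b % 8 = 1 ∨ c6 b % 8 = 5 := by omega
    rw [k6]
    rcases a1 with a1 | a1 <;> rcases b1 with b1 | b1 <;> rw [a1, b1] <;> decide
  have t3 : gO (a * b) = gO a + gO b := by
    unfold gO
    have a1 : c3 a % 8 = 1 ∨ c3 a % 8 = 3 ∨ c3 a % 8 = 5 ∨ c3 a % 8 = 7 := by omega
    have b1 : c3 b % 8 = 1 ∨ c3 b % 8 = 3 ∨ c3 b % 8 = 5 ∨ c3 b % 8 = 7 := by omega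
    rw [k3]
    rcases a1 with a1 | a1 | a1 | a1 <;> rcases b1 with b1 | b1 | b1 | b1 <;> rw [a1, b1] <;> decide
  have t4 : eO (a * b) = eO a + eO b := by
    unfold eO
    have a1 : c7 a % 7 = 1 ∨ c7 a % 7 = 2 ∨ c7 a % 7 = 3 ∨ c7 a % 7 = 4 ∨ c7 a % 7 = 5 ∨
      c7 a % 7 = 6 := by omega
    have b1 : c7 b % 7 = 1 ∨ c7 b % 7 = 2 ∨ c7 b % 7 = 3 ∨ c7 b % 7 = 4 ∨ c7 b % 7 = 5 ∨
      c7 b % 7 = 6 := by omega
    rw [k7]
    rcases a1 with a1 | a1 | a1 | a1 | a1 | a1 <;> rcases b1 with b1 | b1 | b1 | b1 | b1 | b1 <;>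
      rw [a1, b1] <;> decide
  unfold fc
  rw [t1, t2, t3, t4]
  rfl

lemma fc_prod {S : Finset ZI} (hS : ∀ π ∈ S, prim π) : fc (∏ π ∈ S, π) = ∑ π ∈ S, fc π := by
  induction S using Finset.induction_on with
  | empty => rw [prod_empty, sum_empty]; exact fc_one
  | insert a s ha ih =>
    have h1 : ∀ π ∈ s, prim π := fun π hπ => hS π (mem_insert_of_mem hπ)
    rw [prod_insert ha, sum_insert ha, fc_mul (hS a (mem_insert_self _ _)) (prim_prod h1), ih h1]

lemma fc_per {a b : ZI} (h : 8 * s7 ∣ a - b) : fc a = fc b := by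
  obtain ⟨k, hk⟩ := h
  have e6 := c6_sub a b
  have e3 := c3_sub a b
  have e7 := c7_sub a b
  rw [hk, c6_mul] at e6
  rw [hk, c3_mul] at e3
  rw [hk, c7_mul] at e7
  have m6 : c6 (8 * s7) = 88 := by rw [m8_eq]; rfl
  have m3 : c3 (8 * s7) = 40 := by rw [m8_eq]; rfl
  have m7 : c7 (8 * s7) = 56 := by rw [m8_eq]; rfl
  rw [m6] at e6
  rw [m3] at e3
  rw [m7] at e7
  have f6 : c6 a % 8 = c6 b % 8 := by omega
  have f3 : c3 a % 8 = c3 b % 8 := by omega
  have f3' : c3 a % 4 = c3 b % 4 := by omega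
  have f7 : c7 a % 7 = c7 b % 7 := by omega
  unfold fc tO dO gO eO
  rw [f6, f3, f3', f7]

lemma eight_iff {a : ZI} (h : prim a) :
    (8 : ZI) ∣ a - 1 ↔ (fc a).1 = 0 ∧ (fc a).2.1 = 0 ∧ (fc a).2.2.1 = 0 := by
  have h1 := h.six
  have h2 := h.three
  have u1 : (fc a).1 = 0 ↔ ¬ c3 a % 4 = 3 := by
    show tO a = 0 ↔ _
    unfold tO
    split_ifs with h3 <;> simp [h3]
  have u2 : (fc a).2.1 = 0 ↔ ¬ c6 a % 8 = 5 := by
    show dO a = 0 ↔ _
    unfold dO
    split_ifs with h3 <;> simp [h3]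
  have u3 : (fc a).2.2.1 = 0 ↔ ¬ (c3 a % 8 = 3 ∨ c3 a % 8 = 5) := by
    show gO a = 0 ↔ _
    unfold gO
    split_ifs with h3 <;> simp [h3]
  rw [u1, u2, u3]
  unfold c6 c3 at *
  constructor
  · rintro ⟨k, hk⟩
    have e1 := congrArg QuadraticAlgebra.re hk
    have e2 := congrArg QuadraticAlgebra.im hk
    rw [sub_re', mul_re', one_re', eight_re, eight_im] at e1
    rw [sub_im', mul_im', one_im', eight_re, eight_im] at e2
    refine ⟨by omega, by omega, by omega⟩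
  · rintro ⟨e1, e2, e3⟩
    have e4 : (a.re + 6 * a.im) % 8 = 1 := by omega
    have e5 : (a.re + 3 * a.im) % 8 = 1 := by omega
    have e6 : a.im % 8 = 0 := by omega
    have e7 : a.re % 8 = 1 := by omega
    refine ⟨⟨a.re / 8, a.im / 8⟩, ?_⟩
    ext
    · rw [sub_re', mul_re', one_re', eight_re, eight_im]
      show a.re - 1 = 8 * (a.re / 8) - 2 * (0 * (a.im / 8))
      omega
    · rw [sub_im', mul_im', one_im', eight_re, eight_im]
      show a.im - 0 = 8 * (a.im / 8) + 0 * (a.re / 8) + 0 * (a.im / 8)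
      omega

lemma dot_zero_left (x : Lb) : dot 0 x = 0 := by simp [dot]

lemma dot_zero_right (c : Lb) : dot c 0 = 0 := by simp [dot]

lemma dot_add_left (c d x : Lb) : dot (c + d) x = dot c x + dot d x := by
  simp only [dot, Prod.fst_add, Prod.snd_add]; ring

lemma dot_add_right (c x y : Lb) : dot c (x + y) = dot c x + dot c y := by
  simp only [dot, Prod.fst_add, Prod.snd_add]; ring

lemma exists_dot {c : Lb} (h : c ≠ 0) : ∃ x : Lb, dot c x = 1 := by
  revert c; simp only [dot]; decide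

lemma sg_zero : sg 0 = 1 := by simp [sg]

lemma sg_one : sg 1 = -1 := by simp [sg]

lemma sg_add (a b : ZMod 2) : sg (a + b) = sg a * sg b := by
  have : ∀ x : ZMod 2, x = 0 ∨ x = 1 := by decide
  rcases this a with rfl | rfl <;> rcases this b with rfl | rfl
  · rw [add_zero, sg_zero, mul_one]
  · rw [zero_add, sg_zero, one_mul]
  · rw [add_zero, sg_zero, mul_one]
  · rw [show (1 : ZMod 2) + 1 = 0 from by decide, sg_zero, sg_one]; norm_num

lemma sg_cases (a : ZMod 2) : sg a = 1 ∨ sg a = -1 := by unfold sg; split_ifs <;> simp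

lemma sg_abs (a : ZMod 2) : |sg a| = 1 := by rcases sg_cases a with h | h <;> rw [h] <;> simp

/-! ### Primary primes -/

lemma PP.ne {π : ZI} (h : PP π) : π ≠ 0 := h.pr.ne_zero

/-- distinct primary primes do not divide each other -/
lemma PP.eq_of_dvd {π ρ : ZI} (h1 : PP π) (h2 : PP ρ) (h : π ∣ ρ) : π = ρ := by
  obtain ⟨u, hu⟩ := h
  have h3 : IsUnit u := (h2.pr.irreducible.isUnit_or_isUnit hu).resolve_left h1.pr.not_isUnit
  have h4 : prim u := prim_cancel h1.prm (hu ▸ h2.prm)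
  rw [hu, eq_one_of_prim h4 h3, mul_one]

lemma PP.cop {π ρ : ZI} (h1 : PP π) (h2 : PP ρ) (h : π ≠ ρ) : IsCoprime π ρ := by
  rw [h1.pr.irreducible.coprime_iff_not_dvd]
  exact fun h3 => h (h1.eq_of_dvd h2 h3)

lemma PP.ps {π : ZI} (h : PP π) : PS π := ⟨h.prm, h.pr.irreducible.squarefree⟩

lemma PP.nrm_ne_one {π : ZI} (h : PP π) : nrm π ≠ 1 := fun h1 => h.pr.not_isUnit (nrm_one_iff.1 h1)

lemma exists_PP {ρ : ZI} (hρ : Prime ρ) (ho : ¬ ρ ∣ mo) : ∃ π, PP π ∧ Associated π ρ := by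
  have hw : mo = 4 * s7 := rfl
  have d6 : ¬ c6 ρ % 2 = 0 := by
    intro h
    apply ho
    have h1 : (⟨0, 1⟩ : ZI) ∣ ρ := by
      unfold c6 at h
      refine ⟨⟨ρ.re / 2 + ρ.im, -(ρ.re / 2)⟩, ?_⟩
      ext
      · rw [mul_re']
        show ρ.re = 0 * (ρ.re / 2 + ρ.im) - 2 * (1 * (-(ρ.re / 2)))
        omega
      · rw [mul_im']
        show ρ.im = 0 * (-(ρ.re / 2)) + 1 * (ρ.re / 2 + ρ.im) + 1 * (-(ρ.re / 2))
        omega
    have h2 : Irreducible (⟨0, 1⟩ : ZI) := by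
      refine ⟨fun hu => ?_, fun x y hxy => ?_⟩
      · have := nrm_one_iff.2 hu
        have e : nrm (⟨0, 1⟩ : ZI) = 2 := rfl
        omega
      · have e : nrm (⟨0, 1⟩ : ZI) = 2 := rfl
        rw [hxy, nrm_mul] at e
        rcases (Nat.prime_mul_iff.1 (e ▸ Nat.prime_two)) with ⟨_, h5⟩ | ⟨_, h5⟩
        · exact Or.inr (nrm_one_iff.1 h5)
        · exact Or.inl (nrm_one_iff.1 h5)
    have h3 : Associated (⟨0, 1⟩ : ZI) ρ := h2.associated_of_dvd hρ.irreducible h1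
    have h4 : (⟨0, 1⟩ : ZI) ∣ mo := by
      refine ⟨⟨6, 2⟩, ?_⟩
      rw [mo_eq]
      ext
      · rw [mul_re']; rfl
      · rw [mul_im']; rfl
    exact h3.symm.dvd.trans h4
  have d3 : ¬ c3 ρ % 2 = 0 := by
    intro h
    apply ho
    have h1 : (⟨1, -1⟩ : ZI) ∣ ρ := by
      unfold c3 at h
      refine ⟨⟨-ρ.im, (ρ.re + ρ.im) / 2⟩, ?_⟩
      ext
      · rw [mul_re']
        show ρ.re = 1 * (-ρ.im) - 2 * (-1 * ((ρ.re + ρ.im) / 2))
        omega
      · rw [mul_im']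
        show ρ.im = 1 * ((ρ.re + ρ.im) / 2) + -1 * (-ρ.im) + -1 * ((ρ.re + ρ.im) / 2)
        omega
    have h2 : Irreducible (⟨1, -1⟩ : ZI) := by
      refine ⟨fun hu => ?_, fun x y hxy => ?_⟩
      · have := nrm_one_iff.2 hu
        have e : nrm (⟨1, -1⟩ : ZI) = 2 := rfl
        omega
      · have e : nrm (⟨1, -1⟩ : ZI) = 2 := rfl
        rw [hxy, nrm_mul] at e
        rcases (Nat.prime_mul_iff.1 (e ▸ Nat.prime_two)) with ⟨_, h5⟩ | ⟨_, h5⟩
        · exact Or.inr (nrm_one_iff.1 h5)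
        · exact Or.inl (nrm_one_iff.1 h5)
    have h3 : Associated (⟨1, -1⟩ : ZI) ρ := h2.associated_of_dvd hρ.irreducible h1
    have h4 : (⟨1, -1⟩ : ZI) ∣ mo := by
      refine ⟨⟨-8, 2⟩, ?_⟩
      rw [mo_eq]
      ext
      · rw [mul_re']; rfl
      · rw [mul_im']; rfl
    exact h3.symm.dvd.trans h4
  have d7 : c7 ρ % 7 ≠ 0 := by
    intro h
    apply ho
    have h1 : s7 ∣ ρ := by
      unfold c7 at h
      refine ⟨⟨(ρ.re + 4 * ρ.im) / 7, -((2 * ρ.re + ρ.im) / 7)⟩, ?_⟩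
      unfold s7
      ext
      · rw [mul_re']
        show ρ.re = -1 * ((ρ.re + 4 * ρ.im) / 7) - 2 * (2 * (-((2 * ρ.re + ρ.im) / 7)))
        omega
      · rw [mul_im']
        show ρ.im = -1 * (-((2 * ρ.re + ρ.im) / 7)) + 2 * ((ρ.re + 4 * ρ.im) / 7) +
          2 * (-((2 * ρ.re + ρ.im) / 7))
        omega
    have h2 : Irreducible s7 := by
      refine ⟨fun hu => ?_, fun x y hxy => ?_⟩
      · have := nrm_one_iff.2 hu
        have e : nrm s7 = 7 := rfl
        omega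
      · have e : nrm s7 = 7 := rfl
        rw [hxy, nrm_mul] at e
        rcases (Nat.prime_mul_iff.1 (e ▸ (by norm_num : Nat.Prime 7))) with ⟨_, h5⟩ | ⟨_, h5⟩
        · exact Or.inr (nrm_one_iff.1 h5)
        · exact Or.inl (nrm_one_iff.1 h5)
    have h3 : Associated s7 ρ := h2.associated_of_dvd hρ.irreducible h1
    exact h3.symm.dvd.trans (dvd_mul_left _ _)
  have hs : c6 ρ % 4 = 1 ∨ c6 ρ % 4 = 3 := by omega
  rcases hs with hs | hs
  · exact ⟨ρ, ⟨hρ, ⟨hs, by omega, d7⟩⟩, Associated.refl _⟩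
  · have e6 : c6 (-ρ) = -c6 ρ := by
      unfold c6
      rw [QuadraticAlgebra.re_neg, QuadraticAlgebra.im_neg]
      ring
    have e3 : c3 (-ρ) = -c3 ρ := by
      unfold c3
      rw [QuadraticAlgebra.re_neg, QuadraticAlgebra.im_neg]
      ring
    have e7 : c7 (-ρ) = -c7 ρ := by
      unfold c7
      rw [QuadraticAlgebra.re_neg, QuadraticAlgebra.im_neg]
      ring
    refine ⟨-ρ, ⟨hρ.neg, ⟨?_, ?_, ?_⟩⟩, (Associated.refl ρ).neg_left⟩
    · rw [e6]; omega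
    · rw [e3]; omega
    · rw [e7]; omega

lemma not_dvd_mo {ρ n : ZI} (hρ : Prime ρ) (h : ρ ∣ n) (hn : prim n) : ¬ ρ ∣ mo := fun h1 => hρ.not_isUnit ((prim_cop hn).isUnit_of_dvd' h h1)

/-! ### The symbol -/

namespace A1

abbrev FF (q : ZI) : Type := ZI ⧸ Ideal.span {q}

lemma mk_eq_zero (q x : ZI) : (Ideal.Quotient.mk (Ideal.span {q}) x) = 0 ↔ q ∣ x := by
  rw [Ideal.Quotient.eq_zero_iff_mem, Ideal.mem_span_singleton]

lemma sq_iff (q x : ZI) :
    (∃ b, q ∣ x - b ^ 2) ↔ IsSquare (Ideal.Quotient.mk (Ideal.span {q}) x) := by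
  constructor
  · rintro ⟨y, hy⟩
    refine ⟨Ideal.Quotient.mk _ y, ?_⟩
    rw [← map_mul, ← sub_eq_zero, ← map_sub, mk_eq_zero, ← pow_two]
    exact hy
  · rintro ⟨y, hy⟩
    obtain ⟨z, rfl⟩ := Ideal.Quotient.mk_surjective y
    refine ⟨z, ?_⟩
    rw [← mk_eq_zero, map_sub, hy, map_pow, pow_two, sub_self]

/-- the residue field -/
noncomputable abbrev fld {q : ZI} (hq : Prime q) : Field (FF q) :=
  have : (Ideal.span {q}).IsMaximal := PrincipalIdealRing.isMaximal_of_irreducible hq.irreducible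
  Ideal.Quotient.field _

noncomputable abbrev ftp {q : ZI} (hq : Prime q) : Fintype (FF q) :=
  @Fintype.ofFinite _ (Ideal.finiteQuotientOfFreeOfNeBot _ (by
    rw [Ne, Ideal.span_singleton_eq_bot]; exact hq.ne_zero))

lemma pp_two {π : ZI} (h : PP π) : ¬ π ∣ 2 := by
  intro h2
  have h1 : π ∣ mo := by
    unfold mo
    have : (4 : ZI) = 2 * 2 := by norm_num
    rw [this, mul_assoc]
    exact h2.mul_right _
  exact h.pr.not_isUnit ((prim_cop h.prm).isUnit_of_dvd' (dvd_refl _) h1)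

lemma char_ne {π : ZI} (h : PP π) : letI := fld h.pr; ringChar (FF π) ≠ 2 := by
  let _ := fld h.pr
  intro h2
  apply pp_two h
  have h1 : ((2 : ℕ) : FF π) = 0 := by
    rw [← h2]
    exact CharP.cast_eq_zero _ _
  rw [← mk_eq_zero]
  rw [map_ofNat]
  exact_mod_cast h1

lemma qr_quad {π : ZI} (h : Prime π) (a : ZI) : letI := fld h; letI := ftp h;
    qr π a = quadraticChar (FF π) (Ideal.Quotient.mk (Ideal.span {π}) a) := by
  classical
  let _ := fld h
  let _ := ftp h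
  show qr π a = quadraticChar (FF π) (Ideal.Quotient.mk (Ideal.span {π}) a)
  unfold qr
  rw [quadraticChar_apply, quadraticCharFun, mk_eq_zero, sq_iff]
  split_ifs <;> rfl

end A1


lemma qr_mul {π : ZI} (h : PP π) (a b : ZI) : qr π (a * b) = qr π a * qr π b := by
  classical
  let _ := fld h.pr
  let _ := ftp h.pr
  rw [qr_quad h.pr, qr_quad h.pr, qr_quad h.pr, map_mul, map_mul]

lemma qr_per {π a b : ZI} (hab : π ∣ a - b) : qr π a = qr π b := by
  have h1 : π ∣ a ↔ π ∣ b := by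
    constructor
    · intro h
      have := dvd_sub h hab
      rwa [sub_sub_cancel] at this
    · intro h
      have := dvd_add hab h
      rwa [sub_add_cancel] at this
  have h2 : (∃ c, π ∣ a - c ^ 2) ↔ ∃ c, π ∣ b - c ^ 2 := by
    constructor
    · rintro ⟨c, hc⟩
      refine ⟨c, ?_⟩
      have := dvd_sub hc hab
      have e : a - c ^ 2 - (a - b) = b - c ^ 2 := by ring
      rwa [e] at this
    · rintro ⟨c, hc⟩
      refine ⟨c, ?_⟩
      have := dvd_add hc hab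
      have e : b - c ^ 2 + (a - b) = a - c ^ 2 := by ring
      rwa [e] at this
  unfold qr
  simp only [h1, h2]

lemma qr_zero_iff {π a : ZI} : qr π a = 0 ↔ π ∣ a := by
  unfold qr
  split_ifs with h1 h2
  · simp [h1]
  · simp [h1]
  · simp [h1]

lemma qr_cases {π a : ZI} (ha : ¬ π ∣ a) : qr π a = 1 ∨ qr π a = -1 := by
  unfold qr
  rw [if_neg ha]
  split_ifs
  · exact Or.inl rfl
  · exact Or.inr rfl

lemma qr_sq {π a : ZI} (ha : ¬ π ∣ a) : qr π a * qr π a = 1 := by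
  rcases qr_cases ha with h | h <;> rw [h] <;> norm_num

lemma qr_one {π : ZI} (h : PP π) : qr π 1 = 1 := by
  have h1 : ¬ π ∣ 1 := fun h1 => h.pr.not_isUnit (isUnit_of_dvd_one h1)
  unfold qr
  rw [if_neg h1, if_pos ⟨1, by simp⟩]

lemma qr_sq' {π : ZI} (h : PP π) {a : ZI} (ha : ¬ π ∣ a) : qr π (a ^ 2) = 1 := by
  have h1 : ¬ π ∣ a ^ 2 := fun h1 => ha (h.pr.dvd_of_dvd_pow h1)
  unfold qr
  rw [if_neg h1, if_pos ⟨a, by simp⟩]

lemma qr_abs_le (π a : ZI) : |qr π a| ≤ 1 := by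
  unfold qr
  split_ifs <;> norm_num

lemma exists_nonres {π : ZI} (h : PP π) : ∃ b : ZI, qr π b = -1 := by
  classical
  let _ := fld h.pr
  let _ := ftp h.pr
  obtain ⟨u, hu⟩ := quadraticChar_exists_neg_one (F := FF π) (char_ne h)
  obtain ⟨b, rfl⟩ := Ideal.Quotient.mk_surjective u
  exact ⟨b, by rw [qr_quad h.pr, hu]⟩

end Pool.Agent.H519.Q7
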