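import Pool.Agent.H519.Q7.Stm
import Pool.Graph.R_seed8.Y703.XK.Asy

/-! Project Q7, job Q7-ASY: the final asymptotics for the proportion (port of `Q153/GN/Asy.lean` of project GN). -/

set_option autoImplicit false

open scoped Classical

namespace Pool.Agent.H519.Q7.Asy

open Finset Filter
open Pool.Agent.H519.Q7
open Pool.Agent.Y703.CX (jj XX eL zz kk eL_tendsto logX_eq rpow_eL HH NN ev_eL one_le_exp
  HH_ge HH_le HH_pos kk_ge kk_le X_pos one_add_log lin_le zz_ge zz_pos)
open Pool.Agent.Y703.CQ (Sml sml_of sml_add)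
open Pool.Agent.Y703.XK (sml_eps kk_pos kap kap_nonneg kap_pow kap_le log_three)

/-- sets with many primes -/
theorem sml_many {C : ℝ} (h : CntP C) :
    Sml 0 fun X => (((SS X).filter fun S => kk X < S.card).card : ℝ) := by
  have hC := h.one
  apply sml_of (C := 2 * C) (a := 1) (by norm_num)
  filter_upwards [ev_eL 1] with X hX
  have h0 : 0 < eL X := by linarith
  have h1 := h.many X (kk X) (X_pos h0)
  have h2 : Real.exp (2 * eL X) ≤ 2 ^ kk X := by
    have e : (2 : ℝ) ^ kk X = Real.exp (kk X * Real.log 2) := by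
      rw [mul_comm, Real.exp_mul, Real.exp_log (by norm_num), Real.rpow_natCast]
    rw [e]
    apply Real.exp_le_exp.2
    have h3 := kk_ge X
    have h4 := Real.log_two_gt_d9
    nlinarith
  have hX0 : (0 : ℝ) ≤ X := Nat.cast_nonneg _
  have h5 : (((SS X).filter fun S => kk X < S.card).card : ℝ) * Real.exp (2 * eL X) ≤
      C * (X * (2 * Real.exp (eL X))) := by
    calc _ ≤ (((SS X).filter fun S => kk X < S.card).card : ℝ) * 2 ^ kk X := by gcongr
      _ ≤ C * (X * (1 + Real.log X)) := h1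
      _ ≤ _ := by
        have := one_add_log h0
        gcongr
  have h6 : (2 * C) * (X * Real.exp (-1 * eL X)) * Real.exp (2 * eL X) =
      C * (X * (2 * Real.exp (eL X))) := by
    have e : Real.exp (-1 * eL X) * Real.exp (2 * eL X) = Real.exp (eL X) := by
      rw [← Real.exp_add]; congr 1; ring
    calc _ = 2 * C * X * (Real.exp (-1 * eL X) * Real.exp (2 * eL X)) := by ring
      _ = _ := by rw [e]; ring
  rw [← h6] at h5
  exact le_of_mul_le_mul_right h5 (Real.exp_pos _)

/-- sets near the boundary -/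
theorem sml_cut {C : ℝ} (h : CntP C) :
    Sml 0 fun X => (((SS X).filter fun S => S.card ≤ kk X ∧
      X < (∏ π ∈ sm (zz X) S, nrm π) * ∏ π ∈ la (zz X) S, XX (HH X) (bl (HH X) π)).card : ℝ) := by
  have hC := h.one
  apply sml_of (C := 3 * C) (a := 1) (by norm_num)
  filter_upwards [ev_eL 1, lin_le (a := 1) (b := 11) (by norm_num) (by norm_num),
    lin_le (a := 1 / 2) (b := 4) (by norm_num) (by norm_num)] with X hX h11 h12
  have h0 : 0 < eL X := by linarith
  have h1 := h.cut X (zz X) (HH X) (kk X) (X_pos h0) (HH_pos h0) (kk_pos hX)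
  refine h1.trans ?_
  have hH := HH_ge h0
  have hHp : (0 : ℝ) < HH X := lt_of_lt_of_le (Real.exp_pos _) hH
  have hX0 : (0 : ℝ) ≤ X := Nat.cast_nonneg _
  have hkp : (0 : ℝ) < kk X := by exact_mod_cast kk_pos hX
  rw [one_mul] at h11
  have hk1 : (kk X : ℝ) ≤ Real.exp (eL X) := (kk_le hX).trans h11
  have h2 : (kk X : ℝ) / HH X ≤ Real.exp (-2 * eL X) := by
    rw [div_le_iff₀ hHp]
    calc (kk X : ℝ) ≤ Real.exp (eL X) := hk1
      _ = Real.exp (-2 * eL X) * Real.exp (3 * eL X) := by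
          rw [← Real.exp_add]; congr 1; ring
      _ ≤ _ := mul_le_mul_of_nonneg_left hH (Real.exp_pos _).le
  have h3 : C * (X * (1 + Real.log X)) * ((kk X : ℝ) / HH X) ≤ 2 * C * (X * Real.exp (-1 * eL X)) := by
    have h4 := one_add_log h0
    have h5 : (0 : ℝ) ≤ 1 + Real.log X := by
      have := Real.log_natCast_nonneg X
      linarith
    calc C * (X * (1 + Real.log X)) * ((kk X : ℝ) / HH X) ≤
          C * (X * (2 * Real.exp (eL X))) * Real.exp (-2 * eL X) := by gcongr
      _ = 2 * C * (X * (Real.exp (eL X) * Real.exp (-2 * eL X))) := by ring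
      _ = 2 * C * (X * Real.exp (-1 * eL X)) := by
          rw [← Real.exp_add]
          have : eL X + -2 * eL X = -1 * eL X := by ring
          rw [this]
  have h6 : Real.exp (-(Real.log X) / kk X) ≤ Real.exp (-1 * eL X) := by
    apply Real.exp_le_exp.2
    rw [div_le_iff₀ hkp, logX_eq h0]
    have h7 : (kk X : ℝ) ≤ 11 * eL X := kk_le hX
    have h8 : 16 * (eL X) ^ 2 ≤ Real.exp (eL X) := by
      have h9 : Real.exp (eL X) = Real.exp (1 / 2 * eL X) * Real.exp (1 / 2 * eL X) := by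
        rw [← Real.exp_add]; congr 1; ring
      rw [h9]
      have h10 : (4 * eL X) * (4 * eL X) ≤ Real.exp (1 / 2 * eL X) * Real.exp (1 / 2 * eL X) :=
        mul_le_mul h12 h12 (by linarith) (Real.exp_pos _).le
      nlinarith
    nlinarith [sq_nonneg (eL X)]
  have h13 : C * X * Real.exp (-(Real.log X) / kk X) ≤ C * (X * Real.exp (-1 * eL X)) := by
    rw [mul_assoc]
    gcongr
  linarith

/-- sets with two primes in one block -/
theorem sml_coll {C : ℝ} (h : CntP C) : Sml 0 fun X => (((SS X).filter fun S =>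
    ¬ Set.InjOn (bl (HH X)) (la (zz X) S : Set ZI)).card : ℝ) := by
  have hC := h.one
  apply sml_of (C := 4 * C) (a := 1) (by norm_num)
  filter_upwards [ev_eL 1] with X hX
  have h0 : 0 < eL X := by linarith
  have h1 := h.coll X (zz X) (HH X) (X_pos h0) (zz_pos hX) (HH_pos h0)
  refine h1.trans ?_
  have hH := HH_ge h0
  have hHp : (0 : ℝ) < HH X := lt_of_lt_of_le (Real.exp_pos _) hH
  have hX0 : (0 : ℝ) ≤ X := Nat.cast_nonneg _
  have hzp : (0 : ℝ) < zz X := by exact_mod_cast zz_pos hX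
  have h2 : C * (X * (1 + Real.log X)) / HH X ≤ 2 * C * (X * Real.exp (-1 * eL X)) := by
    rw [div_le_iff₀ hHp]
    have h4 := one_add_log h0
    have e1 : Real.exp (eL X) ≤ Real.exp (-1 * eL X) * HH X := by
      calc Real.exp (eL X) ≤ Real.exp (-1 * eL X) * Real.exp (3 * eL X) := by
            rw [← Real.exp_add]
            apply Real.exp_le_exp.2
            linarith
        _ ≤ _ := mul_le_mul_of_nonneg_left hH (Real.exp_pos _).le
    calc C * (X * (1 + Real.log X)) ≤ C * (X * (2 * Real.exp (eL X))) := by gcongr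
      _ ≤ C * (X * (2 * (Real.exp (-1 * eL X) * HH X))) := by gcongr
      _ = 2 * C * (X * Real.exp (-1 * eL X)) * HH X := by ring
  have h3 : C * X / zz X ≤ 2 * C * (X * Real.exp (-1 * eL X)) := by
    rw [div_le_iff₀ hzp]
    have h4 := zz_ge hX
    have h5 : (1 : ℝ) / 2 ≤ Real.exp (-1 * eL X) * zz X := by
      have h6 : (1 : ℝ) ≤ Real.exp (-1 * eL X) * Real.exp ((eL X) ^ 3) := by
        rw [← Real.exp_add]
        apply one_le_exp
        have h7 : eL X ≤ (eL X) ^ 3 := by
          have h8 : (eL X) ^ 3 = eL X * (eL X * eL X) := by ring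
          rw [h8]
          nlinarith
        linarith
      calc (1 : ℝ) / 2 ≤ Real.exp (-1 * eL X) * Real.exp ((eL X) ^ 3) / 2 := by linarith
        _ = Real.exp (-1 * eL X) * (Real.exp ((eL X) ^ 3) / 2) := by ring
        _ ≤ _ := mul_le_mul_of_nonneg_left h4 (Real.exp_pos _).le
    calc C * X = 2 * C * X * (1 / 2) := by ring
      _ ≤ 2 * C * X * (Real.exp (-1 * eL X) * zz X) := by gcongr
      _ = _ := by ring
  linarith

/-- the main error term -/
theorem sml_main {C : ℝ} (hC : 1 ≤ C) : Sml 0 fun X => (9 * (NN X : ℝ) + 9) ^ kk X *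
    (3 ^ (20 * kk X ^ 2 + 20) * kap C X) * (X * (1 + Real.log X)) := by
  apply sml_of (C := 4 * C) (a := 1) (by norm_num)
  filter_upwards [ev_eL 80000] with X hX
  set l := eL X with hl
  have h0 : 0 < eL X := by linarith
  have h1 : 1 ≤ eL X := by linarith
  have hX0 : (0 : ℝ) ≤ X := Nat.cast_nonneg _
  have hN : 9 * (NN X : ℝ) + 9 ≤ Real.exp (5 * l) := by
    have h2 : (NN X : ℝ) ≤ HH X * Real.log X + 1 := by
      unfold NN
      push_cast
      have := Nat.floor_le (a := (HH X : ℝ) * Real.log X)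
        (mul_nonneg (Nat.cast_nonneg _) (Real.log_natCast_nonneg X))
      linarith
    have h3 : (HH X : ℝ) * Real.log X ≤ 2 * Real.exp (4 * l) := by
      rw [logX_eq h0]
      calc (HH X : ℝ) * Real.exp (eL X) ≤ 2 * Real.exp (3 * eL X) * Real.exp (eL X) :=
            mul_le_mul_of_nonneg_right (HH_le h0) (Real.exp_pos _).le
        _ = 2 * Real.exp (4 * l) := by
            rw [mul_assoc, ← Real.exp_add]
            congr 2
            rw [hl]
            ring
    have h4 : 1 ≤ Real.exp (4 * l) := one_le_exp (by linarith)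
    have h5 : (36 : ℝ) ≤ Real.exp l := by
      have := Real.add_one_le_exp l
      linarith
    have h6 : Real.exp (5 * l) = Real.exp (4 * l) * Real.exp l := by
      rw [← Real.exp_add]; congr 1; ring
    rw [h6]
    nlinarith
  have hkk := kk_le h1
  have hkk0 : (0 : ℝ) ≤ kk X := Nat.cast_nonneg _
  have hA : (9 * (NN X : ℝ) + 9) ^ kk X ≤ Real.exp (55 * l ^ 2) := by
    calc (9 * (NN X : ℝ) + 9) ^ kk X ≤ (Real.exp (5 * l)) ^ kk X := by gcongr
      _ = Real.exp (kk X * (5 * l)) := (Real.exp_nat_mul _ _).symm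
      _ ≤ Real.exp (55 * l ^ 2) := by
          apply Real.exp_le_exp.2
          nlinarith
  have hB : (3 : ℝ) ^ (20 * kk X ^ 2 + 20) ≤ Real.exp (2700 * l ^ 2) := by
    have e : (3 : ℝ) ^ (20 * kk X ^ 2 + 20) = Real.exp ((20 * (kk X : ℝ) ^ 2 + 20) * Real.log 3) := by
      rw [mul_comm (20 * (kk X : ℝ) ^ 2 + 20) (Real.log 3), Real.exp_mul, Real.exp_log (by norm_num)]
      rw [← Real.rpow_natCast]
      congr 1
      push_cast
      ring
    rw [e]
    apply Real.exp_le_exp.2
    have h2 := log_three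
    have h3 : (kk X : ℝ) ^ 2 ≤ 121 * l ^ 2 := by nlinarith
    have h4 : 0 ≤ (kk X : ℝ) ^ 2 := sq_nonneg _
    have h5 : (80000 : ℝ) ^ 2 ≤ l ^ 2 := by nlinarith
    calc (20 * (kk X : ℝ) ^ 2 + 20) * Real.log 3 ≤ (20 * (kk X : ℝ) ^ 2 + 20) * 1.1 := by gcongr
      _ ≤ (20 * (121 * l ^ 2) + 20) * 1.1 := by gcongr
      _ ≤ 2700 * l ^ 2 := by linarith
  have hK := kap_le hC h1
  have hLg := one_add_log h0
  have hmain : (9 * (NN X : ℝ) + 9) ^ kk X * (3 ^ (20 * kk X ^ 2 + 20) * kap C X) *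
      (X * (1 + Real.log X)) ≤ Real.exp (55 * l ^ 2) * (Real.exp (2700 * l ^ 2) *
        (2 * C * Real.exp (-l ^ 3 / 24))) * (X * (2 * Real.exp l)) := by
    have := kap_nonneg hC X
    have : 0 ≤ 1 + Real.log X := by
      have := Real.log_natCast_nonneg X
      linarith
    gcongr
  refine hmain.trans ?_
  have e : Real.exp (55 * l ^ 2) * (Real.exp (2700 * l ^ 2) *
        (2 * C * Real.exp (-l ^ 3 / 24))) * (X * (2 * Real.exp l)) =
      4 * C * (X * Real.exp (55 * l ^ 2 + 2700 * l ^ 2 + -l ^ 3 / 24 + l)) := by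
    rw [Real.exp_add, Real.exp_add, Real.exp_add]
    ring
  rw [e]
  have h9 : 55 * l ^ 2 + 2700 * l ^ 2 + -l ^ 3 / 24 + l ≤ -1 * l := by
    have h10 : 80000 * l ^ 2 ≤ l ^ 3 := by
      have : l ^ 3 = l * l ^ 2 := by ring
      rw [this]
      exact mul_le_mul_of_nonneg_right hX (sq_nonneg l)
    nlinarith
  have h11 := Real.exp_le_exp.2 h9
  have hC0 : (0 : ℝ) ≤ 4 * C := by linarith
  gcongr

/-- the comparison of the counts -/
theorem cmp (G : Finset ZI → Prop) (T S : Finset (Finset ZI)) (hTS : T ⊆ S) (c : ℝ) (hc0 : 0 ≤ c)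
    (hc1 : c ≤ 1) :
    |((S.filter G).card : ℝ) - c * (S.card : ℝ)| ≤
      |((T.filter G).card : ℝ) - c * (T.card : ℝ)| + ((S \ T).card : ℝ) := by
  have e1 : ((S.filter G).card : ℝ) = (T.filter G).card + ((S \ T).filter G).card := by
    rw [← Nat.cast_add, ← card_union_of_disjoint, ← filter_union, union_sdiff_of_subset hTS]
    exact disjoint_filter_filter (disjoint_sdiff)
  have e2 : (S.card : ℝ) = T.card + (S \ T).card := by
    rw [← Nat.cast_add, ← card_union_of_disjoint disjoint_sdiff, union_sdiff_of_subset hTS]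
  have h1 : |(((S \ T).filter G).card : ℝ) - c * ((S \ T).card : ℝ)| ≤ ((S \ T).card : ℝ) := by
    have h2 : (((S \ T).filter G).card : ℝ) ≤ ((S \ T).card : ℝ) := by
      exact_mod_cast card_filter_le _ _
    have h3 : (0 : ℝ) ≤ ((S \ T).card : ℝ) := Nat.cast_nonneg _
    exact Pool.Agent.Y703.CX.abs_sub_le_of (Nat.cast_nonneg _) h2 (mul_nonneg hc0 h3)
      (mul_le_of_le_one_left h3 hc1)
  have e3 : ((S.filter G).card : ℝ) - c * (S.card : ℝ) =
      (((T.filter G).card : ℝ) - c * (T.card : ℝ)) +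
      ((((S \ T).filter G).card : ℝ) - c * ((S \ T).card : ℝ)) := by
    rw [e1, e2]; ring
  rw [e3]
  exact (abs_add_le _ _).trans (add_le_add le_rfl h1)

theorem sm_la (z : ℕ) (S : Finset ZI) : sm z S ∪ la z S = S := by
  unfold sm la
  exact Finset.filter_union_filter_not_eq _ _

/-- the sets outside the regular part -/
theorem out_sub (κ : Lb → Prop) (V : Finset ZI) (A R : ℕ) (W : Finset ZI) (X z H k : ℕ) :
    (SS X).filter (Kc κ V) \ ((RR X z H k).filter fun S => NK κ V A R W (sm z S) (la z S)) ⊆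
      ((((SS X).filter fun S => k < S.card) ∪
      ((SS X).filter fun S => S.card ≤ k ∧
        X < (∏ π ∈ sm z S, nrm π) * ∏ π ∈ la z S, XX H (bl H π))) ∪
      ((SS X).filter fun S => ¬ Set.InjOn (bl H) (la z S : Set ZI))) ∪
      ((SS X).filter fun S => S.card ≤ k ∧ ¬ Rg A R W (sm z S) (la z S)) := by
  intro S hS
  rw [Finset.mem_sdiff, Finset.mem_filter, Finset.mem_filter] at hS
  obtain ⟨⟨h1, h1'⟩, h2⟩ := hS
  simp only [mem_union, mem_filter]
  by_contra hc
  push Not at hc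
  obtain ⟨⟨⟨c1, c2⟩, c3⟩, c5⟩ := hc
  have d1 : S.card ≤ k := c1 h1
  have d2 := c2 h1 d1
  have d3 := c3 h1
  have d5 := c5 h1 d1
  apply h2
  refine ⟨?_, ?_, d5⟩
  · unfold RR
    rw [mem_filter]
    exact ⟨h1, d3, d1, d2⟩
  · rw [sm_la]
    exact h1'

theorem asy : S_ASY := by
  intro h1 hK hC hBad κ V W T c hc0 hc1 hW hLow hBX
  obtain ⟨C, hC1, hkey⟩ := hK h1
  obtain ⟨D, hD⟩ := hC
  obtain ⟨c₀, X₀, hc, hlow⟩ := hLow
  have hD1 := hD.one
  rw [Metric.tendsto_nhds]
  intro ε hε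
  have hε' : 0 < c₀ * ε / (4 * D) := by positivity
  obtain ⟨A, R, hB⟩ := hBX _ hε'
  have s1 := sml_many hD
  have s2 := sml_cut hD
  have s3 := sml_coll hD
  have s5 := sml_eps (hBad A R W hW)
  have s6 := sml_main hC1
  have s := sml_add (sml_add (sml_add (sml_add s1 s2) s3) s5) s6
  have hδ : (0 : ℝ) < c₀ * ε / 4 := by positivity
  obtain ⟨WB, hWB⟩ : ∃ B : ℕ, ∀ u ∈ W, nrm u ≤ B :=
    ⟨W.sup fun u => nrm u, fun u hu => Finset.le_sup (f := fun u => nrm u) hu⟩
  have hzt : ∀ᶠ X : ℕ in atTop, WB ≤ zz X := by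
    filter_upwards [ev_eL (WB + 1)] with X hX
    have h0 : (1 : ℝ) ≤ eL X := by
      have : (0 : ℝ) ≤ WB := Nat.cast_nonneg _
      linarith
    unfold zz
    apply Nat.le_floor
    have h2 : (WB : ℝ) ≤ (eL X) ^ 3 := by
      have h3 : (1 : ℝ) * eL X ≤ (eL X) ^ 2 * eL X := by
        apply mul_le_mul_of_nonneg_right _ (by linarith)
        nlinarith
      have h4 : (eL X) ^ 3 = (eL X) ^ 2 * eL X := by ring
      linarith
    have h3 := Real.add_one_le_exp ((eL X) ^ 3)
    linarith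
  have hkt : ∀ n : ℕ, ∀ᶠ X : ℕ in atTop, n ≤ kk X := by
    intro n
    filter_upwards [ev_eL (n + 1)] with X hX
    have h2 := kk_ge X
    have h0 : (0 : ℝ) ≤ n := Nat.cast_nonneg _
    have : (n : ℝ) ≤ kk X := by linarith
    exact_mod_cast this
  filter_upwards [s (c₀ * ε / 4) hδ, ev_eL 1, eventually_ge_atTop X₀, hzt, hkt W.card,
    hkt 1] with X hX hl hX0 hz hk hkM
  rw [neg_zero, zero_mul, Real.exp_zero, mul_one] at hX
  have hl0 : 0 < eL X := by linarith
  have hlo := hlow X hX0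
  have hXp := X_pos hl0
  have hXp' : (0 : ℝ) < X := by exact_mod_cast hXp
  set Y := (SS X).filter (Kc κ V) with hY
  have hSpos : (0 : ℝ) < (Y.card : ℝ) := by
    refine lt_of_lt_of_le ?_ hlo
    positivity
  have hN : (HH X : ℝ) * Real.log X < NN X := by
    unfold NN
    push_cast
    exact Nat.lt_floor_add_one _
  have hmain := hkey (NK κ V A R W) T W c (c₀ * ε / (4 * D)) hc0 hc1 hε'.le hW hB X (zz X) (HH X)
    (kk X) (NN X) (kap C X) (fun u hu => (hWB u hu).trans hz) hk hkM hXp (HH_pos hl0) (zz_pos hl)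
    (kap_nonneg hC1 X) (kap_pow hC1 hl) hN
  set Q := (RR X (zz X) (HH X) (kk X)).filter fun S =>
    NK κ V A R W (sm (zz X) S) (la (zz X) S) with hQ
  have hTG : (RR X (zz X) (HH X) (kk X)).filter
      (fun S => NK κ V A R W (sm (zz X) S) (la (zz X) S) ∧ T S) = Q.filter T := by
    rw [hQ, filter_filter]
  rw [hTG] at hmain
  have hQY : Q ⊆ Y := by
    intro S hS
    rw [hQ, mem_filter] at hS
    rw [hY, mem_filter]
    refine ⟨(filter_subset _ _) hS.1, ?_⟩
    have h2 := hS.2.1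
    rwa [sm_la] at h2
  have hRS : ((RR X (zz X) (HH X) (kk X)).card : ℝ) ≤ D * X := by
    refine le_trans ?_ (hD.all X hXp)
    exact_mod_cast card_le_card (filter_subset _ _)
  have hcmp := cmp T Q Y hQY c hc0 hc1
  have hout : ((Y \ Q).card : ℝ) ≤
      ((((SS X).filter fun S => kk X < S.card).card : ℝ) +
      (((SS X).filter fun S => S.card ≤ kk X ∧
        X < (∏ π ∈ sm (zz X) S, nrm π) * ∏ π ∈ la (zz X) S, XX (HH X) (bl (HH X) π)).card : ℝ) +
      (((SS X).filter fun S => ¬ Set.InjOn (bl (HH X)) (la (zz X) S : Set ZI)).card : ℝ)) +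
      (((SS X).filter fun S => S.card ≤ kk X ∧
        ¬ Rg A R W (sm (zz X) S) (la (zz X) S)).card : ℝ) := by
    have g := card_le_card (out_sub κ V A R W X (zz X) (HH X) (kk X))
    rw [← hQ, ← hY] at g
    have g2 := (g.trans (card_union_le _ _)).trans (Nat.add_le_add_right ((card_union_le _ _).trans
      (Nat.add_le_add_right (card_union_le _ _) _)) _)
    exact_mod_cast g2
  have htot : |((Y.filter T).card : ℝ) - c * (Y.card : ℝ)| ≤
      c₀ * ε / 4 * X + c₀ * ε / 4 * X := by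
    have g1 : c₀ * ε / (4 * D) * ((RR X (zz X) (HH X) (kk X)).card : ℝ) ≤
        c₀ * ε / 4 * X := by
      calc c₀ * ε / (4 * D) * ((RR X (zz X) (HH X) (kk X)).card : ℝ) ≤
            c₀ * ε / (4 * D) * (D * X) := mul_le_mul_of_nonneg_left hRS hε'.le
        _ = c₀ * ε / 4 * X := by
          have : D ≠ 0 := by linarith
          field_simp
    linarith
  have hYT : (SS X).filter (fun S => Kc κ V S ∧ T S) = Y.filter T := by
    rw [hY, filter_filter]
  rw [hYT, Real.dist_eq]
  have e3 : ((Y.filter T).card : ℝ) / (Y.card : ℝ) - c =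
      (((Y.filter T).card : ℝ) - c * (Y.card : ℝ)) / (Y.card : ℝ) := by
    field_simp
  rw [e3, abs_div, abs_of_pos hSpos, div_lt_iff₀ hSpos]
  refine lt_of_le_of_lt htot ?_
  have g2 : c₀ * ε / 4 * X ≤ ε / 4 * (Y.card : ℝ) := by
    calc c₀ * ε / 4 * X = ε / 4 * (c₀ * X) := by ring
      _ ≤ _ := mul_le_mul_of_nonneg_left hlo (by linarith)
  have g4 : 0 < ε * (Y.card : ℝ) := by positivity
  linarith

end Pool.Agent.H519.Q7.Asy
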