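import Pool.Agent.H519.Q7.Out
import Pool.Graph.R_seed8.Y495.CX.FEW

/-! Project Q7 (helper519): few sets have irregular labels (task BAD; port of `Q241/GN/Bad.lean`). -/

set_option autoImplicit false

open scoped Classical

namespace Pool.Agent.H519.Q7.Bad

open Finset Filter
open Pool.Agent.Y699 (lg one_le_lg lg_pos lg_mono lg_sq lg_le_log log_le_lg sum_le_inj)
open Pool.Agent.Y703.CX (eL zz kk)
open Pool.Agent.H519.Q7
open Pool.Agent.Y495.CX.Few (PN mert eL_tendsto log_small zz_ge loglog_zz rpow_eq)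

theorem mem_SS' {X : ℕ} {S : Finset ZI} : S ∈ SS X ↔ (∀ π ∈ S, PP π) ∧ ∏ π ∈ S, nrm π ≤ X := by
  unfold SS
  rw [mem_filter, mem_powerset]
  constructor
  · rintro ⟨h1, h2⟩
    exact ⟨fun π hπ => (mem_QB.1 (h1 hπ)).2, h2⟩
  · rintro ⟨h1, h2⟩
    refine ⟨fun π hπ => mem_QB.2 ⟨?_, h1 π hπ⟩, h2⟩
    refine le_trans ?_ h2
    exact single_le_prod' (fun u hu => nrm_pos' (h1 u hu).ne) hπ

/-- the product of the norms -/
noncomputable def pN (S : Finset ZI) : ℕ := ∏ π ∈ S, nrm π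

theorem pN_pos {S : Finset ZI} (h : ∀ π ∈ S, PP π) : 0 < pN S :=
  Finset.prod_pos fun π hπ => nrm_pos' ((h π hπ).ne)

theorem eulerE (P : Finset ZI) (w : ZI → ℝ) (hw : ∀ p ∈ P, 0 ≤ w p) :
    ∑ S ∈ P.powerset, ∏ p ∈ S, w p ≤ Real.exp (∑ p ∈ P, w p) := by
  rw [← Finset.prod_one_add, Real.exp_sum]
  refine prod_le_prod (fun p hp => by have := hw p hp; linarith) fun p _ => ?_
  have := Real.add_one_le_exp (w p)
  linarith

/-- Mertens' theorem, upper bound -/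
theorem M_le : ∃ C : ℝ, 0 ≤ C ∧ ∀ N : ℕ, 3 ≤ N →
    ∑ π ∈ QB N, (1 : ℝ) / nrm π ≤ 2 * Real.log (Real.log N) + C := by
  obtain ⟨C, hC0, hC⟩ := mert
  refine ⟨2 * C, by positivity, fun N hN => ?_⟩
  have hmaps : ∀ π ∈ QB N, (nrm π).minFac ∈ PN N := by
    intro π hπ
    rw [mem_QB] at hπ
    obtain ⟨h1, -, h3, -⟩ := hπ.2.rat
    rw [mem_filter, mem_Icc]
    exact ⟨⟨h1.one_lt.le, h3.trans hπ.1⟩, h1⟩
  rw [← sum_fiberwise_of_maps_to hmaps]
  have h1 : ∀ p ∈ PN N, ∑ π ∈ (QB N).filter (fun π => (nrm π).minFac = p), (1 : ℝ) / nrm π ≤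
      2 * (1 / p) := by
    intro p hp
    have hpp : p.Prime := by
      rw [mem_filter] at hp
      exact hp.2
    have hp0 : (0 : ℝ) < p := by exact_mod_cast hpp.pos
    have h2 : ∀ π ∈ (QB N).filter (fun π => (nrm π).minFac = p), (1 : ℝ) / nrm π ≤ 1 / p := by
      intro π hπ
      rw [mem_filter, mem_QB] at hπ
      obtain ⟨-, -, h3, -⟩ := hπ.1.2.rat
      rw [hπ.2] at h3
      exact one_div_le_one_div_of_le hp0 (by exact_mod_cast h3)
    have h3 : ((QB N).filter (fun π => (nrm π).minFac = p)).card ≤ 2 := by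
      refine le_trans (card_le_card ?_) (card_PD_nat hpp)
      intro π hπ
      rw [mem_filter, mem_QB] at hπ
      obtain ⟨-, h4, -, -⟩ := hπ.1.2.rat
      rw [hπ.2] at h4
      have hp0' : (p : ZI) ≠ 0 := by
        intro h0
        have h1 := nrm_natCast p
        rw [h0] at h1
        have h2 : nrm (0 : ZI) = 0 := nrm_zero_iff.2 rfl
        rw [h2] at h1
        have := hpp.pos
        have : 0 < p ^ 2 := by positivity
        omega
      rw [mem_PD hp0']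
      exact ⟨hπ.1.2, h4⟩
    calc ∑ π ∈ (QB N).filter (fun π => (nrm π).minFac = p), (1 : ℝ) / nrm π
        ≤ ∑ π ∈ (QB N).filter (fun π => (nrm π).minFac = p), (1 : ℝ) / p := sum_le_sum h2
      _ = ((QB N).filter (fun π => (nrm π).minFac = p)).card * (1 / (p:ℝ)) := by
          rw [sum_const, nsmul_eq_mul]
      _ ≤ 2 * (1 / p) := by
          refine mul_le_mul_of_nonneg_right ?_ (by positivity)
          exact_mod_cast h3
  refine (sum_le_sum h1).trans ?_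
  rw [← mul_sum]
  have := hC N hN
  linarith

/-- the sum over the small parts -/
theorem small_sum (a : ℝ) (ha : 0 ≤ a) (z : ℕ) :
    ∑ S ∈ (QB z).powerset, a ^ S.card * (1 / (pN S : ℝ)) ≤
      Real.exp (a * ∑ π ∈ QB z, (1 : ℝ) / nrm π) := by
  have h := eulerE (QB z) (fun π => a * (1 / (nrm π : ℝ))) fun π _ => by positivity
  rw [← mul_sum] at h
  refine le_trans (le_of_eq ?_) h
  refine sum_congr rfl fun S _ => ?_
  rw [prod_mul_distrib, prod_const, prod_div_distrib, prod_const_one]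
  unfold pN
  push_cast
  rfl

/-- the general estimate -/
theorem gen (a b : ℝ) (ha : 0 ≤ a) (hb : 0 ≤ b) (Q : ℕ → Finset ZI → Prop)
    (hcount : ∀ (X : ℕ) (S₀ : Finset ZI), (∀ u ∈ S₀, PP u ∧ nrm u ≤ zz X) → S₀.card ≤ kk X →
      ∀ F : Finset (Finset ZI),
      (∀ S ∈ F, S ∈ SS X ∧ (S.card ≤ kk X ∧ Q X S) ∧ sm (zz X) S = S₀) → (F.card : ℝ) ≤
        b * a ^ S₀.card * lg (pN S₀) * (((X / pN S₀ : ℕ) : ℝ) *
          (lg (X / pN S₀)) ^ (-(1 / 4) : ℝ))) :
    ∀ ε : ℝ, 0 < ε → ∃ X₀ : ℕ, ∀ X : ℕ, X₀ ≤ X → ∀ F : Finset (Finset ZI),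
      (∀ S ∈ F, S ∈ SS X ∧ S.card ≤ kk X ∧ Q X S) → (F.card : ℝ) ≤ ε * X := by
  intro ε hε
  obtain ⟨C, hC0, hC⟩ := M_le
  -- the final comparison
  have hlim : Tendsto (fun l : ℝ => (297 * b * Real.exp (a * C)) * Real.exp (-(1 / 12) * l)) atTop
      (nhds 0) := by
    have h1 : Tendsto (fun l : ℝ => Real.exp (-(1 / 12) * l)) atTop (nhds 0) := by
      refine Real.tendsto_exp_atBot.comp ?_
      exact tendsto_id.const_mul_atTop_of_neg (by norm_num)
    have := h1.const_mul (297 * b * Real.exp (a * C))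
    rwa [mul_zero] at this
  have hpow : ∀ᶠ l : ℝ in atTop, 33 * l ^ 4 + 3 ≤ Real.exp l := by
    have h1 := (Real.isLittleO_pow_exp_atTop (n := 4)).bound (show (0:ℝ) < 1 / 66 by norm_num)
    filter_upwards [h1, eventually_ge_atTop (2:ℝ)] with l hl hl2
    rw [Real.norm_of_nonneg (by positivity), Real.norm_of_nonneg (Real.exp_pos _).le] at hl
    have h2 : (16:ℝ) ≤ l ^ 4 := by
      have := pow_le_pow_left₀ (by norm_num : (0:ℝ) ≤ 2) hl2 4
      linarith
    linarith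
  have hev := (((eL_tendsto.eventually (log_small (4 + 6 * a) (1 / 6) (by norm_num))).and
    (eL_tendsto.eventually (eventually_ge_atTop 2))).and
    (eL_tendsto.eventually (hlim.eventually (gt_mem_nhds hε)))).and (eL_tendsto.eventually hpow)
  obtain ⟨X₀, hX₀⟩ := eventually_atTop.1 hev
  refine ⟨max X₀ 3, fun X hX F hF => ?_⟩
  obtain ⟨⟨⟨k1, k2⟩, k3⟩, k4⟩ := hX₀ X ((le_max_left _ _).trans hX)
  have hX3 : 3 ≤ X := (le_max_right _ _).trans hX
  set ℓ : ℝ := eL X with hℓ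
  set z : ℕ := zz X with hz
  set k : ℕ := kk X with hk
  have hl0 : 0 < ℓ := by linarith
  have hlX : Real.log X = Real.exp ℓ := by
    have := rpow_eq (X := X) k2 1
    rwa [Real.rpow_one, one_mul] at this
  have hX0 : (0 : ℝ) < X := by exact_mod_cast (by omega : 0 < X)
  have hk11 : (k : ℝ) ≤ 11 * ℓ := by
    have h := Nat.ceil_lt_add_one (show (0 : ℝ) ≤ 10 * eL X by rw [← hℓ]; positivity)
    have h' : (k : ℝ) < 10 * ℓ + 1 := h
    linarith
  have hz3 : 3 ≤ z := zz_ge k2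
  have hz0 : (0 : ℝ) < z := by exact_mod_cast (by omega : 0 < z)
  have hzlog : Real.log z ≤ ℓ ^ 3 := by
    rw [Real.log_le_iff_le_exp hz0]
    exact Nat.floor_le (Real.exp_pos _).le
  have hzlog0 : 0 < Real.log z := Real.log_pos (by exact_mod_cast (by omega : 1 < z))
  have hl4 : (1 : ℝ) ≤ ℓ ^ 4 := one_le_pow₀ (by linarith)
  set W : Finset (Finset ZI) := (QB z).powerset.filter fun S => S.card ≤ k with hW
  have hmaps : ∀ S ∈ F, sm z S ∈ W := by
    intro S hS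
    replace hS := hF S hS
    rw [hW, mem_filter, mem_powerset]
    refine ⟨?_, (card_le_card (filter_subset _ _)).trans hS.2.1⟩
    intro π hπ
    unfold sm at hπ
    rw [mem_filter] at hπ
    have h1 := (mem_SS'.1 hS.1).1 π hπ.1
    rw [mem_QB]
    exact ⟨hπ.2, h1⟩
  have hcard : (F.card : ℝ) = ∑ S₀ ∈ W, ((F.filter fun S => sm z S = S₀).card : ℝ) := by
    have := card_eq_sum_card_fiberwise hmaps
    exact_mod_cast this
  have hone : ∀ S₀ ∈ W, ((F.filter fun S => sm z S = S₀).card : ℝ) ≤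
      (a ^ S₀.card * (1 / (pN S₀ : ℝ))) * (297 * b * ℓ ^ 4 * X * Real.exp (-(1 / 4) * ℓ)) := by
    intro S₀ hS₀
    rw [hW, mem_filter, mem_powerset] at hS₀
    have hpq : ∀ u ∈ S₀, PP u ∧ nrm u ≤ z := fun u hu => by
      have := hS₀.1 hu
      rw [mem_QB] at this
      exact ⟨this.2, this.1⟩
    have h1 := hcount X S₀ hpq hS₀.2 (F.filter fun S => sm z S = S₀) (fun S hS => by
      rw [mem_filter] at hS
      have h := hF S hS.1
      exact ⟨h.1, h.2, hS.2⟩)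
    refine h1.trans ?_
    set N := pN S₀ with hN
    have hN0 : 0 < N := pN_pos fun u hu => (hpq u hu).1
    have hN0' : (0 : ℝ) < N := by exact_mod_cast hN0
    have hlN : Real.log N ≤ 11 * ℓ ^ 4 := by
      have e1 : Real.log N = ∑ p ∈ S₀, Real.log (nrm p) := by
        rw [hN]
        unfold pN
        push_cast
        rw [Real.log_prod]
        intro p hp
        have := nrm_ne (hpq p hp).1.ne
        exact_mod_cast this
      rw [e1]
      calc ∑ p ∈ S₀, Real.log (nrm p) ≤ ∑ _p ∈ S₀, Real.log z := by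
            refine sum_le_sum fun p hp => ?_
            exact Real.log_le_log (by exact_mod_cast nrm_pos' (hpq p hp).1.ne)
              (by exact_mod_cast (hpq p hp).2)
        _ = S₀.card * Real.log z := by rw [sum_const, nsmul_eq_mul]
        _ ≤ (11 * ℓ) * ℓ ^ 3 := by
            refine mul_le_mul (le_trans (by exact_mod_cast hS₀.2) hk11) hzlog hzlog0.le
              (by positivity)
        _ = 11 * ℓ ^ 4 := by ring
    have hlgN : lg N ≤ 33 * ℓ ^ 4 := by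
      rcases Nat.lt_or_ge N 2 with h | h
      · have : N = 1 := by omega
        rw [this]
        have : lg 1 = 1 := by unfold lg; simp
        rw [this]
        linarith
      · have := lg_le_log h
        linarith
    have hYle : ((X / N : ℕ) : ℝ) ≤ (X : ℝ) / N := Nat.cast_div_le
    have hYge : Real.exp (Real.log X / 3) ≤ ((X / N : ℕ) : ℝ) := by
      have e1 : (X : ℝ) / N < ((X / N : ℕ) : ℝ) + 1 := by
        rw [div_lt_iff₀ hN0']
        have := Nat.lt_mul_div_succ X hN0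
        have h' : ((X : ℕ) : ℝ) < ((N * (X / N + 1) : ℕ) : ℝ) := by exact_mod_cast this
        rw [Nat.cast_mul, Nat.cast_add, Nat.cast_one] at h'
        linarith
      have e2 : Real.exp (Real.log X - Real.log N) = (X : ℝ) / N := by
        rw [Real.exp_sub, Real.exp_log hX0, Real.exp_log hN0']
      have e3 : Real.exp (Real.log X / 3 + 1) ≤ (X : ℝ) / N := by
        rw [← e2]
        apply Real.exp_le_exp.2
        rw [← hlX] at k4
        linarith
      rw [Real.exp_add] at e3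
      have e4 : (2 : ℝ) ≤ Real.exp 1 := by have := Real.exp_one_gt_d9; linarith
      have e5 : (1 : ℝ) ≤ Real.exp (Real.log X / 3) := by
        apply Real.one_le_exp
        rw [hlX]
        positivity
      nlinarith
    have hY1 : 1 ≤ X / N := by
      have : (0:ℝ) < ((X / N : ℕ) : ℝ) := lt_of_lt_of_le (Real.exp_pos _) hYge
      exact_mod_cast this
    have hlgY : Real.exp ℓ / 3 ≤ lg (X / N) := by
      refine le_trans ?_ (log_le_lg hY1)
      rw [← hlX, Real.le_log_iff_exp_le (by exact_mod_cast hY1)]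
      exact hYge
    have hrp : (lg (X / N)) ^ (-(1 / 4) : ℝ) ≤ 3 * Real.exp (-(1 / 4) * ℓ) := by
      have e1 : (lg (X / N)) ^ (-(1 / 4) : ℝ) ≤ (Real.exp ℓ / 3) ^ (-(1 / 4) : ℝ) :=
        Real.rpow_le_rpow_of_nonpos (by positivity) hlgY (by norm_num)
      refine e1.trans ?_
      rw [Real.div_rpow (Real.exp_pos _).le (by norm_num), ← Real.exp_mul, div_eq_mul_inv,
        ← Real.rpow_neg (by norm_num), neg_neg, mul_comm ℓ, mul_comm]
      refine mul_le_mul_of_nonneg_right ?_ (Real.exp_pos _).le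
      calc (3:ℝ) ^ (1 / 4 : ℝ) ≤ 3 ^ (1:ℝ) :=
            Real.rpow_le_rpow_of_exponent_le (by norm_num) (by norm_num)
        _ = 3 := Real.rpow_one _
    have hlg0 : 0 ≤ lg N := (zero_le_one.trans (one_le_lg N))
    have hrp0 : 0 ≤ (lg (X / N)) ^ (-(1 / 4) : ℝ) :=
      Real.rpow_nonneg (zero_le_one.trans (one_le_lg _)) _
    calc b * a ^ S₀.card * lg N * (((X / N : ℕ) : ℝ) * (lg (X / N)) ^ (-(1 / 4) : ℝ))
        ≤ b * a ^ S₀.card * (33 * ℓ ^ 4) * (((X : ℝ) / N) * (3 * Real.exp (-(1 / 4) * ℓ))) := by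
          gcongr
      _ ≤ _ := by
          have : b * a ^ S₀.card * (33 * ℓ ^ 4) * (((X : ℝ) / N) * (3 * Real.exp (-(1 / 4) * ℓ))) =
            (a ^ S₀.card * (1 / (N : ℝ))) * (99 * b * ℓ ^ 4 * X * Real.exp (-(1 / 4) * ℓ)) := by
            ring
          rw [this]
          gcongr
          norm_num
  have hsum : (F.card : ℝ) ≤ Real.exp (a * ∑ π ∈ QB z, (1 : ℝ) / nrm π) *
      (297 * b * ℓ ^ 4 * X * Real.exp (-(1 / 4) * ℓ)) := by
    rw [hcard]
    refine (sum_le_sum hone).trans ?_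
    rw [← sum_mul]
    refine mul_le_mul_of_nonneg_right ?_ (by positivity)
    refine le_trans ?_ (small_sum a ha z)
    refine sum_le_sum_of_subset_of_nonneg (filter_subset _ _) fun S _ _ => by positivity
  have hM : a * ∑ π ∈ QB z, (1 : ℝ) / nrm π ≤ a * C + 6 * a * Real.log ℓ := by
    have h1 := hC z hz3
    have h2 := loglog_zz k2
    have h3 : ∑ π ∈ QB z, (1 : ℝ) / nrm π ≤ 6 * Real.log ℓ + C := by linarith
    have := mul_le_mul_of_nonneg_left h3 ha
    linarith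
  have hl4' : ℓ ^ 4 = Real.exp (4 * Real.log ℓ) := by
    rw [show (4:ℝ) * Real.log ℓ = Real.log (ℓ ^ 4) by rw [Real.log_pow]; push_cast; ring]
    exact (Real.exp_log (by positivity)).symm
  calc (F.card : ℝ) ≤ Real.exp (a * C + 6 * a * Real.log ℓ) *
        (297 * b * ℓ ^ 4 * X * Real.exp (-(1 / 4) * ℓ)) := by
        refine hsum.trans ?_
        gcongr
    _ = 297 * b * Real.exp (a * C) * Real.exp ((4 + 6 * a) * Real.log ℓ - 1 / 4 * ℓ) * X := by
        rw [hl4', Real.exp_add, show (4 + 6 * a) * Real.log ℓ - 1 / 4 * ℓ =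
          6 * a * Real.log ℓ + 4 * Real.log ℓ + -(1 / 4) * ℓ by ring, Real.exp_add, Real.exp_add]
        ring
    _ ≤ 297 * b * Real.exp (a * C) * Real.exp (-(1 / 12) * ℓ) * X := by
        gcongr
        linarith
    _ ≤ ε * X := by
        refine mul_le_mul_of_nonneg_right ?_ hX0.le
        exact le_of_lt k3


/-- the large parts are counted by squarefree elements -/
theorem fiber_le (X z : ℕ) (S₀ : Finset ZI) (hS₀ : ∀ u ∈ S₀, PP u)
    (F : Finset (Finset ZI)) (hF : ∀ S ∈ F, S ∈ SS X ∧ sm z S = S₀) (g : ZI → ℝ)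
    (hg : ∀ π, 0 ≤ g π) (c : ℝ) (hc : ∀ S ∈ F, c ≤ ∏ π ∈ la z S, g π) :
    (F.card : ℝ) * c ≤ ∑ n ∈ SB (X / pN S₀), mf g n := by
  have hpr : ∀ S ∈ F, (∀ π ∈ S, PP π) ∧ ∏ π ∈ S, nrm π ≤ X := by
    intro S hS
    exact mem_SS'.1 (hF S hS).1
  rw [← nsmul_eq_mul, ← sum_const]
  refine sum_le_inj (fun S => ∏ π ∈ la z S, π) ?_ ?_ ?_ ?_
  · intro S hS
    obtain ⟨h1, h2⟩ := hpr S hS
    rw [mem_SB]
    refine ⟨?_, (PS_prod fun π hπ => h1 π (filter_subset _ _ hπ)).1⟩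
    rw [Nat.le_div_iff_mul_le (pN_pos hS₀), nrm_prod, mul_comm]
    have : (∏ π ∈ sm z S, nrm π) * ∏ π ∈ la z S, nrm π = ∏ π ∈ S, nrm π :=
      prod_filter_mul_prod_filter_not _ _ _
    unfold pN
    rw [← (hF S hS).2, this]
    exact h2
  · intro S hS T hT h
    have e1 := (PS_prod (S := la z S) fun π hπ => (hpr S hS).1 π (filter_subset _ _ hπ)).2
    have e2 := (PS_prod (S := la z T) fun π hπ => (hpr T hT).1 π (filter_subset _ _ hπ)).2
    have e3 : la z S = la z T := by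
      rw [← e1, ← e2]
      exact congrArg PD h
    have key : ∀ S : Finset ZI, sm z S ∪ la z S = S := fun S => filter_union_filter_not_eq _ _
    rw [← key S, ← key T, (hF S hS).2, (hF T hT).2, e3]
  · intro S hS
    refine (hc S hS).trans (le_of_eq ?_)
    unfold mf
    rw [(PS_prod (S := la z S) fun π hπ => (hpr S hS).1 π (filter_subset _ _ hπ)).2]
  · intro n _
    exact mf_nonneg hg n

theorem one_le_div {X z : ℕ} {S₀ : Finset ZI} (hS₀ : ∀ u ∈ S₀, PP u) {S : Finset ZI}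
    (hS : S ∈ SS X ∧ sm z S = S₀) : 1 ≤ X / pN S₀ := by
  have h := mem_SS'.1 hS.1
  rw [Nat.le_div_iff_mul_le (pN_pos hS₀), one_mul]
  refine le_trans ?_ h.2
  unfold pN
  rw [← hS.2]
  exact prod_le_prod_of_subset_of_one_le' (filter_subset _ _) fun u hu _ => nrm_pos' (h.1 u hu).ne

/-- sets with few large primes at which a function is `1 / 2` -/
theorem half_count (X z : ℕ) (S₀ : Finset ZI) (hS₀ : ∀ u ∈ S₀, PP u)
    (F : Finset (Finset ZI)) (hF : ∀ S ∈ F, S ∈ SS X ∧ sm z S = S₀) (q : ZI → Prop) [DecidablePred q]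
    (L : ℕ) (hq : ∀ S ∈ F, ((la z S).filter q).card ≤ L) (B : ℝ) (hB : 0 ≤ B)
    (hH : ∀ T : ℕ, 1 ≤ T → ∑ n ∈ SB T, mf (fun π => if q π then (1 / 2 : ℝ) else 1) n ≤
      B * (T * (lg T) ^ (-(1 / 4) : ℝ))) :
    (F.card : ℝ) ≤ 2 ^ L * (B * (((X / pN S₀ : ℕ) : ℝ) * (lg (X / pN S₀)) ^ (-(1 / 4) : ℝ))) := by
  have hTl : 0 ≤ ((X / pN S₀ : ℕ) : ℝ) * (lg (X / pN S₀)) ^ (-(1 / 4) : ℝ) :=
    mul_nonneg (Nat.cast_nonneg _) (Real.rpow_nonneg (zero_le_one.trans (one_le_lg _)) _)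
  rcases F.eq_empty_or_nonempty with h0 | ⟨S₁, hS₁⟩
  · rw [h0, card_empty, Nat.cast_zero]
    positivity
  have hT := one_le_div hS₀ (hF S₁ hS₁)
  have h := fiber_le X z S₀ hS₀ F hF (fun π => if q π then (1 / 2 : ℝ) else 1)
    (fun π => by split_ifs <;> norm_num) ((1 / 2) ^ L) (fun S hS => by
      rw [prod_ite, prod_const, prod_const_one, mul_one]
      exact pow_le_pow_of_le_one (by norm_num) (by norm_num) (hq S hS))
  have h2 := h.trans (hH _ hT)
  have h3 : (2 : ℝ) ^ L * (1 / 2) ^ L = 1 := by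
    rw [← mul_pow]
    norm_num
  calc (F.card : ℝ) = 2 ^ L * ((F.card : ℝ) * (1 / 2) ^ L) := by
        linear_combination (-(F.card : ℝ)) * h3
    _ ≤ _ := mul_le_mul_of_nonneg_left h2 (by positivity)

theorem chi_ne (hS : SymP) {c : Lb} {w : Finset ZI} (hw : ∀ u ∈ w, PP u) {π : ZI} (hπ : PP π)
    (h : chi (c + (∑ u ∈ w, tO u, 0, 0, 0)) (∏ u ∈ w, u) π = -1) :
    dot c (fc π) + ∑ u ∈ w, s π u ≠ 0 := by
  by_cases hπw : π ∈ w
  · exfalso
    have h1 : jac (∏ u ∈ w, u) π = 0 :=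
      jac_eq_zero (PS_prod hw).1.ne hπ (dvd_prod_of_mem _ hπw) dvd_rfl
    unfold chi at h
    rw [h1] at h
    norm_num at h
  · rw [hS.chr c w π hw hπ hπw] at h
    intro h0
    rw [h0, sg_zero] at h
    norm_num at h

theorem lg_mul_le {a b : ℕ} (ha : a ≠ 0) (hb : b ≠ 0) : lg (a * b) ≤ 2 * lg b * lg a := by
  have h1 : lg (a * b) ≤ lg a + lg b := by
    unfold lg
    have h1 : a * b < 2 ^ (Nat.log 2 a + Nat.log 2 b + 2) := by
      calc a * b < 2 ^ (Nat.log 2 a + 1) * 2 ^ (Nat.log 2 b + 1) := by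
            refine Nat.mul_lt_mul'' ?_ ?_
            · exact Nat.lt_pow_succ_log_self (by norm_num) a
            · exact Nat.lt_pow_succ_log_self (by norm_num) b
        _ = 2 ^ (Nat.log 2 a + Nat.log 2 b + 2) := by rw [← pow_add]; ring_nf
    have h2 : Nat.log 2 (a * b) < Nat.log 2 a + Nat.log 2 b + 2 :=
      Nat.log_lt_of_lt_pow (mul_ne_zero ha hb) h1
    have h3 : Nat.log 2 (a * b) + 1 ≤ Nat.log 2 a + 1 + (Nat.log 2 b + 1) := by omega
    exact_mod_cast h3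
  have h2 := one_le_lg a
  have h3 := one_le_lg b
  nlinarith

theorem nrm_prod_le {S₀ W w : Finset ZI} (hS₀ : ∀ u ∈ S₀, PP u) (hW : ∀ u ∈ W, PP u)
    (hw : w ⊆ S₀ ∪ W) : nrm (∏ u ∈ w, u) ≤ pN S₀ * pN W := by
  rw [nrm_prod]
  have hall : ∀ u ∈ S₀ ∪ W, 1 ≤ nrm u := by
    intro u hu
    rcases mem_union.1 hu with h | h
    · exact nrm_pos' (hS₀ u h).ne
    · exact nrm_pos' (hW u h).ne
  calc ∏ u ∈ w, nrm u ≤ ∏ u ∈ S₀ ∪ W, nrm u :=
        prod_le_prod_of_subset_of_one_le' hw fun u hu _ => hall u hu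
    _ ≤ (∏ u ∈ S₀ ∪ W, nrm u) * ∏ u ∈ S₀ ∩ W, nrm u := by
        refine Nat.le_mul_of_pos_right _ ?_
        exact prod_pos fun u hu => nrm_pos' (hS₀ u (mem_inter.1 hu).1).ne
    _ = pN S₀ * pN W := prod_union_inter

theorem bad_count (hS : SymP) {CH : ℝ} (hCH1 : 1 ≤ CH)
    (hCH : ∀ (c : Lb) (G : ZI) (T : ℕ), PS G → (c ≠ 0 ∨ G ≠ 1) → 1 ≤ T →
      ∑ n ∈ SB T, mf (fun π => if chi c G π = -1 then (1 / 2 : ℝ) else 1) n ≤
        CH * lg (nrm G) * (T * (lg T) ^ (-(1 / 4) : ℝ)))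
    (A R : ℕ) (W : Finset ZI) (hW : ∀ u ∈ W, PP u)
    (X : ℕ) (S₀ : Finset ZI) (hS₀ : ∀ u ∈ S₀, PP u ∧ nrm u ≤ zz X)
    (G : Finset (Finset ZI))
    (hG : ∀ S ∈ G, S ∈ SS X ∧ (S.card ≤ kk X ∧ ¬ Rg A R W (sm (zz X) S) (la (zz X) S)) ∧
      sm (zz X) S = S₀) : (G.card : ℝ) ≤
        (2 ^ (W.card + 4) * 2 ^ (A * W.card + R) * (CH * (2 * lg (pN W)))) *
          (2 ^ (A + 1)) ^ S₀.card * lg (pN S₀) * (((X / pN S₀ : ℕ) : ℝ) *
          (lg (X / pN S₀)) ^ (-(1 / 4) : ℝ)) := by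
  set L : ℕ := A * (S₀ ∪ W).card + R with hL
  set Y : ℝ := ((X / pN S₀ : ℕ) : ℝ) * (lg (X / pN S₀)) ^ (-(1 / 4) : ℝ) with hY
  have hY0 : 0 ≤ Y :=
    mul_nonneg (Nat.cast_nonneg _) (Real.rpow_nonneg (zero_le_one.trans (one_le_lg _)) _)
  have hS₀' : ∀ u ∈ S₀, PP u := fun u hu => (hS₀ u hu).1
  have hlS := one_le_lg (pN S₀)
  have hlW := one_le_lg (pN W)
  set D : ℝ := CH * (2 * lg (pN W) * lg (pN S₀)) with hD
  have hD0 : 0 ≤ D := by positivity
  set Gw : Lb × Finset ZI → Finset (Finset ZI) := fun t =>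
    G.filter fun S => ((la (zz X) S).filter fun π => dot t.1 (fc π) + ∑ u ∈ t.2, s π u ≠ 0).card < L
    with hGw
  set P : Finset (Lb × Finset ZI) :=
    ((univ : Finset Lb) ×ˢ (S₀ ∪ W).powerset).filter fun t => t.1 ≠ 0 ∨ t.2.Nonempty with hP
  have hsub : G ⊆ P.biUnion Gw := by
    intro S hS'
    obtain ⟨h1, ⟨h2, h3⟩, h4⟩ := hG S hS'
    rw [h4] at h3
    unfold Rg RN at h3
    push Not at h3
    obtain ⟨c, w, hw, hwn, h5⟩ := h3
    rw [mem_biUnion]
    refine ⟨(c, w), ?_, ?_⟩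
    · rw [hP, mem_filter, mem_product, mem_powerset]
      exact ⟨⟨mem_univ _, hw⟩, hwn⟩
    · rw [hGw, mem_filter]
      exact ⟨hS', h5⟩
  have hw1 : ∀ t ∈ P, ((Gw t).card : ℝ) ≤ 2 ^ L * (D * Y) := by
    rintro ⟨c, w⟩ hw
    rw [hP, mem_filter, mem_product, mem_powerset] at hw
    obtain ⟨⟨-, hwS⟩, hcw⟩ := hw
    simp only at hwS hcw
    have hwP : ∀ u ∈ w, PP u := by
      intro u hu
      rcases mem_union.1 (hwS hu) with h | h
      · exact hS₀' u h
      · exact hW u h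
    obtain ⟨g1, g2⟩ := PS_prod hwP
    have g3 : (c + (∑ u ∈ w, tO u, 0, 0, 0)) ≠ 0 ∨ (∏ u ∈ w, u) ≠ 1 := by
      rcases w.eq_empty_or_nonempty with h0 | h0
      · left
        rcases hcw with h1 | h1
        · rw [h0, sum_empty]
          have : c + ((0, 0, 0, 0) : Lb) = c := add_zero c
          rw [this]
          exact h1
        · exact absurd h1 (by rw [h0]; exact not_nonempty_empty)
      · right
        intro h
        rw [h, PD_one] at g2
        exact h0.ne_empty g2.symm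
    refine half_count X (zz X) S₀ hS₀' (Gw (c, w)) (fun S hS' => ?_)
      (fun π => chi (c + (∑ u ∈ w, tO u, 0, 0, 0)) (∏ u ∈ w, u) π = -1) L (fun S hS' => ?_) D hD0
      (fun T hT => ?_)
    · rw [hGw, mem_filter] at hS'
      exact ⟨(hG S hS'.1).1, (hG S hS'.1).2.2⟩
    · rw [hGw, mem_filter] at hS'
      refine le_trans (card_le_card ?_) hS'.2.le
      intro π hπ
      rw [mem_filter] at hπ ⊢
      have hπP : PP π := (mem_SS'.1 (hG S hS'.1).1).1 π (filter_subset _ _ hπ.1)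
      exact ⟨hπ.1, chi_ne hS hwP hπP hπ.2⟩
    · refine (hCH _ _ T g1 g3 hT).trans ?_
      refine mul_le_mul_of_nonneg_right ?_ ?_
      · rw [hD]
        have h1 : lg (nrm (∏ u ∈ w, u)) ≤ 2 * lg (pN W) * lg (pN S₀) :=
          (lg_mono (nrm_prod_le hS₀' hW hwS)).trans
            (lg_mul_le (pN_pos hS₀').ne' (pN_pos hW).ne')
        exact mul_le_mul_of_nonneg_left h1 (by linarith)
      · exact mul_nonneg (Nat.cast_nonneg _)
          (Real.rpow_nonneg (zero_le_one.trans (one_le_lg _)) _)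
  have hcU : (S₀ ∪ W).card ≤ S₀.card + W.card := card_union_le _ _
  have hPc : (P.card : ℝ) ≤ 2 ^ (W.card + 4) * 2 ^ S₀.card := by
    have h1 : P.card ≤ 2 ^ (W.card + 4) * 2 ^ S₀.card := by
      have h2 : P.card ≤ 16 * 2 ^ (S₀ ∪ W).card := by
        refine (card_filter_le _ _).trans (le_of_eq ?_)
        rw [card_product, card_powerset]
        congr 1
      have h3 : 2 ^ (S₀ ∪ W).card ≤ 2 ^ (S₀.card + W.card) :=
        Nat.pow_le_pow_right (by norm_num) hcU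
      calc P.card ≤ 16 * 2 ^ (S₀ ∪ W).card := h2
        _ ≤ 16 * 2 ^ (S₀.card + W.card) := by omega
        _ = 2 ^ (W.card + 4) * 2 ^ S₀.card := by ring
    exact_mod_cast h1
  have h2L : (2 : ℝ) ^ L ≤ 2 ^ (A * W.card + R) * (2 ^ A) ^ S₀.card := by
    rw [← pow_mul, ← pow_add]
    refine pow_le_pow_right₀ (by norm_num) ?_
    rw [hL]
    nlinarith
  calc (G.card : ℝ) ≤ ((P.biUnion Gw).card : ℝ) := by exact_mod_cast card_le_card hsub
    _ ≤ ∑ t ∈ P, ((Gw t).card : ℝ) := by exact_mod_cast card_biUnion_le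
    _ ≤ ∑ t ∈ P, 2 ^ L * (D * Y) := sum_le_sum hw1
    _ = (P.card : ℝ) * (2 ^ L * (D * Y)) := by rw [sum_const, nsmul_eq_mul]
    _ ≤ (2 ^ (W.card + 4) * 2 ^ S₀.card) * ((2 ^ (A * W.card + R) * (2 ^ A) ^ S₀.card) *
          (D * Y)) := by gcongr
    _ = _ := by
        rw [hD, pow_succ (2 : ℝ) A, mul_pow]
        ring

/-- **Q7-BAD** -/
theorem bad : S_BAD := by
  intro hS hHAL A R W hW ε hε
  obtain ⟨CH, hCH1, hCH⟩ := hHAL
  have hlW := one_le_lg (pN W)
  obtain ⟨X₀, hX₀⟩ := gen (2 ^ (A + 1))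
    (2 ^ (W.card + 4) * 2 ^ (A * W.card + R) * (CH * (2 * lg (pN W))))
    (by positivity) (by positivity)
    (fun X S => ¬ Rg A R W (sm (zz X) S) (la (zz X) S))
    (fun X S₀ hS₀ _ F hF => bad_count hS hCH1 hCH A R W hW X S₀ hS₀ F hF) ε hε
  refine ⟨X₀, fun X hX => hX₀ X hX _ fun S hS' => ?_⟩
  rw [mem_filter] at hS'
  exact hS'

end Pool.Agent.H519.Q7.Bad
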