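import Pool.Agent.H519.Q7.Cheb
import Pool.Graph.R_seed8.Y699.Hal2

/-!
# Project Q7: mean values of multiplicative functions

After `Pool/Graph/R_seed8/Y699/{Hall,Hal2}.lean` (Gaussian) and `Pool/Graph/R_seed8/Y699/E/{Hall,Hal2}.lean`
(Eisenstein), with a general completely multiplicative function `χ` with the values `0, 1, -1` instead of
`jac G`.
-/

set_option autoImplicit false

open scoped Classical

namespace Pool.Agent.H519.Q7

open Finset
open Pool.Agent.Y699 (lg one_le_lg lg_pos lg_mono lg_sq lg_le_log log_le_lg inv_tel sqrt_tel harm_le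
  sum_le_inj sgn_sum)

lemma mf_nonneg {g : ZI → ℝ} (h0 : ∀ π, 0 ≤ g π) (n : ZI) : 0 ≤ mf g n :=
  prod_nonneg fun _ _ => h0 _

lemma mf_le_one {g : ZI → ℝ} (h0 : ∀ π, 0 ≤ g π) (h1 : ∀ π, g π ≤ 1) (n : ZI) : mf g n ≤ 1 :=
  prod_le_one (fun _ _ => h0 _) fun _ _ => h1 _

theorem hall1 {g : ZI → ℝ} (h0 : ∀ π, 0 ≤ g π) (h1 : ∀ π, g π ≤ 1) {T : ℕ} (hT : 1 ≤ T) :
    (∑ n ∈ SB T, mf g n) * Real.log T ≤ 7 * T * ∑ n ∈ SB T, mf g n / nrm n := by
  classical
  have T0 : (0 : ℝ) < T := by exact_mod_cast hT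
  have e1 : (∑ n ∈ SB T, mf g n) * Real.log T ≤
      ∑ n ∈ SB T, mf g n * Real.log (nrm n) + ∑ n ∈ SB T, mf g n * (T / nrm n) := by
    rw [sum_mul, ← sum_add_distrib]
    refine sum_le_sum fun n hn => ?_
    rw [mem_SB] at hn
    have n0 : (0 : ℝ) < nrm n := by exact_mod_cast nrm_pos' hn.2.ne
    have h2 := Real.log_le_sub_one_of_pos (show (0 : ℝ) < T / nrm n by positivity)
    rw [Real.log_div T0.ne' n0.ne'] at h2
    have h3 := mf_nonneg h0 n
    nlinarith
  have e2 : ∑ n ∈ SB T, mf g n * Real.log (nrm n) ≤ 6 * T * ∑ n ∈ SB T, mf g n / nrm n := by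
    have e3 : ∑ n ∈ SB T, mf g n * Real.log (nrm n) =
        ∑ x ∈ (SB T).sigma (fun n => PD n), mf g x.1 * Real.log (nrm x.2) := by
      rw [sum_sigma]
      refine sum_congr rfl fun n hn => ?_
      rw [log_nrm (mem_SB.1 hn).2, mul_sum]
    have e4 : ∑ x ∈ (SB T).sigma (fun n => PD n), mf g x.1 * Real.log (nrm x.2) ≤
        ∑ x ∈ (SB T).sigma (fun m => QB (T / nrm m)), mf g x.1 * Real.log (nrm x.2) := by
      have key : ∀ x ∈ (SB T).sigma (fun n => PD n),
          x.2 * (∏ ρ ∈ (PD x.1).erase x.2, ρ) = x.1 ∧ PS (∏ ρ ∈ (PD x.1).erase x.2, ρ) ∧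
          PD (∏ ρ ∈ (PD x.1).erase x.2, ρ) = (PD x.1).erase x.2 ∧ PP x.2 := by
        rintro ⟨n, π⟩ hx
        rw [mem_sigma, mem_SB] at hx
        simp only at hx ⊢
        have h2 : ∀ ρ ∈ (PD n).erase π, PP ρ := fun ρ hρ => ((mem_PD hx.1.2.ne).1 (mem_of_mem_erase hρ)).1
        refine ⟨?_, (PS_prod h2).1, (PS_prod h2).2, ((mem_PD hx.1.2.ne).1 hx.2).1⟩
        rw [mul_prod_erase (PD n) (fun ρ => ρ) hx.2]
        exact hx.1.2.prod
      refine sum_le_inj (fun x => ⟨∏ ρ ∈ (PD x.1).erase x.2, ρ, x.2⟩) ?_ ?_ ?_ ?_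
      · intro x hx
        obtain ⟨k1, k2, -, k4⟩ := key x hx
        rw [mem_sigma, mem_SB] at hx
        rw [mem_sigma, mem_SB, mem_QB]
        simp only
        have h3 : nrm x.2 * nrm (∏ ρ ∈ (PD x.1).erase x.2, ρ) ≤ T := by
          rw [← nrm_mul, k1]
          exact hx.1.1
        have h4 := nrm_pos' k4.ne
        have h5 := nrm_pos' k2.ne
        refine ⟨⟨?_, k2⟩, ?_, k4⟩
        · exact (Nat.le_mul_of_pos_left _ h4).trans h3
        · rw [Nat.le_div_iff_mul_le h5]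
          exact h3
      · rintro ⟨a, π⟩ ha ⟨b, ρ⟩ hb hab
        obtain ⟨k1, -⟩ := key _ ha
        obtain ⟨l1, -⟩ := key _ hb
        simp only [Sigma.mk.injEq, heq_eq_eq] at hab k1 l1
        obtain ⟨h2, rfl⟩ := hab
        rw [h2] at k1
        rw [k1] at l1
        rw [l1]
      · rintro ⟨n, π⟩ hx
        obtain ⟨k1, k2, k3, k4⟩ := key _ hx
        simp only at k1 k2 k3 k4 ⊢
        rw [mem_sigma] at hx
        apply mul_le_mul_of_nonneg_right _ (Real.log_natCast_nonneg _)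
        unfold mf
        rw [k3, ← mul_prod_erase (PD n) g hx.2]
        exact mul_le_of_le_one_left (prod_nonneg fun _ _ => h0 _) (h1 _)
      · intro x _
        exact mul_nonneg (mf_nonneg h0 _) (Real.log_natCast_nonneg _)
    rw [e3]
    refine e4.trans ?_
    rw [sum_sigma, mul_sum]
    refine sum_le_sum fun m hm => ?_
    show ∑ s ∈ QB (T / nrm m), mf g m * Real.log (nrm s) ≤ _
    rw [← mul_sum]
    have h2 := theta_le (T / nrm m)
    have h3 : ((T / nrm m : ℕ) : ℝ) ≤ (T : ℝ) / nrm m := Nat.cast_div_le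
    calc mf g m * ∑ π ∈ QB (T / nrm m), Real.log (nrm π) ≤ mf g m * (6 * ((T : ℝ) / nrm m)) := by
          apply mul_le_mul_of_nonneg_left _ (mf_nonneg h0 _)
          linarith
      _ = 6 * T * (mf g m / nrm m) := by ring
  have e3 : ∑ n ∈ SB T, mf g n * (T / nrm n) = T * ∑ n ∈ SB T, mf g n / nrm n := by
    rw [mul_sum]
    refine sum_congr rfl fun n _ => by ring
  rw [e3] at e1
  linarith

theorem hall2 {g : ZI → ℝ} (h0 : ∀ π, 0 ≤ g π) (h1 : ∀ π, g π ≤ 1) (T : ℕ) :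
    (∑ n ∈ SB T, mf g n / nrm n) ^ 2 ≤ ∑ n ∈ PB (T ^ 2), mf (fun π => 2 * g π) n / nrm n := by
  classical
  have e1 : (∑ n ∈ SB T, mf g n / nrm n) ^ 2 =
      ∑ x ∈ (SB T) ×ˢ (SB T), (mf g x.1 * mf g x.2) / nrm (x.1 * x.2) := by
    rw [sq, sum_mul_sum, sum_product]
    refine sum_congr rfl fun x _ => sum_congr rfl fun y _ => ?_
    rw [nrm_mul, div_mul_div_comm]
    push_cast
    rfl
  have hmaps : ∀ x ∈ (SB T) ×ˢ (SB T), x.1 * x.2 ∈ PB (T ^ 2) := by
    intro x hx
    rw [mem_product, mem_SB, mem_SB] at hx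
    rw [mem_PB, nrm_mul, sq]
    exact ⟨Nat.mul_le_mul hx.1.1 hx.2.1, prim_mul hx.1.2.prm hx.2.2.prm⟩
  rw [e1, ← sum_fiberwise_of_maps_to hmaps]
  refine sum_le_sum fun n hn => ?_
  rw [mem_PB] at hn
  have hn0 := prim_ne_zero hn.2
  have h2 : ∀ x ∈ ((SB T) ×ˢ (SB T)).filter (fun x => x.1 * x.2 = n),
      (mf g x.1 * mf g x.2) / nrm (x.1 * x.2) ≤ mf g n / nrm n := by
    intro x hx
    rw [mem_filter, mem_product, mem_SB, mem_SB] at hx
    rw [hx.2]
    apply div_le_div_of_nonneg_right _ (Nat.cast_nonneg _)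
    have h3 : PD n = PD x.1 ∪ PD x.2 := by rw [← hx.2]; exact PD_mul hx.1.1.2.ne hx.1.2.2.ne
    unfold mf
    rw [h3, ← prod_union_inter]
    exact mul_le_of_le_one_right (prod_nonneg fun _ _ => h0 _)
      (prod_le_one (fun _ _ => h0 _) (fun _ _ => h1 _))
  refine (sum_le_sum h2).trans ?_
  rw [sum_const, nsmul_eq_mul]
  have h3 : (((SB T) ×ˢ (SB T)).filter (fun x => x.1 * x.2 = n)).card ≤ 2 ^ (PD n).card := by
    rw [← card_powerset]
    refine card_le_card_of_injOn (fun x => PD x.1) ?_ ?_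
    · intro x hx
      rw [mem_coe, mem_filter, mem_product, mem_SB, mem_SB] at hx
      rw [mem_coe, mem_powerset]
      refine PD_subset hn0 ?_
      rw [← hx.2]
      exact dvd_mul_right _ _
    · intro x hx y hy hxy
      rw [mem_coe, mem_filter, mem_product, mem_SB, mem_SB] at hx hy
      simp only at hxy
      have h4 : x.1 = y.1 := by
        rw [← hx.1.1.2.prod, ← hy.1.1.2.prod, hxy]
      have h5 : x.1 * x.2 = x.1 * y.2 := by
        rw [hx.2, h4, hy.2]
      exact Prod.ext h4 (mul_left_cancel₀ hx.1.1.2.ne h5)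
  have h4 : mf (fun π => 2 * g π) n = 2 ^ (PD n).card * mf g n := by
    unfold mf
    rw [prod_mul_distrib, prod_const]
  rw [h4, mul_div_assoc]
  apply mul_le_mul_of_nonneg_right _ (div_nonneg (mf_nonneg h0 _) (Nat.cast_nonneg _))
  exact_mod_cast h3

lemma hall_aux {g : ZI → ℝ} (h0 : ∀ π, 0 ≤ g π) (h1 : ∀ π, g π ≤ 1) {T : ℕ} (hT : 1 ≤ T) {A : ℝ}
    (hA1 : 1 ≤ A) (hA : ∑ n ∈ PB (T ^ 2), mf (fun π => 2 * g π) n / nrm n ≤ A * lg T) :
    ∑ n ∈ SB T, mf g n ≤ 21 * Real.sqrt A * (T / Real.sqrt (lg T)) := by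
  classical
  have hl := lg_pos T
  have hs : 0 < Real.sqrt (lg T) := Real.sqrt_pos.2 hl
  have hsA : 1 ≤ Real.sqrt A := Real.one_le_sqrt.2 hA1
  have T0 : (0 : ℝ) < T := by exact_mod_cast hT
  by_cases hT1 : T = 1
  · subst hT1
    have h2 : ∑ n ∈ SB 1, mf g n ≤ 9 := by
      refine (sum_le_sum fun n _ => mf_le_one h0 h1 n).trans ?_
      rw [sum_const, nsmul_eq_mul, mul_one]
      refine (card_SB_le le_rfl).trans (le_of_eq (by norm_num))
    have h3 : lg 1 = 1 := by unfold lg; simp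
    rw [h3, Real.sqrt_one]
    push_cast
    linarith
  · have hT2 : 2 ≤ T := by omega
    set S := ∑ n ∈ SB T, mf g n with hS
    set S1 := ∑ n ∈ SB T, mf g n / nrm n with hS1
    have hS0 : 0 ≤ S := sum_nonneg fun n _ => mf_nonneg h0 n
    have hS10 : 0 ≤ S1 := sum_nonneg fun n _ => div_nonneg (mf_nonneg h0 n) (Nat.cast_nonneg _)
    have h2 := hall1 h0 h1 hT
    have h3 := (hall2 h0 h1 T).trans hA
    rw [← hS, ← hS1] at h2
    rw [← hS1] at h3
    have h4 : S1 ≤ Real.sqrt A * Real.sqrt (lg T) := by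
      rw [← Real.sqrt_mul (by linarith)]
      exact Real.le_sqrt_of_sq_le h3
    have h5 := lg_le_log hT2
    have h6 : Real.sqrt (lg T) * Real.sqrt (lg T) = lg T := Real.mul_self_sqrt hl.le
    have h7 : S * lg T ≤ 21 * T * (Real.sqrt A * Real.sqrt (lg T)) := by
      calc S * lg T ≤ S * (3 * Real.log T) := mul_le_mul_of_nonneg_left h5 hS0
        _ = 3 * (S * Real.log T) := by ring
        _ ≤ 3 * (7 * T * S1) := by linarith
        _ ≤ 3 * (7 * T * (Real.sqrt A * Real.sqrt (lg T))) := by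
            have := mul_le_mul_of_nonneg_left h4 (show (0 : ℝ) ≤ 7 * T by positivity)
            linarith
        _ = 21 * T * (Real.sqrt A * Real.sqrt (lg T)) := by ring
    have h8 : S * Real.sqrt (lg T) ≤ 21 * T * Real.sqrt A := by
      have h9 : (S * Real.sqrt (lg T)) * Real.sqrt (lg T) ≤ (21 * T * Real.sqrt A) * Real.sqrt (lg T) := by
        rw [mul_assoc, h6]
        linarith
      exact le_of_mul_le_mul_right h9 hs
    rw [mul_div_assoc', le_div_iff₀ hs]
    linarith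

/-- the primary divisors -/
noncomputable def DP (n : ZI) : Finset ZI := (PB (nrm n)).filter (fun d => d ∣ n)

lemma mem_DP {n d : ZI} (hn : n ≠ 0) : d ∈ DP n ↔ prim d ∧ d ∣ n := by
  unfold DP
  rw [mem_filter, mem_PB]
  constructor
  · rintro ⟨⟨-, h1⟩, h2⟩
    exact ⟨h1, h2⟩
  · rintro ⟨h1, h2⟩
    exact ⟨⟨norm_le_of_dvd hn h2, h1⟩, h2⟩

lemma sum_DP_mul {π m : ZI} (hπ : PP π) (hm : prim m) (hd : ¬ π ∣ m) (k : ℕ) (h : ZI → ℝ) :
    ∑ d ∈ DP (π ^ k * m), h d = ∑ j ∈ range (k + 1), ∑ d ∈ DP m, h (π ^ j * d) := by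
  classical
  have hm0 := prim_ne_zero hm
  have hn0 : π ^ k * m ≠ 0 := mul_ne_zero (pow_ne_zero _ hπ.ne) hm0
  rw [← sum_product']
  symm
  refine sum_bij (fun x _ => π ^ x.1 * x.2) ?_ ?_ ?_ ?_
  · rintro ⟨j, d⟩ hx
    rw [mem_product, mem_range, mem_DP hm0] at hx
    rw [mem_DP hn0]
    simp only at hx ⊢
    exact ⟨prim_mul (prim_pow hπ.prm j) hx.2.1, mul_dvd_mul (pow_dvd_pow _ (by omega)) hx.2.2⟩
  · rintro ⟨i, c⟩ hx ⟨j, d⟩ hy hxy
    rw [mem_product, mem_range, mem_DP hm0] at hx hy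
    simp only at hx hy hxy
    have hc : ¬ π ∣ c := fun h => hd (h.trans hx.2.2)
    have hd' : ¬ π ∣ d := fun h => hd (h.trans hy.2.2)
    have hij : ∀ {i j : ℕ} {c d : ZI}, ¬ π ∣ d → π ^ i * c = π ^ j * d → i ≤ j := by
      intro i j c d h1 h2
      by_contra h3
      push Not at h3
      obtain ⟨t, ht⟩ := Nat.exists_eq_add_of_lt h3
      apply h1
      have h4 : π ^ j * (π * (π ^ t * c)) = π ^ j * d := by
        rw [← h2, ht]
        ring
      have h5 := mul_left_cancel₀ (pow_ne_zero _ hπ.ne) h4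
      rw [← h5]
      exact dvd_mul_right _ _
    have h1 : i = j := le_antisymm (hij hd' hxy) (hij hc hxy.symm)
    subst h1
    have h2 := mul_left_cancel₀ (pow_ne_zero _ hπ.ne) hxy
    rw [h2]
  · intro d hdn
    rw [mem_DP hn0] at hdn
    have hd0 := prim_ne_zero hdn.1
    obtain ⟨j, c, hc, hdc⟩ := WfDvdMonoid.max_power_factor hd0 hπ.pr.irreducible
    have hcp : prim c := prim_cancel (prim_pow hπ.prm j) (by rw [← hdc]; exact hdn.1)
    have hcop : IsCoprime c (π ^ k) := by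
      refine IsCoprime.pow_right ?_
      rw [isCoprime_comm]
      exact (hπ.pr.irreducible.coprime_iff_not_dvd).2 hc
    have h1 : c ∣ m := by
      refine hcop.dvd_of_dvd_mul_left ?_
      refine dvd_trans ?_ hdn.2
      rw [hdc]
      exact dvd_mul_left _ _
    have h2 : π ^ j ∣ π ^ k := by
      have h3 : IsCoprime (π ^ j) m := by
        refine IsCoprime.pow_left ?_
        exact (hπ.pr.irreducible.coprime_iff_not_dvd).2 hd
      refine h3.dvd_of_dvd_mul_right ?_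
      refine dvd_trans ?_ hdn.2
      rw [hdc]
      exact dvd_mul_right _ _
    have h3 : j ≤ k := (pow_dvd_pow_iff hπ.ne hπ.pr.not_isUnit).1 h2
    refine ⟨(j, c), ?_, hdc.symm⟩
    rw [mem_product, mem_range, mem_DP hm0]
    exact ⟨by simp only; omega, hcp, h1⟩
  · intro x _
    rfl

/-- completely multiplicative functions with the values `0, 1, -1` -/
structure Chr (χ : ZI → ℝ) : Prop where
  val : ∀ n, χ n = 0 ∨ χ n = 1 ∨ χ n = -1
  one : χ 1 = 1
  mul : ∀ a b, prim a → prim b → χ (a * b) = χ a * χ b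

theorem conv_le {χ : ZI → ℝ} (hχ : Chr χ) : ∀ n : ZI, prim n →
    mf (fun π => 1 + χ π) n ≤ ∑ d ∈ DP n, χ d := by
  have hv := hχ.val
  have hnn : ∀ n, 0 ≤ mf (fun π => 1 + χ π) n := by
    intro n
    apply mf_nonneg
    intro π
    rcases hv π with h | h | h <;> rw [h] <;> norm_num
  have key : ∀ N : ℕ, ∀ n : ZI, nrm n = N → prim n →
      mf (fun π => 1 + χ π) n ≤ ∑ d ∈ DP n, χ d := by
    intro N
    induction N using Nat.strong_induction_on with
    | _ N ih =>
      intro n hN hn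
      have hn0 := prim_ne_zero hn
      by_cases h1 : n = 1
      · rw [h1]
        have e1 : mf (fun π => 1 + χ π) 1 = 1 := by unfold mf; rw [PD_one]; simp
        have e2 : DP (1 : ZI) = {1} := by
          ext d
          rw [mem_DP one_ne_zero, mem_singleton]
          constructor
          · rintro ⟨a1, a2⟩
            exact eq_one_of_prim a1 (isUnit_of_dvd_one a2)
          · rintro rfl
            exact ⟨prim_one, dvd_rfl⟩
        rw [e1, e2, sum_singleton, hχ.one]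
      · have hnu : ¬ IsUnit n := by
          intro h2
          exact h1 (eq_one_of_prim hn h2)
        obtain ⟨ρ, hρ, hρn⟩ := WfDvdMonoid.exists_irreducible_factor hnu hn0
        obtain ⟨π, hπ, hass⟩ := exists_PP (irreducible_iff_prime.1 hρ)
          (not_dvd_mo (irreducible_iff_prime.1 hρ) hρn hn)
        have hπn : π ∣ n := hass.dvd.trans hρn
        obtain ⟨k, m, hm, hnm⟩ := WfDvdMonoid.max_power_factor hn0 hπ.pr.irreducible
        have hk : 1 ≤ k := by
          by_contra h2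
          have : k = 0 := by omega
          rw [this, pow_zero, one_mul] at hnm
          rw [hnm] at hπn
          exact hm hπn
        have hmp : prim m := prim_cancel (prim_pow hπ.prm k) (by rw [← hnm]; exact hn)
        have hm0 := prim_ne_zero hmp
        have hlt : nrm m < N := by
          rw [← hN, hnm, nrm_mul]
          have h2 : 1 < nrm (π ^ k) := by
            have h3 : π ∣ π ^ k := dvd_pow_self π (by omega)
            have h4 : nrm π ≤ nrm (π ^ k) := norm_le_of_dvd (pow_ne_zero _ hπ.ne) h3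
            have h5 := hπ.nrm_ne_one
            have h6 := nrm_pos' hπ.ne
            omega
          have h3 := nrm_pos' hm0
          nlinarith
        have h2 := ih (nrm m) hlt m rfl hmp
        rw [hnm, sum_DP_mul hπ hmp hm]
        have e1 : mf (fun π => 1 + χ π) (π ^ k * m) =
            (1 + χ π) * mf (fun π => 1 + χ π) m := by
          unfold mf
          classical
          have h3 : PD (π ^ k * m) = insert π (PD m) := by
            ext ρ
            rw [mem_insert, mem_PD (mul_ne_zero (pow_ne_zero _ hπ.ne) hm0), mem_PD hm0]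
            constructor
            · rintro ⟨a1, a2⟩
              rcases a1.pr.dvd_or_dvd a2 with a3 | a3
              · left
                exact a1.eq_of_dvd hπ (a1.pr.dvd_of_dvd_pow a3)
              · right
                exact ⟨a1, a3⟩
            · rintro (rfl | ⟨a1, a2⟩)
              · exact ⟨hπ, (dvd_pow_self _ (by omega)).mul_right _⟩
              · exact ⟨a1, a2.mul_left _⟩
          rw [h3, prod_insert]
          rw [mem_PD hm0]
          exact fun h4 => hm h4.2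
        rw [e1]
        have e2 : ∀ j : ℕ, ∀ d ∈ DP m, χ (π ^ j * d) = χ π ^ j * χ d := by
          intro j d hd
          have : ∀ j : ℕ, χ (π ^ j) = (χ π) ^ j := by
            intro j
            induction j with
            | zero => rw [pow_zero, pow_zero, hχ.one]
            | succ j ih => rw [pow_succ, pow_succ, hχ.mul _ _ (prim_pow hπ.prm j) hπ.prm, ih]
          rw [hχ.mul _ _ (prim_pow hπ.prm j) ((mem_DP hm0).1 hd).1, this]
        rw [sum_congr rfl (fun j _ => sum_congr rfl (e2 j))]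
        simp_rw [← mul_sum]
        rw [← sum_mul]
        have h3 := sgn_sum (hv π) hk
        have h4 : (0 : ℝ) ≤ 1 + χ π := by
          rcases hv π with h | h | h <;> rw [h] <;> norm_num
        exact mul_le_mul h3 h2 (hnn m) (h4.trans h3)
  intro n hn
  exact key _ n rfl hn

theorem conv_sum (χ : ZI → ℝ) (V : ℕ) : ∑ n ∈ PB V, (∑ d ∈ DP n, χ d) / nrm n =
    ∑ k ∈ PB V, (1 / (nrm k : ℝ)) * ∑ d ∈ PB (V / nrm k), χ d / nrm d := by
  classical
  have e1 : ∑ n ∈ PB V, (∑ d ∈ DP n, χ d) / nrm n =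
      ∑ x ∈ (PB V).sigma (fun n => DP n), χ x.2 / nrm x.1 := by
    rw [sum_sigma]
    refine sum_congr rfl fun n _ => ?_
    rw [sum_div]
  have e2 : ∑ k ∈ PB V, (1 / (nrm k : ℝ)) * ∑ d ∈ PB (V / nrm k), χ d / nrm d =
      ∑ x ∈ (PB V).sigma (fun k => PB (V / nrm k)), χ x.2 / nrm (x.2 * x.1) := by
    rw [sum_sigma]
    refine sum_congr rfl fun k _ => ?_
    rw [mul_sum]
    refine sum_congr rfl fun d _ => ?_
    rw [nrm_mul]
    push_cast
    rw [div_mul_div_comm, one_mul, mul_comm (nrm k : ℝ)]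
  rw [e1, e2]
  symm
  refine sum_bij (fun x _ => ⟨x.2 * x.1, x.2⟩) ?_ ?_ ?_ ?_
  · rintro ⟨k, d⟩ hx
    rw [mem_sigma, mem_PB, mem_PB] at hx
    simp only at hx ⊢
    have hk0 := prim_ne_zero hx.1.2
    have hd0 := prim_ne_zero hx.2.2
    rw [mem_sigma, mem_PB, mem_DP (mul_ne_zero hd0 hk0)]
    simp only
    refine ⟨⟨?_, prim_mul hx.2.2 hx.1.2⟩, hx.2.2, dvd_mul_right _ _⟩
    rw [nrm_mul]
    exact (Nat.le_div_iff_mul_le (nrm_pos' hk0)).1 hx.2.1
  · rintro ⟨k, d⟩ hx ⟨k', d'⟩ hy hxy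
    rw [mem_sigma, mem_PB, mem_PB] at hx hy
    simp only [Sigma.mk.injEq, heq_eq_eq] at hxy hx hy
    obtain ⟨h1, rfl⟩ := hxy
    have := mul_left_cancel₀ (prim_ne_zero hx.2.2) h1
    rw [this]
  · rintro ⟨n, d⟩ hx
    rw [mem_sigma, mem_PB] at hx
    simp only at hx
    have hn0 := prim_ne_zero hx.1.2
    rw [mem_DP hn0] at hx
    obtain ⟨⟨h1, h2⟩, h3, k, rfl⟩ := hx
    have hk : prim k := prim_cancel h3 h2
    have hk0 := prim_ne_zero hk
    have hd0 := prim_ne_zero h3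
    refine ⟨⟨k, d⟩, ?_, rfl⟩
    rw [mem_sigma, mem_PB, mem_PB]
    simp only
    rw [nrm_mul] at h1
    refine ⟨⟨(Nat.le_mul_of_pos_left _ (nrm_pos' hd0)).trans h1, hk⟩, ?_, h3⟩
    rw [Nat.le_div_iff_mul_le (nrm_pos' hk0)]
    exact h1
  · intro x _
    rfl

/-- partial summation: from the sums of `χ` to the sums of `χ / nrm` (after `chs_log` of `Y699/Hal2.lean`) -/
theorem chs_log {χ : ZI → ℝ} (hχ : Chr χ) {M : ℕ} (hM : 1 ≤ M)
    (h : ∀ v : ℕ, 1 ≤ v → |∑ d ∈ PB v, χ d| ≤ 100000 * M * Real.sqrt v) (Y : ℕ) :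
    |∑ d ∈ PB Y, χ d / nrm d| ≤ 1000000 * lg M := by
  classical
  have htriv : ∀ v : ℕ, 1 ≤ v → |∑ d ∈ PB v, χ d| ≤ 9 * v := by
    intro v hv
    refine (abs_sum_le_sum_abs _ _).trans ((sum_le_sum (g := fun _ => (1 : ℝ)) fun d _ => ?_).trans ?_)
    · rcases hχ.val d with h | h | h <;> rw [h] <;> norm_num
    · rw [sum_const, nsmul_eq_mul, mul_one]
      exact card_PB_le hv
  obtain ⟨N, rfl⟩ : ∃ N, N = M := ⟨_, rfl⟩
  have hN1 : 1 ≤ N := hM
  have hlg := one_le_lg N
  rcases Nat.eq_zero_or_pos Y with h0 | hY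
  · have : PB Y = ∅ := by
      rw [eq_empty_iff_forall_notMem]
      intro x hx
      rw [mem_PB] at hx
      have := nrm_pos' (prim_ne_zero hx.2)
      omega
    rw [this, sum_empty, abs_zero]
    linarith
  have hYr : (0 : ℝ) < Y := by exact_mod_cast hY
  -- summation by parts
  have e1 : ∑ d ∈ PB Y, χ d / nrm d = (∑ d ∈ PB Y, χ d) * (1 / Y) +
      ∑ v ∈ Ico 1 Y, (∑ d ∈ PB v, χ d) * (1 / ((v : ℝ) * (v + 1))) := by
    have e2 : ∀ d ∈ PB Y, χ d / nrm d = χ d * (1 / Y) +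
        ∑ v ∈ Ico 1 Y, if nrm d ≤ v then χ d * (1 / ((v : ℝ) * (v + 1))) else 0 := by
      intro d hd
      rw [mem_PB] at hd
      have hd1 := nrm_pos' (prim_ne_zero hd.2)
      have h2 := inv_tel (nrm d) hd1 Y hd.1
      rw [div_eq_mul_one_div, h2, mul_add, mul_sum]
      congr 1
      rw [← sum_filter]
      refine sum_congr ?_ fun _ _ => rfl
      ext v
      rw [mem_filter, mem_Ico, mem_Ico]
      constructor
      · rintro ⟨a1, a2⟩; exact ⟨⟨by omega, a2⟩, a1⟩
      · rintro ⟨⟨-, a2⟩, a1⟩; exact ⟨a1, a2⟩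
    rw [sum_congr rfl e2, sum_add_distrib, ← sum_mul, sum_comm]
    congr 1
    refine sum_congr rfl fun v hv => ?_
    rw [mem_Ico] at hv
    rw [← sum_filter, ← sum_mul]
    congr 1
    refine sum_congr ?_ fun _ _ => rfl
    ext d
    rw [mem_filter, mem_PB, mem_PB]
    constructor
    · rintro ⟨⟨-, a2⟩, a1⟩; exact ⟨a1, a2⟩
    · rintro ⟨a1, a2⟩; exact ⟨⟨by omega, a2⟩, a1⟩
  rw [e1]
  refine (abs_add_le _ _).trans ?_
  have e3 : |(∑ d ∈ PB Y, χ d) * (1 / Y)| ≤ 9 := by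
    rw [abs_mul, abs_of_pos (show (0 : ℝ) < 1 / Y by positivity), mul_one_div, div_le_iff₀ hYr]
    exact htriv Y hY
  have e4 : ∀ v ∈ Ico 1 Y, |(∑ d ∈ PB v, χ d) * (1 / ((v : ℝ) * (v + 1)))| ≤
      (if v < N ^ 2 then 9 * (1 / ((v : ℝ) + 1)) else 0) +
      (if N ^ 2 ≤ v then 100000 * N * (Real.sqrt v / (v * (v + 1))) else 0) := by
    intro v hv
    rw [mem_Ico] at hv
    have v0 : (0 : ℝ) < v := by exact_mod_cast hv.1
    have hp : (0 : ℝ) < 1 / ((v : ℝ) * (v + 1)) := by positivity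
    rw [abs_mul, abs_of_pos hp]
    by_cases hvN : v < N ^ 2
    · rw [if_pos hvN, if_neg (by omega), add_zero]
      calc |∑ d ∈ PB v, χ d| * (1 / ((v : ℝ) * (v + 1))) ≤ (9 * v) * (1 / ((v : ℝ) * (v + 1))) :=
            mul_le_mul_of_nonneg_right (htriv v hv.1) hp.le
        _ = 9 * (1 / ((v : ℝ) + 1)) := by field_simp
    · rw [if_neg hvN, if_pos (by omega), zero_add]
      calc |∑ d ∈ PB v, χ d| * (1 / ((v : ℝ) * (v + 1))) ≤
            (100000 * N * Real.sqrt v) * (1 / ((v : ℝ) * (v + 1))) :=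
            mul_le_mul_of_nonneg_right (h v hv.1) hp.le
        _ = 100000 * N * (Real.sqrt v / (v * (v + 1))) := by ring
  have e5 : |∑ v ∈ Ico 1 Y, (∑ d ∈ PB v, χ d) * (1 / ((v : ℝ) * (v + 1)))| ≤
      9 * (2 * lg N) + 200000 := by
    refine (abs_sum_le_sum_abs _ _).trans ((sum_le_sum e4).trans ?_)
    rw [sum_add_distrib]
    have hN2 : 1 ≤ N ^ 2 := Nat.one_le_pow _ _ hN1
    have a1 : ∑ v ∈ Ico 1 Y, (if v < N ^ 2 then 9 * (1 / ((v : ℝ) + 1)) else 0) ≤ 9 * (2 * lg N) := by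
      rw [← sum_filter, ← mul_sum]
      have h2 : ∑ v ∈ (Ico 1 Y).filter (fun v => v < N ^ 2), (1 : ℝ) / ((v : ℝ) + 1) ≤
          ∑ v ∈ Ico 1 (N ^ 2), (1 : ℝ) / ((v : ℝ) + 1) := by
        refine sum_le_sum_of_subset_of_nonneg ?_ (fun _ _ _ => by positivity)
        intro v hv
        rw [mem_filter, mem_Ico] at hv
        rw [mem_Ico]
        exact ⟨hv.1.1, hv.2⟩
      have h3 := harm_le (N ^ 2) hN2
      have h4 : Real.log ((N ^ 2 : ℕ) : ℝ) = 2 * Real.log N := by
        push_cast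
        rw [Real.log_pow]
        push_cast
        ring
      rw [h4] at h3
      have h5 := log_le_lg hN1
      linarith
    have a2 : ∑ v ∈ Ico 1 Y, (if N ^ 2 ≤ v then 100000 * (N : ℝ) * (Real.sqrt v / (v * (v + 1))) else 0) ≤ 200000 := by
      rw [← sum_filter, ← mul_sum]
      have h2 : ∑ v ∈ (Ico 1 Y).filter (fun v => N ^ 2 ≤ v), Real.sqrt v / ((v : ℝ) * (v + 1)) ≤
          ∑ v ∈ Ico (N ^ 2) (max Y (N ^ 2)), Real.sqrt v / ((v : ℝ) * (v + 1)) := by
        refine sum_le_sum_of_subset_of_nonneg ?_ (fun _ _ _ => by positivity)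
        intro v hv
        rw [mem_filter, mem_Ico] at hv
        rw [mem_Ico]
        exact ⟨hv.2, lt_of_lt_of_le hv.1.2 (le_max_left _ _)⟩
      have h3 := sqrt_tel (N ^ 2) hN2 (max Y (N ^ 2)) (le_max_right _ _)
      have h4 : Real.sqrt ((N ^ 2 : ℕ) : ℝ) = N := by
        push_cast
        exact Real.sqrt_sq (Nat.cast_nonneg _)
      rw [h4] at h3
      have h5 : (0 : ℝ) ≤ 1 / Real.sqrt ((max Y (N ^ 2) : ℕ) : ℝ) := by positivity
      have Nr : (0 : ℝ) < N := by exact_mod_cast hN1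
      calc 100000 * (N : ℝ) * ∑ v ∈ (Ico 1 Y).filter (fun v => N ^ 2 ≤ v), Real.sqrt v / ((v : ℝ) * (v + 1))
          ≤ 100000 * N * (2 * (1 / N)) := by
            apply mul_le_mul_of_nonneg_left _ (by positivity)
            linarith
        _ = 200000 := by field_simp; norm_num
    linarith
  linarith

end Pool.Agent.H519.Q7
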