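import Pool.Agent.H519.Q7.Def
import Pool.Graph.R_pool_sql_team_seeded_3dad9d7b.NH57.BL.LA
import Pool.Graph.R_pool_sql_team_seeded_3dad9d7b.NH57.BL.LJ

/-!
# Project Q7 (helper519): natural density over `ℤ[ω]` of the good twists: statements of the parts

`S` runs over the finite sets of primary primes of `ℤ[ω]` (the squarefree primary elements), ordered by the
norm of the product. Port of project GN of helper155 (Gaussian integers;
`Pool/Graph/R_pool_sql_team_seeded_3997aac3/Q155/GN/Stm.lean`, proofs in `Q14/GN/SYM`, `Q177/GN/Bil`,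
`Q14/GN/EQ`, `Q121/GN/HA4`, `Q146/GN/Hal`, `Q146/GN/Cnt`, `Q241/GN/Bad`, `Q153/GN/Lab`, `Q153/GN/Low`,
`Q153/GN/Box`, `Q195/GN/Key`, `Q153/GN/Asy` of the same run) with the number theory of
`Pool/Graph/R_seed8/Y699/{Sym,Pd,Lat,Csum,Jsum,Box,Lg,Sqf,Cheb,Hall,Hal2}` (Gaussian). Differences:
the symbol is not symmetric (`SymP.recip`), the labels are `fc π : Lb` (four bits), and the regular labels are
those for which ALL the nontrivial characters `dot c (fc π) + ∑ u ∈ w, s π u` take the value `1` at many large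
primes.
-/

set_option autoImplicit false
set_option linter.unusedVariables false

open scoped Classical

namespace Pool.Agent.H519.Q7

open Finset Filter
open Pool.Agent.Y699 (lg)
open Pool.Agent.Y703.CX (jj XX eL zz kk)
open Pool.Agent.NH57.BL (prs c2 GdS S_LAX ext)

/-- the sets of primary primes with product of norm at most `X` -/
noncomputable def SS (X : ℕ) : Finset (Finset ZI) :=
  (QB X).powerset.filter fun S => ∏ π ∈ S, nrm π ≤ X

/-- the small primes of a set -/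
noncomputable def sm (z : ℕ) (S : Finset ZI) : Finset ZI := S.filter fun π => nrm π ≤ z

/-- the large primes of a set -/
noncomputable def la (z : ℕ) (S : Finset ZI) : Finset ZI := S.filter fun π => ¬ nrm π ≤ z

/-- the number of the block of a prime -/
noncomputable def bl (H : ℕ) (π : ZI) : ℕ := jj H (nrm π)

/-- the sets which are counted in boxes -/
noncomputable def RR (X z H k : ℕ) : Finset (Finset ZI) :=
  (SS X).filter fun S => Set.InjOn (bl H) (la z S : Set ZI) ∧ S.card ≤ k ∧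
    (∏ π ∈ sm z S, nrm π) * ∏ π ∈ la z S, XX H (bl H π) ≤ X

/-- Q7-SYM: the properties of the symbols and of the labels. -/
structure SymP : Prop where
  recip : ∀ π ρ : ZI, PP π → PP ρ → π ≠ ρ → s π ρ + s ρ π = tO π * tO ρ
  self : ∀ π : ZI, PP π → s π π = 0
  one : ∀ π ρ : ZI, s π ρ = 1 ↔ qr π ρ = -1
  zero : ∀ π ρ : ZI, PP π → PP ρ → π ≠ ρ → (s π ρ = 0 ↔ qr π ρ = 1)
  prod : ∀ (π : ZI) (U : Finset ZI), PP π → (∀ u ∈ U, PP u) → π ∉ U →
    ∑ u ∈ U, s π u = s π (∏ u ∈ U, u)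
  prim_prod : ∀ S : Finset ZI, (∀ π ∈ S, PP π) → prim (∏ π ∈ S, π)
  fc_prod : ∀ S : Finset ZI, (∀ π ∈ S, PP π) → fc (∏ π ∈ S, π) = ∑ π ∈ S, fc π
  /-- the character of the primes `π` given by `c` and the symbols `s π u`, `u ∈ w`, is `chi` -/
  chr : ∀ (c : Lb) (w : Finset ZI) (π : ZI), (∀ u ∈ w, PP u) → PP π → π ∉ w →
    chi (c + (∑ u ∈ w, tO u, 0, 0, 0)) (∏ u ∈ w, u) π = sg (dot c (fc π) + ∑ u ∈ w, s π u)
  eight : ∀ a : ZI, prim a → ((8 : ZI) ∣ a - 1 ↔ (fc a).1 = 0 ∧ (fc a).2.1 = 0 ∧ (fc a).2.2.1 = 0)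

/-- Q7-BIL (after `Q177/GN/Bil`, `Y699/Jsum`, `Y699/Box`): bilinear sums. -/
def S_BIL : Prop := ∃ C : ℝ, 1 ≤ C ∧ ∀ (P Q : Finset ZI) (A B z : ℕ) (c d : ZI → ℝ),
  (∀ π ∈ P, PP π ∧ nrm π ≤ A) → (∀ ρ ∈ Q, PP ρ ∧ nrm ρ ≤ B) → Disjoint P Q →
  1 ≤ z → z ≤ A → z ≤ B → (∀ π, |c π| ≤ 1) → (∀ ρ, |d ρ| ≤ 1) →
  |∑ π ∈ P, ∑ ρ ∈ Q, c π * d ρ * sg (s π ρ)| ^ 24 * z ≤ C * ((A : ℝ) * B) ^ 24

/-- the table of the symbols of a tuple -/
noncomputable def tb {ι : Type} [Fintype ι] [LinearOrder ι] (p : ι → ZI) : prs ι → ZMod 2 :=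
  fun e => s (p e.1.1) (p e.1.2)

/-- the bilinear hypothesis for a box -/
def HB {ι : Type} (C : ι → Finset ZI) (X : ι → ℕ) (κ : ℝ) : Prop :=
  ∀ i l : ι, i ≠ l → ∀ c d : ZI → ℝ, (∀ π, |c π| ≤ 1) → (∀ ρ, |d ρ| ≤ 1) →
    |∑ x ∈ C i, ∑ y ∈ C l, c x * d y * sg (s x y)| ≤ κ * (X i * X l)

/-- Q7-EQ (after `Q14/GN/EQ.lean`): equidistribution of the symbols of a tuple. -/
def S_EQ : Prop := ∀ (ι : Type) [Fintype ι] [LinearOrder ι] (C : ι → Finset ZI)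
  (X : ι → ℕ) (κ : ℝ), 0 ≤ κ → (∀ i, (C i).card ≤ X i) → HB C X κ →
  ∀ Q : (prs ι → ZMod 2) → Prop,
    |(((Fintype.piFinset C).filter fun p => Q (tb p)).card : ℝ) -
      ((univ.filter Q).card : ℝ) / 2 ^ (prs ι).card * ∏ j, ((C j).card : ℝ)| ≤
    2 ^ (prs ι).card * (κ * ∏ j, (X j : ℝ))

/-- the label of a prime `x` with respect to the set `S` -/
noncomputable def lb (S : Finset ZI) (x : ZI) : (S → ZMod 2) × Lb := (fun u => s x u, fc x)

/-- admissible tuples -/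
def Tu {ι : Type} (S : Finset ZI) (p : ι → ZI) : Prop :=
  Function.Injective p ∧ ∀ i, PP (p i) ∧ p i ∉ S

/-- the condition `N` on small and large primes depends on the labels of the large primes only -/
def LabN (N : Finset ZI → Finset ZI → Prop) (W : Finset ZI) : Prop :=
  ∀ (ι : Type) [Fintype ι] (S₀ : Finset ZI) (p q : ι → ZI), (∀ u ∈ S₀, PP u) →
    Tu (S₀ ∪ W) p → Tu (S₀ ∪ W) q → (∀ i, lb (S₀ ∪ W) (p i) = lb (S₀ ∪ W) (q i)) →
    N S₀ (univ.image p) → N S₀ (univ.image q)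

/-- for given admissible labels the proportion of the tables of symbols of the large primes with the
property `T` is in the interval `[c - ε, c + ε]` (up to a sandwich `Q₁ ⊆ T ⊆ Q₂`) -/
def Loc (N : Finset ZI → Finset ZI → Prop) (T : Finset ZI → Prop) (W : Finset ZI) (c ε : ℝ) : Prop :=
  ∀ (ι : Type) [Fintype ι] [LinearOrder ι] (S₀ : Finset ZI) (q : ι → ZI), (∀ u ∈ S₀, PP u) →
    Tu (S₀ ∪ W) q → N S₀ (univ.image q) →
    ∃ Q₁ Q₂ : (prs ι → ZMod 2) → Prop,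
      (c - ε) * 2 ^ (prs ι).card ≤ ((univ.filter Q₁).card : ℝ) ∧
      ((univ.filter Q₂).card : ℝ) ≤ (c + ε) * 2 ^ (prs ι).card ∧
      ∀ p : ι → ZI, Tu (S₀ ∪ W) p → (∀ i, lb (S₀ ∪ W) (p i) = lb (S₀ ∪ W) (q i)) →
        (Q₁ (tb p) → T (S₀ ∪ univ.image p)) ∧ (T (S₀ ∪ univ.image p) → Q₂ (tb p))

/-- the statement for the boxes -/
def BX (N : Finset ZI → Finset ZI → Prop) (T : Finset ZI → Prop) (W : Finset ZI) (c ε : ℝ) :
    Prop := ∀ (ι : Type) [Fintype ι] [LinearOrder ι] (C : ι → Finset ZI) (X : ι → ℕ)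
  (κ : ℝ) (S₀ : Finset ZI), 0 ≤ κ → (∀ i, (C i).card ≤ X i) → HB C X κ → (∀ u ∈ S₀, PP u) →
  (∀ i, ∀ π ∈ C i, PP π ∧ π ∉ S₀ ∪ W) → (∀ i l, i ≠ l → Disjoint (C i) (C l)) →
  |(((Fintype.piFinset C).filter fun p => N S₀ (univ.image p) ∧ T (S₀ ∪ univ.image p)).card : ℝ) -
      c * (((Fintype.piFinset C).filter fun p => N S₀ (univ.image p)).card : ℝ)| ≤
    ε * (((Fintype.piFinset C).filter fun p => N S₀ (univ.image p)).card : ℝ) +
    2 ^ (((S₀ ∪ W).card + 4) * Fintype.card ι + (prs ι).card) * (κ * ∏ j, (X j : ℝ))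

/-- Q7-BOX (after `Q153/GN/Box.lean`) -/
def S_BOX : Prop := S_EQ → ∀ (N : Finset ZI → Finset ZI → Prop) (T : Finset ZI → Prop)
  (W : Finset ZI) (c ε : ℝ), 0 ≤ c → 0 ≤ ε → (∀ u ∈ W, PP u) → LabN N W → Loc N T W c ε →
  BX N T W c ε

/-- Q7-KEY (after `Q195/GN/Key.lean`): the sum over the boxes. -/
def S_KEY : Prop := S_BIL → ∃ C : ℝ, 1 ≤ C ∧
  ∀ (N : Finset ZI → Finset ZI → Prop) (T : Finset ZI → Prop) (W : Finset ZI) (c ε : ℝ), 0 ≤ c →
  c ≤ 1 → 0 ≤ ε → (∀ u ∈ W, PP u) → BX N T W c ε → ∀ (X z H k M : ℕ) (κ : ℝ),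
  (∀ u ∈ W, nrm u ≤ z) → W.card ≤ k → 1 ≤ k → 1 ≤ X → 1 ≤ H → 1 ≤ z → 0 ≤ κ → C ≤ κ ^ 24 * z →
  (H : ℝ) * Real.log X < M →
  |(((RR X z H k).filter fun S => N (sm z S) (la z S) ∧ T S).card : ℝ) -
      c * (((RR X z H k).filter fun S => N (sm z S) (la z S)).card : ℝ)| ≤
    ε * ((RR X z H k).card : ℝ) +
    (9 * M + 9 : ℝ) ^ k * (3 ^ (20 * k ^ 2 + 20) * κ) * (X * (1 + Real.log X))

/-- Q7-CNT (after `Q146/GN/Cnt.lean`): sets with many primes, sets near the boundary, sets with two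
primes in a block. -/
structure CntP (C : ℝ) : Prop where
  one : 1 ≤ C
  all : ∀ X : ℕ, 1 ≤ X → ((SS X).card : ℝ) ≤ C * X
  many : ∀ X k : ℕ, 1 ≤ X → (((SS X).filter fun S => k < S.card).card : ℝ) * 2 ^ k ≤
    C * (X * (1 + Real.log X))
  cut : ∀ X z H k : ℕ, 1 ≤ X → 1 ≤ H → 1 ≤ k → (((SS X).filter fun S => S.card ≤ k ∧
    X < (∏ π ∈ sm z S, nrm π) * ∏ π ∈ la z S, XX H (bl H π)).card : ℝ) ≤
      C * (X * (1 + Real.log X)) * (k / H) + C * X * Real.exp (-(Real.log X) / k)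
  coll : ∀ X z H : ℕ, 1 ≤ X → 1 ≤ z → 1 ≤ H → (((SS X).filter fun S =>
    ¬ Set.InjOn (bl H) (la z S : Set ZI)).card : ℝ) ≤ C * (X * (1 + Real.log X)) / H + C * X / z

/-- Q7-CNT -/
def S_CNT : Prop := ∃ C : ℝ, CntP C

/-- Q7-HAL: mean value of the function that is `1/2` at the primes `π` with `chi c G π = -1`, for all the
nontrivial characters `chi c G`. (After `Q146/GN/Hal.lean`, which is the case `c = 0`, with `Y699/Hall`,
`Y699/Hal2`.) `chi c G` is completely multiplicative on the primary elements, periodic modulo `8 √-7 G`, and it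
takes the value `-1` at some primary element prime to `2 √-7 G` if `c ≠ 0` or `G ≠ 1` (this follows from the
Chinese remainder theorem). -/
def S_HAL : Prop := ∃ C : ℝ, 1 ≤ C ∧ ∀ (c : Lb) (G : ZI) (T : ℕ), PS G → (c ≠ 0 ∨ G ≠ 1) → 1 ≤ T →
  ∑ n ∈ SB T, mf (fun π => if chi c G π = -1 then (1 / 2 : ℝ) else 1) n ≤
    C * lg (nrm G) * (T * (lg T) ^ (-(1 / 4) : ℝ))

/-- for every nontrivial character given by `c` and a subset `w` of `S₀` at least `L` primes `π` of `S₁` at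
which it is not trivial -/
def RN (L : ℕ) (S₀ S₁ : Finset ZI) : Prop :=
  ∀ (c : Lb) (w : Finset ZI), w ⊆ S₀ → (c ≠ 0 ∨ w.Nonempty) →
    L ≤ (S₁.filter fun π => dot c (fc π) + ∑ u ∈ w, s π u ≠ 0).card

/-- the regular labels -/
def Rg (A R : ℕ) (W S₀ S₁ : Finset ZI) : Prop := RN (A * (S₀ ∪ W).card + R) (S₀ ∪ W) S₁

/-- Q7-BAD (after `Q241/GN/Bad.lean`): few sets have irregular labels. For a given small part `S₀`, `c` and
`w ⊆ S₀ ∪ W` not both trivial (at most `16 * 2 ^ (#S₀ + #W)` pairs) the number of the sets `S` with small part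
`S₀` and fewer than `L = A #(S₀ ∪ W) + R` large primes `π` with `dot c (fc π) + ∑ u ∈ w, s π u ≠ 0` is at most
`2 ^ L ∑ mf g n` over `n ∈ SB (X / nrm S₀)`, to which S_HAL applies with `SymP.chr`. -/
def S_BAD : Prop := SymP → S_HAL → ∀ (A R : ℕ) (W : Finset ZI), (∀ u ∈ W, PP u) →
  ∀ ε : ℝ, 0 < ε → ∃ X₀ : ℕ, ∀ X : ℕ, X₀ ≤ X →
  (((SS X).filter fun S => S.card ≤ kk X ∧ ¬ Rg A R W (sm (zz X) S) (la (zz X) S)).card : ℝ) ≤ ε * X

/-- the class: condition on the label of the product and no prime of `V` -/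
def Kc (κ : Lb → Prop) (V S : Finset ZI) : Prop := κ (∑ π ∈ S, fc π) ∧ Disjoint V S

/-- the class and the regular labels -/
def NK (κ : Lb → Prop) (V : Finset ZI) (A R : ℕ) (W S₀ S₁ : Finset ZI) : Prop :=
  Kc κ V (S₀ ∪ S₁) ∧ Rg A R W S₀ S₁

/-- Q7-LAB (after `Q153/GN/Lab.lean`) -/
def S_LAB : Prop := SymP → ∀ (κ : Lb → Prop) (V : Finset ZI) (A R : ℕ) (W : Finset ZI), V ⊆ W →
  (∀ u ∈ W, PP u) → LabN (NK κ V A R W) W

/-- the class of the `D` congruent to `1` modulo `8` -/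
def κ₀ (x : Lb) : Prop := x.1 = 0 ∧ x.2.1 = 0 ∧ x.2.2.1 = 0

/-- Q7-LOW: the class has positive lower density, also for the sets without primes of `V`. Proof. Let `S X` be
the number of the squarefree primary `a = 1` modulo `8` of norm at most `X`, prime to `V`. Let
`q = 56 ∏ u ∈ V, u`. Every `m = 1` modulo `q` is `a b ^ 2` with `a` squarefree primary prime to `V`, `b`
primary, and then `a = 1` modulo `8` because `b ^ 2 = 1` modulo `8`. So `∑ b, S (X / nrm b ^ 2) ≥ c₁ X`, the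
number of the `m = 1` modulo `q` of norm at most `X` (`cls_ge`). As `S Y ≤ 9 Y` the `b` of norm more than `B`
contribute at most `9 X ∑ 1 / nrm b ^ 2 ≤ c₁ X / 2` for a constant `B`; as `S` is monotone
`(number of the b of norm at most B) * S X ≥ c₁ X / 2`. -/
def S_LOW : Prop := ∀ V : Finset ZI, (∀ u ∈ V, PP u) →
  ∃ (c : ℝ) (X₀ : ℕ), 0 < c ∧ ∀ X : ℕ, X₀ ≤ X → c * X ≤ (((SS X).filter (Kc κ₀ V)).card : ℝ)

/-- Q7-ASY (after `Q153/GN/Asy.lean`): the proportion. -/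
def S_ASY : Prop := S_BIL → S_KEY → S_CNT → (∀ (A R : ℕ) (W : Finset ZI), (∀ u ∈ W, PP u) →
    ∀ ε : ℝ, 0 < ε → ∃ X₀ : ℕ, ∀ X : ℕ, X₀ ≤ X → (((SS X).filter fun S => S.card ≤ kk X ∧
      ¬ Rg A R W (sm (zz X) S) (la (zz X) S)).card : ℝ) ≤ ε * X) →
  ∀ (κ : Lb → Prop) (V W : Finset ZI) (T : Finset ZI → Prop) (c : ℝ), 0 ≤ c → c ≤ 1 →
  (∀ u ∈ W, PP u) →
  (∃ (c₀ : ℝ) (X₀ : ℕ), 0 < c₀ ∧ ∀ X : ℕ, X₀ ≤ X → c₀ * X ≤ (((SS X).filter (Kc κ V)).card : ℝ)) →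
  (∀ ε : ℝ, 0 < ε → ∃ A R : ℕ, BX (NK κ V A R W) T W c ε) →
  Tendsto (fun X : ℕ => (((SS X).filter fun S => Kc κ V S ∧ T S).card : ℝ) /
    (((SS X).filter (Kc κ V)).card : ℝ)) atTop (nhds c)

/-- the systems `(a, b)`: the matrix `M` of the symbols, bordered by the labels at the two places above two
(`GdS` of `Pool/Agent/NH57/BL/LA.lean`) -/
def Tab (a b : ZMod 2) (S : Finset ZI) : Prop :=
  GdS S eO (fun π => dO π + tO π) (fun π => gO π + tO π) s a b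

/-- Q7-LOCJ: for regular labels the proportion of the tables such that all the systems
`Tab (a i) (b i) (S ∪ W i)` are good is close to `c2 ^ #I`, by the joint linear algebra `BJ.S_LAXJ`
(`Pool/Graph/R_pool_sql_team_seeded_3dad9d7b/NH57/BL/LJ.lean`). Take `ε → K, V` from it, `A = K`, `R = V + 1`. For
`S₀`, `q` with `NK κ₀ W₀ A R W₀ S₀ (image q)` let `U = {u // u ∈ S₀ ∪ W₀}`, `J = ι` and `L : BJ.Blk I U J` with
`L.W i = {u | u ∈ S₀ ∪ W i}`, `s = eO`, `t = tO`, `d i = dO + tO`, `g i = gO + tO` on `U` and on the `q j`,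
`A u v = s v u`, `B u j = s (q j) u`. Then `BJ.La L i k = ∑ u ∈ S₀ ∪ W i, s u (q k)`, so (`S₀` and `W₀` are
disjoint) `La i k + La j k = dot c (fc (q k)) + ∑ u ∈ w, s (q k) u` with `w` the symmetric difference of `W i`
and `W j` and `c = (∑ u ∈ w, tO u, 0, 0, 0)`; `many` and `diff` of `BJ.Hyp` are `Rg`; `par` from `κ₀`; `recip` is
`SymP.recip`; `nd`: the two sums are `dot c (fc (q k)) + ∑ u ∈ w, s (q k) u` with
`c = (f + ∑ u ∈ w, tO u, 0, f, e)` and `c = (e + f, f, 0, e)`. `Q₁ = Q₂ = fun α => ∀ i, GdJ a b L (ext L.tJ α) i`;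
for `p` with the same labels as `q`: `s (p l) (p k) = ext L.tJ (tb p) k l` by `SymP.recip`, `SymP.self`, and
`Tab (a i) (b i) (S₀ ∪ image p ∪ W i) ↔ GdJ a b L (ext L.tJ (tb p)) i` by splitting the sums (`p` is injective,
with values outside `S₀ ∪ W₀`). -/
def S_LOCJ : Prop := Pool.Agent.NH57.BJ.S_LAXJ → SymP → ∀ (I : Type) [Fintype I] (a b : I → ZMod 2)
  (W : I → Finset ZI) (W₀ : Finset ZI), (∀ i, a i ≠ 0 ∨ b i ≠ 0) → (∀ u ∈ W₀, PP u) →
  (∀ i, W i ⊆ W₀) → Function.Injective W → (∀ i, κ₀ (∑ u ∈ W i, fc u)) → ∀ ε : ℝ, 0 < ε →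
  ∃ A R : ℕ, Loc (NK κ₀ W₀ A R W₀) (fun S => ∀ i, Tab (a i) (b i) (S ∪ W i)) W₀
    (c2 ^ Fintype.card I) ε

/-- FINAL: the proportion of the sets `S` (`D = ∏ S = 1` modulo `8`, prime to `W₀`) for which all the matrices
of `S ∪ W i` are nonsingular is `c2 ^ #I`, `c2 = 0.288…`, and that of those for which also all the bordered
matrices are not singular is `(c2 / 2) ^ #I`. Proof: `S_ASY` with `V = W = W₀`, `T S = ∀ i, Tab (a i) (b i)
(S ∪ W i)`, `c = c2 ^ #I`, for all the choices of `(a i, b i)` in `(1, 0), (1, 1), (0, 1)`; the second limit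
because by `t_PAR` the indicator of `Tab 1 0 ∧ Tab 0 1` is `(1_{10} + 1_{01} - 1_{11}) / 2`; expand the product
over `I`. -/
def S_FINJ : Prop := ∀ (I : Type) [Fintype I] (W : I → Finset ZI) (W₀ : Finset ZI),
  (∀ u ∈ W₀, PP u) → (∀ i, W i ⊆ W₀) → Function.Injective W → (∀ i, κ₀ (∑ u ∈ W i, fc u)) →
  Tendsto (fun X : ℕ => (((SS X).filter fun S => Kc κ₀ W₀ S ∧ ∀ i, Tab 1 0 (S ∪ W i)).card : ℝ) /
    (((SS X).filter (Kc κ₀ W₀)).card : ℝ)) atTop (nhds (c2 ^ Fintype.card I)) ∧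
  Tendsto (fun X : ℕ => (((SS X).filter fun S => Kc κ₀ W₀ S ∧
      ∀ i, (Tab 1 0 (S ∪ W i) ∧ Tab 0 1 (S ∪ W i))).card : ℝ) /
    (((SS X).filter (Kc κ₀ W₀)).card : ℝ)) atTop (nhds ((c2 / 2) ^ Fintype.card I))

end Pool.Agent.H519.Q7
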