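import Pool.Agent.H519.Q7.Rec
import Pool.Agent.H519.Q7.Hall
import Pool.Agent.H519.Q7.Stm
import Pool.Graph.R_seed8.H510R2.Div

/-!
# Project Q7: bilinear sums of quadratic symbols over `ℤ[ω]` (task Q7-BIL)

After `Pool/Graph/R_seed8/Y699/{Jsum,Box}.lean`, `Pool/Graph/R_seed8/Y699/E/Div.lean` and
`Pool/Graph/R_pool_sql_team_seeded_3997aac3/Q177/GN/Bil.lean`.
-/

set_option autoImplicit false

open scoped Classical

namespace Pool.Agent.H519.Q7.Bil

open Finset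
open Pool.Agent.H519.Q7

/-! ### The divisor bound -/

lemma DP_one : DP (1 : ZI) = {1} := by
  ext d
  rw [mem_DP one_ne_zero, mem_singleton]
  constructor
  · rintro ⟨a1, a2⟩
    exact eq_one_of_prim a1 (isUnit_of_dvd_one a2)
  · rintro rfl
    exact ⟨prim_one, dvd_rfl⟩

lemma pp_nrm_two {π : ZI} (h : PP π) : 2 ≤ nrm π := by
  have h1 := nrm_pos' h.ne
  have h2 := h.nrm_ne_one
  omega

/-- induction over prime powers -/
theorem pp_induction {P : ZI → Prop} (h1 : P 1)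
    (h2 : ∀ (π m : ZI) (k : ℕ), PP π → prim m → ¬ π ∣ m → 1 ≤ k → P m → P (π ^ k * m)) :
    ∀ n, prim n → P n := by
  have key : ∀ N : ℕ, ∀ n : ZI, nrm n = N → prim n → P n := by
    intro N
    induction N using Nat.strong_induction_on with
    | _ N ih =>
      intro n hN hn
      have hn0 := prim_ne_zero hn
      by_cases hn1 : n = 1
      · rw [hn1]; exact h1
      · have hnu : ¬ IsUnit n := fun h => hn1 (eq_one_of_prim hn h)
        obtain ⟨ρ, hρ, hρn⟩ := WfDvdMonoid.exists_irreducible_factor hnu hn0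
        have hρ' : Prime ρ := irreducible_iff_prime.1 hρ
        obtain ⟨π, hπ, hass⟩ := exists_PP hρ' (not_dvd_mo hρ' hρn hn)
        have hπn : π ∣ n := hass.dvd.trans hρn
        obtain ⟨k, m, hm, hnm⟩ := WfDvdMonoid.max_power_factor hn0 hπ.pr.irreducible
        have hk : 1 ≤ k := by
          by_contra h2
          have : k = 0 := by omega
          rw [this, pow_zero, one_mul] at hnm
          rw [hnm] at hπn
          exact hm hπn
        have hmp : prim m := prim_cancel (prim_pow hπ.prm k) (by rw [← hnm]; exact hn)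
        have hm0 := prim_ne_zero hmp
        have hlt : nrm m < N := by
          rw [← hN, hnm, nrm_mul]
          have h2 : 1 < nrm (π ^ k) := by
            have h3 : π ∣ π ^ k := dvd_pow_self π (by omega)
            have h4 : nrm π ≤ nrm (π ^ k) := norm_le_of_dvd (pow_ne_zero _ hπ.ne) h3
            have h5 := pp_nrm_two hπ
            omega
          have h3 := nrm_pos' hm0
          nlinarith
        rw [hnm]
        exact h2 π m k hπ hmp hm hk (ih (nrm m) hlt m rfl hmp)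
  intro n hn
  exact key _ n rfl hn

lemma PD_pow_mul {π m : ZI} {k : ℕ} (hπ : PP π) (hm : prim m) (hk : 1 ≤ k) :
    PD (π ^ k * m) = insert π (PD m) := by
  have hm0 := prim_ne_zero hm
  ext ρ
  rw [mem_insert, mem_PD (mul_ne_zero (pow_ne_zero _ hπ.ne) hm0), mem_PD hm0]
  constructor
  · rintro ⟨a1, a2⟩
    rcases a1.pr.dvd_or_dvd a2 with a3 | a3
    · left
      exact PP.eq_of_dvd a1 hπ (a1.pr.dvd_of_dvd_pow a3)
    · right
      exact ⟨a1, a3⟩
  · rintro (rfl | ⟨a1, a2⟩)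
    · exact ⟨hπ, (dvd_pow_self _ (by omega)).mul_right _⟩
    · exact ⟨a1, a2.mul_left _⟩

lemma notMem_PD {π m : ZI} (hm : prim m) (hd : ¬ π ∣ m) : π ∉ PD m := by
  rw [mem_PD (prim_ne_zero hm)]
  exact fun h => hd h.2

lemma card_DP_mul {π m : ZI} (hπ : PP π) (hm : prim m) (hd : ¬ π ∣ m) (k : ℕ) :
    (DP (π ^ k * m)).card = (k + 1) * (DP m).card := by
  have h := sum_DP_mul hπ hm hd k (fun _ => 1)
  simp only [sum_const, nsmul_eq_mul, mul_one, card_range] at h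
  exact_mod_cast h

/-- **the divisor bound** -/
theorem div_bound {ε : ℝ} (hε : 0 < ε) : ∃ C : ℝ, 1 ≤ C ∧ ∀ n : ZI, prim n →
    ((DP n).card : ℝ) ≤ C * (nrm n : ℝ) ^ ε := by
  obtain ⟨C, hC1, hC⟩ := Pool.Agent.H510R2.prime_pow_aux ε hε
  obtain ⟨P, hP⟩ := exists_nat_ge ((2 : ℝ) ^ (1 / ε))
  have hC0 : (0 : ℝ) < C := by linarith
  have key : ∀ n : ZI, prim n →
      ((DP n).card : ℝ) ≤ C ^ ((PD n).filter (fun π => nrm π < P)).card * (nrm n : ℝ) ^ ε := by
    refine pp_induction ?_ ?_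
    · rw [DP_one, PD_one, nrm_one]
      simp
    · intro π m k hπ hm hd hk ih
      rw [card_DP_mul hπ hm hd, PD_pow_mul hπ hm hk, nrm_mul]
      have hnm : nrm (π ^ k) = nrm π ^ k := by
        clear hk
        induction k with
        | zero => rw [pow_zero, pow_zero, nrm_one]
        | succ k ih => rw [pow_succ, pow_succ, nrm_mul, ih]
      rw [hnm]
      push_cast
      rw [Real.mul_rpow (by positivity) (Nat.cast_nonneg _)]
      have h2 := pp_nrm_two hπ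
      have n0 : (0 : ℝ) ≤ (nrm m : ℝ) ^ ε := by positivity
      have c0 : (0 : ℝ) ≤ ((DP m).card : ℝ) := Nat.cast_nonneg _
      rw [filter_insert]
      by_cases hs : nrm π < P
      · rw [if_pos hs, card_insert_of_notMem (by
          rw [mem_filter]; exact fun h => notMem_PD hm hd h.1), pow_succ]
        have h3 := hC (nrm π) h2 k
        calc ((k : ℝ) + 1) * (DP m).card ≤ (C * ((nrm π : ℝ) ^ k) ^ ε) *
              (C ^ ((PD m).filter (fun π => nrm π < P)).card * (nrm m : ℝ) ^ ε) := by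
              exact mul_le_mul h3 ih c0 (by positivity)
          _ = _ := by ring
      · rw [if_neg hs]
        have h3 : (k : ℝ) + 1 ≤ ((nrm π : ℝ) ^ k) ^ ε := by
          have h4 : (2 : ℝ) ^ (1 / ε) ≤ nrm π := by
            refine hP.trans ?_
            exact_mod_cast not_lt.1 hs
          have h5 : (2 : ℝ) ≤ (nrm π : ℝ) ^ ε := by
            calc (2 : ℝ) = ((2 : ℝ) ^ (1 / ε)) ^ ε := by
                  rw [← Real.rpow_mul (by norm_num)]
                  field_simp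
                  rw [Real.rpow_one]
              _ ≤ _ := Real.rpow_le_rpow (by positivity) h4 hε.le
          have h6 : ((nrm π : ℝ) ^ k) ^ ε = ((nrm π : ℝ) ^ ε) ^ k := by
            rw [← Real.rpow_natCast, ← Real.rpow_mul (Nat.cast_nonneg _), ← Real.rpow_natCast,
              ← Real.rpow_mul (Nat.cast_nonneg _), mul_comm]
          rw [h6]
          refine le_trans ?_ (pow_le_pow_left₀ (by norm_num) h5 k)
          have h7 : k + 1 ≤ 2 ^ k := Nat.lt_two_pow_self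
          exact_mod_cast h7
        calc ((k : ℝ) + 1) * (DP m).card ≤ (((nrm π : ℝ) ^ k) ^ ε) *
              (C ^ ((PD m).filter (fun π => nrm π < P)).card * (nrm m : ℝ) ^ ε) := by
              exact mul_le_mul h3 ih c0 (by positivity)
          _ = _ := by ring
  refine ⟨C ^ (ZB P).card, one_le_pow₀ hC1, ?_⟩
  intro n hn
  refine (key n hn).trans ?_
  apply mul_le_mul_of_nonneg_right _ (by positivity)
  apply pow_le_pow_right₀ hC1
  apply card_le_card
  intro π hπ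
  rw [mem_filter] at hπ
  rw [mem_ZB]
  exact hπ.2.le

/-! ### Sums of products of two symbols -/

/-- the product of two symbols, on primary elements -/
noncomputable def FF2 (x x' a : ZI) : ℝ := if prim a then (jac x a : ℝ) * jac x' a else 0

lemma FF2_abs (x x' a : ZI) : |FF2 x x' a| ≤ 1 := by
  unfold FF2
  split_ifs
  · rw [abs_mul]
    exact mul_le_one₀ (jac_abs _ _) (abs_nonneg _) (jac_abs _ _)
  · simp

lemma FF2_symm (x x' a : ZI) : FF2 x x' a = FF2 x' x a := by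
  unfold FF2
  rw [mul_comm]

lemma FF2_sum_aux {x x' : ZI} (hx : PS x) (hx' : PS x') {π : ZI} (h1 : π ∈ PD x) (h2 : π ∉ PD x')
    (V : ℕ) : |∑ a ∈ ZB V, FF2 x x' a| ≤ 336 * (nrm x * nrm x') * (3 * Real.sqrt V + 1) := by
  have hq : mo * (x * x') ≠ 0 := mul_ne_zero mo_ne (mul_ne_zero hx.ne hx'.ne)
  have hπ := ((mem_PD hx.ne).1 h1).1
  have hS : ∀ ρ ∈ (PD x).erase π ∪ PD x', PP ρ := by
    intro ρ hρ
    rw [mem_union] at hρ
    rcases hρ with h | h
    · exact ((mem_PD hx.ne).1 (mem_of_mem_erase h)).1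
    · exact ((mem_PD hx'.ne).1 h).1
  obtain ⟨c, hc1, _, hc2, hc3⟩ := exists_twist hS hπ (by
    rw [mem_union, not_or]
    exact ⟨notMem_erase _ _, h2⟩) 0
  have hjx : jac x c = -1 := by
    unfold jac
    rw [← mul_prod_erase (PD x) _ h1, hc2, prod_eq_one, mul_one]
    intro ρ hρ
    exact hc3 ρ (mem_union_left _ hρ)
  have hjx' : jac x' c = 1 := prod_eq_one fun ρ hρ => hc3 ρ (mem_union_right _ hρ)
  have hcop : IsCoprime c (mo * (x * x')) := by
    have hcP : ∀ n : ZI, PS n → jac n c ≠ 0 → IsCoprime c n := by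
      intro n hn hj
      have h3 : ∏ π ∈ PD n, π = n := hn.prod
      rw [← h3, IsCoprime.prod_right_iff]
      intro ρ hρ
      have hρP := ((mem_PD hn.ne).1 hρ).1
      rw [isCoprime_comm, hρP.pr.irreducible.coprime_iff_not_dvd]
      intro hd
      exact hj (prod_eq_zero hρ (qr_zero_iff.2 hd))
    exact IsCoprime.mul_right (prim_cop hc1) (IsCoprime.mul_right (hcP x hx (by rw [hjx]; norm_num))
      (hcP x' hx' (by rw [hjx']; norm_num)))
  have h3 := csum hq (f := FF2 x x') ?_ (FF2_abs x x') hcop ?_ V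
  · refine h3.trans (le_of_eq ?_)
    rw [nrm_mul, nrm_mul, nrm_mo]
    push_cast
    ring
  · intro a b hab
    unfold FF2
    have e1 : mo ∣ a - b := (dvd_mul_right _ _).trans hab
    have e2 : x ∣ a - b := ((dvd_mul_right _ _).trans (dvd_mul_left _ _)).trans hab
    have e3 : x' ∣ a - b := ((dvd_mul_left _ _).trans (dvd_mul_left _ _)).trans hab
    have e4 : prim a ↔ prim b :=
      ⟨fun h => prim_per e1 h, fun h => prim_per (by rw [← neg_sub]; exact (dvd_neg).2 e1) h⟩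
    rw [jac_per hx.ne e2, jac_per hx'.ne e3]
    by_cases h : prim a
    · rw [if_pos h, if_pos (e4.1 h)]
    · rw [if_neg h, if_neg (fun hh => h (e4.2 hh))]
  · intro a
    unfold FF2
    have e4 : prim (c * a) ↔ prim a :=
      ⟨fun h => prim_cancel hc1 h, fun h => prim_mul hc1 h⟩
    by_cases h : prim a
    · rw [if_pos h, if_pos (e4.2 h), jac_mul_right hx.ne, jac_mul_right hx'.ne, hjx, hjx']
      push_cast
      ring
    · rw [if_neg h, if_neg (fun hh => h (e4.1 hh)), neg_zero]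

theorem FF2_sum {x x' : ZI} (hx : PS x) (hx' : PS x') (hne : x ≠ x') (V : ℕ) :
    |∑ a ∈ ZB V, FF2 x x' a| ≤ 336 * (nrm x * nrm x') * (3 * Real.sqrt V + 1) := by
  have h1 : PD x ≠ PD x' := by
    intro h
    apply hne
    rw [← hx.prod, ← hx'.prod, h]
  by_cases h2 : PD x ⊆ PD x'
  · have h3 : ¬ PD x' ⊆ PD x := fun h => h1 (Subset.antisymm h2 h)
    obtain ⟨π, hπ, hπ'⟩ := not_subset.1 h3
    have := FF2_sum_aux hx' hx hπ hπ' V
    simp_rw [FF2_symm x x']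
    rw [mul_comm (nrm x : ℝ)]
    exact this
  · obtain ⟨π, hπ, hπ'⟩ := not_subset.1 h2
    exact FF2_sum_aux hx hx' hπ hπ' V

/-- the mean square -/
theorem mean_sq {γ : ZI → ℝ} (hγ : ∀ x, |γ x| ≤ 1) {M N : ℕ} (hM : 1 ≤ M) (hMN : M ^ 6 ≤ N) :
    ∑ h ∈ PB N, (∑ x ∈ SB M, γ x * jac x h) ^ 2 ≤ 108945 * (M * N) := by
  have hN : 1 ≤ N := (Nat.one_le_pow _ _ hM).trans hMN
  have hMr : (1 : ℝ) ≤ M := by exact_mod_cast hM
  have hNr : (1 : ℝ) ≤ N := by exact_mod_cast hN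
  have e1 : ∑ h ∈ PB N, (∑ x ∈ SB M, γ x * jac x h) ^ 2 =
      ∑ x ∈ SB M, ∑ x' ∈ SB M, γ x * γ x' * ∑ h ∈ ZB N, FF2 x x' h := by
    have e2 : ∀ h ∈ PB N, (∑ x ∈ SB M, γ x * jac x h) ^ 2 =
        ∑ x ∈ SB M, ∑ x' ∈ SB M, γ x * γ x' * (jac x h * jac x' h) := by
      intro h _
      rw [sq, sum_mul_sum]
      refine sum_congr rfl fun x _ => sum_congr rfl fun x' _ => by ring
    rw [sum_congr rfl e2, sum_comm]
    refine sum_congr rfl fun x _ => ?_
    rw [sum_comm]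
    refine sum_congr rfl fun x' _ => ?_
    rw [← mul_sum]
    congr 1
    unfold PB FF2
    rw [sum_filter]
  rw [e1]
  have hs : Real.sqrt N ^ 2 = N := Real.sq_sqrt (Nat.cast_nonneg N)
  have hs1 : 1 ≤ Real.sqrt N := Real.one_le_sqrt.2 hNr
  have hM3 : (M : ℝ) ^ 3 ≤ Real.sqrt N := by
    rw [Real.le_sqrt (by positivity) (by positivity)]
    have : (M : ℝ) ^ 6 ≤ N := by exact_mod_cast hMN
    have e : ((M : ℝ) ^ 3) ^ 2 = (M : ℝ) ^ 6 := by ring
    rw [e]
    exact this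
  have hterm : ∀ x ∈ SB M, ∀ x' ∈ SB M, γ x * γ x' * ∑ h ∈ ZB N, FF2 x x' h ≤
      (if x = x' then 9 * (N : ℝ) else 0) + 336 * ((M : ℝ) * M) * (3 * Real.sqrt N + 1) := by
    intro x hx x' hx'
    have hg : |γ x * γ x'| ≤ 1 := by
      rw [abs_mul]
      exact mul_le_one₀ (hγ _) (abs_nonneg _) (hγ _)
    have h1 : γ x * γ x' * ∑ h ∈ ZB N, FF2 x x' h ≤ |∑ h ∈ ZB N, FF2 x x' h| := by
      refine (le_abs_self _).trans ?_
      rw [abs_mul]
      exact mul_le_of_le_one_left (abs_nonneg _) hg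
    refine h1.trans ?_
    have hpos : (0 : ℝ) ≤ 336 * ((M : ℝ) * M) * (3 * Real.sqrt N + 1) := by positivity
    by_cases hxx : x = x'
    · rw [if_pos hxx]
      refine le_trans ?_ (le_add_of_nonneg_right hpos)
      refine (abs_sum_le_sum_abs _ _).trans ((sum_le_sum fun h _ => FF2_abs _ _ _).trans ?_)
      rw [sum_const, nsmul_eq_mul, mul_one]
      exact card_ZB_le hN
    · rw [if_neg hxx, zero_add]
      refine (FF2_sum (mem_SB.1 hx).2 (mem_SB.1 hx').2 hxx N).trans ?_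
      have a1 : (nrm x : ℝ) ≤ M := by exact_mod_cast (mem_SB.1 hx).1
      have a2 : (nrm x' : ℝ) ≤ M := by exact_mod_cast (mem_SB.1 hx').1
      have a3 : (nrm x : ℝ) * nrm x' ≤ M * M := mul_le_mul a1 a2 (Nat.cast_nonneg _) (by positivity)
      gcongr
  refine (sum_le_sum fun x hx => sum_le_sum fun x' hx' => hterm x hx x' hx').trans ?_
  have hc := card_SB_le hM
  have e3 : ∑ x ∈ SB M, ∑ x' ∈ SB M, ((if x = x' then 9 * (N : ℝ) else 0) +
      336 * ((M : ℝ) * M) * (3 * Real.sqrt N + 1)) =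
      (SB M).card * (9 * N) + (SB M).card * ((SB M).card * (336 * ((M : ℝ) * M) * (3 * Real.sqrt N + 1))) := by
    simp_rw [sum_add_distrib, sum_const, nsmul_eq_mul]
    congr 1
    rw [sum_congr rfl (fun x hx => by rw [sum_ite_eq, if_pos hx])]
    rw [sum_const, nsmul_eq_mul]
  rw [e3]
  have hc0 : (0 : ℝ) ≤ (SB M).card := Nat.cast_nonneg _
  have h4 : ((SB M).card : ℝ) * (SB M).card ≤ (9 * M) * (9 * M) := mul_le_mul hc hc hc0 (by positivity)
  have h5 : (M : ℝ) ^ 3 * (3 * Real.sqrt N + 1) ≤ 4 * N := by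
    calc (M : ℝ) ^ 3 * (3 * Real.sqrt N + 1) ≤ Real.sqrt N * (4 * Real.sqrt N) := by
          apply mul_le_mul hM3 _ (by positivity) (by positivity)
          linarith
      _ = 4 * N := by nlinarith
  calc (SB M).card * (9 * (N : ℝ)) + (SB M).card * ((SB M).card * (336 * ((M : ℝ) * M) * (3 * Real.sqrt N + 1)))
      ≤ (9 * M) * (9 * N) + (9 * M) * (9 * M) * (336 * ((M : ℝ) * M) * (3 * Real.sqrt N + 1)) := by
        rw [← mul_assoc ((SB M).card : ℝ) ((SB M).card : ℝ)]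
        gcongr
    _ = 81 * (M * N) + 27216 * (M * ((M : ℝ) ^ 3 * (3 * Real.sqrt N + 1))) := by ring
    _ ≤ 81 * (M * N) + 27216 * (M * (4 * N)) := by gcongr
    _ = 108945 * (M * N) := by ring

/-! ### Bilinear sums over boxes -/

/-- the bound for the sixth power of the number of divisors -/
lemma div_six : ∃ C : ℝ, 1 ≤ C ∧ ∀ (N : ℕ) (h : ZI), 1 ≤ N → prim h → nrm h ≤ N ^ 6 →
    ((DP h).card : ℝ) ^ 6 ≤ C * (N : ℝ) ^ (1 / 12 : ℝ) := by
  obtain ⟨C1, hC1, hdiv⟩ := div_bound (ε := 1 / 432) (by norm_num)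
  refine ⟨C1 ^ 6, one_le_pow₀ hC1, ?_⟩
  intro N h hN hh hhN
  have hNr : (0 : ℝ) ≤ N := Nat.cast_nonneg N
  have hn0 : (0 : ℝ) ≤ (nrm h : ℝ) := Nat.cast_nonneg _
  have h3 := hdiv h hh
  have h4 : ((DP h).card : ℝ) ^ 6 ≤ (C1 * (nrm h : ℝ) ^ (1 / 432 : ℝ)) ^ 6 := by
    gcongr
  have h5 : (C1 * (nrm h : ℝ) ^ (1 / 432 : ℝ)) ^ 6 = C1 ^ 6 * (nrm h : ℝ) ^ (1 / 72 : ℝ) := by
    have e : ((nrm h : ℝ) ^ (1 / 432 : ℝ)) ^ 6 = (nrm h : ℝ) ^ (1 / 72 : ℝ) := by
      rw [← Real.rpow_natCast, ← Real.rpow_mul hn0]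
      norm_num
    rw [← e]
    ring
  have h6 : (nrm h : ℝ) ^ (1 / 72 : ℝ) ≤ (N : ℝ) ^ (1 / 12 : ℝ) := by
    have e : (N : ℝ) ^ (1 / 12 : ℝ) = ((N : ℝ) ^ 6) ^ (1 / 72 : ℝ) := by
      rw [← Real.rpow_natCast, ← Real.rpow_mul hNr]
      norm_num
    rw [e]
    apply Real.rpow_le_rpow hn0 _ (by norm_num)
    exact_mod_cast hhN
  rw [h5] at h4
  refine h4.trans ?_
  have h8 : (0 : ℝ) ≤ (nrm h : ℝ) ^ (1 / 72 : ℝ) := by positivity
  gcongr

lemma SB_sub_PB (N : ℕ) : SB N ⊆ PB N := by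
  intro x hx
  rw [mem_SB] at hx
  exact mem_PB.2 ⟨hx.1, hx.2.prm⟩

/-- first case -/
lemma bil_long {α β : ZI → ℝ} (hα : ∀ x, |α x| ≤ 1) (hβ : ∀ x, |β x| ≤ 1) {M N : ℕ} (hM : 1 ≤ M)
    (hMN : M ^ 6 ≤ N) : (Bil α β M N) ^ 2 ≤ 980505 * (M * N ^ 2) := by
  have hN : 1 ≤ N := (Nat.one_le_pow _ _ hM).trans hMN
  have e1 : Bil α β M N = ∑ y ∈ SB N, β y * ∑ x ∈ SB M, α x * jac x y := by
    unfold Bil
    rw [sum_comm]
    refine sum_congr rfl fun y _ => ?_
    rw [mul_sum]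
    refine sum_congr rfl fun x _ => by ring
  rw [e1]
  have h1 := sum_mul_sq_le_sq_mul_sq (SB N) β (fun y => ∑ x ∈ SB M, α x * jac x y)
  refine h1.trans ?_
  have h2 : ∑ y ∈ SB N, β y ^ 2 ≤ 9 * N := by
    have : ∀ y ∈ SB N, β y ^ 2 ≤ 1 := by
      intro y _
      rw [← sq_abs]
      exact pow_le_one₀ (abs_nonneg _) (hβ y)
    refine (sum_le_sum this).trans ?_
    rw [sum_const, nsmul_eq_mul, mul_one]
    exact card_SB_le hN
  have h3 : ∑ y ∈ SB N, (∑ x ∈ SB M, α x * jac x y) ^ 2 ≤ 108945 * (M * N) :=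
    (sum_le_sum_of_subset_of_nonneg (SB_sub_PB N) (fun _ _ _ => sq_nonneg _)).trans
      (mean_sq hα hM hMN)
  have h4 : (0 : ℝ) ≤ ∑ y ∈ SB N, (∑ x ∈ SB M, α x * (jac x y : ℝ)) ^ 2 :=
    sum_nonneg fun _ _ => sq_nonneg _
  calc (∑ y ∈ SB N, β y ^ 2) * ∑ y ∈ SB N, (∑ x ∈ SB M, α x * (jac x y : ℝ)) ^ 2
      ≤ (9 * N) * (108945 * (M * N)) := mul_le_mul h2 h3 h4 (by positivity)
    _ = 980505 * (M * N ^ 2) := by ring

lemma jac_prod_fin {x : ZI} (hx : x ≠ 0) (p : Fin 6 → ZI) : jac x (∏ i, p i) = ∏ i, jac x (p i) :=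
  jac_prod hx univ p

/-- second case -/
lemma bil_short : ∃ C : ℝ, 1 ≤ C ∧ ∀ (α β : ZI → ℝ), (∀ x, |α x| ≤ 1) → (∀ x, |β x| ≤ 1) →
    ∀ M N : ℕ, 1 ≤ M → M ≤ N →
    (Bil α β M N) ^ 12 ≤ C * ((M : ℝ) ^ 11 * (N : ℝ) ^ 12 * (N : ℝ) ^ (1 / 12 : ℝ)) := by
  obtain ⟨R, hR1, hR⟩ := div_six
  refine ⟨9 ^ 16 * 108945 * R, by nlinarith, ?_⟩
  intro α β hα hβ M N hM hMN
  have hN : 1 ≤ N := hM.trans hMN
  have hMr : (0 : ℝ) ≤ M := Nat.cast_nonneg M
  have hNr : (0 : ℝ) ≤ N := Nat.cast_nonneg N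
  set A : ZI → ℝ := fun x => ∑ y ∈ SB N, β y * jac x y with hA
  have hS : |Bil α β M N| ≤ ∑ x ∈ SB M, |A x| := by
    have e1 : Bil α β M N = ∑ x ∈ SB M, α x * A x := by
      unfold Bil
      refine sum_congr rfl fun x _ => ?_
      rw [hA, mul_sum]
      refine sum_congr rfl fun y _ => by ring
    rw [e1]
    refine (abs_sum_le_sum_abs _ _).trans (sum_le_sum fun x _ => ?_)
    rw [abs_mul]
    exact mul_le_of_le_one_left (abs_nonneg _) (hα x)
  set W : ℝ := ∑ x ∈ SB M, (A x) ^ 6 with hW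
  have hW0 : 0 ≤ W := sum_nonneg fun x _ => by positivity
  have hS6 : |Bil α β M N| ^ 6 ≤ (9 * M) ^ 5 * W := by
    have h1 : |Bil α β M N| ^ 6 ≤ (∑ x ∈ SB M, |A x|) ^ 6 := pow_le_pow_left₀ (abs_nonneg _) hS 6
    have h3 : (∑ x ∈ SB M, |A x|) ^ 6 ≤ ((SB M).card : ℝ) ^ 5 * ∑ x ∈ SB M, |A x| ^ 6 := by
      have hc := pow_sum_div_card_le_sum_pow (s := SB M) (f := fun x => |A x|) (n := 5) (fun x _ => abs_nonneg _)
      by_cases hcard : (SB M).card = 0
      · rw [Finset.card_eq_zero] at hcard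
        rw [hcard]
        simp
      · have hcp : (0 : ℝ) < ((SB M).card : ℝ) ^ 5 := by positivity
        rw [div_le_iff₀ hcp] at hc
        rw [mul_comm]
        exact hc
    have h4 : ∑ x ∈ SB M, |A x| ^ 6 = W := by
      rw [hW]
      refine sum_congr rfl fun x _ => ?_
      exact Even.pow_abs (by decide) _
    rw [h4] at h3
    refine h1.trans (h3.trans ?_)
    have h5 := card_SB_le hM
    exact mul_le_mul_of_nonneg_right (pow_le_pow_left₀ (Nat.cast_nonneg _) h5 5) hW0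
  -- expansion of the sixth power
  set P := Fintype.piFinset (fun _ : Fin 6 => SB N) with hP
  set G : ZI → ℝ := fun h => ∑ x ∈ SB M, (1 : ℝ) * jac x h with hG
  have hWexp : W = ∑ p ∈ P, (∏ i, β (p i)) * G (∏ i, p i) := by
    have h1 : ∀ x ∈ SB M, (A x) ^ 6 = ∑ p ∈ P, (∏ i, β (p i)) * ((1 : ℝ) * jac x (∏ i, p i)) := by
      intro x hx
      have hx0 := (mem_SB.1 hx).2.ne
      have h2 : (A x) ^ 6 = ∏ _i : Fin 6, ∑ y ∈ SB N, β y * jac x y := by
        rw [prod_const, card_univ, Fintype.card_fin]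
      rw [h2, prod_univ_sum]
      refine sum_congr rfl fun p _ => ?_
      rw [prod_mul_distrib, jac_prod_fin hx0]
      push_cast
      ring
    rw [hW, sum_congr rfl h1, sum_comm]
    refine sum_congr rfl fun p _ => ?_
    rw [hG, mul_sum]
  have hPmem : ∀ p ∈ P, (∏ i, p i) ∈ PB (N ^ 6) := by
    intro p hp
    rw [hP, Fintype.mem_piFinset] at hp
    rw [mem_PB]
    constructor
    · rw [nrm_prod]
      refine (prod_le_prod' fun i _ => (mem_SB.1 (hp i)).1).trans ?_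
      rw [prod_const, card_univ, Fintype.card_fin]
    · exact prod_induction _ prim (fun a b => prim_mul) prim_one fun i _ => (mem_SB.1 (hp i)).2.prm
  have hcardP : (P.card : ℝ) ≤ (9 * N) ^ 6 := by
    rw [hP, Fintype.card_piFinset, prod_const, card_univ, Fintype.card_fin]
    push_cast
    have h5 := card_SB_le hN
    exact pow_le_pow_left₀ (Nat.cast_nonneg _) h5 6
  have hN6 : 1 ≤ N ^ 6 := Nat.one_le_pow _ _ hN
  have hmean := mean_sq (γ := fun _ => (1 : ℝ)) (fun _ => by norm_num) hM (Nat.pow_le_pow_left hMN 6)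
  have hG2 : ∑ p ∈ P, G (∏ i, p i) ^ 2 ≤ R * (N : ℝ) ^ (1 / 12 : ℝ) * (108945 * (M * (N : ℝ) ^ 6)) := by
    rw [← sum_fiberwise_of_maps_to hPmem]
    have h1 : ∀ h ∈ PB (N ^ 6), ∑ p ∈ P.filter (fun p => ∏ i, p i = h), G (∏ i, p i) ^ 2 ≤
        R * (N : ℝ) ^ (1 / 12 : ℝ) * G h ^ 2 := by
      intro h hh
      have hh0 : h ≠ 0 := prim_ne_zero (mem_PB.1 hh).2
      have h2 : ∑ p ∈ P.filter (fun p => ∏ i, p i = h), G (∏ i, p i) ^ 2 =
          ((P.filter (fun p => ∏ i, p i = h)).card : ℝ) * G h ^ 2 := by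
        rw [← nsmul_eq_mul, ← sum_const]
        refine sum_congr rfl fun p hp => ?_
        rw [(mem_filter.1 hp).2]
      rw [h2]
      have h3 : (P.filter (fun p => ∏ i, p i = h)).card ≤ (DP h).card ^ 6 := by
        have h4 : P.filter (fun p => ∏ i, p i = h) ⊆ Fintype.piFinset (fun _ : Fin 6 => DP h) := by
          intro p hp
          rw [Fintype.mem_piFinset]
          intro i
          have hpi := (mem_filter.1 hp).1
          rw [hP, Fintype.mem_piFinset] at hpi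
          rw [mem_DP hh0]
          refine ⟨(mem_SB.1 (hpi i)).2.prm, ?_⟩
          rw [← (mem_filter.1 hp).2]
          exact dvd_prod_of_mem _ (mem_univ i)
        refine (card_le_card h4).trans ?_
        rw [Fintype.card_piFinset, prod_const, card_univ, Fintype.card_fin]
      have h5 : ((P.filter (fun p => ∏ i, p i = h)).card : ℝ) ≤ R * (N : ℝ) ^ (1 / 12 : ℝ) := by
        refine le_trans ?_ (hR N h hN (mem_PB.1 hh).2 (mem_PB.1 hh).1)
        exact_mod_cast h3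
      exact mul_le_mul_of_nonneg_right h5 (sq_nonneg _)
    refine (sum_le_sum h1).trans ?_
    rw [← mul_sum]
    have h6 : ∑ h ∈ PB (N ^ 6), G h ^ 2 ≤ 108945 * (M * (N : ℝ) ^ 6) := by
      refine hmean.trans (le_of_eq ?_)
      push_cast
      ring
    exact mul_le_mul_of_nonneg_left h6 (by positivity)
  have hW2 : W ^ 2 ≤ (9 * N) ^ 6 * (R * (N : ℝ) ^ (1 / 12 : ℝ) * (108945 * (M * (N : ℝ) ^ 6))) := by
    have h1 : W ≤ ∑ p ∈ P, |G (∏ i, p i)| := by
      rw [hWexp]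
      refine sum_le_sum fun p _ => ?_
      refine (le_abs_self _).trans ?_
      rw [abs_mul]
      refine mul_le_of_le_one_left (abs_nonneg _) ?_
      rw [abs_prod]
      exact prod_le_one (fun i _ => abs_nonneg _) (fun i _ => hβ _)
    have h2 : W ^ 2 ≤ (∑ p ∈ P, |G (∏ i, p i)|) ^ 2 := pow_le_pow_left₀ hW0 h1 2
    refine h2.trans ?_
    refine (sq_sum_le_card_mul_sum_sq).trans ?_
    have h3 : ∑ p ∈ P, |G (∏ i, p i)| ^ 2 = ∑ p ∈ P, G (∏ i, p i) ^ 2 :=
      sum_congr rfl fun p _ => sq_abs _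
    rw [h3]
    have h4 : (0 : ℝ) ≤ ∑ p ∈ P, G (∏ i, p i) ^ 2 := sum_nonneg fun _ _ => sq_nonneg _
    exact mul_le_mul hcardP hG2 h4 (by positivity)
  have h12 : (Bil α β M N) ^ 12 = (|Bil α β M N| ^ 6) ^ 2 := by
    rw [← pow_mul]
    exact (Even.pow_abs (by decide) _).symm
  rw [h12]
  clear_value W G P A
  clear hWexp hG2 hPmem h12 hcardP
  generalize (N : ℝ) ^ (1 / 12 : ℝ) = r at hW2 ⊢
  have s1 : (|Bil α β M N| ^ 6) ^ 2 ≤ ((9 * M) ^ 5 * W) ^ 2 :=
    pow_le_pow_left₀ (by positivity) hS6 2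
  have s2 : (9 * (M : ℝ)) ^ 10 * W ^ 2 ≤
      (9 * M) ^ 10 * ((9 * N) ^ 6 * (R * r * (108945 * (M * (N : ℝ) ^ 6)))) :=
    mul_le_mul_of_nonneg_left hW2 (by positivity)
  calc (|Bil α β M N| ^ 6) ^ 2 ≤ ((9 * M) ^ 5 * W) ^ 2 := s1
    _ = (9 * M) ^ 10 * W ^ 2 := by ring
    _ ≤ (9 * M) ^ 10 * ((9 * N) ^ 6 * (R * r * (108945 * (M * (N : ℝ) ^ 6)))) := s2
    _ = 9 ^ 16 * 108945 * R * ((M : ℝ) ^ 11 * (N : ℝ) ^ 12 * r) := by ring

/-- **bilinear estimate** -/
theorem box1 : ∃ C : ℝ, 1 ≤ C ∧ ∀ (α β : ZI → ℝ), (∀ x, |α x| ≤ 1) → (∀ x, |β x| ≤ 1) →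
    ∀ M N : ℕ, 1 ≤ M → M ≤ N → |Bil α β M N| ≤ C * (M * N * (M : ℝ) ^ (-(1 / 24) : ℝ)) := by
  obtain ⟨C, hC1, hC⟩ := bil_short
  refine ⟨C + 980505, by linarith, ?_⟩
  intro α β hα hβ M N hM hMN
  have hN : 1 ≤ N := hM.trans hMN
  have hMr : (1 : ℝ) ≤ M := by exact_mod_cast hM
  have hNr : (1 : ℝ) ≤ N := by exact_mod_cast hN
  have hM0 : (0 : ℝ) < M := by linarith
  have hN0 : (0 : ℝ) < N := by linarith
  set K : ℝ := C + 980505 with hK
  have hK1 : 1 ≤ K := by rw [hK]; linarith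
  set m : ℝ := (M : ℝ) ^ (-(1 / 24) : ℝ) with hm
  have hm0 : 0 < m := Real.rpow_pos_of_pos hM0 _
  have hm12 : m ^ 12 = (M : ℝ) ^ (-(1 / 2) : ℝ) := by
    rw [hm, ← Real.rpow_natCast, ← Real.rpow_mul hM0.le]
    norm_num
  by_cases h6 : M ^ 6 ≤ N
  · have h1 := bil_long hα hβ hM h6
    have hm2 : (M : ℝ) ^ (-(1 / 2) : ℝ) ≤ m := by
      rw [hm]
      exact Real.rpow_le_rpow_of_exponent_le hMr (by norm_num)
    have h2 : |Bil α β M N| ≤ K * (M * N * (M : ℝ) ^ (-(1 / 2) : ℝ)) := by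
      apply abs_le_of_sq_le_sq _ (by positivity)
      have e2 : ((M : ℝ) ^ (-(1 / 2) : ℝ)) ^ 2 * M = 1 := by
        rw [← Real.rpow_natCast, ← Real.rpow_mul hM0.le]
        have : (-(1 / 2) : ℝ) * ((2 : ℕ) : ℝ) = -1 := by norm_num
        rw [this, Real.rpow_neg_one]
        field_simp
      have e3 : (K * (M * N * (M : ℝ) ^ (-(1 / 2) : ℝ))) ^ 2 = K ^ 2 * (M * N ^ 2) := by
        have : (K * (M * N * (M : ℝ) ^ (-(1 / 2) : ℝ))) ^ 2 =
          K ^ 2 * (M * N ^ 2) * (((M : ℝ) ^ (-(1 / 2) : ℝ)) ^ 2 * M) := by ring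
        rw [this, e2, mul_one]
      rw [e3]
      refine h1.trans ?_
      have h3 : (980505 : ℝ) ≤ K ^ 2 := by
        have : 980505 ≤ K := by rw [hK]; linarith
        nlinarith
      gcongr
    refine h2.trans ?_
    gcongr
  · push Not at h6
    have h1 := hC α β hα hβ M N hM hMN
    have h2 : (N : ℝ) ^ (1 / 12 : ℝ) ≤ (M : ℝ) ^ (1 / 2 : ℝ) := by
      have e : (M : ℝ) ^ (1 / 2 : ℝ) = ((M : ℝ) ^ 6) ^ (1 / 12 : ℝ) := by
        rw [← Real.rpow_natCast, ← Real.rpow_mul hM0.le]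
        norm_num
      rw [e]
      apply Real.rpow_le_rpow hN0.le _ (by norm_num)
      exact_mod_cast h6.le
    have h3 : (M : ℝ) ^ 11 * (N : ℝ) ^ 12 * (M : ℝ) ^ (1 / 2 : ℝ) = (M * N * m) ^ 12 := by
      rw [mul_pow, mul_pow, hm12]
      have : (M : ℝ) ^ (1 / 2 : ℝ) = M * (M : ℝ) ^ (-(1 / 2) : ℝ) := by
        have e := Real.rpow_add hM0 1 (-(1 / 2))
        rw [Real.rpow_one] at e
        rw [← e]
        norm_num
      rw [this]
      ring
    have h4 : |Bil α β M N| ^ 12 ≤ (K * (M * N * m)) ^ 12 := by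
      rw [Even.pow_abs (by decide)]
      refine h1.trans ?_
      rw [mul_pow K, ← h3]
      have h5 : C ≤ K ^ 12 := by
        have : C ≤ K := by rw [hK]; linarith
        exact this.trans (le_self_pow₀ hK1 (by norm_num))
      gcongr
    exact (pow_le_pow_iff_left₀ (abs_nonneg _) (by positivity) (by norm_num)).1 h4

/-- the reciprocity law for the bilinear forms: two classes for `tO` -/
theorem bil_symm (α β : ZI → ℝ) (M N : ℕ) : Bil α β M N =
    Bil β (fun x => if tO x = 0 then α x else 0) N M +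
      Bil (fun y => β y * sg (tO y)) (fun x => if tO x = 0 then 0 else α x) N M := by
  unfold Bil
  rw [sum_comm, ← sum_add_distrib]
  refine sum_congr rfl fun y hy => ?_
  rw [← sum_add_distrib]
  refine sum_congr rfl fun x hx => ?_
  rw [jac_rec (mem_SB.1 hx).2 (mem_SB.1 hy).2]
  show α x * β y * ((jac y x : ℝ) * sg (tO x * tO y)) =
    β y * (if tO x = 0 then α x else 0) * (jac y x : ℝ) +
      β y * sg (tO y) * (if tO x = 0 then 0 else α x) * (jac y x : ℝ)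
  by_cases h : tO x = 0
  · rw [if_pos h, if_pos h, h, zero_mul, sg_zero]
    ring
  · rw [if_neg h, if_neg h]
    have h1 : tO x = 1 := by
      have : ∀ z : ZMod 2, z ≠ 0 → z = 1 := by decide
      exact this _ h
    rw [h1, one_mul]
    ring

/-- **bilinear estimate over boxes** -/
theorem box : ∃ C : ℝ, 1 ≤ C ∧ ∀ (α β : ZI → ℝ), (∀ x, |α x| ≤ 1) → (∀ x, |β x| ≤ 1) →
    ∀ M N : ℕ, 1 ≤ M → 1 ≤ N →
      |Bil α β M N| ≤ C * (M * N * ((M : ℝ) ^ (-(1 / 24) : ℝ) + (N : ℝ) ^ (-(1 / 24) : ℝ))) := by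
  obtain ⟨C, hC1, hC⟩ := box1
  refine ⟨2 * C, by linarith, ?_⟩
  intro α β hα hβ M N hM hN
  have hMr : (1 : ℝ) ≤ M := by exact_mod_cast hM
  have hNr : (1 : ℝ) ≤ N := by exact_mod_cast hN
  rcases le_total M N with h | h
  · refine (hC α β hα hβ M N hM h).trans ?_
    have h0 : (0 : ℝ) ≤ (N : ℝ) ^ (-(1 / 24) : ℝ) := by positivity
    have h1 : (0 : ℝ) ≤ (M : ℝ) ^ (-(1 / 24) : ℝ) := by positivity
    have h2 : (M : ℝ) * N * (M : ℝ) ^ (-(1 / 24) : ℝ) ≤
        M * N * ((M : ℝ) ^ (-(1 / 24) : ℝ) + (N : ℝ) ^ (-(1 / 24) : ℝ)) := by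
      gcongr
      linarith
    have h3 : (0 : ℝ) ≤ M * N * ((M : ℝ) ^ (-(1 / 24) : ℝ) + (N : ℝ) ^ (-(1 / 24) : ℝ)) := by positivity
    calc C * (M * N * (M : ℝ) ^ (-(1 / 24) : ℝ)) ≤
          C * (M * N * ((M : ℝ) ^ (-(1 / 24) : ℝ) + (N : ℝ) ^ (-(1 / 24) : ℝ))) := by gcongr
      _ ≤ 2 * C * (M * N * ((M : ℝ) ^ (-(1 / 24) : ℝ) + (N : ℝ) ^ (-(1 / 24) : ℝ))) := by
          apply mul_le_mul_of_nonneg_right _ h3
          linarith
  · rw [bil_symm]
    have h1 := hC β (fun x => if tO x = 0 then α x else 0) hβ (fun x => by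
      show |if tO x = 0 then α x else 0| ≤ 1
      split_ifs
      · exact hα x
      · rw [abs_zero]; exact zero_le_one) N M hN h
    have h2 := hC (fun y => β y * sg (tO y)) (fun x => if tO x = 0 then 0 else α x) (fun y => by
      show |β y * sg (tO y)| ≤ 1
      rw [abs_mul, sg_abs, mul_one]
      exact hβ y) (fun x => by
      show |if tO x = 0 then 0 else α x| ≤ 1
      split_ifs
      · rw [abs_zero]; exact zero_le_one
      · exact hα x) N M hN h
    refine (abs_add_le _ _).trans ((add_le_add h1 h2).trans ?_)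
    have h0 : (0 : ℝ) ≤ (M : ℝ) ^ (-(1 / 24) : ℝ) := by positivity
    have h3 : (N : ℝ) * M * (N : ℝ) ^ (-(1 / 24) : ℝ) ≤
        M * N * ((M : ℝ) ^ (-(1 / 24) : ℝ) + (N : ℝ) ^ (-(1 / 24) : ℝ)) := by
      rw [mul_comm (N : ℝ) M]
      gcongr
      linarith
    have h4 := mul_le_mul_of_nonneg_left h3 (by linarith : (0 : ℝ) ≤ C)
    linarith

/-- Q7-BIL -/
theorem bil : S_BIL := by
  obtain ⟨C, hC1, hC⟩ := box
  refine ⟨(2 * C) ^ 24, one_le_pow₀ (by linarith), ?_⟩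
  intro P Q A B z c d hP hQ hdis hz hzA hzB hc hd
  have hPA : P ⊆ SB A := fun x hx => mem_SB.2 ⟨(hP x hx).2, (hP x hx).1.ps⟩
  have hQB : Q ⊆ SB B := fun x hx => mem_SB.2 ⟨(hQ x hx).2, (hQ x hx).1.ps⟩
  have h1 := hC (fun x => if x ∈ P then c x else 0) (fun y => if y ∈ Q then d y else 0)
    (fun x => by
      show |if x ∈ P then c x else 0| ≤ 1
      split_ifs
      · exact hc x
      · rw [abs_zero]; exact zero_le_one)
    (fun y => by
      show |if y ∈ Q then d y else 0| ≤ 1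
      split_ifs
      · exact hd y
      · rw [abs_zero]; exact zero_le_one) A B (hz.trans hzA) (hz.trans hzB)
  have e1 : Bil (fun x => if x ∈ P then c x else 0) (fun y => if y ∈ Q then d y else 0) A B =
      ∑ π ∈ P, ∑ ρ ∈ Q, c π * d ρ * sg (s π ρ) := by
    unfold Pool.Agent.H519.Q7.Bil
    refine (sum_subset hPA fun x _ hx => ?_).symm.trans (sum_congr rfl fun x hx => ?_)
    · refine sum_eq_zero fun y _ => ?_
      show (if x ∈ P then c x else 0) * (if y ∈ Q then d y else 0) * (jac x y : ℝ) = 0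
      rw [if_neg hx, zero_mul, zero_mul]
    · refine (sum_subset hQB fun y _ hy => ?_).symm.trans (sum_congr rfl fun y hy => ?_)
      · show (if x ∈ P then c x else 0) * (if y ∈ Q then d y else 0) * (jac x y : ℝ) = 0
        rw [if_neg hy, mul_zero, zero_mul]
      · show (if x ∈ P then c x else 0) * (if y ∈ Q then d y else 0) * (jac x y : ℝ) = _
        rw [if_pos hx, if_pos hy, jac_prime (hP x hx).1, sg_s fun hd' => ?_]
        have he := (hP x hx).1.eq_of_dvd (hQ y hy).1 hd'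
        exact (Finset.disjoint_left.1 hdis) hx (he ▸ hy)
  rw [e1] at h1
  have hz0 : (0 : ℝ) < z := by exact_mod_cast hz
  have hzA' : (z : ℝ) ≤ A := by exact_mod_cast hzA
  have hzB' : (z : ℝ) ≤ B := by exact_mod_cast hzB
  have hA0 : (0 : ℝ) < A := lt_of_lt_of_le hz0 hzA'
  have hB0 : (0 : ℝ) < B := lt_of_lt_of_le hz0 hzB'
  have h2 : (A : ℝ) ^ (-(1 / 24) : ℝ) ≤ (z : ℝ) ^ (-(1 / 24) : ℝ) :=
    Real.rpow_le_rpow_of_nonpos hz0 hzA' (by norm_num)
  have h3 : (B : ℝ) ^ (-(1 / 24) : ℝ) ≤ (z : ℝ) ^ (-(1 / 24) : ℝ) :=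
    Real.rpow_le_rpow_of_nonpos hz0 hzB' (by norm_num)
  set q : ℝ := (z : ℝ) ^ (-(1 / 24) : ℝ) with hq
  have hq24 : q ^ 24 * z = 1 := by
    rw [hq, ← Real.rpow_natCast, ← Real.rpow_mul hz0.le]
    norm_num
    rw [Real.rpow_neg_one]
    exact inv_mul_cancel₀ hz0.ne'
  have h4 : |∑ π ∈ P, ∑ ρ ∈ Q, c π * d ρ * sg (s π ρ)| ≤ 2 * C * (A * B) * q := by
    refine h1.trans ?_
    have h5 : (A : ℝ) * B * ((A : ℝ) ^ (-(1 / 24) : ℝ) + (B : ℝ) ^ (-(1 / 24) : ℝ)) ≤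
        A * B * (q + q) := by
      apply mul_le_mul_of_nonneg_left (add_le_add h2 h3) (by positivity)
    have h6 := mul_le_mul_of_nonneg_left h5 (by linarith : (0 : ℝ) ≤ C)
    refine h6.trans (le_of_eq ?_)
    ring
  have h5 := pow_le_pow_left₀ (abs_nonneg _) h4 24
  calc |∑ π ∈ P, ∑ ρ ∈ Q, c π * d ρ * sg (s π ρ)| ^ 24 * z ≤
      (2 * C * (A * B) * q) ^ 24 * z := mul_le_mul_of_nonneg_right h5 hz0.le
    _ = (2 * C) ^ 24 * ((A : ℝ) * B) ^ 24 * (q ^ 24 * z) := by ring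
    _ = (2 * C) ^ 24 * ((A : ℝ) * B) ^ 24 := by rw [hq24, mul_one]

end Pool.Agent.H519.Q7.Bil
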