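import Pool.Agent.H519.Q7.Hall
import Pool.Agent.H519.Q7.Stm

/-!
# Project Q7, part HAL: mean value of the function that is `1/2` at the primes with `chi c G = -1`

Port of `Q146/GN/Hal.lean` (Gaussian integers).
-/

set_option autoImplicit false

open scoped Classical

namespace Pool.Agent.H519.Q7.Hal

open Finset
open Pool.Agent.H519.Q7
open Pool.Agent.Y699 (lg one_le_lg lg_pos lg_mono lg_sq sum_le_inj)

/-- the values of the function -/
theorem chi_cases (c : Lb) (G n : ZI) : chi c G n = 0 ∨ chi c G n = 1 ∨ chi c G n = -1 := by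
  unfold chi
  rcases sg_cases (dot c (fc n)) with h1 | h1 <;> rcases jac_cases G n with h | h | h <;>
    rw [h1, h] <;> simp

theorem chi_mul {c : Lb} {G : ZI} (hG : PS G) {a b : ZI} (ha : prim a) (hb : prim b) :
    chi c G (a * b) = chi c G a * chi c G b := by
  unfold chi
  rw [fc_mul ha hb, dot_add_right, sg_add, jac_mul_right hG.ne]
  push_cast
  ring

theorem chr {c : Lb} {G : ZI} (hG : PS G) : Chr (chi c G) where
  val := chi_cases c G
  one := by
    unfold chi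
    rw [fc_one, dot_zero_right, sg_zero, jac_one_right hG.ne]
    simp
  mul _ _ ha hb := chi_mul hG ha hb

theorem chi_abs (c : Lb) (G n : ZI) : |chi c G n| ≤ 1 := by
  rcases chi_cases c G n with h | h | h <;> rw [h] <;> simp

theorem chi_per {c : Lb} {G : ZI} (hG : PS G) {a b : ZI} (h : 8 * s7 * G ∣ a - b) :
    chi c G a = chi c G b := by
  unfold chi
  rw [fc_per ((Dvd.intro _ rfl).trans h), jac_per hG.ne ((Dvd.intro_left _ rfl).trans h)]

/-- an element at which the character is `-1` -/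
theorem exists_neg {c : Lb} {G : ZI} (hG : PS G) (h : c ≠ 0 ∨ G ≠ 1) :
    ∃ a : ZI, prim a ∧ IsCoprime a (8 * s7 * G) ∧ chi c G a = -1 := by
  have hPD : ∀ ρ ∈ PD G, PP ρ := fun ρ hρ => ((mem_PD hG.ne).1 hρ).1
  have key : ∀ a : ZI, prim a → (∀ ρ ∈ PD G, qr ρ a ≠ 0) → IsCoprime a (8 * s7 * G) := by
    intro a ha h1
    refine (prim_cop8 ha).mul_right ?_
    rw [← hG.prod]
    refine IsCoprime.prod_right fun ρ hρ => ?_
    rw [isCoprime_comm]
    exact ((hPD ρ hρ).pr.irreducible.coprime_iff_not_dvd).2 fun h2 => h1 ρ hρ (qr_zero_iff.2 h2)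
  rcases eq_or_ne c 0 with hc | hc
  · subst hc
    have h1 : G ≠ 1 := by
      rcases h with h | h
      · exact absurd rfl h
      · exact h
    obtain ⟨π, hπ⟩ : (PD G).Nonempty := by
      rw [nonempty_iff_ne_empty]
      intro h2
      have h3 := hG.prod
      rw [h2, prod_empty] at h3
      exact h1 h3.symm
    obtain ⟨a, a1, a2, a3, a4⟩ := exists_twist (S := (PD G).erase π)
      (fun ρ hρ => hPD ρ (mem_of_mem_erase hρ)) (hPD π hπ) (notMem_erase π _) 0
    refine ⟨a, a1, key a a1 fun ρ hρ => ?_, ?_⟩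
    · by_cases h2 : ρ = π
      · rw [h2, a3]
        norm_num
      · rw [a4 ρ (mem_erase.2 ⟨h2, hρ⟩)]
        norm_num
    · unfold chi jac
      rw [a2, dot_zero_right, sg_zero, ← mul_prod_erase (PD G) (fun π => qr π a) hπ, a3,
        prod_congr rfl a4]
      simp
  · obtain ⟨x, hx⟩ := exists_dot hc
    obtain ⟨a, a1, a2, a3⟩ := exists_twist0 hPD x
    refine ⟨a, a1, key a a1 fun ρ hρ => ?_, ?_⟩
    · rw [a3 ρ hρ]
      norm_num
    · unfold chi jac
      rw [a2, hx, sg_one, prod_congr rfl a3]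
      simp

/-- character sums -/
theorem chi_sum {c : Lb} {G : ZI} (hG : PS G) (h : c ≠ 0 ∨ G ≠ 1) (v : ℕ) (hv : 1 ≤ v) :
    |∑ d ∈ PB v, chi c G d| ≤ 100000 * (nrm G : ℕ) * Real.sqrt v := by
  obtain ⟨a, a1, a2, a3⟩ := exists_neg hG h
  have hs7 : nrm s7 = 7 := by
    have h1 := nrm_eq' s7
    have h2 : s7.re = -1 := rfl
    have h3 : s7.im = 2 := rfl
    rw [h2, h3] at h1
    have h4 : (nrm s7 : ℤ) = 7 := by
      rw [h1]
      norm_num
    exact_mod_cast h4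
  have h8 : nrm (8 * s7 * G) = 448 * nrm G := by
    rw [nrm_mul, nrm_mul, hs7]
    have h1 := nrm_natCast 8
    have h2 : ((8 : ℕ) : ZI) = 8 := by norm_num
    rw [h2] at h1
    rw [h1]
    norm_num
  have hq : (8 * s7 * G : ZI) ≠ 0 := by
    intro h0
    have h1 := nrm_pos hG.ne
    rw [← nrm_zero_iff, h8] at h0
    omega
  have hmo : mo ∣ 8 * s7 * G := ⟨2 * G, by unfold mo; ring⟩
  have e1 := csum (q := 8 * s7 * G) hq (f := fun n => if prim n then chi c G n else 0)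
    (fun x y hxy => by
      have h1 : prim x ↔ prim y := ⟨prim_per (hmo.trans hxy), prim_per (by
        have h2 := hmo.trans hxy
        rw [← neg_sub]
        exact (dvd_neg.2 h2))⟩
      by_cases hx : prim x
      · rw [if_pos hx, if_pos (h1.1 hx), chi_per hG hxy]
      · rw [if_neg hx, if_neg (fun h => hx (h1.2 h))])
    (fun x => by
      by_cases hx : prim x
      · rw [if_pos hx]
        exact chi_abs c G x
      · rw [if_neg hx]
        simp) a2
    (fun x => by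
      by_cases hx : prim x
      · rw [if_pos hx, if_pos (prim_mul a1 hx), chi_mul hG a1 hx, a3]
        ring
      · rw [if_neg hx, if_neg (fun h => hx (prim_cancel a1 h))]
        simp) v
  rw [← sum_filter] at e1
  change |∑ d ∈ PB v, chi c G d| ≤ _ at e1
  refine e1.trans ?_
  rw [h8]
  have h1 : (1 : ℝ) ≤ Real.sqrt v := Real.one_le_sqrt.2 (by exact_mod_cast hv)
  have h2 : (0 : ℝ) ≤ nrm G := Nat.cast_nonneg _
  push_cast
  have h3 : 3 * Real.sqrt v + 1 ≤ 4 * Real.sqrt v := by linarith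
  calc 3 * (448 * (nrm G : ℝ)) * (3 * Real.sqrt v + 1) ≤
      3 * (448 * (nrm G : ℝ)) * (4 * Real.sqrt v) :=
        mul_le_mul_of_nonneg_left h3 (by positivity)
    _ = 5376 * (nrm G * Real.sqrt v) := by ring
    _ ≤ 100000 * (nrm G * Real.sqrt v) :=
        mul_le_mul_of_nonneg_right (by norm_num) (by positivity)
    _ = _ := by ring

/-- the logarithmic mean of `(1 + χ) / 2` -/
theorem log_mean {c : Lb} {G : ZI} (hG : PS G) (h1 : c ≠ 0 ∨ G ≠ 1) (Y : ℕ) :
    ∑ n ∈ SB Y, mf (fun π => (1 + chi c G π) / 2) n / nrm n ≤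
      6000 * Real.sqrt (lg (nrm G) * lg Y) := by
  have hχ := chi_cases c G
  have hl := one_le_lg (nrm G)
  have hA : ∑ n ∈ PB (Y ^ 2), mf (fun π => 2 * ((1 + chi c G π) / 2)) n / nrm n ≤
      36000000 * (lg (nrm G) * lg Y) := by
    have e1 : (fun π : ZI => 2 * ((1 + chi c G π) / 2)) = fun π => 1 + chi c G π := by
      funext π; ring
    rw [e1]
    have e2 : ∑ n ∈ PB (Y ^ 2), mf (fun π => 1 + chi c G π) n / nrm n ≤
        ∑ n ∈ PB (Y ^ 2), (∑ d ∈ DP n, chi c G d) / nrm n := by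
      refine sum_le_sum fun n hn => ?_
      exact div_le_div_of_nonneg_right (conv_le (chr hG) n (mem_PB.1 hn).2) (Nat.cast_nonneg _)
    rw [conv_sum] at e2
    refine e2.trans ?_
    have e3 : ∀ k ∈ PB (Y ^ 2),
        (1 / (nrm k : ℝ)) * ∑ d ∈ PB (Y ^ 2 / nrm k), chi c G d / nrm d ≤
        (1000000 * lg (nrm G)) * (1 / nrm k) := by
      intro k _
      rw [mul_comm]
      exact mul_le_mul_of_nonneg_right ((le_abs_self _).trans
        (chs_log (chr hG) (nrm_pos hG.ne) (chi_sum hG h1) _)) (by positivity)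
    refine (sum_le_sum e3).trans ?_
    rw [← mul_sum]
    have e4 := hsum (Y ^ 2)
    have e5 := lg_sq Y
    have e6 := lg_pos Y
    have e7 : (1000000 * lg (nrm G)) * ∑ k ∈ PB (Y ^ 2), (1 : ℝ) / nrm k ≤
        (1000000 * lg (nrm G)) * (36 * lg Y) := by
      apply mul_le_mul_of_nonneg_left _ (by linarith)
      linarith
    refine e7.trans ?_
    have : 0 ≤ lg (nrm G) * lg Y := by positivity
    nlinarith
  have h2 := hall2 (g := fun π => (1 + chi c G π) / 2)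
    (fun π => by rcases hχ π with h | h | h <;> simp only [h] <;> norm_num)
    (fun π => by rcases hχ π with h | h | h <;> simp only [h] <;> norm_num) Y
  have h3 := Real.le_sqrt_of_sq_le (h2.trans hA)
  refine h3.trans (le_of_eq ?_)
  rw [Real.sqrt_mul (by norm_num)]
  congr 1
  rw [show (36000000 : ℝ) = 6000 ^ 2 by norm_num]
  exact Real.sqrt_sq (by norm_num)

/-- expanding `1 + h` -/
theorem conv1 (h : ZI → ℝ) (h0 : ∀ π, 0 ≤ h π) (Y : ℕ) :
    ∑ n ∈ PB Y, mf (fun π => 1 + h π) n / nrm n ≤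
      (∑ d ∈ SB Y, mf h d / nrm d) * ∑ m ∈ PB Y, (1 : ℝ) / nrm m := by
  have e1 : ∑ n ∈ PB Y, mf (fun π => 1 + h π) n / nrm n =
      ∑ x ∈ (PB Y).sigma (fun n => (PD n).powerset), (∏ π ∈ x.2, h π) / (nrm x.1 : ℝ) := by
    rw [sum_sigma]
    refine sum_congr rfl fun n _ => ?_
    show _ = ∑ s ∈ (PD n).powerset, (∏ π ∈ s, h π) / (nrm n : ℝ)
    rw [← sum_div]
    congr 1
    unfold mf
    rw [prod_one_add]
  rw [e1, sum_mul_sum, ← sum_product']
  have key : ∀ (n : ZI) (S : Finset ZI), n ∈ PB Y → S ⊆ PD n →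
      n ≠ 0 ∧ (∀ π ∈ S, PP π) ∧ PS (∏ π ∈ S, π) ∧ PD (∏ π ∈ S, π) = S ∧
        (∏ π ∈ S, π) * (n / ∏ π ∈ S, π) = n := by
    intro n S hn hS
    have hn0 := prim_ne_zero (mem_PB.1 hn).2
    have h1 : ∀ π ∈ S, PP π ∧ π ∣ n := fun π hπ => (mem_PD hn0).1 (hS hπ)
    have h2 : ∀ π ∈ S, PP π := fun π hπ => (h1 π hπ).1
    exact ⟨hn0, h2, (PS_prod h2).1, (PS_prod h2).2,
      EuclideanDomain.mul_div_cancel' (PS_prod h2).1.ne (dvd_of_PD h1)⟩
  refine sum_le_inj (fun x => (∏ π ∈ x.2, π, x.1 / ∏ π ∈ x.2, π)) ?_ ?_ ?_ ?_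
  · rintro ⟨n, S⟩ hx
    rw [mem_sigma, mem_powerset] at hx
    simp only at hx
    obtain ⟨k0, k1, k2, k3, k4⟩ := key n S hx.1 hx.2
    have hn := mem_PB.1 hx.1
    have h5 : nrm (∏ π ∈ S, π) * nrm (n / ∏ π ∈ S, π) = nrm n := by rw [← nrm_mul, k4]
    have h6 := nrm_pos' k2.ne
    have h7 : 0 < nrm (n / ∏ π ∈ S, π) := by
      rcases Nat.eq_zero_or_pos (nrm (n / ∏ π ∈ S, π)) with h8 | h8
      · rw [h8, Nat.mul_zero] at h5
        exact absurd h5.symm (nrm_ne k0)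
      · exact h8
    rw [mem_product, mem_SB, mem_PB]
    refine ⟨⟨?_, k2⟩, ?_, ?_⟩
    · refine le_trans ?_ hn.1
      rw [← h5]
      exact Nat.le_mul_of_pos_right _ h7
    · refine le_trans ?_ hn.1
      rw [← h5]
      exact Nat.le_mul_of_pos_left _ h6
    · refine prim_cancel k2.prm ?_
      show prim ((∏ π ∈ S, π) * (n / ∏ π ∈ S, π))
      rw [k4]
      exact hn.2
  · rintro ⟨n, S⟩ hx ⟨n', S'⟩ hy hxy
    rw [mem_sigma, mem_powerset] at hx hy
    simp only [Prod.mk.injEq] at hx hy hxy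
    obtain ⟨h2, h3⟩ := hxy
    obtain ⟨-, -, -, k3, k4⟩ := key n S hx.1 hx.2
    obtain ⟨-, -, -, l3, l4⟩ := key n' S' hy.1 hy.2
    have e2 : S = S' := by rw [← k3, ← l3, h2]
    have e3 : n = n' := by rw [← k4, ← l4, h3, h2]
    subst e2
    subst e3
    rfl
  · rintro ⟨n, S⟩ hx
    rw [mem_sigma, mem_powerset] at hx
    simp only at hx
    obtain ⟨k0, k1, k2, k3, k4⟩ := key n S hx.1 hx.2
    have h5 : nrm n = nrm (∏ π ∈ S, π) * nrm (n / ∏ π ∈ S, π) := by rw [← nrm_mul, k4]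
    show (∏ π ∈ S, h π) / (nrm n : ℝ) ≤
      mf h (∏ π ∈ S, π) / nrm (∏ π ∈ S, π) * (1 / (nrm (n / ∏ π ∈ S, π) : ℝ))
    unfold mf
    rw [k3, h5, Nat.cast_mul, div_mul_div_comm, mul_one]
  · intro x _
    exact mul_nonneg (div_nonneg (mf_nonneg h0 _) (Nat.cast_nonneg _)) (by positivity)

/-- removing the primes dividing `G` -/
theorem conv2 {G : ZI} (hG : G ≠ 0) (h k : ZI → ℝ) (h0 : ∀ π, 0 ≤ h π) (h1 : ∀ π, h π ≤ 1)
    (k0 : ∀ π, 0 ≤ k π) (he : ∀ π, PP π → ¬ π ∣ G → h π = k π) (Y : ℕ) :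
    ∑ d ∈ SB Y, mf h d / nrm d ≤
      (∑ d ∈ SB (nrm G), (1 : ℝ) / nrm d) * ∑ d ∈ SB Y, mf k d / nrm d := by
  rw [sum_mul_sum, ← sum_product']
  have key : ∀ d : ZI, d ∈ SB Y →
      (∀ π ∈ (PD d).filter (fun π => π ∣ G), PP π ∧ π ∣ G) ∧
      (∀ π ∈ (PD d).filter (fun π => ¬ π ∣ G), PP π ∧ ¬ π ∣ G) ∧
      (∏ π ∈ (PD d).filter (fun π => π ∣ G), π) * (∏ π ∈ (PD d).filter (fun π => ¬ π ∣ G), π) =
        d := by
    intro d hd
    have hd2 := (mem_SB.1 hd).2
    refine ⟨fun π hπ => ?_, fun π hπ => ?_, ?_⟩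
    · rw [mem_filter, mem_PD hd2.ne] at hπ
      exact ⟨hπ.1.1, hπ.2⟩
    · rw [mem_filter, mem_PD hd2.ne] at hπ
      exact ⟨hπ.1.1, hπ.2⟩
    · rw [prod_filter_mul_prod_filter_not]
      exact hd2.prod
  refine sum_le_inj (fun d => (∏ π ∈ (PD d).filter (fun π => π ∣ G), π,
    ∏ π ∈ (PD d).filter (fun π => ¬ π ∣ G), π)) ?_ ?_ ?_ ?_
  · intro d hd
    obtain ⟨a1, a2, a3⟩ := key d hd
    have b1 := PS_prod fun π hπ => (a1 π hπ).1
    have b2 := PS_prod fun π hπ => (a2 π hπ).1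
    rw [mem_product, mem_SB, mem_SB]
    refine ⟨⟨norm_le_of_dvd hG (dvd_of_PD a1), b1.1⟩, ?_, b2.1⟩
    refine le_trans ?_ (mem_SB.1 hd).1
    refine norm_le_of_dvd (mem_SB.1 hd).2.ne ?_
    exact Dvd.intro_left _ a3
  · intro d hd e he hde
    obtain ⟨-, -, a3⟩ := key d hd
    obtain ⟨-, -, b3⟩ := key e he
    simp only [Prod.mk.injEq] at hde
    rw [← a3, ← b3, hde.1, hde.2]
  · intro d hd
    obtain ⟨a1, a2, a3⟩ := key d hd
    have b1 := PS_prod fun π hπ => (a1 π hπ).1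
    have b2 := PS_prod fun π hπ => (a2 π hπ).1
    show mf h d / (nrm d : ℝ) ≤ 1 / (nrm (∏ π ∈ (PD d).filter (fun π => π ∣ G), π) : ℝ) *
      (mf k (∏ π ∈ (PD d).filter (fun π => ¬ π ∣ G), π) /
        nrm (∏ π ∈ (PD d).filter (fun π => ¬ π ∣ G), π))
    have h5 : (nrm d : ℝ) = nrm (∏ π ∈ (PD d).filter (fun π => π ∣ G), π) *
        nrm (∏ π ∈ (PD d).filter (fun π => ¬ π ∣ G), π) := by
      rw [← Nat.cast_mul, ← nrm_mul, a3]
    rw [h5, div_mul_div_comm, one_mul]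
    refine div_le_div_of_nonneg_right ?_ (by positivity)
    unfold mf
    rw [b2.2, ← prod_filter_mul_prod_filter_not (PD d) (fun π => π ∣ G)]
    have h6 : ∏ π ∈ (PD d).filter (fun π => ¬ π ∣ G), h π =
        ∏ π ∈ (PD d).filter (fun π => ¬ π ∣ G), k π :=
      prod_congr rfl fun π hπ => he π (a2 π hπ).1 (a2 π hπ).2
    rw [h6]
    exact mul_le_of_le_one_left (prod_nonneg fun _ _ => k0 _)
      (prod_le_one (fun _ _ => h0 _) (fun _ _ => h1 _))
  · intro x _
    exact mul_nonneg (by positivity) (div_nonneg (mf_nonneg k0 _) (Nat.cast_nonneg _))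

/-- for a primary prime not dividing `G` the character is `1` or `-1` -/
theorem chi_ne {c : Lb} {G π : ZI} (hG : PS G) (hπ : PP π) (h : ¬ π ∣ G) :
    chi c G π = 1 ∨ chi c G π = -1 := by
  have hc : IsCoprime G π := by
    rw [isCoprime_comm]
    exact (hπ.pr.irreducible.coprime_iff_not_dvd).2 h
  have h1 := jac_ne_zero hG hc
  unfold chi
  rcases jac_cases G π with h2 | h2 | h2
  · exact absurd h2 h1
  · rcases sg_cases (dot c (fc π)) with h3 | h3 <;> rw [h2, h3] <;> simp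
  · rcases sg_cases (dot c (fc π)) with h3 | h3 <;> rw [h2, h3] <;> simp

theorem sqrt_sqrt_rpow {x : ℝ} (hx : 0 < x) :
    Real.sqrt (Real.sqrt x) / Real.sqrt x = x ^ (-(1 / 4) : ℝ) := by
  rw [Real.sqrt_eq_rpow, Real.sqrt_eq_rpow, ← Real.rpow_mul hx.le, ← Real.rpow_sub hx]
  norm_num

/-- Q7-HAL -/
theorem hal : S_HAL := by
  refine ⟨21 * Real.sqrt 6000000, ?_, ?_⟩
  · have : (1 : ℝ) ≤ Real.sqrt 6000000 := Real.one_le_sqrt.2 (by norm_num)
    linarith
  intro c G T hG hG1 hT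
  set g : ZI → ℝ := fun π => if chi c G π = -1 then (1 / 2 : ℝ) else 1 with hg
  set h : ZI → ℝ := fun π => if chi c G π = -1 then (0 : ℝ) else 1 with hh
  have hχ := chi_cases c G
  have l1 := one_le_lg (nrm G)
  have l2 := one_le_lg T
  have l3 := one_le_lg (T ^ 2)
  have l4 := lg_sq T
  have g0 : ∀ π, 0 ≤ g π := fun π => by rw [hg]; dsimp only; split_ifs <;> norm_num
  have g1 : ∀ π, g π ≤ 1 := fun π => by rw [hg]; dsimp only; split_ifs <;> norm_num
  have h0 : ∀ π, 0 ≤ h π := fun π => by rw [hh]; dsimp only; split_ifs <;> norm_num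
  have h1 : ∀ π, h π ≤ 1 := fun π => by rw [hh]; dsimp only; split_ifs <;> norm_num
  have e1 : (fun π => 2 * g π) = fun π => 1 + h π := by
    funext π
    rw [hg, hh]
    dsimp only
    split_ifs <;> norm_num
  have k0 : ∀ π, 0 ≤ (1 + chi c G π) / 2 := fun π => by
    rcases hχ π with h | h | h <;> rw [h] <;> norm_num
  have he : ∀ π, PP π → ¬ π ∣ G → h π = (1 + chi c G π) / 2 := by
    intro π hπ hd
    rw [hh]
    dsimp only
    rcases chi_ne (c := c) hG hπ hd with h2 | h2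
    · rw [h2, if_neg (by norm_num)]
      norm_num
    · rw [h2, if_pos rfl]
      norm_num
  have hb : ∑ n ∈ PB (T ^ 2), mf (fun π => 2 * g π) n / nrm n ≤
      (6000000 * lg (nrm G) ^ 2 * Real.sqrt (lg T)) * lg T := by
    rw [e1]
    refine (conv1 h h0 (T ^ 2)).trans ?_
    have c1 := conv2 hG.ne h (fun π => (1 + chi c G π) / 2) h0 h1 k0 he (T ^ 2)
    have c2 := hsum_SB (nrm G)
    have c3 := log_mean hG hG1 (T ^ 2)
    have c4 := hsum (T ^ 2)
    have s0 : 0 ≤ ∑ d ∈ SB (T ^ 2), mf h d / (nrm d : ℝ) :=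
      sum_nonneg fun n _ => div_nonneg (mf_nonneg h0 n) (Nat.cast_nonneg _)
    have s1 : 0 ≤ ∑ d ∈ SB (T ^ 2), mf (fun π => (1 + chi c G π) / 2) d / (nrm d : ℝ) :=
      sum_nonneg fun n _ => div_nonneg (mf_nonneg k0 n) (Nat.cast_nonneg _)
    have d1 : Real.sqrt (lg (nrm G) * lg (T ^ 2)) ≤
        lg (nrm G) * (3 / 2 * Real.sqrt (lg T)) := by
      rw [Real.sqrt_le_left (by positivity)]
      have : (lg (nrm G) * (3 / 2 * Real.sqrt (lg T))) ^ 2 =
          lg (nrm G) ^ 2 * (9 / 4 * (Real.sqrt (lg T)) ^ 2) := by ring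
      rw [this, Real.sq_sqrt (by linarith), sq (lg (nrm G)), mul_assoc]
      apply mul_le_mul_of_nonneg_left _ (by linarith)
      nlinarith
    have d2 : ∑ d ∈ SB (T ^ 2), mf h d / (nrm d : ℝ) ≤
        (18 * lg (nrm G)) * (6000 * (lg (nrm G) * (3 / 2 * Real.sqrt (lg T)))) := by
      refine c1.trans ?_
      refine mul_le_mul c2 (c3.trans ?_) s1 (by linarith)
      linarith
    have d3 : ∑ m ∈ PB (T ^ 2), (1 : ℝ) / nrm m ≤ 36 * lg T := by linarith
    refine (mul_le_mul d2 d3 (sum_nonneg fun _ _ => by positivity) (by positivity)).trans ?_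
    have e2 : (18 * lg (nrm G)) * (6000 * (lg (nrm G) * (3 / 2 * Real.sqrt (lg T)))) * (36 * lg T) =
        5832000 * (lg (nrm G) ^ 2 * Real.sqrt (lg T) * lg T) := by ring
    have e3 : (6000000 * lg (nrm G) ^ 2 * Real.sqrt (lg T)) * lg T =
        6000000 * (lg (nrm G) ^ 2 * Real.sqrt (lg T) * lg T) := by ring
    rw [e2, e3]
    have : 0 ≤ lg (nrm G) ^ 2 * Real.sqrt (lg T) * lg T := by positivity
    linarith
  have s2 : 1 ≤ Real.sqrt (lg T) := Real.one_le_sqrt.2 l2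
  have hA1 : 1 ≤ 6000000 * lg (nrm G) ^ 2 * Real.sqrt (lg T) := by
    have : 1 ≤ lg (nrm G) ^ 2 := one_le_pow₀ l1
    nlinarith
  have hfin := hall_aux g0 g1 hT hA1 hb
  refine hfin.trans (le_of_eq ?_)
  have e4 : Real.sqrt (6000000 * lg (nrm G) ^ 2 * Real.sqrt (lg T)) =
      Real.sqrt 6000000 * lg (nrm G) * Real.sqrt (Real.sqrt (lg T)) := by
    rw [Real.sqrt_mul (by positivity), Real.sqrt_mul (by norm_num), Real.sqrt_sq (by linarith)]
  rw [e4, ← sqrt_sqrt_rpow (lg_pos T)]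
  ring

end Pool.Agent.H519.Q7.Hal
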