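import Pool.Agent.H519.Q7.Alg
import Pool.Graph.R_seed8.Y699.Lat

/-!
# Project Q7: lattice points and character sums (task Q7-LAT)

After `Pool/Graph/R_seed8/Y699/{Lat,Csum,Jsum,Lg,Sqf}.lean` and, for a form that is not `x ^ 2 + y ^ 2`,
`Pool/Graph/R_seed8/Y699/E/{Lat,Csum,Lg}.lean` (Eisenstein integers). The form is `x ^ 2 + x y + 2 y ^ 2`: `y` is
in an interval of length `2 √(4 V / 7)`, and for given `y` the `x` form an interval of length at most `2 √V`;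
`x` is in an interval of length `2 √(8 V / 7)`, and for given `x` the `y` form an interval.
-/

set_option autoImplicit false

open scoped Classical

namespace Pool.Agent.H519.Q7

open Finset
open Pool.Agent.Y699 (lg one_le_lg lg_pos lg_mono)

namespace Lat

open Pool.Agent.Y699.Lat (ico_succ_top range_bound)

/-- sums over convex sets -/
lemma conv_bound {g : ℤ → ℝ} {N : ℕ} (hN : 0 < N) (hg : ∀ y, g (y + N) = g y)
    (h0 : ∑ i ∈ range N, g i = 0) {B : ℝ} (hB : ∀ y, |g y| ≤ B) {S : Finset ℤ}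
    (hS : ∀ a ∈ S, ∀ b ∈ S, ∀ x, a ≤ x → x ≤ b → x ∈ S) :
    |∑ y ∈ S, g y| ≤ B * N := by
  have hB0 : 0 ≤ B := (abs_nonneg _).trans (hB 0)
  by_cases hne : S.Nonempty
  · have h1 : S = Ico (S.min' hne) (S.min' hne + ((S.max' hne + 1 - S.min' hne).toNat : ℤ)) := by
      have h2 := S.min'_le _ (S.max'_mem hne)
      ext y
      rw [mem_Ico]
      constructor
      · intro hy
        have h3 := S.min'_le y hy
        have h4 := S.le_max' y hy
        omega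
      · rintro ⟨h3, h4⟩
        exact hS _ (S.min'_mem hne) _ (S.max'_mem hne) y h3 (by omega)
    rw [h1, ico_succ_top]
    exact range_bound hN hg h0 hB _ _
  · rw [not_nonempty_iff_eq_empty] at hne
    rw [hne, sum_empty, abs_zero]
    positivity

/-- half the number of the rows -/
def sy (V : ℕ) : ℕ := Nat.sqrt (4 * V / 7)

/-- half the number of the columns -/
def sx (V : ℕ) : ℕ := Nat.sqrt (8 * V / 7)

lemma mem_sq {n : ℕ} {y : ℤ} : y ∈ Icc (-(Nat.sqrt n : ℤ)) (Nat.sqrt n) ↔ y ^ 2 ≤ n := by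
  have e : y ∈ Icc (-(Nat.sqrt n : ℤ)) (Nat.sqrt n) ↔ y.natAbs ≤ Nat.sqrt n := by
    rw [mem_Icc]
    omega
  rw [e, Nat.le_sqrt']
  zify
  rw [sq_abs]

lemma mem_sy {V : ℕ} {y : ℤ} : y ∈ Icc (-(sy V : ℤ)) (sy V) ↔ 7 * y ^ 2 ≤ 4 * V := by
  unfold sy
  rw [mem_sq]
  push_cast
  omega

lemma mem_sx {V : ℕ} {x : ℤ} : x ∈ Icc (-(sx V : ℤ)) (sx V) ↔ 7 * x ^ 2 ≤ 8 * V := by
  unfold sx
  rw [mem_sq]
  push_cast
  omega

lemma sy_le (V : ℕ) : 2 * (sy V : ℝ) + 1 ≤ 1.52 * Real.sqrt V + 1 := by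
  have h1 : sy V * sy V ≤ 4 * V / 7 := Nat.sqrt_le _
  have h2 : sy V * sy V * 7 ≤ 4 * V := by omega
  have h3 : (sy V : ℝ) * sy V * 7 ≤ 4 * V := by exact_mod_cast h2
  have h4 : Real.sqrt V ^ 2 = V := Real.sq_sqrt (Nat.cast_nonneg V)
  have h5 := Real.sqrt_nonneg (V : ℝ)
  have h6 : 2 * (sy V : ℝ) ≤ 1.52 * Real.sqrt V := by
    apply le_of_sq_le_sq _ (by positivity)
    nlinarith
  linarith

lemma sx_le (V : ℕ) : 2 * (sx V : ℝ) + 1 ≤ 2.14 * Real.sqrt V + 1 := by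
  have h1 : sx V * sx V ≤ 8 * V / 7 := Nat.sqrt_le _
  have h2 : sx V * sx V * 7 ≤ 8 * V := by omega
  have h3 : (sx V : ℝ) * sx V * 7 ≤ 8 * V := by exact_mod_cast h2
  have h4 : Real.sqrt V ^ 2 = V := Real.sq_sqrt (Nat.cast_nonneg V)
  have h5 := Real.sqrt_nonneg (V : ℝ)
  have h6 : 2 * (sx V : ℝ) ≤ 2.14 * Real.sqrt V := by
    apply le_of_sq_le_sq _ (by positivity)
    nlinarith
  linarith

/-- the ellipse -/
noncomputable def ell (V : ℕ) : Finset (ℤ × ℤ) :=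
  ((Icc (-(sx V : ℤ)) (sx V)) ×ˢ (Icc (-(sy V : ℤ)) (sy V))).filter
    fun p => p.1 ^ 2 + p.1 * p.2 + 2 * p.2 ^ 2 ≤ (V : ℤ)

lemma mem_ell {V : ℕ} {p : ℤ × ℤ} : p ∈ ell V ↔ p.1 ^ 2 + p.1 * p.2 + 2 * p.2 ^ 2 ≤ (V : ℤ) := by
  unfold ell
  rw [mem_filter, mem_product, mem_sx, mem_sy]
  constructor
  · exact fun h => h.2
  · intro h
    refine ⟨⟨?_, ?_⟩, h⟩
    · nlinarith [sq_nonneg (p.1 + 4 * p.2)]
    · nlinarith [sq_nonneg (2 * p.1 + p.2)]

/-- the rows -/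
noncomputable def row (V : ℕ) (y : ℤ) : Finset ℤ :=
  (Icc (-(sx V : ℤ)) (sx V)).filter fun x => x ^ 2 + x * y + 2 * y ^ 2 ≤ (V : ℤ)

/-- the columns -/
noncomputable def col (V : ℕ) (x : ℤ) : Finset ℤ :=
  (Icc (-(sy V : ℤ)) (sy V)).filter fun y => x ^ 2 + x * y + 2 * y ^ 2 ≤ (V : ℤ)

lemma mem_row {V : ℕ} {x y : ℤ} : x ∈ row V y ↔ x ^ 2 + x * y + 2 * y ^ 2 ≤ (V : ℤ) := by
  unfold row
  rw [mem_filter, mem_sx]
  exact ⟨fun h => h.2, fun h => ⟨by nlinarith [sq_nonneg (x + 4 * y)], h⟩⟩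

lemma mem_col {V : ℕ} {x y : ℤ} : y ∈ col V x ↔ x ^ 2 + x * y + 2 * y ^ 2 ≤ (V : ℤ) := by
  unfold col
  rw [mem_filter, mem_sy]
  exact ⟨fun h => h.2, fun h => ⟨by nlinarith [sq_nonneg (2 * x + y)], h⟩⟩

lemma row_conv (V : ℕ) (y : ℤ) : ∀ a ∈ row V y, ∀ b ∈ row V y, ∀ x, a ≤ x → x ≤ b → x ∈ row V y := by
  intro a ha b hb x hax hxb
  rw [mem_row] at *
  by_cases h : 2 * x ≤ -y
  · nlinarith
  · push Not at h
    nlinarith

lemma col_conv (V : ℕ) (x : ℤ) : ∀ a ∈ col V x, ∀ b ∈ col V x, ∀ y, a ≤ y → y ≤ b → y ∈ col V x := by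
  intro a ha b hb y hay hyb
  rw [mem_col] at *
  by_cases h : 4 * y ≤ -x
  · nlinarith
  · push Not at h
    nlinarith

lemma sum_row {V : ℕ} (F : ℤ → ℤ → ℝ) : ∑ p ∈ ell V, F p.1 p.2 =
    ∑ y ∈ Icc (-(sy V : ℤ)) (sy V), ∑ x ∈ row V y, F x y := by
  unfold ell row
  rw [sum_filter, sum_product_right]
  refine sum_congr rfl fun y _ => ?_
  rw [sum_filter]

lemma sum_col {V : ℕ} (F : ℤ → ℤ → ℝ) : ∑ p ∈ ell V, F p.1 p.2 =
    ∑ x ∈ Icc (-(sx V : ℤ)) (sx V), ∑ y ∈ col V x, F x y := by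
  unfold ell col
  rw [sum_filter, sum_product]
  refine sum_congr rfl fun y _ => ?_
  rw [sum_filter]

lemma card_Icc' (s : ℕ) : ((Icc (-(s : ℤ)) s).card : ℝ) = 2 * s + 1 := by
  rw [Int.card_Icc]
  have : ((s : ℤ) + 1 - -(s : ℤ)).toNat = 2 * s + 1 := by omega
  rw [this]
  push_cast
  ring

/-- **sums over ellipses** -/
theorem ell_bound {f : ℤ → ℤ → ℝ} {N : ℕ} (hN : 0 < N) (h1 : ∀ x y, f (x + N) y = f x y)
    (h2 : ∀ x y, f x (y + N) = f x y) (h0 : ∑ i ∈ range N, ∑ j ∈ range N, f i j = 0)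
    (hB : ∀ x y, |f x y| ≤ 1) (V : ℕ) :
    |∑ p ∈ ell V, f p.1 p.2| ≤ 3 * N * (3 * Real.sqrt V + 1) := by
  have hNr : (0 : ℝ) < N := by exact_mod_cast hN
  set F : ℤ → ℝ := fun y => ∑ i ∈ range N, f i y with hF
  have hFp : ∀ y, F (y + N) = F y := fun y => sum_congr rfl fun j _ => h2 _ _
  have hF0 : ∑ i ∈ range N, F i = 0 := by
    rw [hF, sum_comm]
    exact h0
  have hFB : ∀ x, |F x| ≤ N := by
    intro x
    refine (abs_sum_le_sum_abs _ _).trans ((sum_le_sum fun j _ => hB _ _).trans ?_)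
    simp
  have hA : |∑ p ∈ ell V, (f p.1 p.2 - F p.2 / N)| ≤ 2 * N * (2 * sy V + 1) := by
    rw [sum_row (fun x y => f x y - F y / N)]
    refine (abs_sum_le_sum_abs _ _).trans ?_
    have : ∀ y ∈ Icc (-(sy V : ℤ)) (sy V), |∑ x ∈ row V y, (f x y - F y / N)| ≤ 2 * N := by
      intro y _
      refine conv_bound (g := fun x => f x y - F y / N) hN (fun x => by simp only [h1]) ?_ ?_
        (row_conv V y)
      · rw [sum_sub_distrib, sum_const, card_range, nsmul_eq_mul]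
        have : (N : ℝ) * (F y / N) = F y := by field_simp
        rw [this]
        show F y - F y = 0
        ring
      · intro x
        have e1 := hB x y
        have e2 : |F y / N| ≤ 1 := by
          rw [abs_div, Nat.abs_cast, div_le_one hNr]
          exact hFB y
        have := abs_sub (f x y) (F y / N)
        linarith
    refine (sum_le_sum this).trans ?_
    rw [sum_const, nsmul_eq_mul, card_Icc']
    linarith
  have hBd : |∑ p ∈ ell V, F p.2| ≤ (N * N) * (2 * sx V + 1) := by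
    rw [sum_col (fun _ y => F y)]
    refine (abs_sum_le_sum_abs _ _).trans ?_
    have : ∀ x ∈ Icc (-(sx V : ℤ)) (sx V), |∑ y ∈ col V x, F y| ≤ N * N := by
      intro x _
      exact conv_bound hN hFp hF0 hFB (col_conv V x)
    refine (sum_le_sum this).trans ?_
    rw [sum_const, nsmul_eq_mul, card_Icc']
    linarith
  have e : ∑ p ∈ ell V, f p.1 p.2 = ∑ p ∈ ell V, (f p.1 p.2 - F p.2 / N) +
      (∑ p ∈ ell V, F p.2) / N := by
    rw [sum_sub_distrib, sum_div]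
    ring
  rw [e]
  refine (abs_add_le _ _).trans ?_
  have hC : |(∑ p ∈ ell V, F p.2) / N| ≤ N * (2 * sx V + 1) := by
    rw [abs_div, Nat.abs_cast, div_le_iff₀ hNr]
    nlinarith [hBd]
  have h3 : (N : ℝ) * (2 * sx V + 1) ≤ N * (2.14 * Real.sqrt V + 1) :=
    mul_le_mul_of_nonneg_left (sx_le V) hNr.le
  have h5 : 2 * (N : ℝ) * (2 * sy V + 1) ≤ 2 * N * (1.52 * Real.sqrt V + 1) :=
    mul_le_mul_of_nonneg_left (sy_le V) (by positivity)
  have h4 := add_le_add hA hC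
  refine h4.trans ?_
  have h6 : 0 ≤ (N : ℝ) * Real.sqrt V := by positivity
  nlinarith

/-- number of points of the ellipse -/
lemma card_ell_le (V : ℕ) : ((ell V).card : ℝ) ≤ (2.14 * Real.sqrt V + 1) * (1.52 * Real.sqrt V + 1) := by
  have h1 : (ell V).card ≤ ((Icc (-(sx V : ℤ)) (sx V)) ×ˢ (Icc (-(sy V : ℤ)) (sy V))).card :=
    card_le_card (filter_subset _ _)
  rw [card_product] at h1
  have h2 : ((ell V).card : ℝ) ≤ ((Icc (-(sx V : ℤ)) (sx V)).card : ℝ) * ((Icc (-(sy V : ℤ)) (sy V)).card : ℝ) := by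
    exact_mod_cast h1
  rw [card_Icc', card_Icc'] at h2
  exact h2.trans (mul_le_mul (sx_le V) (sy_le V) (by positivity) (by positivity))

lemma sum_range_zmod {N : ℕ} [NeZero N] (G : ZMod N → ℝ) : ∑ i ∈ range N, G i = ∑ z, G z := by
  refine sum_bij' (fun i _ => (i : ZMod N)) (fun z _ => z.val) ?_ ?_ ?_ ?_ ?_
  · intro i _; exact mem_univ _
  · intro z _; exact mem_range.2 (ZMod.val_lt z)
  · intro i hi; exact ZMod.val_cast_of_lt (mem_range.1 hi)
  · intro z _; exact ZMod.natCast_zmod_val z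
  · intro i _; rfl

lemma unit_of_cop {q c : ZI} (hc : IsCoprime c q) :
    ∃ u : (ZI ⧸ Ideal.span {q})ˣ, (u : ZI ⧸ Ideal.span {q}) = Ideal.Quotient.mk _ c := by
  obtain ⟨a, b, hab⟩ := hc
  have h : Ideal.Quotient.mk (Ideal.span {q}) a * Ideal.Quotient.mk (Ideal.span {q}) c = 1 := by
    rw [← map_mul, ← map_one (Ideal.Quotient.mk (Ideal.span {q})), Ideal.Quotient.eq,
      Ideal.mem_span_singleton]
    exact ⟨-b, by linear_combination hab⟩
  exact ⟨⟨_, _, by rw [mul_comm]; exact h, h⟩, rfl⟩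

/-- `ω` -/
def w : ZI := ⟨0, 1⟩

lemma mk_eq (x y : ℤ) : (⟨x, y⟩ : ZI) = (x : ZI) + (y : ZI) * w := by
  ext <;> simp [w]

/-- the sum over a block vanishes -/
theorem block_zero {q : ZI} (hq : q ≠ 0) {f : ZI → ℝ} (per : ∀ a b, q ∣ a - b → f a = f b)
    {c : ZI} (hc : IsCoprime c q) (hfc : ∀ a, f (c * a) = - f a) :
    ∑ i ∈ range (nrm q), ∑ j ∈ range (nrm q), f ⟨i, j⟩ = 0 := by
  set N := nrm q with hN
  have hN0 : N ≠ 0 := nrm_ne hq
  haveI : NeZero N := ⟨hN0⟩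
  set mk : ZI →+* ZI ⧸ Ideal.span {q} := Ideal.Quotient.mk (Ideal.span {q}) with hmk
  have hmkN : mk ((N : ℕ) : ZI) = 0 := by
    rw [hmk, Ideal.Quotient.eq_zero_iff_mem, Ideal.mem_span_singleton]
    exact dvd_nrm q
  set f1 : ℤ →+ ZI ⧸ Ideal.span {q} := (mk : ZI →+ ZI ⧸ Ideal.span {q}).comp (Int.castAddHom ZI) with hf1
  have h1 : f1 (N : ℤ) = 0 := by
    show mk (((N : ℕ) : ℤ) : ZI) = 0
    rw [Int.cast_natCast]
    exact hmkN
  set f2 : ℤ →+ ZI ⧸ Ideal.span {q} := (AddMonoidHom.mulRight (mk w)).comp f1 with hf2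
  have h2 : f2 (N : ℤ) = 0 := by
    show f1 (N : ℤ) * mk w = 0
    rw [h1, zero_mul]
  set φ : ZMod N × ZMod N →+ ZI ⧸ Ideal.span {q} :=
    AddMonoidHom.coprod (ZMod.lift N ⟨f1, h1⟩) (ZMod.lift N ⟨f2, h2⟩) with hφ
  have hφv : ∀ i j : ℤ, φ ((i : ZMod N), (j : ZMod N)) = mk ⟨i, j⟩ := by
    intro i j
    rw [hφ, AddMonoidHom.coprod_apply, ZMod.lift_coe, ZMod.lift_coe]
    show mk (i : ZI) + mk (j : ZI) * mk w = mk ⟨i, j⟩
    rw [← map_mul, ← map_add, mk_eq]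
  have hsurj : ∀ x : ZI ⧸ Ideal.span {q}, x ∈ Set.range φ := by
    intro x
    obtain ⟨a, rfl⟩ := Ideal.Quotient.mk_surjective x
    exact ⟨((a.re : ZMod N), (a.im : ZMod N)), hφv a.re a.im⟩
  have : Finite (ZI ⧸ Ideal.span {q}) := Finite.of_surjective φ fun x => hsurj x
  letI := Fintype.ofFinite (ZI ⧸ Ideal.span {q})
  set fb : ZI ⧸ Ideal.span {q} → ℝ :=
    fun x => f (Function.surjInv (Ideal.Quotient.mk_surjective (I := Ideal.span {q})) x) with hfb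
  have hfbv : ∀ a, fb (mk a) = f a := by
    intro a
    apply per
    have h3 := Function.surjInv_eq (Ideal.Quotient.mk_surjective (I := Ideal.span {q})) (mk a)
    rw [hmk, Ideal.Quotient.eq, Ideal.mem_span_singleton] at h3
    exact h3
  have hsum0 : ∑ x : ZI ⧸ Ideal.span {q}, fb x = 0 := by
    obtain ⟨u, hu⟩ := unit_of_cop hc
    have h3 : ∑ x : ZI ⧸ Ideal.span {q}, fb x = ∑ x : ZI ⧸ Ideal.span {q}, fb (u * x) :=
      (Equiv.sum_comp (Units.mulLeft u) fb).symm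
    have h4 : ∑ x : ZI ⧸ Ideal.span {q}, fb (u * x) = - ∑ x : ZI ⧸ Ideal.span {q}, fb x := by
      rw [← sum_neg_distrib]
      refine sum_congr rfl fun x _ => ?_
      obtain ⟨a, rfl⟩ := Ideal.Quotient.mk_surjective x
      rw [hu, ← map_mul]
      have h5 := hfbv (c * a)
      have h6 := hfbv a
      rw [hmk] at h5 h6
      rw [h5, h6, hfc]
    linarith
  have h3 : ∑ i ∈ range N, ∑ j ∈ range N, f ⟨i, j⟩ = ∑ p : ZMod N × ZMod N, fb (φ p) := by
    rw [Fintype.sum_prod_type, ← sum_range_zmod]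
    refine sum_congr rfl fun i _ => ?_
    rw [← sum_range_zmod]
    refine sum_congr rfl fun j _ => ?_
    have := hφv (i : ℤ) (j : ℤ)
    rw [Int.cast_natCast, Int.cast_natCast] at this
    rw [this, hfbv]
  rw [h3]
  have h4 : ∑ p : ZMod N × ZMod N, fb (φ p) =
      ∑ x : ZI ⧸ Ideal.span {q}, ∑ p ∈ univ.filter (fun p => φ p = x), fb (φ p) :=
    (sum_fiberwise _ _ _).symm
  rw [h4]
  have h5 : ∀ x : ZI ⧸ Ideal.span {q}, ∑ p ∈ univ.filter (fun p => φ p = x), fb (φ p) =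
      ((univ.filter (fun p => φ p = 0)).card : ℝ) * fb x := by
    intro x
    have h6 : ∑ p ∈ univ.filter (fun p => φ p = x), fb (φ p) =
        ∑ p ∈ univ.filter (fun p => φ p = x), fb x :=
      sum_congr rfl fun p hp => by rw [(mem_filter.1 hp).2]
    rw [h6, sum_const, nsmul_eq_mul, AddMonoidHom.card_fiber_eq_of_mem_range φ (hsurj x) (hsurj 0)]
  rw [sum_congr rfl (fun x _ => h5 x), ← mul_sum, hsum0, mul_zero]

lemma sum_ZB (V : ℕ) (f : ZI → ℝ) : ∑ a ∈ ZB V, f a = ∑ p ∈ ell V, f ⟨p.1, p.2⟩ := by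
  refine sum_bij' (fun a _ => (a.re, a.im)) (fun p _ => (⟨p.1, p.2⟩ : ZI)) ?_ ?_ ?_ ?_ ?_
  · intro a ha
    rw [mem_ZB] at ha
    rw [mem_ell, ← nrm_eq' a]
    exact_mod_cast ha
  · intro p hp
    rw [mem_ell] at hp
    rw [mem_ZB]
    have h0 := nrm_eq' (⟨p.1, p.2⟩ : ZI)
    have h1 : (nrm (⟨p.1, p.2⟩ : ZI) : ℤ) ≤ V := by rw [h0]; exact hp
    exact_mod_cast h1
  · intro a _; ext <;> rfl
  · intro p _; rfl
  · intro a _; rfl

lemma card_ZB (V : ℕ) : (ZB V).card = (ell V).card := by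
  have h := sum_ZB V fun _ => 1
  rw [sum_const, sum_const, nsmul_eq_mul, nsmul_eq_mul, mul_one, mul_one] at h
  exact_mod_cast h

end Lat

/-- a function of period `q` with `f (c a) = z f a` has small sums -/
theorem csum {q : ZI} (hq : q ≠ 0) {f : ZI → ℝ} (per : ∀ a b, q ∣ a - b → f a = f b)
    (hb : ∀ a, |f a| ≤ 1) {c : ZI} (hc : IsCoprime c q) (hfc : ∀ a, f (c * a) = - f a) (V : ℕ) :
    |∑ a ∈ ZB V, f a| ≤ 3 * nrm q * (3 * Real.sqrt V + 1) := by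
  rw [Lat.sum_ZB]
  refine Lat.ell_bound (f := fun x y => f ⟨x, y⟩) (Nat.pos_of_ne_zero (nrm_ne hq)) ?_ ?_
    (Lat.block_zero hq per hc hfc) (fun x y => hb _) V
  · intro x y
    apply per
    have : (⟨x + (nrm q : ℕ), y⟩ : ZI) - ⟨x, y⟩ = ((nrm q : ℕ) : ZI) := by
      ext <;> simp
    rw [this]
    exact dvd_nrm q
  · intro x y
    apply per
    have : (⟨x, y + (nrm q : ℕ)⟩ : ZI) - ⟨x, y⟩ = ((nrm q : ℕ) : ZI) * Lat.w := by
      ext <;> simp [Lat.w]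
    rw [this]
    exact (dvd_nrm q).mul_right _

lemma card_ZB_le {V : ℕ} (hV : 1 ≤ V) : ((ZB V).card : ℝ) ≤ 9 * V := by
  have h1 := Lat.card_ell_le V
  rw [Lat.card_ZB]
  refine h1.trans ?_
  have h3 : Real.sqrt V ^ 2 = V := Real.sq_sqrt (Nat.cast_nonneg V)
  have h4 : (1 : ℝ) ≤ V := by exact_mod_cast hV
  have h5 : 1 ≤ Real.sqrt V := Real.one_le_sqrt.2 h4
  nlinarith

lemma card_SB_le {M : ℕ} (hM : 1 ≤ M) : ((SB M).card : ℝ) ≤ 9 * M :=
  le_trans (by exact_mod_cast card_le_card (filter_subset _ _)) (card_ZB_le hM)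

lemma card_PB_le {M : ℕ} (hM : 1 ≤ M) : ((PB M).card : ℝ) ≤ 9 * M :=
  le_trans (by exact_mod_cast card_le_card (filter_subset _ _)) (card_ZB_le hM)

lemma Lat.nrm_add_le (a b : ZI) : nrm (a + b) ≤ 2 * nrm a + 2 * nrm b := by
  zify
  rw [nrm_eq', nrm_eq', nrm_eq']
  have h1 : (a + b).re = a.re + b.re := rfl
  have h2 : (a + b).im = a.im + b.im := rfl
  rw [h1, h2]
  nlinarith [sq_nonneg (2 * (a.re - b.re) + (a.im - b.im)), sq_nonneg (a.im - b.im)]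

/-- lower bound for the number of the elements in a class modulo `q` -/
theorem cls_ge {q : ZI} (hq : q ≠ 0) (c : ZI) : ∃ (c₁ : ℝ) (X₁ : ℕ), 0 < c₁ ∧ ∀ X : ℕ, X₁ ≤ X →
    c₁ * X ≤ (((ZB X).filter fun m => q ∣ m - c).card : ℝ) := by
  have hQ := nrm_pos hq
  have hQr : (0 : ℝ) < nrm q := by exact_mod_cast hQ
  refine ⟨1 / (16 * nrm q), 4 * nrm c, by positivity, fun X hX => ?_⟩
  set M := (X - 2 * nrm c) / (8 * nrm q) with hM
  set r := Nat.sqrt M with hr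
  have h1 : ((range (r + 1)) ×ˢ (range (r + 1))).card ≤ ((ZB X).filter fun m => q ∣ m - c).card := by
    apply card_le_card_of_injOn (fun p : ℕ × ℕ => c + q * (⟨(p.1 : ℤ), (p.2 : ℤ)⟩ : ZI))
    · intro p hp
      rw [mem_coe, mem_product, mem_range, mem_range] at hp
      rw [mem_coe, mem_filter, mem_ZB]
      refine ⟨?_, ⟨⟨(p.1 : ℤ), (p.2 : ℤ)⟩, by ring⟩⟩
      refine (Lat.nrm_add_le _ _).trans ?_
      rw [nrm_mul]
      have h2 : nrm (⟨(p.1 : ℤ), (p.2 : ℤ)⟩ : ZI) ≤ 4 * (r * r) := by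
        zify
        rw [nrm_eq']
        show (p.1 : ℤ) ^ 2 + p.1 * p.2 + 2 * (p.2 : ℤ) ^ 2 ≤ 4 * (r * r)
        have a1 : (p.1 : ℤ) ≤ r := by omega
        have a2 : (p.2 : ℤ) ≤ r := by omega
        have a3 : (0 : ℤ) ≤ p.1 := by omega
        have a4 : (0 : ℤ) ≤ p.2 := by omega
        nlinarith [mul_le_mul a1 a1 a3 (by omega : (0 : ℤ) ≤ r), mul_le_mul a1 a2 a4 (by omega : (0 : ℤ) ≤ r),
          mul_le_mul a2 a2 a4 (by omega : (0 : ℤ) ≤ r)]
      have h3 : r * r ≤ M := Nat.sqrt_le _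
      have h4 : M * (8 * nrm q) ≤ X - 2 * nrm c := Nat.div_mul_le_self _ _
      have h5 : nrm q * nrm (⟨(p.1 : ℤ), (p.2 : ℤ)⟩ : ZI) ≤ nrm q * (4 * M) :=
        Nat.mul_le_mul_left _ (h2.trans (by omega))
      have h6 : 2 * (nrm q * (4 * M)) = M * (8 * nrm q) := by ring
      omega
    · intro p _ p' _ h
      have h2 : q * (⟨(p.1 : ℤ), (p.2 : ℤ)⟩ : ZI) = q * (⟨(p'.1 : ℤ), (p'.2 : ℤ)⟩ : ZI) := add_left_cancel h
      have h3 := mul_left_cancel₀ hq h2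
      have h4 := congrArg QuadraticAlgebra.re h3
      have h5 := congrArg QuadraticAlgebra.im h3
      simp only at h4 h5
      exact Prod.ext (by exact_mod_cast h4) (by exact_mod_cast h5)
  rw [card_product, card_range] at h1
  have h2 : M < (r + 1) * (r + 1) := Nat.lt_succ_sqrt _
  have h3 : X - 2 * nrm c < (M + 1) * (8 * nrm q) := by
    rw [hM]
    have := Nat.lt_div_mul_add (a := X - 2 * nrm c) (show 0 < 8 * nrm q by omega)
    nlinarith
  have h4 : X ≤ 2 * ((r + 1) * (r + 1) * (8 * nrm q)) := by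
    have h5 : (M + 1) * (8 * nrm q) ≤ (r + 1) * (r + 1) * (8 * nrm q) := Nat.mul_le_mul_right _ h2
    omega
  have h5 : (X : ℝ) ≤ 2 * (((r : ℝ) + 1) * (r + 1) * (8 * nrm q)) := by exact_mod_cast h4
  have h6 : ((r : ℝ) + 1) * (r + 1) ≤ (((ZB X).filter fun m => q ∣ m - c).card : ℝ) := by
    exact_mod_cast h1
  refine le_trans ?_ h6
  rw [one_div, inv_mul_le_iff₀ (by positivity)]
  linarith

/-- sums over a dyadic decomposition -/
theorem dyadic {S : Finset ZI} {T : ℕ} (hS : ∀ x ∈ S, x ≠ 0 ∧ nrm x ≤ T) {w : ZI → ℝ}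
    (hw : ∀ x ∈ S, 0 ≤ w x) {B : ℝ}
    (hB : ∀ k : ℕ, ∑ x ∈ S.filter (fun x => nrm x ≤ 2 ^ (k + 1)), w x ≤ B * 2 ^ (k + 1)) :
    ∑ x ∈ S, w x / nrm x ≤ 2 * B * lg T := by
  have hmaps : ∀ x ∈ S, Nat.log 2 (nrm x) ∈ range (Nat.log 2 T + 1) := by
    intro x hx
    rw [mem_range]
    have := Nat.log_mono_right (b := 2) (hS x hx).2
    omega
  rw [← sum_fiberwise_of_maps_to hmaps]
  have h1 : ∀ k ∈ range (Nat.log 2 T + 1), ∑ x ∈ S.filter (fun x => Nat.log 2 (nrm x) = k), w x / nrm x ≤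
      2 * B := by
    intro k _
    have h2 : ∀ x ∈ S.filter (fun x => Nat.log 2 (nrm x) = k), w x / nrm x ≤ w x / 2 ^ k := by
      intro x hx
      rw [mem_filter] at hx
      have h3 : 2 ^ k ≤ nrm x := by
        rw [← hx.2]
        exact Nat.pow_log_le_self 2 (nrm_ne (hS x hx.1).1)
      have h4 : (2 : ℝ) ^ k ≤ nrm x := by exact_mod_cast h3
      exact div_le_div_of_nonneg_left (hw x hx.1) (by positivity) h4
    refine (sum_le_sum h2).trans ?_
    rw [← sum_div]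
    have h5 : ∑ x ∈ S.filter (fun x => Nat.log 2 (nrm x) = k), w x ≤
        ∑ x ∈ S.filter (fun x => nrm x ≤ 2 ^ (k + 1)), w x := by
      refine sum_le_sum_of_subset_of_nonneg ?_ ?_
      · intro x hx
        rw [mem_filter] at hx ⊢
        refine ⟨hx.1, ?_⟩
        have := Nat.lt_pow_succ_log_self (b := 2) (by norm_num) (nrm x)
        rw [hx.2] at this
        exact this.le
      · intro x hx _
        exact hw x (mem_filter.1 hx).1
    rw [div_le_iff₀ (by positivity)]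
    refine (h5.trans (hB k)).trans (le_of_eq ?_)
    rw [pow_succ]
    ring
  refine (sum_le_sum h1).trans (le_of_eq ?_)
  rw [sum_const, card_range, nsmul_eq_mul]
  unfold lg
  push_cast
  ring

theorem hsum (T : ℕ) : ∑ x ∈ PB T, (1 : ℝ) / nrm x ≤ 18 * lg T := by
  have := dyadic (S := PB T) (T := T) (w := fun _ => 1) (B := 9) ?_ (fun _ _ => zero_le_one) ?_
  · linarith
  · intro x hx
    rw [mem_PB] at hx
    exact ⟨prim_ne_zero hx.2, hx.1⟩
  · intro k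
    rw [sum_const, nsmul_eq_mul, mul_one]
    have h1 : (PB T).filter (fun x => nrm x ≤ 2 ^ (k + 1)) ⊆ PB (2 ^ (k + 1)) := by
      intro x hx
      rw [mem_filter, mem_PB] at hx
      exact mem_PB.2 ⟨hx.2, hx.1.2⟩
    have h2 : (((PB T).filter (fun x => nrm x ≤ 2 ^ (k + 1))).card : ℝ) ≤ (PB (2 ^ (k + 1))).card := by
      exact_mod_cast card_le_card h1
    refine h2.trans ((card_PB_le (Nat.one_le_two_pow)).trans (le_of_eq ?_))
    push_cast
    ring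

theorem hsum_SB (T : ℕ) : ∑ x ∈ SB T, (1 : ℝ) / nrm x ≤ 18 * lg T := by
  refine (sum_le_sum_of_subset_of_nonneg ?_ (fun _ _ _ => by positivity)).trans (hsum T)
  intro x hx
  rw [mem_SB] at hx
  exact mem_PB.2 ⟨hx.1, hx.2.prm⟩

end Pool.Agent.H519.Q7
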