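import Pool.Agent.H519.Q7.Stm
import Pool.Agent.H519.Q7.Lat

/-!
# Project Q7, task KEY: the sum over the boxes

Port of `Q195/GN/Key.lean` (Gaussian integers) to `ℤ[ω]`.
-/

set_option autoImplicit false

namespace Pool.Agent.H519.Q7.Key

open Finset
open Pool.Agent.Y699 (lg)
open Pool.Agent.Y703.CX (jj XX)
open Pool.Agent.NH57.BL (prs)
open Pool.Agent.H519.Q7
open scoped Classical

theorem le_XX {H p : ℕ} (hH : 1 ≤ H) (hp : 1 ≤ p) : p ≤ XX H (jj H p) := by
  unfold XX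
  apply Nat.le_floor
  have hp0 : (0 : ℝ) < p := by exact_mod_cast hp
  have hH0 : (0 : ℝ) < H := by exact_mod_cast hH
  refine (Real.exp_log hp0).symm.le.trans (Real.exp_le_exp.2 ?_)
  rw [le_div_iff₀ hH0]
  have h1 := Nat.lt_floor_add_one ((H : ℝ) * Real.log p)
  unfold jj
  linarith

theorem fcc {α : Type} {s : Finset α} {p q : α → Prop} {i1 : DecidablePred p}
    {i2 : DecidablePred q} (h : ∀ x ∈ s, (p x ↔ q x)) :
    (@Finset.filter α p i1 s).card = (@Finset.filter α q i2 s).card := by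
  congr 1
  ext x
  rw [Finset.mem_filter, Finset.mem_filter]
  exact and_congr_right fun hx => h x hx

theorem card_sub {α : Type} (U : Finset α) (K : ℕ) :
    (U.powerset.filter fun J => J.card ≤ K).card ≤ (U.card + 1) ^ K := by
  induction K with
  | zero =>
    have : U.powerset.filter (fun J => J.card ≤ 0) ⊆ {∅} := by
      intro J hJ
      rw [Finset.mem_filter, Nat.le_zero, Finset.card_eq_zero] at hJ
      rw [hJ.2]
      exact Finset.mem_singleton_self _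
    exact Finset.card_le_card this
  | succ K ih =>
    set P := U.powerset.filter fun J => J.card ≤ K with hP
    have h1 : U.powerset.filter (fun J => J.card ≤ K + 1) ⊆
        P ∪ (U ×ˢ P).image fun t => insert t.1 t.2 := by
      intro J hJ
      rw [Finset.mem_filter, Finset.mem_powerset] at hJ
      rw [Finset.mem_union]
      rcases J.eq_empty_or_nonempty with h | ⟨x, hx⟩
      · left
        rw [hP, Finset.mem_filter, Finset.mem_powerset, h]
        exact ⟨Finset.empty_subset _, by simp⟩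
      · right
        rw [Finset.mem_image]
        refine ⟨(x, J.erase x), ?_, Finset.insert_erase hx⟩
        rw [Finset.mem_product, hP, Finset.mem_filter, Finset.mem_powerset]
        refine ⟨hJ.1 hx, (Finset.erase_subset _ _).trans hJ.1, ?_⟩
        rw [Finset.card_erase_of_mem hx]
        omega
    refine (Finset.card_le_card h1).trans ((Finset.card_union_le _ _).trans ?_)
    have h2 : ((U ×ˢ P).image fun t => insert t.1 t.2).card ≤ U.card * P.card := by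
      refine Finset.card_image_le.trans ?_
      rw [Finset.card_product]
    rw [pow_succ]
    nlinarith

theorem nrm_one_le {π : ZI} (h : PP π) : 1 ≤ nrm π := nrm_pos h.ne

theorem mem_SS {X : ℕ} {S : Finset ZI} : S ∈ SS X ↔ (∀ p ∈ S, PP p) ∧ ∏ π ∈ S, nrm π ≤ X := by
  unfold SS
  rw [Finset.mem_filter, Finset.mem_powerset]
  constructor
  · exact fun h => ⟨fun p hp => (mem_QB.1 (h.1 hp)).2, h.2⟩
  · intro h
    refine ⟨fun p hp => ?_, h.2⟩
    rw [mem_QB]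
    have h1 : nrm p ≤ ∏ q ∈ S, nrm q :=
      Finset.single_le_prod' (f := fun q => nrm q) (fun q hq => nrm_one_le (h.1 q hq)) hp
    exact ⟨h1.trans h.2, h.1 p hp⟩

/-- the key of a set -/
noncomputable def ky (z H : ℕ) (S : Finset ZI) : Finset ZI × Finset ℕ :=
  (sm z S, (la z S).image (bl H))

/-- the primes of a block -/
noncomputable def CC (z H k : ℕ) : Finset ZI :=
  (QB (XX H k)).filter fun π => z < nrm π ∧ bl H π = k

theorem mem_CC {z H : ℕ} (hH : 1 ≤ H) {k : ℕ} {π : ZI} :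
    π ∈ CC z H k ↔ PP π ∧ z < nrm π ∧ bl H π = k := by
  unfold CC
  rw [Finset.mem_filter, mem_QB]
  constructor
  · exact fun h => ⟨h.1.2, h.2⟩
  · intro h
    refine ⟨⟨?_, h.1⟩, h.2⟩
    have := le_XX hH (nrm_one_le h.1)
    have h1 : jj H (nrm π) = k := h.2.2
    rwa [h1] at this

/-- the conditions on a key -/
def Cd (X K H : ℕ) (S₀ : Finset ZI) (J : Finset ℕ) : Prop :=
  S₀.card + J.card ≤ K ∧ (∏ π ∈ S₀, nrm π) * ∏ i ∈ J, XX H i ≤ X

theorem sm_union (z : ℕ) (S : Finset ZI) : sm z S ∪ la z S = S := by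
  unfold sm la
  exact Finset.filter_union_filter_not_eq _ _

theorem sm_disj (z : ℕ) (S : Finset ZI) : Disjoint (sm z S) (la z S) := by
  unfold sm la
  exact Finset.disjoint_filter_filter_not _ _ _

theorem prod_split (z : ℕ) (S : Finset ZI) (f : ZI → ℕ) :
    ∏ p ∈ S, f p = (∏ p ∈ sm z S, f p) * ∏ p ∈ la z S, f p := by
  conv_lhs => rw [← sm_union z S]
  exact Finset.prod_union (sm_disj z S)

theorem prod_bl {H : ℕ} {L : Finset ZI}
    (h : Set.InjOn (bl H) (L : Set ZI)) (f : ℕ → ℕ) :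
    ∏ i ∈ L.image (bl H), f i = ∏ p ∈ L, f (bl H p) :=
  Finset.prod_image fun a ha b hb hab => h ha hb hab

theorem mem_RR {X z H K : ℕ} (hH : 1 ≤ H) {S : Finset ZI} :
    S ∈ RR X z H K ↔ (∀ p ∈ S, PP p) ∧ Set.InjOn (bl H) (la z S : Set ZI) ∧
      Cd X K H (ky z H S).1 (ky z H S).2 := by
  unfold RR
  rw [Finset.mem_filter, mem_SS]
  have hk1 : (ky z H S).1 = sm z S := rfl
  have hk2 : (ky z H S).2 = (la z S).image (bl H) := rfl
  rw [hk1, hk2]
  have key : Set.InjOn (bl H) (la z S : Set ZI) →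
      (S.card = (sm z S).card + ((la z S).image (bl H)).card) ∧
      (∏ i ∈ (la z S).image (bl H), XX H i = ∏ p ∈ la z S, XX H (bl H p)) := by
    intro h
    refine ⟨?_, ?_⟩
    · rw [Finset.card_image_of_injOn h, ← Finset.card_union_of_disjoint (sm_disj z S),
        sm_union]
    · rw [prod_bl h (fun i => XX H i)]
  unfold Cd
  constructor
  · rintro ⟨⟨h1, h5⟩, h6, h7, h8⟩
    obtain ⟨k3, k4⟩ := key h6
    refine ⟨h1, h6, ?_, ?_⟩
    · rw [← k3]; exact h7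
    · rw [k4]; exact h8
  · rintro ⟨h1, h6, h7, h8⟩
    obtain ⟨k3, k4⟩ := key h6
    rw [← k3] at h7
    rw [k4] at h8
    refine ⟨⟨h1, ?_⟩, h6, h7, h8⟩
    refine le_trans ?_ h8
    rw [prod_split z S]
    apply Nat.mul_le_mul_left
    exact Finset.prod_le_prod' fun p hp =>
      le_XX hH (nrm_one_le (h1 p (Finset.mem_filter.1 hp).1))

section fill
variable {z H : ℕ} {S₀ : Finset ZI} {J : Finset ℕ} {p : J → ZI}

theorem sm_fill (hH : 1 ≤ H) (h₀ : ∀ q ∈ S₀, nrm q ≤ z) (hp : ∀ i : J, p i ∈ CC z H i) :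
    sm z (S₀ ∪ univ.image p) = S₀ := by
  ext q
  unfold sm
  rw [Finset.mem_filter, Finset.mem_union, Finset.mem_image]
  constructor
  · rintro ⟨h | ⟨i, -, rfl⟩, h2⟩
    · exact h
    · have := ((mem_CC hH).1 (hp i)).2.1
      omega
  · exact fun h => ⟨Or.inl h, h₀ q h⟩

theorem la_fill (hH : 1 ≤ H) (h₀ : ∀ q ∈ S₀, nrm q ≤ z) (hp : ∀ i : J, p i ∈ CC z H i) :
    la z (S₀ ∪ univ.image p) = univ.image p := by
  ext q
  unfold la
  rw [Finset.mem_filter, Finset.mem_union, Finset.mem_image]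
  constructor
  · rintro ⟨h | h, h2⟩
    · exact absurd (h₀ q h) h2
    · exact h
  · rintro ⟨i, -, rfl⟩
    have := ((mem_CC hH).1 (hp i)).2.1
    exact ⟨Or.inr ⟨i, Finset.mem_univ _, rfl⟩, by omega⟩

theorem bl_fill (hH : 1 ≤ H) (hp : ∀ i : J, p i ∈ CC z H i) :
    (univ.image p).image (bl H) = J := by
  ext k
  rw [Finset.mem_image]
  constructor
  · rintro ⟨q, hq, rfl⟩
    rw [Finset.mem_image] at hq
    obtain ⟨i, -, rfl⟩ := hq
    rw [((mem_CC hH).1 (hp i)).2.2]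
    exact i.2
  · intro hk
    exact ⟨p ⟨k, hk⟩, Finset.mem_image_of_mem _ (Finset.mem_univ _),
      ((mem_CC hH).1 (hp ⟨k, hk⟩)).2.2⟩

theorem ky_fill (hH : 1 ≤ H) (h₀ : ∀ q ∈ S₀, nrm q ≤ z) (hp : ∀ i : J, p i ∈ CC z H i) :
    ky z H (S₀ ∪ univ.image p) = (S₀, J) := by
  unfold ky
  rw [sm_fill hH h₀ hp, la_fill hH h₀ hp, bl_fill hH hp]

end fill

/-- the facts on the key of a regular set -/
theorem key_facts {X z H K : ℕ} (hH : 1 ≤ H) {S₀ : Finset ZI} {J : Finset ℕ}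
    (hkey : (S₀, J) ∈ (RR X z H K).image (ky z H)) :
    (∀ q ∈ S₀, PP q) ∧ (∀ q ∈ S₀, nrm q ≤ z) ∧
      Cd X K H S₀ J ∧ (∀ i ∈ J, z ≤ XX H i ∧
        ∃ q : ZI, PP q ∧ z < nrm q ∧ nrm q ≤ X ∧ bl H q = i) := by
  rw [Finset.mem_image] at hkey
  obtain ⟨W, hW, hWk⟩ := hkey
  have hWX : ∏ p ∈ W, nrm p ≤ X := by
    unfold RR at hW
    rw [Finset.mem_filter, mem_SS] at hW
    exact hW.1.2
  rw [mem_RR hH, hWk] at hW
  obtain ⟨h1, h2, h3⟩ := hW
  have hS₀ : sm z W = S₀ := congrArg Prod.fst hWk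
  have hJ : (la z W).image (bl H) = J := congrArg Prod.snd hWk
  refine ⟨?_, ?_, h3, ?_⟩
  · intro q hq
    rw [← hS₀] at hq
    exact h1 q (Finset.mem_filter.1 hq).1
  · intro q hq
    rw [← hS₀] at hq
    exact (Finset.mem_filter.1 hq).2
  · intro i hi
    rw [← hJ, Finset.mem_image] at hi
    obtain ⟨q, hq, rfl⟩ := hi
    have hqW := (Finset.mem_filter.1 hq).1
    have hqz := (Finset.mem_filter.1 hq).2
    have hqp := h1 q hqW
    have hqX : nrm q ≤ X := (Finset.single_le_prod' (f := fun q => nrm q)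
      (fun q hq => nrm_one_le (h1 q hq)) hqW).trans hWX
    refine ⟨?_, q, hqp, by omega, hqX, rfl⟩
    have h5 : nrm q ≤ XX H (bl H q) := le_XX hH (nrm_one_le hqp)
    omega

theorem key_bij {X z H K : ℕ} (hH : 1 ≤ H) {S₀ : Finset ZI} {J : Finset ℕ}
    (hkey : (S₀, J) ∈ (RR X z H K).image (ky z H)) (P : Finset ZI → Prop) :
    ((Fintype.piFinset fun i : J => CC z H i).filter fun p => P (S₀ ∪ univ.image p)).card =
      ((RR X z H K).filter fun S => ky z H S = (S₀, J) ∧ P S).card := by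
  obtain ⟨h₀O, h₀, hCd, hJf⟩ := key_facts hH hkey
  apply Finset.card_bij (fun (p : J → ZI) _ => S₀ ∪ univ.image p)
  · intro p hp
    rw [Finset.mem_filter, Fintype.mem_piFinset] at hp
    obtain ⟨hp, hP⟩ := hp
    have hk := ky_fill hH h₀ hp
    rw [Finset.mem_filter]
    refine ⟨?_, hk, hP⟩
    rw [mem_RR hH, hk]
    refine ⟨?_, ?_, hCd⟩
    · intro q hq
      rw [Finset.mem_union, Finset.mem_image] at hq
      rcases hq with hq | ⟨i, -, rfl⟩
      · exact h₀O q hq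
      · exact ((mem_CC hH).1 (hp i)).1
    · rw [la_fill hH h₀ hp]
      intro a ha b hb hab
      rw [Finset.mem_coe, Finset.mem_image] at ha hb
      obtain ⟨i, -, rfl⟩ := ha
      obtain ⟨j, -, rfl⟩ := hb
      have h1 := ((mem_CC hH).1 (hp i)).2.2
      have h2 := ((mem_CC hH).1 (hp j)).2.2
      have h3 : i.1 = j.1 := by
        rw [← h1, ← h2]
        exact hab
      have h4 : i = j := Subtype.ext h3
      rw [h4]
  · intro p hp p' hp' h
    rw [Finset.mem_filter, Fintype.mem_piFinset] at hp hp'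
    have h1 := la_fill hH h₀ hp.1
    rw [h, la_fill hH h₀ hp'.1] at h1
    funext i
    have h2 : p i ∈ univ.image p' := by
      rw [h1]
      exact Finset.mem_image_of_mem _ (Finset.mem_univ _)
    rw [Finset.mem_image] at h2
    obtain ⟨j, -, hj⟩ := h2
    have h3 := ((mem_CC hH).1 (hp.1 i)).2.2
    have h4 := ((mem_CC hH).1 (hp'.1 j)).2.2
    rw [hj, h3] at h4
    rw [← hj, Subtype.ext h4]
  · intro S hS
    rw [Finset.mem_filter] at hS
    obtain ⟨hSR, hSk, hSP⟩ := hS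
    rw [mem_RR hH] at hSR
    obtain ⟨hSO, hSI, -⟩ := hSR
    have hk1 : sm z S = S₀ := congrArg Prod.fst hSk
    have hk2 : (la z S).image (bl H) = J := congrArg Prod.snd hSk
    have hex : ∀ i : J, ∃ q ∈ la z S, bl H q = i := by
      rintro ⟨i, hi⟩
      rw [← hk2, Finset.mem_image] at hi
      exact hi
    choose p hp1 hp2 using hex
    have him : univ.image p = la z S := by
      ext q
      rw [Finset.mem_image]
      constructor
      · rintro ⟨i, -, rfl⟩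
        exact hp1 i
      · intro hq
        have hjq : bl H q ∈ J := by
          rw [← hk2]
          exact Finset.mem_image_of_mem _ hq
        exact ⟨⟨bl H q, hjq⟩, Finset.mem_univ _, hSI (Finset.mem_coe.2 (hp1 _))
          (Finset.mem_coe.2 hq) (hp2 ⟨bl H q, hjq⟩)⟩
    have hSe : S₀ ∪ univ.image p = S := by rw [him, ← hk1, sm_union]
    refine ⟨p, ?_, hSe⟩
    rw [Finset.mem_filter, Fintype.mem_piFinset, hSe]
    refine ⟨fun i => (mem_CC hH).2 ⟨hSO _ (Finset.mem_filter.1 (hp1 i)).1,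
      not_le.1 (Finset.mem_filter.1 (hp1 i)).2, hp2 i⟩, hSP⟩

theorem root_le24 {x y C κ : ℝ} {z : ℕ} (hx : 0 ≤ x) (hy : 0 ≤ y) (hκ : 0 ≤ κ) (hz : 1 ≤ z)
    (h : x ^ 24 * z ≤ C * y ^ 24) (hκz : C ≤ κ ^ 24 * z) : x ≤ κ * y := by
  have hz0 : (0 : ℝ) < z := by exact_mod_cast hz
  have h1 : x ^ 24 * z ≤ (κ * y) ^ 24 * z := by
    calc x ^ 24 * z ≤ C * y ^ 24 := h
      _ ≤ (κ ^ 24 * z) * y ^ 24 := by gcongr
      _ = (κ * y) ^ 24 * z := by ring
  have h2 : x ^ 24 ≤ (κ * y) ^ 24 := le_of_mul_le_mul_right h1 hz0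
  exact le_of_pow_le_pow_left₀ (by norm_num) (by positivity) h2

/-- the bilinear estimate with the constant `C₁` -/
def BL (C₁ : ℝ) : Prop := ∀ (P Q : Finset ZI) (A B z : ℕ) (c d : ZI → ℝ),
  (∀ π ∈ P, PP π ∧ nrm π ≤ A) → (∀ ρ ∈ Q, PP ρ ∧ nrm ρ ≤ B) → Disjoint P Q →
  1 ≤ z → z ≤ A → z ≤ B → (∀ π, |c π| ≤ 1) → (∀ ρ, |d ρ| ≤ 1) →
  |∑ π ∈ P, ∑ ρ ∈ Q, c π * d ρ * sg (s π ρ)| ^ 24 * z ≤ C₁ * ((A : ℝ) * B) ^ 24

theorem hb_box {C₁ : ℝ} (hb1 : BL C₁)
    {ι : Type} (D : ι → Finset ZI) (X : ι → ℕ) {z : ℕ} {κ : ℝ}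
    (hz : 1 ≤ z) (hκ : 0 ≤ κ) (h1 : C₁ ≤ κ ^ 24 * z)
    (hX : ∀ i, z ≤ X i) (hD : ∀ i, ∀ π ∈ D i, PP π ∧ nrm π ≤ X i)
    (hdis : ∀ i l, i ≠ l → Disjoint (D i) (D l)) :
    HB D X κ := by
  intro i l hil c d hc hd
  exact root_le24 (abs_nonneg _) (by positivity) hκ hz (hb1 (D i) (D l) (X i) (X l) z c d
    (hD i) (hD l) (hdis i l hil) hz (hX i) (hX l) hc hd) h1

theorem card_QB_le {V : ℕ} (hV : 1 ≤ V) : (QB V).card ≤ 9 * V := by
  have h1 : QB V ⊆ SB V := by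
    intro π hπ
    rw [mem_QB] at hπ
    rw [mem_SB]
    exact ⟨hπ.1, hπ.2.ps⟩
  have h2 := (Finset.card_le_card h1)
  have h3 := card_SB_le hV
  have h4 : ((QB V).card : ℝ) ≤ 9 * V := le_trans (by exact_mod_cast h2) h3
  exact_mod_cast h4

/-- the statement for the boxes with the decidability of equality as a variable -/
theorem box_dec {N : Finset ZI → Finset ZI → Prop} {T : Finset ZI → Prop} {W : Finset ZI} {cc ε : ℝ}
    (hB : BX N T W cc ε) (ι : Type) [Fintype ι]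
    [inst : DecidableEq ι]
    (lo : LinearOrder ι) (C : ι → Finset ZI) (X : ι → ℕ) (κ : ℝ) (S₀ : Finset ZI) (h1 : 0 ≤ κ)
    (h2 : ∀ i, (C i).card ≤ X i) (h3 : HB C X κ) (h4 : ∀ u ∈ S₀, PP u)
    (h5 : ∀ i, ∀ π ∈ C i, PP π ∧ π ∉ S₀ ∪ W) (h6 : ∀ i l, i ≠ l → Disjoint (C i) (C l)) :
    |(((Fintype.piFinset C).filter fun p => N S₀ (univ.image p) ∧
        T (S₀ ∪ univ.image p)).card : ℝ) -
      cc * (((Fintype.piFinset C).filter fun p => N S₀ (univ.image p)).card : ℝ)| ≤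
    ε * (((Fintype.piFinset C).filter fun p => N S₀ (univ.image p)).card : ℝ) +
    2 ^ (((S₀ ∪ W).card + 4) * Fintype.card ι + (prs ι).card) * (κ * ∏ j, (X j : ℝ)) := by
  have h := hB ι C X κ S₀ h1 h2 h3 h4 h5 h6
  have e : inst = fun a b => lo.toDecidableEq a b := Subsingleton.elim _ _
  subst e
  exact h

theorem prs_card (ι : Type) [Fintype ι] [LinearOrder ι] :
    (prs ι).card ≤ Fintype.card ι * Fintype.card ι := by
  refine (Finset.card_le_card (Finset.subset_univ _)).trans ?_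
  rw [Finset.card_univ, Fintype.card_prod]

theorem per_key {N : Finset ZI → Finset ZI → Prop} {G : Finset ZI → Prop} {W : Finset ZI} {cc ε : ℝ}
    (hB : BX N G W cc ε) (hε : 0 ≤ ε) {C₁ : ℝ} (hb1 : BL C₁)
    {X z H k : ℕ} {κ : ℝ} (hWz : ∀ u ∈ W, nrm u ≤ z) (hWk : W.card ≤ k)
    (hH : 1 ≤ H) (hz : 1 ≤ z) (hκ : 0 ≤ κ)
    (h1 : C₁ ≤ κ ^ 24 * z) {S₀ : Finset ZI} {J : Finset ℕ}
    (hkey : (S₀, J) ∈ (RR X z H k).image (ky z H)) :
    |(((RR X z H k).filter fun S => ky z H S = (S₀, J) ∧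
        (N (sm z S) (la z S) ∧ G S)).card : ℝ) -
      cc * (((RR X z H k).filter fun S => ky z H S = (S₀, J) ∧
        N (sm z S) (la z S)).card : ℝ)| ≤
    ε * (((RR X z H k).filter fun S => ky z H S = (S₀, J) ∧ True).card : ℝ) +
      (3 ^ (20 * k ^ 2) * κ) * (X * (1 / ((∏ p ∈ S₀, nrm p : ℕ) : ℝ))) := by
  obtain ⟨h₀O, h₀, hCd, hJf⟩ := key_facts hH hkey
  obtain ⟨c4, c5⟩ := hCd
  have hcJ : Fintype.card J = J.card := Fintype.card_coe J
  have hCmem : ∀ i : J, ∀ p ∈ CC z H i, PP p ∧ z < nrm p ∧ nrm p ≤ XX H i.1 := by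
    intro i p hp
    obtain ⟨k1, k2, k3⟩ := (mem_CC hH).1 hp
    refine ⟨k1, k2, ?_⟩
    unfold CC at hp
    rw [Finset.mem_filter, mem_QB] at hp
    exact hp.1.1
  have hdis : ∀ i l : J, i ≠ l → Disjoint (CC z H (i : ℕ)) (CC z H (l : ℕ)) := by
    intro i l hil
    rw [Finset.disjoint_left]
    intro p hp hp'
    have h5 := ((mem_CC hH).1 hp).2.2
    have h6 := ((mem_CC hH).1 hp').2.2
    exact hil (Subtype.ext (h5.symm.trans h6))
  have hzX : ∀ i : J, z ≤ XX H i.1 := fun i => (hJf i i.2).1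
  have hHB : HB (fun i : J => CC z H i) (fun i : J => 9 * XX H i.1) κ :=
    hb_box hb1 _ _ hz hκ h1 (fun i => by have := hzX i; omega)
      (fun i p hp => by
        obtain ⟨k1, k2, k3⟩ := hCmem i p hp
        exact ⟨k1, by omega⟩) hdis
  have hcard : ∀ i : J, (CC z H (i : ℕ)).card ≤ 9 * XX H i.1 := by
    intro i
    refine (Finset.card_filter_le _ _).trans (card_QB_le ?_)
    have := hzX i
    omega
  have hbox := box_dec hB J inferInstance (fun i : J => CC z H i)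
    (fun i : J => 9 * XX H i.1) κ S₀ hκ hcard hHB h₀O (fun i p hp => by
      obtain ⟨k1, k2, k3⟩ := hCmem i p hp
      refine ⟨k1, fun h => ?_⟩
      rcases Finset.mem_union.1 h with h | h
      · have := h₀ p h
        omega
      · have := hWz p h
        omega) hdis
  have e1 : (((Fintype.piFinset fun i : J => CC z H i).filter
      fun p => N S₀ (univ.image p) ∧ G (S₀ ∪ univ.image p)).card) =
      ((RR X z H k).filter fun S => ky z H S = (S₀, J) ∧
        (N (sm z S) (la z S) ∧ G S)).card := by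
    refine Eq.trans (fcc ?_) ((key_bij hH hkey (fun S => N (sm z S) (la z S) ∧ G S)).trans
      (fcc fun _ _ => Iff.rfl))
    intro p hp
    rw [Fintype.mem_piFinset] at hp
    rw [sm_fill hH h₀ hp, la_fill hH h₀ hp]
  have e2 : (((Fintype.piFinset fun i : J => CC z H i).filter
      fun p => N S₀ (univ.image p)).card) =
      ((RR X z H k).filter fun S => ky z H S = (S₀, J) ∧ N (sm z S) (la z S)).card := by
    refine Eq.trans (fcc ?_) ((key_bij hH hkey (fun S => N (sm z S) (la z S))).trans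
      (fcc fun _ _ => Iff.rfl))
    intro p hp
    rw [Fintype.mem_piFinset] at hp
    rw [sm_fill hH h₀ hp, la_fill hH h₀ hp]
  rw [← e1, ← e2]
  have e3 : (((Fintype.piFinset fun i : J => CC z H i).filter
      fun p => N S₀ (univ.image p)).card : ℝ) ≤
      (((RR X z H k).filter fun S => ky z H S = (S₀, J) ∧ True).card : ℝ) := by
    rw [e2]
    have : (RR X z H k).filter (fun S => ky z H S = (S₀, J) ∧ N (sm z S) (la z S)) ⊆
        (RR X z H k).filter fun S => ky z H S = (S₀, J) ∧ True := by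
      intro S hS
      rw [Finset.mem_filter] at hS ⊢
      exact ⟨hS.1, hS.2.1, trivial⟩
    exact_mod_cast Finset.card_le_card this
  refine hbox.trans ?_
  have hJK : J.card ≤ k := by omega
  have hSK : S₀.card ≤ k := by omega
  have hSW : (S₀ ∪ W).card ≤ 2 * k := (Finset.card_union_le _ _).trans (by omega)
  obtain ⟨m, hm⟩ : ∃ m : ℕ, m = (prs J).card := ⟨_, rfl⟩
  have hpr : m ≤ k * k := by
    rw [hm]
    refine (prs_card J).trans ?_
    rw [hcJ]
    exact Nat.mul_le_mul hJK hJK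
  rw [← hm]
  have hN0 : (0 : ℝ) < ((∏ p ∈ S₀, nrm p : ℕ) : ℝ) := by
    exact_mod_cast Finset.prod_pos fun p hp => nrm_one_le (h₀O p hp)
  have hprod : ∏ j : J, ((9 * XX H j.1 : ℕ) : ℝ) ≤
      3 ^ (2 * k) * (X * (1 / ((∏ p ∈ S₀, nrm p : ℕ) : ℝ))) := by
    have h5 : ∏ j : J, ((9 * XX H j.1 : ℕ) : ℝ) =
        9 ^ J.card * ((∏ i ∈ J, XX H i : ℕ) : ℝ) := by
      rw [← Finset.prod_coe_sort J (fun i => XX H i)]
      push_cast
      rw [Finset.prod_mul_distrib, Finset.prod_const, Finset.card_univ, hcJ]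
    have h6 : ((∏ i ∈ J, XX H i : ℕ) : ℝ) ≤ X * (1 / ((∏ p ∈ S₀, nrm p : ℕ) : ℝ)) := by
      rw [mul_one_div, le_div_iff₀ hN0, mul_comm]
      exact_mod_cast c5
    have h7 : (9 : ℝ) ^ J.card ≤ 3 ^ (2 * k) := by
      calc (9 : ℝ) ^ J.card = 3 ^ (2 * J.card) := by rw [pow_mul]; norm_num
        _ ≤ 3 ^ (2 * k) := pow_le_pow_right₀ (by norm_num) (by omega)
    rw [h5]
    gcongr
  have hpw : (2 : ℝ) ^ (((S₀ ∪ W).card + 4) * Fintype.card J + m) * 3 ^ (2 * k) ≤ 3 ^ (20 * k ^ 2) := by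
    have h0 : (2 : ℝ) ^ (((S₀ ∪ W).card + 4) * Fintype.card J + m) ≤
        3 ^ (((S₀ ∪ W).card + 4) * Fintype.card J + m) := pow_le_pow_left₀ (by norm_num) (by norm_num) _
    refine (mul_le_mul_of_nonneg_right h0 (by positivity)).trans ?_
    rw [← pow_add]
    apply pow_le_pow_right₀ (by norm_num)
    rw [hcJ]
    have h5 : ((S₀ ∪ W).card + 4) * J.card ≤ (2 * k + 4) * k := Nat.mul_le_mul (by omega) hJK
    have h6 : k ≤ k * k := Nat.le_mul_self k
    nlinarith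
  refine add_le_add ?_ ?_
  · exact mul_le_mul_of_nonneg_left e3 hε
  · have hX1 : (0 : ℝ) ≤ X * (1 / ((∏ p ∈ S₀, nrm p : ℕ) : ℝ)) := by positivity
    calc (2 : ℝ) ^ (((S₀ ∪ W).card + 4) * Fintype.card J + m) *
        (κ * ∏ j : J, ((9 * XX H j.1 : ℕ) : ℝ)) ≤
        2 ^ (((S₀ ∪ W).card + 4) * Fintype.card J + m) *
          (κ * (3 ^ (2 * k) * (X * (1 / ((∏ p ∈ S₀, nrm p : ℕ) : ℝ))))) := by gcongr
      _ = (2 ^ (((S₀ ∪ W).card + 4) * Fintype.card J + m) * 3 ^ (2 * k)) *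
          (κ * (X * (1 / ((∏ p ∈ S₀, nrm p : ℕ) : ℝ)))) := by ring
      _ ≤ 3 ^ (20 * k ^ 2) * (κ * (X * (1 / ((∏ p ∈ S₀, nrm p : ℕ) : ℝ)))) := by gcongr
      _ = _ := by ring

theorem lg_le {X : ℕ} (hX : 1 ≤ X) : lg X ≤ 2 * (1 + Real.log X) := by
  unfold lg
  have h1 : ((2 ^ Nat.log 2 X : ℕ) : ℝ) ≤ X := by
    exact_mod_cast Nat.pow_log_le_self 2 (by omega)
  have h2 : (Nat.log 2 X : ℝ) * Real.log 2 ≤ Real.log X := by
    rw [← Real.log_pow]
    push_cast at h1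
    exact Real.log_le_log (by positivity) h1
  have h3 : (1 / 2 : ℝ) ≤ Real.log 2 := by have := Real.log_two_gt_d9; linarith
  have h4 : (0 : ℝ) ≤ Nat.log 2 X := Nat.cast_nonneg _
  nlinarith

theorem sum_inv {X : ℕ} (hX : 1 ≤ X) {A : Finset (Finset ZI)} (hA : ∀ S ∈ A, (∀ p ∈ S, PP p) ∧
    ∏ p ∈ S, nrm p ≤ X) : ∑ S ∈ A, (1 : ℝ) / ((∏ p ∈ S, nrm p : ℕ) : ℝ) ≤
      64 * (1 + Real.log X) := by
  have hinj : Set.InjOn (fun S : Finset ZI => ∏ p ∈ S, p) (A : Set (Finset ZI)) := by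
    intro S hS T hT h
    have h1 := (PS_prod (hA S hS).1).2
    have h2 := (PS_prod (hA T hT).1).2
    simp only at h
    rw [← h1, ← h2, h]
  have h1 : ∑ S ∈ A, (1 : ℝ) / ((∏ p ∈ S, nrm p : ℕ) : ℝ) =
      ∑ n ∈ A.image (fun S => ∏ p ∈ S, p), (1 : ℝ) / (nrm n : ℝ) := by
    rw [Finset.sum_image (f := fun n : ZI => (1 : ℝ) / (nrm n : ℝ)) hinj]
    refine Finset.sum_congr rfl fun S _ => ?_
    rw [nrm_prod]
  rw [h1]
  have h2 : A.image (fun S => ∏ p ∈ S, p) ⊆ SB X := by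
    intro n hn
    rw [Finset.mem_image] at hn
    obtain ⟨S, hS, rfl⟩ := hn
    rw [mem_SB, nrm_prod]
    exact ⟨(hA S hS).2, (PS_prod (hA S hS).1).1⟩
  refine (Finset.sum_le_sum_of_subset_of_nonneg h2 fun n _ _ => by positivity).trans ?_
  have h3 := hsum_SB X
  have h4 := lg_le hX
  have h5 := Real.log_natCast_nonneg X
  linarith

theorem keg_err {X z H k N : ℕ} {κ : ℝ} (hX : 1 ≤ X) (hH : 1 ≤ H) (hz : 1 ≤ z) (hκ : 0 ≤ κ)
    (hN : (H : ℝ) * Real.log X < N) {T : Finset (Finset ZI × Finset ℕ)}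
    (hT : ∀ k' ∈ T, k' ∈ (RR X z H k).image (ky z H)) :
    ∑ k' ∈ T, (3 ^ (20 * k ^ 2) * κ) * (X * (1 / ((∏ p ∈ k'.1, nrm p : ℕ) : ℝ))) ≤
      (9 * N + 9 : ℝ) ^ k * (3 ^ (20 * k ^ 2 + 20) * κ) * (X * (1 + Real.log X)) := by
  -- the errors
  set U : Finset ℕ := range N with hU
  set A := T.image Prod.fst with hA
  have hAp : ∀ S ∈ A, (∀ p ∈ S, PP p) ∧ ∏ p ∈ S, nrm p ≤ X := by
    intro S hS
    rw [hA, Finset.mem_image] at hS
    obtain ⟨⟨S₀, J⟩, hk, rfl⟩ := hS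
    obtain ⟨h₀O, h₀, hCd, hJf⟩ := key_facts hH (hT _ hk)
    refine ⟨fun p hp => h₀O p hp, ?_⟩
    have h4 : 1 ≤ ∏ i ∈ J, XX H i := by
      apply Nat.one_le_iff_ne_zero.2
      rw [Finset.prod_ne_zero_iff]
      intro i hi
      exact Nat.one_le_iff_ne_zero.1 (hz.trans (hJf i hi).1)
    calc ∏ p ∈ S₀, nrm p = (∏ p ∈ S₀, nrm p) * 1 := (mul_one _).symm
      _ ≤ (∏ p ∈ S₀, nrm p) * ∏ i ∈ J, XX H i := Nat.mul_le_mul_left _ h4
      _ ≤ X := hCd.2
  have hsub : T ⊆ A ×ˢ (U.powerset.filter fun J => J.card ≤ k) := by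
    intro k' hk
    obtain ⟨S₀, J⟩ := k'
    rw [Finset.mem_product, Finset.mem_filter, Finset.mem_powerset]
    obtain ⟨h₀O, h₀, hCd, hJf⟩ := key_facts hH (hT _ hk)
    have hc := hCd.1
    refine ⟨Finset.mem_image_of_mem _ hk, ?_, (Nat.le_add_left _ _).trans hc⟩
    intro i hi
    obtain ⟨k2, q, hq, hzq, hqX, hqi⟩ := hJf i hi
    rw [hU, Finset.mem_range]
    have hH0 : (0 : ℝ) < H := by exact_mod_cast hH
    have hq0 : (0 : ℝ) < nrm q := by exact_mod_cast nrm_one_le hq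
    have h4 : (H : ℝ) * Real.log (nrm q) ≤ H * Real.log X := by
      apply mul_le_mul_of_nonneg_left _ hH0.le
      exact Real.log_le_log hq0 (by exact_mod_cast hqX)
    have h5 : ((⌊(H : ℝ) * Real.log (nrm q)⌋₊ : ℕ) : ℝ) < N :=
      (Nat.floor_le (mul_nonneg hH0.le (Real.log_natCast_nonneg _))).trans_lt (h4.trans_lt hN)
    have h6 : bl H q < N := by
      unfold bl jj
      exact_mod_cast h5
    omega
  have hX0 : (0 : ℝ) ≤ X := Nat.cast_nonneg X
  have hcU : ((U.powerset.filter fun J => J.card ≤ k).card : ℝ) ≤ (9 * N + 9 : ℝ) ^ k := by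
    have h4 := card_sub U k
    have h5 : U.card = N := by
      rw [hU, Finset.card_range]
    rw [h5] at h4
    have h6 : ((U.powerset.filter fun J => J.card ≤ k).card : ℝ) ≤ ((N + 1 : ℕ) : ℝ) ^ k := by
      exact_mod_cast h4
    refine h6.trans ?_
    apply pow_le_pow_left₀ (by positivity)
    push_cast
    have : (0 : ℝ) ≤ N := Nat.cast_nonneg N
    linarith
  have hlogX : 0 ≤ 1 + Real.log X := by
    have := Real.log_natCast_nonneg X
    linarith
  calc ∑ k' ∈ T, (3 ^ (20 * k ^ 2) * κ) * (X * (1 / ((∏ p ∈ k'.1, nrm p : ℕ) : ℝ)))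
      ≤ ∑ k' ∈ A ×ˢ (U.powerset.filter fun J => J.card ≤ k),
        (3 ^ (20 * k ^ 2) * κ) * (X * (1 / ((∏ p ∈ k'.1, nrm p : ℕ) : ℝ))) :=
        Finset.sum_le_sum_of_subset_of_nonneg hsub fun _ _ _ => by positivity
    _ = ((U.powerset.filter fun J => J.card ≤ k).card : ℝ) * ((3 ^ (20 * k ^ 2) * κ) *
        (X * ∑ S ∈ A, 1 / ((∏ p ∈ S, nrm p : ℕ) : ℝ))) := by
        rw [Finset.sum_product]
        simp only [Finset.sum_const, nsmul_eq_mul]
        rw [← Finset.mul_sum, ← Finset.mul_sum, ← Finset.mul_sum]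
    _ ≤ (9 * N + 9 : ℝ) ^ k * ((3 ^ (20 * k ^ 2) * κ) * (X * (64 * (1 + Real.log X)))) := by
        have h4 := sum_inv hX hAp
        have h5 : (0 : ℝ) ≤ ∑ S ∈ A, 1 / ((∏ p ∈ S, nrm p : ℕ) : ℝ) :=
          Finset.sum_nonneg fun _ _ => by positivity
        gcongr
    _ = (9 * N + 9 : ℝ) ^ k * ((3 ^ (20 * k ^ 2) * 64) * κ) * (X * (1 + Real.log X)) := by ring
    _ ≤ (9 * N + 9 : ℝ) ^ k * (3 ^ (20 * k ^ 2 + 20) * κ) * (X * (1 + Real.log X)) := by
        have h6 : (3 : ℝ) ^ (20 * k ^ 2) * 64 ≤ 3 ^ (20 * k ^ 2 + 20) := by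
          rw [pow_add]
          refine mul_le_mul_of_nonneg_left ?_ (by positivity)
          norm_num
        gcongr

/-- **Q7-KEY.** -/
theorem key : S_KEY := by
  intro hB1
  obtain ⟨C₁, hC₁, hb1⟩ := hB1
  refine ⟨C₁, hC₁, ?_⟩
  intro N G W cc ε hcc hcc1 hε hWP hB X z H k M κ hWz hWk hk hX hH hz hκ h1 hN
  set T := (RR X z H k).image (ky z H) with hT
  have hfib : ∀ P : Finset ZI → Prop, (((RR X z H k).filter fun S => P S).card : ℝ) =
      ∑ k' ∈ T, (((RR X z H k).filter fun S => ky z H S = k' ∧ P S).card : ℝ) := by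
    intro P
    rw [Finset.card_eq_sum_card_fiberwise (f := ky z H) (t := T) (by
      intro S hS
      rw [Finset.mem_coe, Finset.mem_filter] at hS
      exact Finset.mem_coe.2 (Finset.mem_image_of_mem _ hS.1))]
    push_cast
    refine Finset.sum_congr rfl fun k' _ => ?_
    congr 2
    ext S
    simp only [Finset.mem_filter]
    tauto
  have hall : ((RR X z H k).card : ℝ) =
      ∑ k' ∈ T, (((RR X z H k).filter fun S => ky z H S = k' ∧ True).card : ℝ) := by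
    rw [Finset.card_eq_sum_card_fiberwise (f := ky z H) (t := T) (by
      intro S hS
      exact Finset.mem_coe.2 (Finset.mem_image_of_mem _ hS))]
    push_cast
    exact Finset.sum_congr rfl fun k' _ => congrArg _ (fcc fun _ _ => by tauto)
  have q1 : (((RR X z H k).filter fun S => N (sm z S) (la z S) ∧ G S).card : ℝ) =
      ∑ k' ∈ T, (((RR X z H k).filter fun S => ky z H S = k' ∧
        (N (sm z S) (la z S) ∧ G S)).card : ℝ) :=
    (congrArg _ (fcc fun _ _ => Iff.rfl)).trans ((hfib fun S => N (sm z S) (la z S) ∧ G S).trans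
      (Finset.sum_congr rfl fun k' _ => congrArg _ (fcc fun _ _ => Iff.rfl)))
  rw [q1, hfib, Finset.mul_sum, ← Finset.sum_sub_distrib, hall, Finset.mul_sum]
  refine (Finset.abs_sum_le_sum_abs _ _).trans ?_
  have h3 : ∑ k' ∈ T, |(((RR X z H k).filter fun S => ky z H S = k' ∧
      (N (sm z S) (la z S) ∧ G S)).card : ℝ) - cc * (((RR X z H k).filter fun S =>
      ky z H S = k' ∧ N (sm z S) (la z S)).card : ℝ)| ≤
      ∑ k' ∈ T, (ε * (((RR X z H k).filter fun S =>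
      ky z H S = k' ∧ True).card : ℝ) +
      (3 ^ (20 * k ^ 2) * κ) * (X * (1 / ((∏ p ∈ k'.1, nrm p : ℕ) : ℝ)))) := by
    refine Finset.sum_le_sum fun k' hk => ?_
    obtain ⟨S₀, J⟩ := k'
    exact per_key hB hε hb1 hWz hWk hH hz hκ h1 hk
  refine h3.trans ?_
  rw [Finset.sum_add_distrib]
  refine add_le_add (le_refl _) ?_
  exact keg_err hX hH hz hκ hN fun k' hk => hk

end Pool.Agent.H519.Q7.Key
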