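import Pool.Graph.R_pool_sql_team_seeded_3dad9d7b.NH57.BL.LXJ2
import Pool.Graph.R_pool_sql_team_seeded_3dad9d7b.NH57.BL.LXJ3
import Pool.Graph.R_pool_sql_team_seeded_3dad9d7b.NH57.BL.LXJ4
import Pool.Graph.R_pool_sql_team_seeded_63374d34.N856.JA.MOMJ
import Pool.Graph.R_pool_sql_team_seeded_63374d34.N856.JA.JLA1

/-!
# Q7-LAXJ: the joint linear algebra of the project BL, from the pieces in the library
-/

set_option autoImplicit false

open scoped Classical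

namespace Pool.Agent.H519.Q7.La

open Pool.Agent.NH57.BJ

theorem momj : Pool.Agent.NH57.BJ.S_MOMJ := Pool.Agent.N856.JA.QJ.MOMJ.t_MOMJ

theorem la1j : Pool.Agent.NH57.BL.S_LA1J := Pool.Agent.N856.JA.QJ.LA1.t_LA1J

/-- **LAXJ** -/
theorem laxj : Pool.Agent.NH57.BJ.S_LAXJ := t_LXJ4 momj la1j t_LXJ2 t_LXJ3

end Pool.Agent.H519.Q7.La
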