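import Pool.Agent.H519.Q7.Stm

/-! Project Q7, job Q7-LOCJ: from the joint linear algebra to the local proportion. -/

set_option autoImplicit false

open scoped Classical

namespace Pool.Agent.H519.Q7.Loc

open Finset
open Pool.Agent.H519.Q7
open Pool.Agent.NH57.BL (prs c2 GdS SolS ext Vc)
open Pool.Agent.NH57.BJ (Blk GdJ rowU rowJ fJ bor La Hyp)

/-- the blocks -/
noncomputable def Lk {I ι : Type} (W : I → Finset ZI) (S₀ W₀ : Finset ZI) (q : ι → ZI) :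
    Blk I {u : ZI // u ∈ S₀ ∪ W₀} ι where
  W i := univ.filter fun u => (u : ZI) ∈ S₀ ∪ W i
  sU u := eO u
  tU u := tO u
  dU _ u := dO u + tO u
  gU _ u := gO u + tO u
  sJ j := eO (q j)
  tJ j := tO (q j)
  dJ _ j := dO (q j) + tO (q j)
  gJ _ j := gO (q j) + tO (q j)
  A u v := s v u
  B u j := s (q j) u

lemma Lk_eq {I ι : Type} (W : I → Finset ZI) (S₀ W₀ : Finset ZI) (p q : ι → ZI)
    (h : ∀ i, lb (S₀ ∪ W₀) (p i) = lb (S₀ ∪ W₀) (q i)) : Lk W S₀ W₀ p = Lk W S₀ W₀ q := by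
  have h1 : ∀ i, fc (p i) = fc (q i) := fun i => congrArg Prod.snd (h i)
  have h2 : ∀ i (u : {u : ZI // u ∈ S₀ ∪ W₀}), s (p i) u = s (q i) u := fun i u =>
    congrFun (congrArg Prod.fst (h i)) u
  have t1 : ∀ i, tO (p i) = tO (q i) := fun i => congrArg Prod.fst (h1 i)
  have t2 : ∀ i, dO (p i) = dO (q i) := fun i => congrArg (fun x : Lb => x.2.1) (h1 i)
  have t3 : ∀ i, gO (p i) = gO (q i) := fun i => congrArg (fun x : Lb => x.2.2.1) (h1 i)
  have t4 : ∀ i, eO (p i) = eO (q i) := fun i => congrArg (fun x : Lb => x.2.2.2) (h1 i)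
  unfold Lk
  simp only [t1, t2, t3, t4, h2]

lemma sum_W {I ι : Type} {W : I → Finset ZI} {S₀ W₀ : Finset ZI} (hW : ∀ i, W i ⊆ W₀) (q : ι → ZI)
    (i : I) (F : ZI → ZMod 2) : ∑ u ∈ (Lk W S₀ W₀ q).W i, F u = ∑ u ∈ S₀ ∪ W i, F u := by
  have h1 : (Lk W S₀ W₀ q).W i =
      univ.filter fun u : {u : ZI // u ∈ S₀ ∪ W₀} => (u : ZI) ∈ S₀ ∪ W i := rfl
  rw [h1, sum_filter, Finset.sum_coe_sort (S₀ ∪ W₀) (fun u => if u ∈ S₀ ∪ W i then F u else 0),
    ← sum_filter, filter_mem_eq_inter, inter_eq_right.2 (union_subset_union_right (hW i))]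

lemma sum_im {ι : Type} [Fintype ι] {A : Finset ZI} {p : ι → ZI} (hp : Function.Injective p)
    (hd : ∀ l, p l ∉ A) (F : ZI → ZMod 2) :
    ∑ x ∈ A ∪ univ.image p, F x = ∑ x ∈ A, F x + ∑ l, F (p l) := by
  rw [sum_union, sum_image fun x _ y _ h => hp h]
  rw [disjoint_left]
  intro x hx hx'
  obtain ⟨l, -, rfl⟩ := mem_image.1 hx'
  exact hd l hx

lemma two (x : ZMod 2) : x + x = 0 := CharTwo.add_self_eq_zero x

lemma rec' (hS : SymP) {π ρ : ZI} (h1 : PP π) (h2 : PP ρ) (h : π ≠ ρ) :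
    s ρ π = s π ρ + tO ρ * tO π := by
  have h3 := hS.recip π ρ h1 h2 h
  have h4 : s ρ π = s π ρ + (s π ρ + s ρ π) := by
    rw [← add_assoc, two, zero_add]
  rw [h4, h3, mul_comm (tO π)]

lemma ext_eq (hS : SymP) {ι : Type} [Fintype ι] [LinearOrder ι] {p : ι → ZI}
    (hp : Function.Injective p) (hP : ∀ i, PP (p i)) (k l : ι) :
    ext (fun j => tO (p j)) (tb p) k l = s (p l) (p k) := by
  unfold Pool.Agent.NH57.BL.ext
  split_ifs with h1 h2
  · rfl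
  · unfold prs at h2
    rw [mem_filter] at h2
    have h3 : k < l := h2.2
    show s (p k) (p l) + tO (p k) * tO (p l) = s (p l) (p k)
    rw [rec' hS (hP k) (hP l) fun h => h3.ne (hp h), mul_comm]
  · unfold prs at h1 h2
    rw [mem_filter] at h1 h2
    push Not at h1 h2
    have h3 : k = l := le_antisymm (h1 (mem_univ _)) (h2 (mem_univ _))
    rw [h3, hS.self _ (hP l)]

/-- the rows of the two systems -/
lemma rows (hS : SymP) {I ι : Type} [Fintype ι] [LinearOrder ι] {W : I → Finset ZI}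
    {S₀ W₀ : Finset ZI} (hW : ∀ i, W i ⊆ W₀) (h0 : ∀ u ∈ S₀ ∪ W₀, PP u) {p : ι → ZI}
    (hp : Tu (S₀ ∪ W₀) p) (a b : I → ZMod 2) (i : I) (v : ZI → ZMod 2) (z : Vc {u : ZI // u ∈ S₀ ∪ W₀} ι)
    (h1 : ∀ u ∈ (Lk W S₀ W₀ p).W i, z.1 u = v u) (h2 : ∀ l, z.2.1 l = v (p l)) :
    SolS (S₀ ∪ univ.image p ∪ W i) eO (fun π => dO π + tO π) (fun π => gO π + tO π) s (a i) (b i)
      v z.2.2 ↔ (∀ u ∈ (Lk W S₀ W₀ p).W i, rowU (Lk W S₀ W₀ p) i z u = 0) ∧
        (∀ k, rowJ (Lk W S₀ W₀ p) (ext (Lk W S₀ W₀ p).tJ (tb p)) i z k = 0) ∧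
        bor a b (Lk W S₀ W₀ p) i z = 0 := by
  set L := Lk W S₀ W₀ p with hL
  have hsub : S₀ ∪ W i ⊆ S₀ ∪ W₀ := union_subset_union_right (hW i)
  have hset : S₀ ∪ univ.image p ∪ W i = (S₀ ∪ W i) ∪ univ.image p := by
    rw [union_assoc, union_assoc, union_comm (W i)]
  have hd : ∀ l, p l ∉ S₀ ∪ W i := fun l h => (hp.2 l).2 (hsub h)
  have hsum : ∀ F : ZI → ZMod 2, ∑ x ∈ (S₀ ∪ W i) ∪ univ.image p, F x =
      ∑ u ∈ L.W i, F u + ∑ l, F (p l) := fun F => by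
    rw [sum_im hp.1 hd, sum_W hW]
  have hmem : ∀ u : {u : ZI // u ∈ S₀ ∪ W₀}, u ∈ L.W i ↔ (u : ZI) ∈ S₀ ∪ W i := fun u => by
    show u ∈ univ.filter (fun u : {u : ZI // u ∈ S₀ ∪ W₀} => (u : ZI) ∈ S₀ ∪ W i) ↔ _
    rw [mem_filter]
    exact ⟨fun h => h.2, fun h => ⟨mem_univ _, h⟩⟩
  have rU : ∀ u ∈ L.W i, eO u * v u + ∑ ρ ∈ (S₀ ∪ W i) ∪ univ.image p, s ρ u * (v u + v ρ) +
      z.2.2 * (gO u + tO u) = rowU L i z u := by
    intro u hu
    rw [hsum]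
    unfold rowU
    have e1 : ∑ w ∈ L.W i, L.A u w * (z.1 u + z.1 w) = ∑ w ∈ L.W i, s w u * (v u + v w) :=
      sum_congr rfl fun w hw => by rw [h1 u hu, h1 w hw]; rfl
    have e2 : ∑ l, L.B u l * (z.1 u + z.2.1 l) = ∑ l, s (p l) u * (v u + v (p l)) :=
      sum_congr rfl fun l _ => by rw [h1 u hu, h2 l]; rfl
    rw [e1, e2, h1 u hu]
    show _ = eO u * v u + _ + _ + z.2.2 * (gO u + tO u)
    ring
  have rJ : ∀ k, eO (p k) * v (p k) + ∑ ρ ∈ (S₀ ∪ W i) ∪ univ.image p, s ρ (p k) *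
      (v (p k) + v ρ) + z.2.2 * (gO (p k) + tO (p k)) = rowJ L (ext L.tJ (tb p)) i z k := by
    intro k
    rw [hsum]
    unfold rowJ fJ
    have e1 : ∑ u ∈ L.W i, (L.B u k + L.tU u * L.tJ k) * (z.2.1 k + z.1 u) =
        ∑ u ∈ L.W i, s u (p k) * (v (p k) + v u) :=
      sum_congr rfl fun u hu => by
        rw [h1 u hu, h2 k]
        have h3 : s (u : ZI) (p k) = s (p k) u + tO u * tO (p k) :=
          rec' hS (hp.2 k).1 (h0 u u.2) fun h => (hp.2 k).2 (h ▸ u.2)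
        rw [h3]
        rfl
    have e2 : ∑ l, ext L.tJ (tb p) k l * (z.2.1 k + z.2.1 l) =
        ∑ l, s (p l) (p k) * (v (p k) + v (p l)) :=
      sum_congr rfl fun l _ => by
        rw [h2 k, h2 l]
        have h3 := ext_eq hS hp.1 (fun i => (hp.2 i).1) k l
        have h4 : ext L.tJ (tb p) k l = s (p l) (p k) := h3
        rw [h4]
    rw [e1, e2, h2 k]
    show _ = eO (p k) * v (p k) + _ + z.2.2 * (gO (p k) + tO (p k)) + _
    ring
  have rB : a i * z.2.2 + b i * ∑ ρ ∈ (S₀ ∪ W i) ∪ univ.image p, (dO ρ + tO ρ) * v ρ =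
      bor a b L i z := by
    rw [hsum]
    unfold bor
    have e1 : ∑ u ∈ L.W i, L.dU i u * z.1 u = ∑ u ∈ L.W i, (dO (u : ZI) + tO u) * v u :=
      sum_congr rfl fun u hu => by rw [h1 u hu]; rfl
    have e2 : ∑ l, L.dJ i l * z.2.1 l = ∑ l, (dO (p l) + tO (p l)) * v (p l) :=
      sum_congr rfl fun l _ => by rw [h2 l]; rfl
    rw [e1, e2]
  unfold SolS
  rw [hset, rB]
  constructor
  · rintro ⟨g1, g2⟩
    refine ⟨fun u hu => ?_, fun k => ?_, g2⟩
    · rw [← rU u hu]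
      exact g1 _ (mem_union_left _ ((hmem u).1 hu))
    · rw [← rJ k]
      exact g1 _ (mem_union_right _ (mem_image_of_mem _ (mem_univ _)))
  · rintro ⟨g1, g2, g3⟩
    refine ⟨fun π hπ => ?_, g3⟩
    rcases mem_union.1 hπ with h | h
    · have h5 := (hmem ⟨π, hsub h⟩).2 h
      exact (rU ⟨π, hsub h⟩ h5).trans (g1 _ h5)
    · obtain ⟨k, -, rfl⟩ := mem_image.1 h
      exact (rJ k).trans (g2 k)

lemma tab_iff (hS : SymP) {I ι : Type} [Fintype ι] [LinearOrder ι] {W : I → Finset ZI}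
    {S₀ W₀ : Finset ZI} (hW : ∀ i, W i ⊆ W₀) (h0 : ∀ u ∈ S₀ ∪ W₀, PP u) {p : ι → ZI}
    (hp : Tu (S₀ ∪ W₀) p) (a b : I → ZMod 2) (i : I) :
    Tab (a i) (b i) (S₀ ∪ univ.image p ∪ W i) ↔
      GdJ a b (Lk W S₀ W₀ p) (ext (Lk W S₀ W₀ p).tJ (tb p)) i := by
  have hsub : S₀ ∪ W i ⊆ S₀ ∪ W₀ := union_subset_union_right (hW i)
  have hmem : ∀ u : {u : ZI // u ∈ S₀ ∪ W₀}, u ∈ (Lk W S₀ W₀ p).W i ↔ (u : ZI) ∈ S₀ ∪ W i :=
    fun u => by
    show u ∈ univ.filter (fun u : {u : ZI // u ∈ S₀ ∪ W₀} => (u : ZI) ∈ S₀ ∪ W i) ↔ _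
    rw [mem_filter]
    exact ⟨fun h => h.2, fun h => ⟨mem_univ _, h⟩⟩
  constructor
  · intro hT z g0 g1 g2 g3
    set v : ZI → ZMod 2 := fun x => if h : x ∈ S₀ ∪ W₀ then z.1 ⟨x, h⟩ else
      if h' : ∃ l, p l = x then z.2.1 h'.choose else 0 with hv
    have v1 : ∀ u : {u : ZI // u ∈ S₀ ∪ W₀}, z.1 u = v u := by
      intro u
      rw [hv]
      simp only
      rw [dif_pos u.2]
    have v2 : ∀ l, z.2.1 l = v (p l) := by
      intro l
      rw [hv]
      simp only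
      have h' : ∃ l', p l' = p l := ⟨l, rfl⟩
      rw [dif_neg (hp.2 l).2, dif_pos h', hp.1 h'.choose_spec]
    have h3 := (rows hS hW h0 hp a b i v z (fun u _ => v1 u) v2).2 ⟨g1, g2, g3⟩
    obtain ⟨h4, h5⟩ := hT v z.2.2 h3
    refine Prod.ext ?_ (Prod.ext ?_ h5)
    · funext u
      by_cases hu : u ∈ (Lk W S₀ W₀ p).W i
      · rw [v1 u]
        exact h4 _ (by
          rcases mem_union.1 ((hmem u).1 hu) with h | h
          · exact mem_union_left _ (mem_union_left _ h)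
          · exact mem_union_right _ h)
      · exact g0 u hu
    · funext l
      rw [v2 l]
      exact h4 _ (mem_union_left _ (mem_union_right _ (mem_image_of_mem _ (mem_univ _))))
  · intro hG v e hv
    set z : Vc {u : ZI // u ∈ S₀ ∪ W₀} ι :=
      (fun u => if u ∈ (Lk W S₀ W₀ p).W i then v u else 0, fun l => v (p l), e) with hz
    have h1 : ∀ u ∈ (Lk W S₀ W₀ p).W i, z.1 u = v u := fun u hu => if_pos hu
    have h2 : ∀ l, z.2.1 l = v (p l) := fun l => rfl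
    obtain ⟨g1, g2, g3⟩ := (rows hS hW h0 hp a b i v z h1 h2).1 hv
    have h3 := hG z (fun u hu => if_neg hu) g1 g2 g3
    have h4 : ∀ u, z.1 u = 0 := fun u => by rw [h3]; rfl
    have h5 : ∀ l, z.2.1 l = 0 := fun u => by rw [h3]; rfl
    have h6 : z.2.2 = 0 := by rw [h3]; rfl
    refine ⟨fun π hπ => ?_, h6⟩
    have key : π ∈ S₀ ∪ W i ∨ π ∈ univ.image p := by
      rcases mem_union.1 hπ with h | h
      · rcases mem_union.1 h with h | h
        · exact Or.inl (mem_union_left _ h)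
        · exact Or.inr h
      · exact Or.inl (mem_union_right _ h)
    rcases key with h | h
    · have h7 := (hmem ⟨π, hsub h⟩).2 h
      have h8 := h1 _ h7
      rw [← h4 ⟨π, hsub h⟩, h8]
    · obtain ⟨l, -, rfl⟩ := mem_image.1 h
      rw [← h5 l, h2 l]

lemma ne0 (x : ZMod 2) : x = 1 ↔ x ≠ 0 := by
  revert x
  decide

lemma sum_symm (A B : Finset ZI) (F : ZI → ZMod 2) :
    ∑ x ∈ A, F x + ∑ x ∈ B, F x = ∑ x ∈ symmDiff A B, F x := by
  have h1 : symmDiff A B = (A \ B) ∪ (B \ A) := rfl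
  rw [h1, sum_union (disjoint_sdiff_sdiff), ← sum_inter_add_sum_sdiff A B F,
    ← sum_inter_add_sum_sdiff B A F, inter_comm B A]
  have h2 := two (∑ x ∈ A ∩ B, F x)
  linear_combination h2

lemma La_eq {I ι : Type} {W : I → Finset ZI} {S₀ W₀ : Finset ZI} (hW : ∀ i, W i ⊆ W₀) (q : ι → ZI)
    (i : I) (k : ι) :
    La (Lk W S₀ W₀ q) i k = ∑ u ∈ S₀ ∪ W i, (s (q k) u + tO u * tO (q k)) := by
  rw [← sum_W hW q]
  rfl

lemma dot_t (a : ZMod 2) (x : ZI) : dot (a, 0, 0, 0) (fc x) = a * tO x := by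
  show a * tO x + 0 * dO x + 0 * gO x + 0 * eO x = a * tO x
  ring

lemma La_add {I ι : Type} {W : I → Finset ZI} {S₀ W₀ : Finset ZI} (hW : ∀ i, W i ⊆ W₀) (q : ι → ZI)
    (i j : I) (k : ι) (τ : ZMod 2) :
    La (Lk W S₀ W₀ q) i k + La (Lk W S₀ W₀ q) j k + τ * tO (q k) =
      dot (∑ u ∈ symmDiff (S₀ ∪ W i) (S₀ ∪ W j), tO u + τ, 0, 0, 0) (fc (q k)) +
        ∑ u ∈ symmDiff (S₀ ∪ W i) (S₀ ∪ W j), s (q k) u := by
  rw [La_eq hW, La_eq hW, sum_symm, dot_t, sum_add_distrib, ← sum_mul]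
  ring

lemma card_im {ι : Type} [Fintype ι] {q : ι → ZI} (hq : Function.Injective q) (P : ZI → Prop)
    [DecidablePred P] : ((univ.image q).filter P).card = (univ.filter fun k => P (q k)).card := by
  rw [filter_image, card_image_of_injective _ hq]

lemma sum_w {A : Finset ZI} (w : {u : ZI // u ∈ A} → ZMod 2) : ∃ w' : Finset ZI, w' ⊆ A ∧
    ((∃ u, w u ≠ 0) → w'.Nonempty) ∧ ∀ F : ZI → ZMod 2, ∑ u, w u * F u = ∑ x ∈ w', F x := by
  set g : ZI → ZMod 2 := fun x => if h : x ∈ A then w ⟨x, h⟩ else 0 with hg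
  have g1 : ∀ u : {u : ZI // u ∈ A}, g u = w u := fun u => by
    rw [hg]
    simp only
    rw [dif_pos u.2]
  refine ⟨A.filter fun x => g x ≠ 0, filter_subset _ _, ?_, fun F => ?_⟩
  · rintro ⟨u, hu⟩
    exact ⟨u, mem_filter.2 ⟨u.2, by rw [g1]; exact hu⟩⟩
  · have e1 : ∑ u, w u * F u = ∑ u : {u : ZI // u ∈ A}, g u * F u :=
      sum_congr rfl fun u _ => by rw [g1]
    rw [e1, Finset.sum_coe_sort A (fun x => g x * F x), sum_filter]
    refine sum_congr rfl fun x _ => ?_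
    split_ifs with h
    · rw [(ne0 _).2 h, one_mul]
    · push Not at h
      rw [h, zero_mul]

lemma hyp (hS : SymP) {I ι : Type} [Fintype ι] [LinearOrder ι] {W : I → Finset ZI}
    {S₀ W₀ : Finset ZI} (hW : ∀ i, W i ⊆ W₀) (hinj : Function.Injective W)
    (hκ : ∀ i, κ₀ (∑ u ∈ W i, fc u)) (h0 : ∀ u ∈ S₀ ∪ W₀, PP u) {q : ι → ZI}
    (hq : Tu (S₀ ∪ W₀) q) {K V : ℕ} (hN : NK κ₀ W₀ K (V + 1) W₀ S₀ (univ.image q)) :
    Hyp K V (Lk W S₀ W₀ q) := by
  obtain ⟨⟨hk, hdis⟩, hR⟩ := hN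
  have hcard : Fintype.card {u : ZI // u ∈ S₀ ∪ W₀} = (S₀ ∪ W₀).card := Fintype.card_coe _
  have hsub : ∀ i j, symmDiff (S₀ ∪ W i) (S₀ ∪ W j) ⊆ S₀ ∪ W₀ := by
    intro i j x hx
    have h1 : symmDiff (S₀ ∪ W i) (S₀ ∪ W j) = ((S₀ ∪ W i) \ (S₀ ∪ W j)) ∪
      ((S₀ ∪ W j) \ (S₀ ∪ W i)) := rfl
    rw [h1, mem_union] at hx
    rcases hx with h | h
    · exact union_subset_union_right (hW i) (mem_sdiff.1 h).1
    · exact union_subset_union_right (hW j) (mem_sdiff.1 h).1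
  have hdS : Disjoint W₀ S₀ := hdis.mono_right subset_union_left
  have hne : ∀ i j, i ≠ j → (symmDiff (S₀ ∪ W i) (S₀ ∪ W j)).Nonempty := by
    intro i j hij
    rw [nonempty_iff_ne_empty]
    intro h
    have h1 : S₀ ∪ W i = S₀ ∪ W j := symmDiff_eq_bot.1 h
    apply hij
    apply hinj
    have h2 : ∀ l, (S₀ ∪ W l) \ S₀ = W l := fun l => by
      rw [union_sdiff_left]
      exact sdiff_eq_self_of_disjoint (hdS.mono_left (hW l))
    rw [← h2 i, ← h2 j, h1]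
  have hcount : ∀ (c : Lb) (w : Finset ZI), w ⊆ S₀ ∪ W₀ → (c ≠ 0 ∨ w.Nonempty) →
      K * (S₀ ∪ W₀).card + (V + 1) ≤
        (univ.filter fun k => dot c (fc (q k)) + ∑ u ∈ w, s (q k) u ≠ 0).card := by
    intro c w h1 h2
    have h3 := hR c w h1 h2
    have h4 := card_im hq.1 (fun π => dot c (fc π) + ∑ u ∈ w, s π u ≠ 0)
    rw [← h4]
    convert h3
  have hex : ∀ (c : Lb) (w : Finset ZI), w ⊆ S₀ ∪ W₀ → (c ≠ 0 ∨ w.Nonempty) →
      ∃ k, dot c (fc (q k)) + ∑ u ∈ w, s (q k) u ≠ 0 := by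
    intro c w h1 h2
    have h3 := hcount c w h1 h2
    have h4 : 0 < (univ.filter fun k => dot c (fc (q k)) + ∑ u ∈ w, s (q k) u ≠ 0).card := by omega
    obtain ⟨k, hk⟩ := card_pos.1 h4
    exact ⟨k, (mem_filter.1 hk).2⟩
  refine ⟨fun i j => ?_, fun i j hij => ?_, fun i => ?_, fun u v huv => ?_, ?_⟩
  · have h1 : (∑ u ∈ symmDiff (S₀ ∪ W i) (S₀ ∪ W j), tO u + 1, 0, 0, 0) ≠ (0 : Lb) ∨
        (symmDiff (S₀ ∪ W i) (S₀ ∪ W j)).Nonempty := by
      by_cases hij : i = j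
      · left
        subst hij
        rw [symmDiff_self]
        intro h
        have := congrArg Prod.fst h
        simp at this
      · right
        exact hne i j hij
    have h2 := hcount _ _ (hsub i j) h1
    rw [hcard]
    refine le_trans (by omega) (h2.trans (card_le_card ?_))
    intro k hk
    rw [mem_filter] at hk ⊢
    refine ⟨hk.1, (ne0 _).2 ?_⟩
    have h3 := La_add hW q i j k (S₀ := S₀) 1
    rw [one_mul] at h3
    rw [← h3] at hk
    exact hk.2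
  · have h2 := hcount (∑ u ∈ symmDiff (S₀ ∪ W i) (S₀ ∪ W j), tO u + 0, 0, 0, 0) _ (hsub i j)
      (Or.inr (hne i j hij))
    rw [hcard]
    refine le_trans (by omega) (h2.trans (card_le_card ?_))
    intro k hk
    rw [mem_filter] at hk ⊢
    refine ⟨hk.1, (ne0 _).2 ?_⟩
    have h3 := La_add hW q i j k (S₀ := S₀) 0
    rw [zero_mul, add_zero] at h3
    rw [← h3] at hk
    exact hk.2
  · have e1 : ∑ u ∈ (Lk W S₀ W₀ q).W i, (Lk W S₀ W₀ q).tU u = ∑ u ∈ S₀ ∪ W i, tO u := by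
      rw [← sum_W hW q]
      rfl
    have e2 : ∑ j, (Lk W S₀ W₀ q).tJ j = ∑ j, tO (q j) := rfl
    rw [e1, e2, sum_union ((hdS.mono_left (hW i)).symm)]
    have h1 : ∑ u ∈ W i, tO u = 0 := by
      have := (hκ i).1
      rw [Prod.fst_sum] at this
      exact this
    have h2 : ∑ u ∈ S₀ ∪ univ.image q, tO u = 0 := by
      have := hk.1
      rw [Prod.fst_sum] at this
      exact this
    rw [sum_im hq.1 fun l hl => (hq.2 l).2 (mem_union_left _ hl)] at h2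
    rw [h1, add_zero]
    exact h2
  · show s v u + s u v = tO u * tO v
    rw [mul_comm]
    exact hS.recip v u (h0 v v.2) (h0 u u.2) fun h => huv (Subtype.ext h.symm)
  · intro i w e f hwef
    obtain ⟨w', hw1, hw2, hw3⟩ := sum_w w
    constructor
    · have hc : (f + ∑ u ∈ w', tO u, 0, f, e) ≠ (0 : Lb) ∨ w'.Nonempty := by
        by_cases hw : w'.Nonempty
        · exact Or.inr hw
        · left
          intro h
          have hf : f = 0 := congrArg (fun x : Lb => x.2.2.1) h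
          have he : e = 0 := congrArg (fun x : Lb => x.2.2.2) h
          rcases hwef with h1 | h1 | h1
          · exact hw (hw2 h1)
          · exact h1 he
          · exact h1 hf
      obtain ⟨k, hk⟩ := hex _ _ hw1 hc
      refine ⟨k, ?_⟩
      have e1 : ∑ u, w u * ((Lk W S₀ W₀ q).B u k + (Lk W S₀ W₀ q).tU u * (Lk W S₀ W₀ q).tJ k) =
          ∑ u ∈ w', (s (q k) u + tO u * tO (q k)) := by
        rw [← hw3]
        rfl
      rw [e1, sum_add_distrib, ← sum_mul]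
      intro h
      apply hk
      refine Eq.trans ?_ h
      show ((f + ∑ u ∈ w', tO u) * tO (q k) + 0 * dO (q k) + f * gO (q k) + e * eO (q k)) +
        ∑ u ∈ w', s (q k) u = e * eO (q k) + f * (gO (q k) + tO (q k)) +
          (∑ x ∈ w', s (q k) x + (∑ i ∈ w', tO i) * tO (q k))
      ring
    · have hc : (e + f, f, 0, e) ≠ (0 : Lb) ∨ w'.Nonempty := by
        by_cases hw : w'.Nonempty
        · exact Or.inr hw
        · left
          intro h
          have hf : f = 0 := congrArg (fun x : Lb => x.2.1) h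
          have he : e = 0 := congrArg (fun x : Lb => x.2.2.2) h
          rcases hwef with h1 | h1 | h1
          · exact hw (hw2 h1)
          · exact h1 he
          · exact h1 hf
      obtain ⟨k, hk⟩ := hex _ _ hw1 hc
      refine ⟨k, ?_⟩
      have e1 : ∑ u, w u * (Lk W S₀ W₀ q).B u k = ∑ u ∈ w', s (q k) u := by
        rw [← hw3]
        rfl
      rw [e1]
      intro h
      apply hk
      refine Eq.trans ?_ h
      show ((e + f) * tO (q k) + f * dO (q k) + 0 * gO (q k) + e * eO (q k)) +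
        ∑ u ∈ w', s (q k) u = e * (eO (q k) + tO (q k)) + f * (dO (q k) + tO (q k)) +
          ∑ u ∈ w', s (q k) u
      ring

theorem locj : S_LOCJ := by
  intro hL hS I _ a b W W₀ hab hW0 hW hinj hκ ε hε
  obtain ⟨K, V, hKV⟩ := hL I ε hε
  refine ⟨K, V + 1, ?_⟩
  intro ι _ _ S₀ q hS0 hq hN
  have h0 : ∀ u ∈ S₀ ∪ W₀, PP u := fun u hu => (mem_union.1 hu).elim (hS0 u) (hW0 u)
  have hH := hyp hS hW hinj hκ h0 hq hN
  have h1 := hKV a b hab _ _ _ hH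
  rw [abs_le] at h1
  have h2 : (0 : ℝ) < 2 ^ (prs ι).card := by positivity
  refine ⟨fun α => ∀ i, GdJ a b (Lk W S₀ W₀ q) (ext (Lk W S₀ W₀ q).tJ α) i,
    fun α => ∀ i, GdJ a b (Lk W S₀ W₀ q) (ext (Lk W S₀ W₀ q).tJ α) i, ?_, ?_, ?_⟩
  · have h3 : c2 ^ Fintype.card I - ε ≤ ((univ.filter fun α : prs ι → ZMod 2 =>
        ∀ i, GdJ a b (Lk W S₀ W₀ q) (ext (Lk W S₀ W₀ q).tJ α) i).card : ℝ) / 2 ^ (prs ι).card := by
      linarith [h1.1]
    rw [le_div_iff₀ h2] at h3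
    refine h3.trans (le_of_eq ?_)
    congr!
  · have h3 : ((univ.filter fun α : prs ι → ZMod 2 =>
        ∀ i, GdJ a b (Lk W S₀ W₀ q) (ext (Lk W S₀ W₀ q).tJ α) i).card : ℝ) / 2 ^ (prs ι).card ≤
        c2 ^ Fintype.card I + ε := by
      linarith [h1.2]
    rw [div_le_iff₀ h2] at h3
    refine (le_of_eq ?_).trans h3
    congr!
  · intro p hp hpq
    have h3 := Lk_eq W S₀ W₀ p q hpq
    rw [← h3]
    have h4 : (∀ i, Tab (a i) (b i) (S₀ ∪ univ.image p ∪ W i)) ↔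
        ∀ i, GdJ a b (Lk W S₀ W₀ p) (ext (Lk W S₀ W₀ p).tJ (tb p)) i :=
      forall_congr' fun i => tab_iff hS hW h0 hp a b i
    exact ⟨h4.2, h4.1⟩

end Pool.Agent.H519.Q7.Loc
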