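import Pool.Agent.H519.Q7.Stm
import Pool.Agent.H519.Q7.Lat

/-!
# Project Q7, Q7-LOW: the class of the `D` congruent to `1` modulo `8` has positive lower density (helper333)
-/

set_option autoImplicit false

open scoped Classical

namespace Pool.Agent.H519.Q7.Low

open Finset
open Pool.Agent.H519.Q7

theorem mem_SS {X : ℕ} {S : Finset ZI} :
    S ∈ SS X ↔ (∀ π ∈ S, PP π) ∧ ∏ π ∈ S, nrm π ≤ X := by
  unfold SS
  rw [mem_filter, mem_powerset]
  constructor
  · rintro ⟨h1, h2⟩
    exact ⟨fun π hπ => (mem_QB.1 (h1 hπ)).2, h2⟩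
  · rintro ⟨h1, h2⟩
    refine ⟨fun π hπ => mem_QB.2 ⟨?_, h1 π hπ⟩, h2⟩
    refine le_trans (Nat.le_of_dvd ?_ (Finset.dvd_prod_of_mem _ hπ)) h2
    exact Finset.prod_pos fun ρ hρ => nrm_pos (h1 ρ hρ).ne

theorem c6_mul (a b : ZI) : c6 (a * b) = c6 a * c6 b - 8 * (4 * (a.im * b.im)) := by
  unfold c6
  simp only [QuadraticAlgebra.re_mul, QuadraticAlgebra.im_mul]
  ring

theorem c3_mul (a b : ZI) : c3 (a * b) = c3 a * c3 b - 8 * (a.im * b.im) := by
  unfold c3
  simp only [QuadraticAlgebra.re_mul, QuadraticAlgebra.im_mul]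
  ring

theorem c7_mul (a b : ZI) : c7 (a * b) = c7 a * c7 b - 7 * (2 * (a.im * b.im)) := by
  unfold c7
  simp only [QuadraticAlgebra.re_mul, QuadraticAlgebra.im_mul]
  ring

theorem decomp0 : ∀ (n : ℕ) (m : ZI), nrm m = n → m ≠ 0 → ∃ a b : ZI, m = a * b ^ 2 ∧
    Squarefree a := by
  intro n
  induction n using Nat.strong_induction_on with
  | _ n ih =>
    intro m hn hm
    by_cases h : Squarefree m
    · exact ⟨m, 1, by ring, h⟩
    · unfold Squarefree at h
      push Not at h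
      obtain ⟨x, ⟨k, hk⟩, hx⟩ := h
      have hk0 : k ≠ 0 := by rintro rfl; exact hm (by rw [hk, mul_zero])
      have hx0 : x ≠ 0 := by rintro rfl; exact hm (by rw [hk, mul_zero, zero_mul])
      have h1 : nrm x ≠ 1 := fun h1 => hx (nrm_one_iff.1 h1)
      have h2 : 0 < nrm x := nrm_pos hx0
      have h3 : 0 < nrm k := nrm_pos hk0
      have h4 : nrm m = nrm x * nrm x * nrm k := by rw [hk, nrm_mul, nrm_mul]
      have h5 : nrm k < n := by
        rw [← hn, h4]
        have h6 : 2 ≤ nrm x := by omega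
        nlinarith [Nat.mul_le_mul h6 h6]
      obtain ⟨a, b, hab, ha⟩ := ih (nrm k) h5 k rfl hk0
      exact ⟨a, x * b, by rw [hk, hab]; ring, ha⟩

theorem decomp {m : ZI} (hm : prim m) : ∃ a b : ZI, m = a * b ^ 2 ∧ PS a ∧ prim b := by
  obtain ⟨a, b, hab, ha⟩ := decomp0 (nrm m) m rfl (prim_ne_zero hm)
  have key : ∃ b' : ZI, b' ^ 2 = b ^ 2 ∧ prim b' := by
    have e : m = (a * b) * b := by rw [hab]; ring
    have h6 := c6_mul (a * b) b
    have h3 := c3_mul (a * b) b
    have h7 := c7_mul (a * b) b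
    rw [← e] at h6 h3 h7
    have g6 : c6 b % 2 = 1 := by
      by_contra hc
      obtain ⟨t, ht⟩ : ∃ t, c6 b = 2 * t := ⟨c6 b / 2, by omega⟩
      have h := hm.six
      rw [ht] at h6
      have : c6 m = 2 * (c6 (a * b) * t - 4 * (4 * ((a * b).im * b.im))) := by rw [h6]; ring
      omega
    have g3 : c3 b % 2 = 1 := by
      by_contra hc
      obtain ⟨t, ht⟩ : ∃ t, c3 b = 2 * t := ⟨c3 b / 2, by omega⟩
      have h := hm.three
      rw [ht] at h3
      have : c3 m = 2 * (c3 (a * b) * t - 4 * ((a * b).im * b.im)) := by rw [h3]; ring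
      omega
    have g7 : c7 b % 7 ≠ 0 := by
      intro hc
      obtain ⟨t, ht⟩ : ∃ t, c7 b = 7 * t := ⟨c7 b / 7, by omega⟩
      have h := hm.seven
      rw [ht] at h7
      have : c7 m = 7 * (c7 (a * b) * t - 2 * ((a * b).im * b.im)) := by rw [h7]; ring
      omega
    by_cases h4 : c6 b % 4 = 1
    · exact ⟨b, rfl, ⟨h4, g3, g7⟩⟩
    · refine ⟨-b, by ring, ⟨?_, ?_, ?_⟩⟩
      · have : c6 (-b) = - c6 b := by
          unfold c6; simp only [QuadraticAlgebra.re_neg, QuadraticAlgebra.im_neg]; ring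
        omega
      · have : c3 (-b) = - c3 b := by
          unfold c3; simp only [QuadraticAlgebra.re_neg, QuadraticAlgebra.im_neg]; ring
        omega
      · have : c7 (-b) = - c7 b := by
          unfold c7; simp only [QuadraticAlgebra.re_neg, QuadraticAlgebra.im_neg]; ring
        omega
  obtain ⟨b', hb1, hb2⟩ := key
  refine ⟨a, b', by rw [hb1, hab], ⟨?_, ha⟩, hb2⟩
  refine prim_cancel (prim_pow hb2 2) ?_
  rw [hb1, mul_comm, ← hab]
  exact hm

/-- the squarefree elements of the class -/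
noncomputable def AA (V : Finset ZI) (X : ℕ) : Finset ZI :=
  (SB X).filter fun a => κ₀ (fc a) ∧ ∀ u ∈ V, ¬ u ∣ a

theorem AA_le (V : Finset ZI) (X : ℕ) :
    (AA V X).card ≤ ((SS X).filter (Kc κ₀ V)).card := by
  refine Finset.card_le_card_of_injOn PD ?_ ?_
  · intro n hn
    rw [mem_coe, AA, mem_filter, mem_SB] at hn
    obtain ⟨⟨h1, h2⟩, h3, h4⟩ := hn
    have hPP : ∀ π ∈ PD n, PP π := fun π hπ => ((mem_PD h2.ne).1 hπ).1
    rw [mem_coe, mem_filter, mem_SS]
    refine ⟨⟨hPP, ?_⟩, ?_, ?_⟩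
    · rw [← nrm_prod, h2.prod]
      exact h1
    · rw [← fc_prod fun π hπ => (hPP π hπ).prm, h2.prod]
      exact h3
    · rw [Finset.disjoint_left]
      intro u hu hu'
      exact h4 u hu ((mem_PD h2.ne).1 hu').2
  · intro n hn m hm h
    rw [mem_coe, AA, mem_filter, mem_SB] at hn hm
    rw [← hn.1.2.prod, ← hm.1.2.prod, h]

theorem tail (K X : ℕ) :
    ∑ b ∈ (PB X).filter (fun b => 2 ^ K ≤ nrm b), (1 : ℝ) / (nrm b : ℝ) ^ 2 ≤
      36 * (1 / 2) ^ K := by
  set T := (PB X).filter (fun b => 2 ^ K ≤ nrm b) with hT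
  have hmem : ∀ b ∈ T, nrm b ≤ X ∧ prim b ∧ 2 ^ K ≤ nrm b := by
    intro b hb
    rw [hT, mem_filter, mem_PB] at hb
    exact ⟨hb.1.1, hb.1.2, hb.2⟩
  have hmaps : ∀ b ∈ T, Nat.log 2 (nrm b) ∈ Ico K (Nat.log 2 X + 1) := by
    intro b hb
    obtain ⟨h1, h2, h3⟩ := hmem b hb
    rw [mem_Ico]
    refine ⟨?_, ?_⟩
    · have := Nat.log_mono_right (b := 2) h3
      rwa [Nat.log_pow (by norm_num)] at this
    · have := Nat.log_mono_right (b := 2) h1
      omega
  rw [← sum_fiberwise_of_maps_to hmaps]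
  have h1 : ∀ k ∈ Ico K (Nat.log 2 X + 1),
      ∑ b ∈ T.filter (fun b => Nat.log 2 (nrm b) = k), (1 : ℝ) / (nrm b : ℝ) ^ 2 ≤
        18 * (1 / 2) ^ k := by
    intro k _
    have h2 : ∀ b ∈ T.filter (fun b => Nat.log 2 (nrm b) = k),
        (1 : ℝ) / (nrm b : ℝ) ^ 2 ≤ 1 / (2 ^ k) ^ 2 := by
      intro b hb
      rw [mem_filter] at hb
      have h3 : 2 ^ k ≤ nrm b := by
        rw [← hb.2]
        exact Nat.pow_log_le_self 2 (nrm_ne (prim_ne_zero (hmem b hb.1).2.1))
      have h4 : (2 : ℝ) ^ k ≤ nrm b := by exact_mod_cast h3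
      gcongr
    refine (sum_le_sum h2).trans ?_
    rw [sum_const, nsmul_eq_mul]
    have h5 : T.filter (fun b => Nat.log 2 (nrm b) = k) ⊆ ZB (2 ^ (k + 1)) := by
      intro b hb
      rw [mem_filter] at hb
      rw [mem_ZB]
      have := Nat.lt_pow_succ_log_self (b := 2) (by norm_num) (nrm b)
      rw [hb.2] at this
      exact this.le
    have h6 : ((T.filter (fun b => Nat.log 2 (nrm b) = k)).card : ℝ) ≤ 9 * 2 ^ (k + 1) := by
      refine le_trans (Nat.cast_le.2 (card_le_card h5)) ?_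
      have := card_ZB_le (V := 2 ^ (k + 1)) Nat.one_le_two_pow
      push_cast at this
      exact this
    calc ((T.filter (fun b => Nat.log 2 (nrm b) = k)).card : ℝ) * (1 / (2 ^ k) ^ 2)
        ≤ (9 * 2 ^ (k + 1)) * (1 / (2 ^ k) ^ 2) := by gcongr
      _ = 18 * (1 / 2) ^ k := by
        have : (2 : ℝ) ^ k ≠ 0 := by positivity
        rw [pow_succ, one_div_pow]
        field_simp
        norm_num
  refine (sum_le_sum h1).trans ?_
  rw [← mul_sum, sum_Ico_eq_sum_range]
  have h2 : ∑ i ∈ range (Nat.log 2 X + 1 - K), ((1 : ℝ) / 2) ^ (K + i) ≤ (1 / 2) ^ K * 2 := by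
    simp only [pow_add]
    rw [← mul_sum]
    exact mul_le_mul_of_nonneg_left (sum_geometric_two_le _) (by positivity)
  linarith

theorem ZB_ne {Y : ℕ} : (((ZB Y).filter fun a => a ≠ 0).card : ℝ) ≤ 9 * Y := by
  rcases Nat.eq_zero_or_pos Y with rfl | hY
  · have : ((ZB 0).filter fun a => a ≠ 0) = ∅ := by
      rw [Finset.filter_eq_empty_iff]
      intro a ha ha0
      rw [mem_ZB] at ha
      exact ha0 (nrm_zero_iff.1 (Nat.le_zero.1 ha))
    rw [this]
    simp
  · exact le_trans (by exact_mod_cast card_le_card (filter_subset _ _)) (card_ZB_le hY)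

/-- **Q7-LOW.** -/
theorem low : S_LOW := by
  intro V hV
  set P : ZI := ∏ u ∈ V, u with hP
  have hP0 : P ≠ 0 := Finset.prod_ne_zero_iff.2 fun u hu => (hV u hu).ne
  set q : ZI := 8 * s7 * P with hq
  have h8 : (8 : ZI) * s7 ≠ 0 := by
    intro h
    have h1 : mo * 2 = 0 := by rw [mo]; linear_combination h
    rcases mul_eq_zero.1 h1 with h2 | h2
    · exact mo_ne h2
    · have h3 := congrArg QuadraticAlgebra.re h2
      exact absurd h3 (by decide)
  have hq0 : q ≠ 0 := mul_ne_zero h8 hP0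
  have hmoq : mo ∣ q := ⟨2 * P, by rw [hq, mo]; ring⟩
  have h8q : (8 : ZI) ∣ q := ⟨s7 * P, by rw [hq]; ring⟩
  obtain ⟨c₁, X₁, hc₁, hcl⟩ := cls_ge hq0 1
  obtain ⟨K, hK⟩ : ∃ K : ℕ, ((1 : ℝ) / 2) ^ K < c₁ / 648 :=
    exists_pow_lt_of_lt_one (by positivity) (by norm_num)
  set nK : ℕ := (PB (2 ^ K)).card + 1 with hnK
  have hnK0 : (0 : ℝ) < nK := by rw [hnK]; positivity
  refine ⟨c₁ / (2 * nK), X₁, by positivity, fun X hX => ?_⟩
  refine le_trans ?_ (Nat.cast_le.2 (AA_le V X))
  have h1 := hcl X hX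
  -- the covering
  have hcov : ((ZB X).filter fun m => q ∣ m - 1) ⊆
      ((PB (2 ^ K)).biUnion fun b => (AA V X).image fun a => a * b ^ 2) ∪
      (((PB X).filter fun b => 2 ^ K ≤ nrm b).biUnion fun b =>
        ((ZB (X / nrm b ^ 2)).filter fun a => a ≠ 0).image fun a => a * b ^ 2) := by
    intro m hm
    rw [mem_filter, mem_ZB] at hm
    obtain ⟨hmX, hmq⟩ := hm
    have hpm : prim m := prim_per (by
      rw [← dvd_neg, neg_sub]; exact hmoq.trans hmq) prim_one
    obtain ⟨a, b, hab, ha, hb⟩ := decomp hpm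
    have hm0 : m ≠ 0 := prim_ne_zero hpm
    have hb0 : b ≠ 0 := prim_ne_zero hb
    have hn : nrm m = nrm a * nrm b ^ 2 := by rw [hab, nrm_mul, pow_two, nrm_mul, pow_two]
    have ha1 : 0 < nrm a := nrm_pos ha.ne
    have hb1 : 0 < nrm b := nrm_pos hb0
    have hb2 : nrm b ≤ nrm b ^ 2 := by rw [pow_two]; exact Nat.le_mul_of_pos_left _ hb1
    have hna : nrm a ≤ X := by
      refine le_trans ?_ hmX
      rw [hn]
      exact Nat.le_mul_of_pos_right _ (by positivity)
    have hnb2 : nrm b ^ 2 ≤ X := by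
      refine le_trans ?_ hmX
      rw [hn]
      exact Nat.le_mul_of_pos_left _ ha1
    rw [mem_union, mem_biUnion, mem_biUnion]
    by_cases hbK : 2 ^ K ≤ nrm b
    · right
      refine ⟨b, ?_, ?_⟩
      · rw [mem_filter, mem_PB]
        exact ⟨⟨hb2.trans hnb2, hb⟩, hbK⟩
      · rw [mem_image]
        refine ⟨a, ?_, hab.symm⟩
        rw [mem_filter, mem_ZB]
        refine ⟨?_, ha.ne⟩
        rw [Nat.le_div_iff_mul_le (by positivity), ← hn]
        exact hmX
    · left
      refine ⟨b, ?_, ?_⟩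
      · rw [mem_PB]
        exact ⟨by omega, hb⟩
      · rw [mem_image]
        refine ⟨a, ?_, hab.symm⟩
        rw [AA, mem_filter, mem_SB]
        refine ⟨⟨hna, ha⟩, ?_, ?_⟩
        · have h2 := (eight_iff hpm).1 (h8q.trans hmq)
          have h3 : fc m = fc a := by
            rw [hab, fc_mul ha.prm (prim_pow hb 2), pow_two, fc_mul hb hb]
            have : fc b + fc b = 0 := by
              generalize fc b = x
              revert x
              decide
            rw [this, add_zero]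
          rw [h3] at h2
          exact h2
        · intro u hu hua
          have h2 : u ∣ m := by rw [hab]; exact hua.mul_right _
          have h3 : u ∣ m - 1 := by
            refine dvd_trans ?_ hmq
            rw [hq]
            exact (Finset.dvd_prod_of_mem _ hu).mul_left _
          have h4 : u ∣ 1 := by
            have := dvd_sub h2 h3
            rwa [sub_sub_cancel] at this
          exact (hV u hu).pr.not_isUnit (isUnit_of_dvd_one h4)
  have h2 : (((ZB X).filter fun m => q ∣ m - 1).card : ℝ) ≤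
      (PB (2 ^ K)).card * ((AA V X).card : ℝ) +
      ∑ b ∈ (PB X).filter (fun b => 2 ^ K ≤ nrm b), 9 * (X : ℝ) * (1 / (nrm b : ℝ) ^ 2) := by
    have e1 := (card_le_card hcov).trans (card_union_le _ _)
    have e2 : ((PB (2 ^ K)).biUnion fun b => (AA V X).image fun a => a * b ^ 2).card ≤
        (PB (2 ^ K)).card * (AA V X).card := by
      refine card_biUnion_le.trans ?_
      rw [← smul_eq_mul, ← sum_const]
      exact sum_le_sum fun b _ => card_image_le
    have e3 : ((((PB X).filter fun b => 2 ^ K ≤ nrm b).biUnion fun b =>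
        ((ZB (X / nrm b ^ 2)).filter fun a => a ≠ 0).image fun a => a * b ^ 2).card : ℝ) ≤
        ∑ b ∈ (PB X).filter (fun b => 2 ^ K ≤ nrm b), 9 * (X : ℝ) * (1 / (nrm b : ℝ) ^ 2) := by
      refine le_trans (Nat.cast_le.2 card_biUnion_le) ?_
      push_cast
      refine sum_le_sum fun b _ => ?_
      refine le_trans (Nat.cast_le.2 card_image_le) (ZB_ne.trans ?_)
      rw [mul_assoc, mul_one_div]
      refine mul_le_mul_of_nonneg_left ?_ (by norm_num)
      refine Nat.cast_div_le.trans ?_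
      push_cast
      exact le_refl _
    have e4 : (((ZB X).filter fun m => q ∣ m - 1).card : ℝ) ≤
        (((PB (2 ^ K)).biUnion fun b => (AA V X).image fun a => a * b ^ 2).card : ℝ) +
        ((((PB X).filter fun b => 2 ^ K ≤ nrm b).biUnion fun b =>
          ((ZB (X / nrm b ^ 2)).filter fun a => a ≠ 0).image fun a => a * b ^ 2).card : ℝ) := by
      exact_mod_cast e1
    have e5 : (((PB (2 ^ K)).biUnion fun b => (AA V X).image fun a => a * b ^ 2).card : ℝ) ≤
        (PB (2 ^ K)).card * ((AA V X).card : ℝ) := by exact_mod_cast e2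
    linarith
  rw [← mul_sum] at h2
  have h3 := tail K X
  have hX0 : (0 : ℝ) ≤ X := Nat.cast_nonneg X
  have h4 : 9 * (X : ℝ) * ∑ b ∈ (PB X).filter (fun b => 2 ^ K ≤ nrm b), 1 / (nrm b : ℝ) ^ 2 ≤
      9 * X * (36 * (c₁ / 648)) := by
    refine mul_le_mul_of_nonneg_left (h3.trans ?_) (by positivity)
    exact mul_le_mul_of_nonneg_left hK.le (by norm_num)
  have h5 : c₁ * X / 2 ≤ nK * ((AA V X).card : ℝ) := by
    have h6 : ((PB (2 ^ K)).card : ℝ) * ((AA V X).card : ℝ) ≤ nK * ((AA V X).card : ℝ) := by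
      refine mul_le_mul_of_nonneg_right ?_ (Nat.cast_nonneg _)
      rw [hnK]; push_cast; linarith
    linarith
  rw [div_mul_eq_mul_div, div_le_iff₀ (by positivity)]
  linarith

end Pool.Agent.H519.Q7.Low
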