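import Pool.Agent.H519.Q7.Rec
import Pool.Agent.H519.Q7.Stm

/-!
# Project Q7: the structure `SymP` (task Q7-REC2)
-/

set_option autoImplicit false

open scoped Classical

namespace Pool.Agent.H519.Q7

open Finset

theorem symP : SymP where
  recip _ _ h h' hne := s_rec h h' hne
  self π _ := s_self π
  one π ρ := s_one_iff π ρ
  zero _ _ h h' hne := s_zero_iff fun hd => hne (PP.eq_of_dvd h h' hd)
  prod _ _ h hU hn := s_prod h hU hn
  prim_prod _ hS := Pool.Agent.H519.Q7.prim_prod fun π hπ => (hS π hπ).prm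
  fc_prod _ hS := Pool.Agent.H519.Q7.fc_prod fun π hπ => (hS π hπ).prm
  chr c w π hw hπ hn := by
    unfold chi
    have h1 := PS_prod hw
    have h2 : (jac (∏ u ∈ w, u) π : ℝ) = sg (∑ u ∈ w, s u π) := by
      unfold jac
      rw [h1.2, sg_sum]
      push_cast
      refine prod_congr rfl fun u hu => ?_
      rw [sg_s]
      intro hd
      exact hn ((PP.eq_of_dvd (hw u hu) hπ hd) ▸ hu)
    rw [h2, ← sg_add]
    congr 1
    have h3 : ∑ u ∈ w, s u π = ∑ u ∈ w, s π u + (∑ u ∈ w, tO u) * tO π := by
      rw [sum_mul, ← sum_add_distrib]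
      refine sum_congr rfl fun u hu => ?_
      have hne : u ≠ π := fun h => hn (h ▸ hu)
      rw [← s_rec (hw u hu) hπ hne]
      have h4 : ∀ a b : ZMod 2, a = b + (a + b) := by decide
      exact h4 _ _
    rw [h3]
    have h5 : dot (c + (∑ u ∈ w, tO u, 0, 0, 0)) (fc π) =
        dot c (fc π) + (∑ u ∈ w, tO u) * tO π := by
      rw [dot_add_left]
      simp [dot, fc]
    rw [h5]
    generalize dot c (fc π) = a
    generalize (∑ u ∈ w, tO u) * tO π = b
    generalize ∑ u ∈ w, s π u = e
    revert a b e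
    decide
  eight _ h := eight_iff h

end Pool.Agent.H519.Q7
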