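import Pool.Agent.H519.Q7.Fin
import Pool.Agent.H519.Q7.Sy
import Pool.Agent.H519.Q7.La
import Pool.Agent.H519.Q7.Loc
import Pool.Agent.H519.Q7.Bx
import Pool.Agent.H519.Q7.Key
import Pool.Agent.H519.Q7.Bad
import Pool.Agent.H519.Q7.Asy
import Pool.Agent.H519.Q7.Low
import Pool.Agent.H519.Q7.Cnt
import Pool.Agent.H519.Q7.Eq
import Pool.Agent.H519.Q7.Bil
import Pool.Agent.H519.Q7.Hal

/-!
# Project Q7: the density theorem
-/

set_option autoImplicit false

namespace Pool.Agent.H519.Q7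

theorem dens : S_FINJ :=
  Fin.finj Bil.bil Eq.eqd Bx.bx Key.key Cnt.cnt Hal.hal symP Bad.bad Bx.lab Low.low Asy.asy
    Loc.locj La.laxj

end Pool.Agent.H519.Q7
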