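import Pool.Graph.R_seed8.R384.Ring
import Pool.Graph.R_seed8.Y699.Lg
import Pool.Graph.R_seed8.Y703.CX.Stm

/-!
# Project Q7 (helper519): counting over `ℤ[ω]`, `ω² = ω - 2`: definitions

Port to `ℤ[ω]` of the number theory of `Pool/Agent/Y699` (Gaussian integers) and of project GN of helper155
(`Pool/Graph/R_pool_sql_team_seeded_3997aac3/Q155/GN/Stm.lean` and the files it names). The names are kept:
`ZI` is now `ℤ[ω]`.

`(2) = (ω) (1 - ω)`, `√-7 = 2 ω - 1`. The residues of `a = x + y ω`: modulo `ω ^ 3`: `c6 a = x + 6 y` modulo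
`8`; modulo `(1 - ω) ^ 3`: `c3 a = x + 3 y` modulo `8`; modulo `√-7`: `c7 a = x + 4 y` modulo `7`. Primary:
`1` modulo `ω ^ 2`, prime to `1 - ω` and to `√-7`. So every prime element prime to `2 √-7` is associated to
exactly one primary one (the units are `1` and `-1`).
-/

set_option autoImplicit false

open scoped Classical

namespace Pool.Agent.H519.Q7

open Finset
open Pool.Agent.Y699 (lg)

/-- `ℤ[ω]` -/
abbrev ZI : Type := Pool.Agent.R384.OO

/-- the norm, `x ^ 2 + x y + 2 y ^ 2` -/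
def nrm (a : ZI) : ℕ := (Pool.Agent.R384.nn a).natAbs

/-- the residue modulo `ω ^ 3` -/
def c6 (a : ZI) : ℤ := a.re + 6 * a.im

/-- the residue modulo `(1 - ω) ^ 3` -/
def c3 (a : ZI) : ℤ := a.re + 3 * a.im

/-- the residue modulo `√-7` -/
def c7 (a : ZI) : ℤ := a.re + 4 * a.im

/-- primary -/
structure prim (a : ZI) : Prop where
  six : c6 a % 4 = 1
  three : c3 a % 2 = 1
  seven : c7 a % 7 ≠ 0

/-- `√-7` -/
def s7 : ZI := ⟨-1, 2⟩

/-- the modulus of the condition `prim`: `4 √-7` -/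
def mo : ZI := 4 * s7

/-- primary primes -/
structure PP (π : ZI) : Prop where
  pr : Prime π
  prm : prim π

/-- the quadratic residue symbol -/
noncomputable def qr (π a : ZI) : ℤ := if π ∣ a then 0 else if ∃ b, π ∣ a - b ^ 2 then 1 else -1

/-- the label: `-1` modulo `(1 - ω) ^ 2` -/
def tO (a : ZI) : ZMod 2 := if c3 a % 4 = 3 then 1 else 0

/-- the label: `5` modulo `ω ^ 3` -/
def dO (a : ZI) : ZMod 2 := if c6 a % 8 = 5 then 1 else 0

/-- the label: `± 3` modulo `(1 - ω) ^ 3` -/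
def gO (a : ZI) : ZMod 2 := if c3 a % 8 = 3 ∨ c3 a % 8 = 5 then 1 else 0

/-- the label: not a square modulo `√-7` -/
def eO (a : ZI) : ZMod 2 := if c7 a % 7 = 3 ∨ c7 a % 7 = 5 ∨ c7 a % 7 = 6 then 1 else 0

/-- the group of the labels -/
abbrev Lb : Type := ZMod 2 × ZMod 2 × ZMod 2 × ZMod 2

/-- the labels -/
def fc (a : ZI) : Lb := (tO a, dO a, gO a, eO a)

/-- the pairing -/
def dot (c x : Lb) : ZMod 2 := c.1 * x.1 + c.2.1 * x.2.1 + c.2.2.1 * x.2.2.1 + c.2.2.2 * x.2.2.2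

/-- the sign -/
noncomputable def sg (a : ZMod 2) : ℝ := if a = 0 then 1 else -1

/-- the quadratic symbol of two primary primes, additively: `1` if `ρ` is not a square modulo `π` -/
noncomputable def s (π ρ : ZI) : ZMod 2 := if qr π ρ = -1 then 1 else 0

/-- primary and squarefree -/
structure PS (n : ZI) : Prop where
  prm : prim n
  sqf : Squarefree n

lemma nrm_cast (a : ZI) : (nrm a : ℤ) = Pool.Agent.R384.nn a :=
  Int.natAbs_of_nonneg (Pool.Agent.R384.nn_nonneg a)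

lemma nrm_eq' (a : ZI) : (nrm a : ℤ) = a.re ^ 2 + a.re * a.im + 2 * a.im ^ 2 := nrm_cast a

lemma nrm_mul (a b : ZI) : nrm (a * b) = nrm a * nrm b := by
  unfold nrm
  rw [Pool.Agent.R384.nn_mul, Int.natAbs_mul]

lemma nrm_zero_iff {a : ZI} : nrm a = 0 ↔ a = 0 := by
  unfold nrm
  rw [Int.natAbs_eq_zero]
  exact Pool.Agent.R384.nn_zero_iff

lemma nrm_ne {a : ZI} (h : a ≠ 0) : nrm a ≠ 0 := fun h' => h (nrm_zero_iff.1 h')

lemma nrm_pos {a : ZI} (h : a ≠ 0) : 0 < nrm a := Nat.pos_of_ne_zero (nrm_ne h)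

lemma nrm_one : nrm 1 = 1 := by
  have h : Pool.Agent.R384.nn (1 : ZI) = 1 := by
    have h1 : (1 : ZI).re = 1 := rfl
    have h2 : (1 : ZI).im = 0 := rfl
    simp [Pool.Agent.R384.nn, h1, h2]
  unfold nrm
  rw [h]
  rfl

lemma nrm_prod {κ : Type*} (s : Finset κ) (f : κ → ZI) : nrm (∏ i ∈ s, f i) = ∏ i ∈ s, nrm (f i) := by
  classical
  induction s using Finset.induction_on with
  | empty => rw [prod_empty, prod_empty, nrm_one]
  | insert a s ha ih => rw [prod_insert ha, prod_insert ha, nrm_mul, ih]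

/-- finitely many elements of bounded norm -/
lemma fin_norm_le (N : ℕ) : {a : ZI | nrm a ≤ N}.Finite := by
  have h : {a : ZI | nrm a ≤ N} ⊆
      (fun p : ℤ × ℤ => (⟨p.1, p.2⟩ : ZI)) '' ((Set.Icc (-(2 * N : ℤ)) (2 * N)) ×ˢ
        (Set.Icc (-(2 * N : ℤ)) (2 * N))) := by
    intro a ha
    refine ⟨(a.re, a.im), ?_, by ext <;> rfl⟩
    have h1 : nrm a ≤ N := ha
    have h2 : (nrm a : ℤ) ≤ N := by exact_mod_cast h1
    rw [nrm_eq'] at h2
    have h4 : ∀ x : ℤ, x ^ 2 ≤ 2 * N → -(2 * N : ℤ) ≤ x ∧ x ≤ 2 * N := by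
      intro x hx
      constructor
      · nlinarith [sq_nonneg (x + 1), sq_nonneg x]
      · nlinarith [sq_nonneg (x - 1)]
    have h5 : a.re ^ 2 ≤ 2 * N := by nlinarith [sq_nonneg (a.re + 2 * a.im), sq_nonneg (2 * a.im), sq_nonneg a.im, sq_nonneg (a.re + 4 * a.im)]
    have h6 : a.im ^ 2 ≤ 2 * N := by nlinarith [sq_nonneg (2 * a.re + a.im), sq_nonneg a.im]
    obtain ⟨h7, h8⟩ := h4 a.re h5
    obtain ⟨h9, h10⟩ := h4 a.im h6
    exact ⟨⟨h7, h8⟩, ⟨h9, h10⟩⟩
  exact (((Set.finite_Icc _ _).prod (Set.finite_Icc _ _)).image _).subset h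

lemma norm_le_of_dvd {a n : ZI} (hn : n ≠ 0) (h : a ∣ n) : nrm a ≤ nrm n := by
  obtain ⟨c, rfl⟩ := h
  have hc : c ≠ 0 := right_ne_zero_of_mul hn
  rw [nrm_mul]
  exact Nat.le_mul_of_pos_right _ (nrm_pos hc)

lemma fin_pd {n : ZI} (hn : n ≠ 0) : {π : ZI | PP π ∧ π ∣ n}.Finite :=
  (fin_norm_le (nrm n)).subset fun _ h => norm_le_of_dvd hn h.2

/-- the primary primes dividing `n` -/
noncomputable def PD (n : ZI) : Finset ZI := if h : n ≠ 0 then (fin_pd h).toFinset else ∅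

lemma mem_PD {n π : ZI} (hn : n ≠ 0) : π ∈ PD n ↔ PP π ∧ π ∣ n := by
  unfold PD
  rw [dif_pos hn, Set.Finite.mem_toFinset]
  rfl

/-- the Jacobi symbol `(a / n)` for `n` squarefree -/
noncomputable def jac (n a : ZI) : ℤ := ∏ π ∈ PD n, qr π a

/-- the elements of norm at most `V` -/
noncomputable def ZB (V : ℕ) : Finset ZI := (fin_norm_le V).toFinset

lemma mem_ZB {V : ℕ} {a : ZI} : a ∈ ZB V ↔ nrm a ≤ V := by
  unfold ZB
  rw [Set.Finite.mem_toFinset]
  rfl

/-- primary squarefree elements of norm at most `M` -/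
noncomputable def SB (M : ℕ) : Finset ZI := (ZB M).filter PS

/-- primary elements of norm at most `M` -/
noncomputable def PB (M : ℕ) : Finset ZI := (ZB M).filter prim

/-- primary primes of norm at most `V` -/
noncomputable def QB (V : ℕ) : Finset ZI := (ZB V).filter PP

lemma mem_SB {M : ℕ} {x : ZI} : x ∈ SB M ↔ nrm x ≤ M ∧ PS x := by
  unfold SB; rw [mem_filter, mem_ZB]

lemma mem_PB {M : ℕ} {x : ZI} : x ∈ PB M ↔ nrm x ≤ M ∧ prim x := by
  unfold PB; rw [mem_filter, mem_ZB]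

lemma mem_QB {V : ℕ} {x : ZI} : x ∈ QB V ↔ nrm x ≤ V ∧ PP x := by
  unfold QB; rw [mem_filter, mem_ZB]

/-- bilinear form -/
noncomputable def Bil (α β : ZI → ℝ) (M N : ℕ) : ℝ :=
  ∑ x ∈ SB M, ∑ y ∈ SB N, α x * β y * jac x y

/-- multiplicative functions -/
noncomputable def mf (g : ZI → ℝ) (n : ZI) : ℝ := ∏ π ∈ PD n, g π

/-- the characters: `n ↦ (-1) ^ (c . fc n) (n / G)` -/
noncomputable def chi (c : Lb) (G n : ZI) : ℝ := sg (dot c (fc n)) * jac G n

end Pool.Agent.H519.Q7
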