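import Pool.Agent.H519.Q7.Stm
import Pool.Agent.H519.Q7.Alg
import Pool.Graph.R_pool_sql_team_seeded_3dad9d7b.NH57.BL.PAR

/-!
# Q7-FINJ: assembly of the density theorem (joint version)
-/

set_option autoImplicit false

open scoped Classical

namespace Pool.Agent.H519.Q7.Fin

open Finset Filter
open Pool.Agent.H519.Q7
open Pool.Agent.NH57.BL (c2)

lemma tprod_mem (f : ℕ → ℝ) (h0 : ∀ i, 0 ≤ f i) (h1 : ∀ i, f i ≤ 1) :
    0 ≤ ∏' i, f i ∧ ∏' i, f i ≤ 1 := by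
  by_cases hf : Multipliable f
  · have h := hf.hasProd
    constructor
    · exact ge_of_tendsto' h fun s => prod_nonneg fun i _ => h0 i
    · exact le_of_tendsto' h fun s => prod_le_one (fun i _ => h0 i) fun i _ => h1 i
  · rw [tprod_eq_one_of_not_multipliable hf]
    norm_num

lemma c2_mem : 0 ≤ c2 ∧ c2 ≤ 1 := by
  unfold c2
  apply tprod_mem
  · intro i
    have : (1 / 2 : ℝ) ^ (i + 1) ≤ 1 := pow_le_one₀ (by norm_num) (by norm_num)
    linarith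
  · intro i
    have : (0 : ℝ) ≤ (1 / 2 : ℝ) ^ (i + 1) := by positivity
    linarith

section
variable (hBIL : S_BIL) (hEQ : S_EQ) (hBOX : S_BOX) (hKEY : S_KEY) (hCNT : S_CNT) (hHAL : S_HAL)
  (hSYM : SymP) (hBAD : S_BAD) (hLAB : S_LAB) (hLOW : S_LOW) (hASY : S_ASY) (hLOC : S_LOCJ)
  (hLAX : Pool.Agent.NH57.BJ.S_LAXJ)

include hBIL hEQ hBOX hKEY hCNT hHAL hSYM hBAD hLAB hLOW hASY hLOC hLAX in
/-- the limit for given systems -/
theorem lim1 (I : Type) [Fintype I] (a b : I → ZMod 2) (hab : ∀ i, a i ≠ 0 ∨ b i ≠ 0)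
    (W : I → Finset ZI) (W₀ : Finset ZI) (hW₀ : ∀ u ∈ W₀, PP u) (hW : ∀ i, W i ⊆ W₀)
    (hinj : Function.Injective W) (hκ : ∀ i, κ₀ (∑ u ∈ W i, fc u)) :
    Tendsto (fun X : ℕ => (((SS X).filter fun S =>
        Kc κ₀ W₀ S ∧ ∀ i, Tab (a i) (b i) (S ∪ W i)).card : ℝ) /
      (((SS X).filter (Kc κ₀ W₀)).card : ℝ)) atTop (nhds (c2 ^ Fintype.card I)) := by
  have hB : ∀ ε : ℝ, 0 < ε → ∃ A R : ℕ, BX (NK κ₀ W₀ A R W₀)
      (fun S => ∀ i, Tab (a i) (b i) (S ∪ W i)) W₀ (c2 ^ Fintype.card I) ε := by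
    intro ε hε
    obtain ⟨A, R, h⟩ := hLOC hLAX hSYM I a b W W₀ hab hW₀ hW hinj hκ ε hε
    exact ⟨A, R, hBOX hEQ _ _ W₀ _ ε (pow_nonneg c2_mem.1 _) hε.le hW₀
      (hLAB hSYM κ₀ W₀ A R W₀ subset_rfl hW₀) h⟩
  have h := hASY hBIL hKEY hCNT (hBAD hSYM hHAL) κ₀ W₀ W₀
    (fun S => ∀ i, Tab (a i) (b i) (S ∪ W i)) (c2 ^ Fintype.card I)
    (pow_nonneg c2_mem.1 _) (pow_le_one₀ c2_mem.1 c2_mem.2) hW₀ (hLOW W₀ hW₀) hB
  convert h

/-- the three systems -/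
def A3 : Fin 3 → ZMod 2 := ![1, 0, 1]
/-- the three systems -/
def B3 : Fin 3 → ZMod 2 := ![0, 1, 1]
/-- the weights -/
noncomputable def w3 : Fin 3 → ℝ := ![1 / 2, 1 / 2, -(1 / 2)]

lemma ab3 (j : Fin 3) : A3 j ≠ 0 ∨ B3 j ≠ 0 := by
  fin_cases j <;> simp [A3, B3]

/-- two of the systems -/
def TT (S : Finset ZI) : Prop := Tab 1 0 S ∧ Tab 0 1 S

lemma ind3 (S : Finset ZI) :
    (if TT S then (1 : ℝ) else 0) =
      ∑ j : Fin 3, w3 j * (if Tab (A3 j) (B3 j) S then (1 : ℝ) else 0) := by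
  have h := Pool.Agent.NH57.BL.t_PAR ZI S eO (fun π => dO π + tO π) (fun π => gO π + tO π) s
  have e : ∀ a b : ZMod 2, Pool.Agent.NH57.BL.GdS S eO (fun π => dO π + tO π)
      (fun π => gO π + tO π) s a b = Tab a b S := fun a b => rfl
  simp only [e] at h
  rw [Fin.sum_univ_three]
  simp only [w3, A3, B3, Matrix.cons_val_zero, Matrix.cons_val_one, Matrix.cons_val_two,
    Matrix.head_cons, Matrix.tail_cons]
  by_cases h1 : Tab 1 0 S <;> by_cases h2 : Tab 0 1 S <;> by_cases h3 : Tab 1 1 S <;>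
    simp [TT, h1, h2, h3] at h ⊢ <;> norm_num

lemma card_eq {α I : Type} [Fintype I] (U : Finset α) (K : α → Prop) (P : I → α → Prop)
    [DecidablePred fun S => K S ∧ ∀ i, P i S] :
    ((U.filter fun S => K S ∧ ∀ i, P i S).card : ℝ) =
      ∑ S ∈ U.filter K, ∏ i, (if P i S then (1 : ℝ) else 0) := by
  have h0 : (U.filter fun S => K S ∧ ∀ i, P i S) = (U.filter K).filter fun S => ∀ i, P i S := by
    ext S
    simp only [mem_filter, and_assoc]
  rw [h0, card_filter]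
  push_cast
  refine sum_congr rfl fun S _ => ?_
  by_cases h : ∀ i, P i S
  · rw [if_pos h]
    symm
    exact prod_eq_one fun i _ => if_pos (h i)
  · rw [if_neg h]
    push Not at h
    obtain ⟨i, hi⟩ := h
    symm
    exact prod_eq_zero (mem_univ i) (if_neg hi)

lemma expand (I : Type) [Fintype I] (W : I → Finset ZI) (U : Finset (Finset ZI))
    (K : Finset ZI → Prop) :
    ((U.filter fun S => K S ∧ ∀ i, (Tab 1 0 (S ∪ W i) ∧ Tab 0 1 (S ∪ W i))).card : ℝ) =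
      ∑ p : I → Fin 3, (∏ i, w3 (p i)) *
        ((U.filter fun S => K S ∧ ∀ i, Tab (A3 (p i)) (B3 (p i)) (S ∪ W i)).card : ℝ) := by
  have h0 : ∀ S : Finset ZI, (K S ∧ ∀ i, (Tab 1 0 (S ∪ W i) ∧ Tab 0 1 (S ∪ W i))) ↔
      (K S ∧ ∀ i, TT (S ∪ W i)) := fun S => Iff.rfl
  rw [filter_congr fun S _ => h0 S, card_eq U K fun i S => TT (S ∪ W i)]
  have h1 : ∀ S : Finset ZI,
      ∏ i, (if TT (S ∪ W i) then (1 : ℝ) else 0) =
      ∑ p : I → Fin 3, (∏ i, w3 (p i)) *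
        ∏ i, (if Tab (A3 (p i)) (B3 (p i)) (S ∪ W i) then (1 : ℝ) else 0) := by
    intro S
    rw [prod_congr rfl fun i _ => ind3 (S ∪ W i), prod_univ_sum, Fintype.piFinset_univ]
    refine sum_congr rfl fun p _ => ?_
    rw [prod_mul_distrib]
  rw [sum_congr rfl fun S _ => h1 S, sum_comm]
  refine sum_congr rfl fun p _ => ?_
  rw [card_eq U K fun i S => Tab (A3 (p i)) (B3 (p i)) (S ∪ W i), mul_sum]

lemma sum_w3 (I : Type) [Fintype I] : ∑ p : I → Fin 3, ∏ i, w3 (p i) = (1 / 2) ^ Fintype.card I := by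
  have h : ∑ j : Fin 3, w3 j = 1 / 2 := by
    rw [Fin.sum_univ_three]
    simp [w3]
  have h2 := prod_univ_sum (fun _ : I => (univ : Finset (Fin 3))) fun _ j => w3 j
  rw [Fintype.piFinset_univ] at h2
  rw [← h2]
  simp only [h, prod_const, card_univ]

include hBIL hEQ hBOX hKEY hCNT hHAL hSYM hBAD hLAB hLOW hASY hLOC hLAX in
theorem finj : S_FINJ := by
  intro I _ W W₀ hW₀ hW hinj hκ
  constructor
  · exact lim1 hBIL hEQ hBOX hKEY hCNT hHAL hSYM hBAD hLAB hLOW hASY hLOC hLAX I (fun _ => 1)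
      (fun _ => 0) (fun _ => Or.inl one_ne_zero) W W₀ hW₀ hW hinj hκ
  · have h := fun p : I → Fin 3 => lim1 hBIL hEQ hBOX hKEY hCNT hHAL hSYM hBAD hLAB hLOW hASY hLOC
      hLAX I (fun i => A3 (p i)) (fun i => B3 (p i)) (fun i => ab3 (p i)) W W₀ hW₀ hW hinj hκ
    have h2 : Tendsto (fun X : ℕ => ∑ p : I → Fin 3, (∏ i, w3 (p i)) *
        ((((SS X).filter fun S => Kc κ₀ W₀ S ∧ ∀ i, Tab (A3 (p i)) (B3 (p i)) (S ∪ W i)).card : ℝ) /
          (((SS X).filter (Kc κ₀ W₀)).card : ℝ))) atTop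
        (nhds (∑ p : I → Fin 3, (∏ i, w3 (p i)) * c2 ^ Fintype.card I)) :=
      tendsto_finsetSum _ fun p _ => (h p).const_mul _
    rw [← sum_mul, sum_w3, ← mul_pow, one_div_mul_eq_div] at h2
    refine h2.congr fun X => ?_
    rw [expand, sum_div]
    refine sum_congr rfl fun p _ => ?_
    rw [mul_div_assoc]

end

/-! ### The translation -/

lemma s7_dvd_iff (a : ZI) : s7 ∣ a ↔ c7 a % 7 = 0 := by
  constructor
  · rintro ⟨b, rfl⟩
    have h1 : (s7 * b).re = -b.re - 4 * b.im := by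
      rw [QuadraticAlgebra.re_mul]; simp [s7]; ring
    have h2 : (s7 * b).im = 2 * b.re + b.im := by
      rw [QuadraticAlgebra.im_mul]; simp [s7]; ring
    unfold c7
    rw [h1, h2]
    omega
  · intro h
    unfold c7 at h
    obtain ⟨u, hu⟩ : (7 : ℤ) ∣ a.re + 4 * a.im := Int.dvd_of_emod_eq_zero h
    refine ⟨⟨u, a.im - 2 * u⟩, ?_⟩
    ext
    · rw [QuadraticAlgebra.re_mul]; simp [s7]; linarith
    · rw [QuadraticAlgebra.im_mul]; simp [s7]; ring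

lemma prim_of_eight {D : ZI} (h8 : (8 : ZI) ∣ D - 1) (h7 : ¬ s7 ∣ D) : prim D := by
  obtain ⟨b, hb⟩ := h8
  have hD : D = 8 * b + 1 := by rw [← hb]; ring
  have h8re : (8 : ZI).re = 8 := rfl
  have h8im : (8 : ZI).im = 0 := rfl
  have h1re : (1 : ZI).re = 1 := rfl
  have h1im : (1 : ZI).im = 0 := rfl
  have h1 : D.re = 8 * b.re + 1 := by
    rw [hD, QuadraticAlgebra.re_add, QuadraticAlgebra.re_mul, h8re, h8im, h1re]; simp
  have h2 : D.im = 8 * b.im := by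
    rw [hD, QuadraticAlgebra.im_add, QuadraticAlgebra.im_mul, h8re, h8im, h1im]; simp
  refine ⟨?_, ?_, fun h => h7 ((s7_dvd_iff D).2 h)⟩
  · unfold c6; rw [h1, h2]; omega
  · unfold c3; rw [h1, h2]; omega

/-- the elements `D` and the sets of primary primes -/
theorem count_D (X : ℕ) (W0 : Finset ZI) (hW0 : ∀ u ∈ W0, PP u) (Q : Finset ZI → Prop) :
    ((ZB X).filter fun D => Squarefree D ∧ (8 : ZI) ∣ D - 1 ∧ ¬ s7 ∣ D ∧ (∀ u ∈ W0, ¬ u ∣ D) ∧
      Q (PD D)).card = ((SS X).filter fun S => Kc κ₀ W0 S ∧ Q S).card := by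
  have key : ∀ D : ZI, Squarefree D → (8 : ZI) ∣ D - 1 → ¬ s7 ∣ D → PS D := fun D h1 h2 h3 =>
    ⟨prim_of_eight h2 h3, h1⟩
  refine card_bij' (fun D _ => PD D) (fun S _ => ∏ π ∈ S, π) ?_ ?_ ?_ ?_
  · intro D hD
    rw [mem_filter] at hD ⊢
    obtain ⟨hX, h1, h2, h3, h4, h5⟩ := hD
    have hps := key D h1 h2 h3
    have hpr : ∀ π ∈ PD D, PP π := fun π hπ => ((mem_PD hps.ne).1 hπ).1
    have hn : ∏ π ∈ PD D, nrm π ≤ X := by
      rw [← nrm_prod, hps.prod]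
      exact mem_ZB.1 hX
    refine ⟨?_, ⟨?_, ?_⟩, h5⟩
    · unfold SS
      rw [mem_filter, mem_powerset]
      refine ⟨fun π hπ => ?_, hn⟩
      rw [mem_QB]
      exact ⟨(norm_le_of_dvd hps.ne ((mem_PD hps.ne).1 hπ).2).trans (mem_ZB.1 hX), hpr π hπ⟩
    · rw [← fc_prod fun π hπ => (hpr π hπ).prm, hps.prod]
      exact (eight_iff hps.prm).1 h2
    · rw [disjoint_left]
      intro u hu hu'
      exact h4 u hu ((mem_PD hps.ne).1 hu').2
  · intro S hS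
    rw [mem_filter] at hS ⊢
    obtain ⟨hX, ⟨h1, h2⟩, h3⟩ := hS
    unfold SS at hX
    rw [mem_filter, mem_powerset] at hX
    have hpr : ∀ π ∈ S, PP π := fun π hπ => (mem_QB.1 (hX.1 hπ)).2
    obtain ⟨hps, hpd⟩ := PS_prod hpr
    have h8 : (8 : ZI) ∣ (∏ π ∈ S, π) - 1 := by
      rw [eight_iff hps.prm, fc_prod fun π hπ => (hpr π hπ).prm]
      exact h1
    refine ⟨?_, hps.sqf, h8, ?_, ?_, ?_⟩
    · rw [mem_ZB, nrm_prod]; exact hX.2
    · intro h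
      exact hps.prm.seven ((s7_dvd_iff _).1 h)
    · intro u hu hd
      have : u ∈ S := by
        rw [← hpd, mem_PD hps.ne]
        exact ⟨hW0 u hu, hd⟩
      exact (disjoint_left.1 h2) hu this
    · rw [hpd]; exact h3
  · intro D hD
    rw [mem_filter] at hD
    obtain ⟨_, h1, h2, h3, _⟩ := hD
    exact (key D h1 h2 h3).prod
  · intro S hS
    rw [mem_filter] at hS
    unfold SS at hS
    rw [mem_filter, mem_powerset] at hS
    exact (PS_prod fun π hπ => (mem_QB.1 (hS.1.1 hπ)).2).2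

end Pool.Agent.H519.Q7.Fin
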