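import Pool.Agent.H519.Q7.Alg
import Pool.Agent.H519.Q7.Rec0

/-!
# Project Q7: quadratic reciprocity in `ℤ[ω]` (task Q7-REC2)

`jac_rec` after `jac_rec` of `Pool/Graph/R_seed8/Y699/Pd.lean`.
-/

set_option autoImplicit false

open scoped Classical

namespace Pool.Agent.H519.Q7

open Finset

lemma em_h2_iff (π : ZI) : Pool.Agent.R384.em Pool.Agent.NH57.BK.h2 π = 1 ↔ c6 π % 4 = 1 := by
  have h1 : Pool.Agent.R384.em Pool.Agent.NH57.BK.h2 π = ((c6 π : ℤ) : ZMod 4) := by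
    show (π.re : ZMod 4) + π.im * 2 = ((c6 π : ℤ) : ZMod 4)
    unfold c6
    push_cast
    have h6 : (6 : ZMod 4) = 2 := by decide
    rw [h6]
    ring
  rw [h1, show (1 : ZMod 4) = ((1 : ℤ) : ZMod 4) by simp, ZMod.intCast_eq_intCast_iff]
  unfold Int.ModEq
  norm_num

lemma em_e6_eq (π : ZI) : Pool.Agent.R384.em Pool.Agent.NH57.BG.e6 π = ((c6 π : ℤ) : ZMod 8) := by
  show (π.re : ZMod 8) + π.im * 6 = ((c6 π : ℤ) : ZMod 8)
  unfold c6
  push_cast
  ring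

lemma em_e3_eq (π : ZI) : Pool.Agent.R384.em Pool.Agent.NH57.BG.e3 π = ((c3 π : ℤ) : ZMod 8) := by
  show (π.re : ZMod 8) + π.im * 3 = ((c3 π : ℤ) : ZMod 8)
  unfold c3
  push_cast
  ring

lemma cast8_iff (a b : ℤ) : ((a : ℤ) : ZMod 8) = ((b : ℤ) : ZMod 8) ↔ a % 8 = b % 8 :=
  ZMod.intCast_eq_intCast_iff a b 8

lemma one_sub_om : (1 - Pool.Agent.R384.om : ZI) = ⟨1, -1⟩ := by
  ext
  · rw [QuadraticAlgebra.re_sub, QuadraticAlgebra.re_one]; simp [Pool.Agent.R384.om]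
  · rw [QuadraticAlgebra.im_sub, QuadraticAlgebra.im_one]; simp [Pool.Agent.R384.om]

lemma one_om_dvd (π : ZI) : (1 - Pool.Agent.R384.om) ∣ π ↔ c3 π % 2 = 0 := by
  unfold c3
  rw [one_sub_om]
  constructor
  · rintro ⟨t, rfl⟩
    have h1 : ((⟨1, -1⟩ : ZI) * t).re = t.re + 2 * t.im := by
      rw [QuadraticAlgebra.re_mul]; ring
    have h2 : ((⟨1, -1⟩ : ZI) * t).im = -t.re := by
      rw [QuadraticAlgebra.im_mul]; ring
    rw [h1, h2]
    omega
  · intro h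
    obtain ⟨b, hb⟩ : ∃ b : ℤ, π.re + π.im = 2 * b := ⟨(π.re + π.im) / 2, by omega⟩
    refine ⟨⟨-π.im, b⟩, ?_⟩
    have hr : π.re = 2 * b - π.im := by omega
    ext
    · rw [QuadraticAlgebra.re_mul]
      linarith
    · rw [QuadraticAlgebra.im_mul]
      linarith

lemma s7_dvd_iff (π : ZI) : Pool.Agent.R384.s7 ∣ π ↔ c7 π % 7 = 0 := by
  rw [Pool.Agent.R384.s7_dvd, Pool.Agent.R384.rd7_apply]
  have h1 : (π.re : ZMod 7) + 4 * (π.im : ZMod 7) = ((c7 π : ℤ) : ZMod 7) := by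
    unfold c7; push_cast; ring
  rw [h1, ZMod.intCast_zmod_eq_zero_iff_dvd]
  constructor
  · intro h
    exact Int.emod_eq_zero_of_dvd (by exact_mod_cast h)
  · intro h
    exact_mod_cast Int.dvd_of_emod_eq_zero h

lemma prim_iff_Pp {π : ZI} : PP π ↔ Pool.Agent.NH57.BK.Pp π := by
  constructor
  · intro h
    refine ⟨h.pr, (em_h2_iff π).2 h.prm.six, ?_, ?_⟩
    · rw [one_om_dvd]
      have := h.prm.three
      omega
    · rw [s7_dvd_iff]
      exact h.prm.seven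
  · intro h
    refine ⟨h.prime, ⟨(em_h2_iff π).1 h.one, ?_, ?_⟩⟩
    · have := h.odd
      rw [one_om_dvd] at this
      omega
    · have := h.sev
      rw [s7_dvd_iff] at this
      exact this

lemma tO_eq {π : ZI} (h : PP π) : tO π = Pool.Agent.NH57.BK.tO π := by
  unfold tO Pool.Agent.NH57.BK.tO
  have h6 := h.prm.six
  unfold c6 at h6
  have key : (Pool.Agent.R384.nn π) % 4 = c3 π % 4 := by
    unfold Pool.Agent.R384.nn c3
    obtain ⟨k, hk⟩ : ∃ k : ℤ, π.re = 1 - 6 * π.im + 4 * k := ⟨(π.re + 6 * π.im) / 4, by omega⟩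
    rw [hk]
    refine Int.emod_emod_of_dvd _ (dvd_refl 4) |>.symm.trans ?_
    rw [Int.emod_emod_of_dvd _ (dvd_refl 4)]
    refine Int.emod_eq_emod_iff_emod_sub_eq_zero.2 ?_
    have : (1 - 6 * π.im + 4 * k) ^ 2 + (1 - 6 * π.im + 4 * k) * π.im + 2 * π.im ^ 2 -
        (1 - 6 * π.im + 4 * k + 3 * π.im) =
        4 * (4 * k ^ 2 + 2 * k - 12 * π.im * k + 8 * π.im ^ 2 - 2 * π.im + k * π.im - k) := by
      ring
    rw [this]
    omega
  rw [key]

lemma s_eq_qs (π ρ : ZI) : s π ρ = Pool.Agent.R384.qs π ρ := by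
  have h01 : ∀ a b : ZMod 2, (a = 0 ↔ b = 0) → a = b := by decide
  apply h01
  rw [Pool.Agent.R384.qs_zero]
  unfold s qr Pool.Agent.R384.Sqm
  by_cases h1 : π ∣ ρ
  · have h2 : ∃ y : Pool.Agent.R384.OO, π ∣ ρ - y ^ 2 := ⟨0, by simpa using h1⟩
    simp [h1, h2]
  · by_cases h2 : ∃ y : Pool.Agent.R384.OO, π ∣ ρ - y ^ 2
    · simp [h1, h2]
    · simp [h1, h2]

lemma sqm_s7_iff (π : ZI) : Pool.Agent.R384.Sqm Pool.Agent.R384.s7 π ↔
    ∃ y : ZMod 7, ((c7 π : ℤ) : ZMod 7) = y ^ 2 := by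
  have h1 : ∀ x : ZI, Pool.Agent.R384.rd7 x = ((c7 x : ℤ) : ZMod 7) := by
    intro x
    rw [Pool.Agent.R384.rd7_apply]
    unfold c7; push_cast; ring
  unfold Pool.Agent.R384.Sqm
  constructor
  · rintro ⟨y, hy⟩
    refine ⟨Pool.Agent.R384.rd7 y, ?_⟩
    rw [Pool.Agent.R384.s7_dvd, map_sub, map_pow, sub_eq_zero] at hy
    rw [← h1, hy]
  · rintro ⟨y, hy⟩
    refine ⟨((y.val : ℤ) : ZI), ?_⟩
    rw [Pool.Agent.R384.s7_dvd, map_sub, map_pow, map_intCast, h1, hy, sub_eq_zero]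
    simp

lemma eO_eq {π : ZI} (h : PP π) : eO π = Pool.Agent.R384.qs Pool.Agent.R384.s7 π := by
  have h01 : ∀ a b : ZMod 2, (a = 0 ↔ b = 0) → a = b := by decide
  apply h01
  rw [Pool.Agent.R384.qs_zero, sqm_s7_iff]
  unfold eO
  have h7 := h.prm.seven
  have h8 : ((c7 π : ℤ) : ZMod 7) = ((c7 π % 7 : ℤ) : ZMod 7) := by
    rw [ZMod.intCast_eq_intCast_iff]
    exact (Int.mod_modEq _ _).symm
  rw [h8]
  have h9 : 0 ≤ c7 π % 7 := Int.emod_nonneg _ (by norm_num)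
  have h10 : c7 π % 7 < 7 := Int.emod_lt_of_pos _ (by norm_num)
  generalize c7 π % 7 = r at *
  interval_cases r
  · exact absurd rfl h7
  all_goals (simp; try decide)

lemma dO_eq {π : ZI} (h : PP π) : dO π = Pool.Agent.R384.qs π (-Pool.Agent.R384.om) := by
  have hs := (sup_BG π (prim_iff_Pp.1 h)).1
  rw [em_e6_eq] at hs
  unfold dO
  rcases hs with ⟨h1, h2⟩ | ⟨h1, h2⟩
  · rw [h2]
    have h3 : c6 π % 8 = 1 := by
      have := (cast8_iff (c6 π) 1).1 (by rw [h1]; simp)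
      simpa using this
    rw [if_neg (by omega)]
  · rw [h2]
    have h3 : c6 π % 8 = 5 := by
      have := (cast8_iff (c6 π) 5).1 (by rw [h1]; simp)
      simpa using this
    rw [if_pos h3]

lemma gO_eq {π : ZI} (h : PP π) : gO π = Pool.Agent.R384.qs π (-(1 - Pool.Agent.R384.om)) := by
  have hs := (sup_BG π (prim_iff_Pp.1 h)).2
  rw [em_e3_eq] at hs
  unfold gO
  rcases hs with ⟨h1, h2⟩ | ⟨h1, h2⟩
  · rw [h2]
    have h3 : c3 π % 8 = 1 ∨ c3 π % 8 = 7 := by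
      rcases h1 with h1 | h1
      · left
        have := (cast8_iff (c3 π) 1).1 (by rw [h1]; simp)
        simpa using this
      · right
        have := (cast8_iff (c3 π) 7).1 (by rw [h1]; simp)
        simpa using this
    rw [if_neg (by omega)]
  · rw [h2]
    have h3 : c3 π % 8 = 3 ∨ c3 π % 8 = 5 := by
      rcases h1 with h1 | h1
      · left
        have := (cast8_iff (c3 π) 3).1 (by rw [h1]; simp)
        simpa using this
      · right
        have := (cast8_iff (c3 π) 5).1 (by rw [h1]; simp)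
        simpa using this
    rw [if_pos h3]

/-- the reciprocity law, additively -/
theorem s_rec {π ρ : ZI} (h : PP π) (h' : PP ρ) (hne : π ≠ ρ) : s π ρ + s ρ π = tO π * tO ρ := by
  rw [s_eq_qs, s_eq_qs, tO_eq h, tO_eq h']
  exact rec_BK.1 π ρ (prim_iff_Pp.1 h) (prim_iff_Pp.1 h') hne

lemma sg_sum {κ : Type*} (t : Finset κ) (f : κ → ZMod 2) :
    sg (∑ i ∈ t, f i) = ∏ i ∈ t, sg (f i) := by
  classical
  induction t using Finset.induction_on with
  | empty => rw [sum_empty, prod_empty, sg_zero]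
  | insert a t ha ih => rw [sum_insert ha, prod_insert ha, sg_add, ih]

lemma tO_sum {m : ZI} (hm : PS m) : tO m = ∑ π ∈ PD m, tO π := by
  have h1 : fc (∏ π ∈ PD m, π) = ∑ π ∈ PD m, fc π :=
    fc_prod fun π hπ => ((mem_PD hm.ne).1 hπ).1.prm
  rw [hm.prod] at h1
  have h2 := congrArg Prod.fst h1
  rw [Prod.fst_sum] at h2
  exact h2

/-- the Jacobi symbol as a sign -/
lemma jac_eq_sg {m n : ZI} (hm : PS m) (hn : PS n) (hd : Disjoint (PD m) (PD n)) :
    (jac m n : ℝ) = sg (∑ π ∈ PD m, ∑ ρ ∈ PD n, s π ρ) := by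
  rw [sg_sum]
  have h1 : jac m n = ∏ π ∈ PD m, ∏ ρ ∈ PD n, qr π ρ := by
    conv_lhs => rw [← hn.prod]
    rw [jac_prod hm.ne]
    unfold jac
    rw [prod_comm]
  rw [h1]
  push_cast
  refine prod_congr rfl fun π hπ => ?_
  rw [sg_sum]
  refine prod_congr rfl fun ρ hρ => ?_
  rw [sg_s]
  intro hdv
  have h2 := PP.eq_of_dvd ((mem_PD hm.ne).1 hπ).1 ((mem_PD hn.ne).1 hρ).1 hdv
  exact Finset.disjoint_left.1 hd hπ (h2 ▸ hρ)

/-- the reciprocity law -/
theorem jac_rec {m n : ZI} (hm : PS m) (hn : PS n) :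
    (jac m n : ℝ) = jac n m * sg (tO m * tO n) := by
  by_cases hd : Disjoint (PD m) (PD n)
  · rw [jac_eq_sg hm hn hd, jac_eq_sg hn hm hd.symm, ← sg_add]
    congr 1
    rw [tO_sum hm, tO_sum hn, sum_mul_sum, sum_comm (s := PD n), ← sum_add_distrib]
    refine sum_congr rfl fun π hπ => ?_
    rw [← sum_add_distrib]
    refine sum_congr rfl fun ρ hρ => ?_
    have hne : π ≠ ρ := fun h => Finset.disjoint_left.1 hd hπ (h ▸ hρ)
    rw [← s_rec ((mem_PD hm.ne).1 hπ).1 ((mem_PD hn.ne).1 hρ).1 hne]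
    have h2 : ∀ a b : ZMod 2, a = b + (a + b) := by decide
    exact h2 _ _
  · rw [Finset.not_disjoint_iff] at hd
    obtain ⟨π, h1, h2⟩ := hd
    have h3 := (mem_PD hm.ne).1 h1
    have h4 := (mem_PD hn.ne).1 h2
    rw [jac_eq_zero hm.ne h3.1 h3.2 h4.2, jac_eq_zero hn.ne h3.1 h4.2 h3.2]
    simp

end Pool.Agent.H519.Q7
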