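import Pool.Agent.H519.Q7.Lat
import Pool.Agent.H519.Q7.Cheb
import Pool.Agent.H519.Q7.Hall
import Pool.Agent.H519.Q7.Rec
import Pool.Agent.H519.Q7.Sy

/-!
# Project Q7: imports for the tasks that use the whole interface
-/
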